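import Pool.Agent.P.MP_2cea5e_gt.II.Defs
import Pool.Agent.P.MP_2cea5e_gt.Hess

/-!
Chapter II: calculus of partial derivatives.
-/

open scoped ContDiff ComplexOrder Matrix Topology
open MeasureTheory Set Filter

noncomputable section

namespace Pool.Agent.P.MP_2cea5e_gt.II

variable {f g u : C2 → ℝ}

theorem SmC.diff (hf : SmC f) : Differentiable ℝ f := ContDiff.differentiable hf (by simp)

theorem SmC.cont (hf : SmC f) : Continuous f := ContDiff.continuous hf

theorem SmC.hfd (hf : SmC f) (z : C2) : HasFDerivAt f (fderiv ℝ f z) z :=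
  (hf.diff z).hasFDerivAt

theorem sm_add (hf : SmC f) (hg : SmC g) : SmC (f + g) := ContDiff.add hf hg
theorem sm_sub (hf : SmC f) (hg : SmC g) : SmC (f - g) := ContDiff.sub hf hg
theorem sm_mul (hf : SmC f) (hg : SmC g) : SmC (f * g) := ContDiff.mul hf hg
theorem sm_neg (hf : SmC f) : SmC (-f) := ContDiff.neg hf
theorem sm_smul (c : ℝ) (hf : SmC f) : SmC (c • f) := ContDiff.const_smul c hf
theorem sm_const (c : ℝ) : SmC fun _ => c := contDiff_const

theorem sm_sum {J : Type*} (s : Finset J) {F : J → C2 → ℝ} (h : ∀ j ∈ s, SmC (F j)) :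
    SmC fun z => ∑ j ∈ s, F j z := ContDiff.sum h

theorem pd_eq_d (a : Fin 4) (f : C2 → ℝ) : pd a f = Hess.d (dir a) f := rfl

theorem sm_pd (a : Fin 4) (hf : SmC f) : SmC (pd a f) := Hess.sm_d (dir a) hf

@[simp] theorem pdl_nil (f : C2 → ℝ) : pdl [] f = f := rfl

@[simp] theorem pdl_cons (a : Fin 4) (l : List (Fin 4)) (f : C2 → ℝ) :
    pdl (a :: l) f = pd a (pdl l f) := rfl

theorem sm_pdl (l : List (Fin 4)) (hf : SmC f) : SmC (pdl l f) := by
  induction l with
  | nil => exact hf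
  | cons a l ih => exact sm_pd a ih

theorem sm_lap (hf : SmC f) : SmC (lap f) :=
  sm_sum Finset.univ fun a _ => sm_pd a (sm_pd a hf)

theorem sm_Ee (a : Fin 4) (hf : SmC f) : SmC (Ee a f) :=
  sm_sum Finset.univ fun p _ => sm_sum Finset.univ fun q _ =>
    ContDiff.mul contDiff_const (sm_pd p (sm_pd q hf))

theorem pd_comm (a b : Fin 4) (hf : SmC f) : pd a (pd b f) = pd b (pd a f) :=
  funext fun z => Hess.d_comm (dir a) (dir b) hf z

theorem pdl_append (l l' : List (Fin 4)) (f : C2 → ℝ) : pdl (l ++ l') f = pdl l (pdl l' f) := by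
  induction l with
  | nil => rfl
  | cons a l ih => simp [ih]

theorem pdl_concat (l : List (Fin 4)) (a : Fin 4) (f : C2 → ℝ) :
    pdl (l ++ [a]) f = pdl l (pd a f) := pdl_append l [a] f

theorem pdl_pd (l : List (Fin 4)) (a : Fin 4) (hf : SmC f) :
    pdl l (pd a f) = pd a (pdl l f) := by
  induction l with
  | nil => rfl
  | cons b l ih => rw [pdl_cons, ih, pdl_cons, pd_comm b a (sm_pdl l hf)]

theorem pdl_comm (l l' : List (Fin 4)) (hf : SmC f) : pdl l (pdl l' f) = pdl l' (pdl l f) := by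
  induction l with
  | nil => rfl
  | cons a l ih => rw [pdl_cons, ih, pdl_cons, pdl_pd l' a (sm_pdl l hf)]

theorem pd_const (a : Fin 4) (c : ℝ) : pd a (fun _ => c) = fun _ => 0 := by
  funext z; simp [pd]

theorem pd_add' (a : Fin 4) (hf : SmC f) (hg : SmC g) :
    pd a (fun z => f z + g z) = fun z => pd a f z + pd a g z := by
  funext z
  have := ((hf.hfd z).fun_add (hg.hfd z)).fderiv
  simp only [pd, this, add_apply]

theorem pd_sub' (a : Fin 4) (hf : SmC f) (hg : SmC g) :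
    pd a (fun z => f z - g z) = fun z => pd a f z - pd a g z := by
  funext z
  have := ((hf.hfd z).fun_sub (hg.hfd z)).fderiv
  simp only [pd, this, sub_apply]

theorem pd_mul' (a : Fin 4) (hf : SmC f) (hg : SmC g) :
    pd a (fun z => f z * g z) = fun z => pd a f z * g z + f z * pd a g z := by
  funext z
  have := ((hf.hfd z).fun_mul (hg.hfd z)).fderiv
  simp only [pd, this, add_apply, smul_apply, smul_eq_mul]
  ring

theorem pd_cmul' (a : Fin 4) (c : ℝ) (hf : SmC f) :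
    pd a (fun z => c * f z) = fun z => c * pd a f z := by
  rw [pd_mul' a (sm_const c) hf, pd_const]
  simp

theorem pd_neg' (a : Fin 4) (f : C2 → ℝ) : pd a (fun z => -f z) = fun z => -pd a f z := by
  funext z
  simp only [pd, fderiv_fun_neg, neg_apply]

theorem pd_sum' {J : Type*} (a : Fin 4) (s : Finset J) {F : J → C2 → ℝ}
    (h : ∀ j ∈ s, SmC (F j)) :
    pd a (fun z => ∑ j ∈ s, F j z) = fun z => ∑ j ∈ s, pd a (F j) z := by
  funext z
  have := (HasFDerivAt.fun_sum fun j hj => (h j hj).hfd z).fderiv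
  simp only [pd, this, sum_apply]

theorem pd_inv' (a : Fin 4) (hf : SmC f) (h0 : ∀ z, f z ≠ 0) :
    pd a (fun z => (f z)⁻¹) = fun z => -(pd a f z * (f z)⁻¹ * (f z)⁻¹) := by
  funext z
  have := ((hasDerivAt_inv (h0 z)).comp_hasFDerivAt z (hf.hfd z)).fderiv
  have e : (fun z => (f z)⁻¹) = (fun y : ℝ => y⁻¹) ∘ f := rfl
  simp only [pd, e, this, smul_apply, smul_eq_mul]
  have := h0 z
  field_simp

theorem pd_log' (a : Fin 4) (hf : SmC f) (h0 : ∀ z, f z ≠ 0) :
    pd a (fun z => Real.log (f z)) = fun z => pd a f z * (f z)⁻¹ := by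
  funext z
  have := ((hf.hfd z).log (h0 z)).fderiv
  simp only [pd, this, smul_apply, smul_eq_mul]
  ring

theorem pd_pow' (a : Fin 4) (n : ℕ) (hf : SmC f) :
    pd a (fun z => f z ^ n) = fun z => n * f z ^ (n - 1) * pd a f z := by
  funext z
  have := ((hasDerivAt_pow n (f z)).comp_hasFDerivAt z (hf.hfd z)).fderiv
  have e : (fun z => f z ^ n) = (fun y : ℝ => y ^ n) ∘ f := rfl
  simp only [pd, e, this, smul_apply, smul_eq_mul]

theorem pd_add (a : Fin 4) (hf : SmC f) (hg : SmC g) : pd a (f + g) = pd a f + pd a g :=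
  pd_add' a hf hg

theorem pd_sub (a : Fin 4) (hf : SmC f) (hg : SmC g) : pd a (f - g) = pd a f - pd a g :=
  pd_sub' a hf hg

theorem pd_mul (a : Fin 4) (hf : SmC f) (hg : SmC g) :
    pd a (f * g) = pd a f * g + f * pd a g := pd_mul' a hf hg

theorem pd_smul (a : Fin 4) (c : ℝ) (hf : SmC f) : pd a (c • f) = c • pd a f := pd_cmul' a c hf

theorem pd_neg (a : Fin 4) (f : C2 → ℝ) : pd a (-f) = -pd a f := pd_neg' a f

theorem pdl_add' (l : List (Fin 4)) (hf : SmC f) (hg : SmC g) :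
    pdl l (fun z => f z + g z) = fun z => pdl l f z + pdl l g z := by
  induction l with
  | nil => rfl
  | cons a l ih => rw [pdl_cons, ih, pd_add' a (sm_pdl l hf) (sm_pdl l hg)]; rfl

theorem pdl_sub' (l : List (Fin 4)) (hf : SmC f) (hg : SmC g) :
    pdl l (fun z => f z - g z) = fun z => pdl l f z - pdl l g z := by
  induction l with
  | nil => rfl
  | cons a l ih => rw [pdl_cons, ih, pd_sub' a (sm_pdl l hf) (sm_pdl l hg)]; rfl

theorem pdl_cmul' (l : List (Fin 4)) (c : ℝ) (hf : SmC f) :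
    pdl l (fun z => c * f z) = fun z => c * pdl l f z := by
  induction l with
  | nil => rfl
  | cons a l ih => rw [pdl_cons, ih, pd_cmul' a c (sm_pdl l hf)]; rfl

theorem pdl_neg' (l : List (Fin 4)) (f : C2 → ℝ) :
    pdl l (fun z => -f z) = fun z => -pdl l f z := by
  induction l with
  | nil => rfl
  | cons a l ih => rw [pdl_cons, ih, pd_neg' a]; rfl

theorem pdl_sum' {J : Type*} (l : List (Fin 4)) (s : Finset J) {F : J → C2 → ℝ}
    (h : ∀ j ∈ s, SmC (F j)) :
    pdl l (fun z => ∑ j ∈ s, F j z) = fun z => ∑ j ∈ s, pdl l (F j) z := by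
  induction l with
  | nil => rfl
  | cons a l ih => rw [pdl_cons, ih, pd_sum' a s fun j hj => sm_pdl l (h j hj)]; rfl

theorem pdl_zero (l : List (Fin 4)) : pdl l (fun _ => 0) = fun _ => 0 := by
  induction l with
  | nil => rfl
  | cons a l ih => rw [pdl_cons, ih, pd_const]

theorem pdl_const {l : List (Fin 4)} (hl : l ≠ []) (c : ℝ) : pdl l (fun _ => c) = fun _ => 0 := by
  obtain ⟨l', a, rfl⟩ := List.eq_nil_or_concat l |>.resolve_left hl
  rw [List.concat_eq_append, pdl_concat, pd_const, pdl_zero]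

theorem pdl_add (l : List (Fin 4)) (hf : SmC f) (hg : SmC g) :
    pdl l (f + g) = pdl l f + pdl l g := pdl_add' l hf hg

theorem pdl_sub (l : List (Fin 4)) (hf : SmC f) (hg : SmC g) :
    pdl l (f - g) = pdl l f - pdl l g := pdl_sub' l hf hg

theorem pdl_smul (l : List (Fin 4)) (c : ℝ) (hf : SmC f) : pdl l (c • f) = c • pdl l f :=
  pdl_cmul' l c hf

theorem pdl_lap (l : List (Fin 4)) (hf : SmC f) : pdl l (lap f) = lap (pdl l f) := by
  unfold lap
  rw [pdl_sum' l Finset.univ fun a _ => sm_pd a (sm_pd a hf)]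
  funext z
  refine Finset.sum_congr rfl fun a _ => ?_
  rw [pdl_pd l a (sm_pd a hf), pdl_pd l a hf]

theorem pdl_Ee (l : List (Fin 4)) (a : Fin 4) (hf : SmC f) : pdl l (Ee a f) = Ee a (pdl l f) := by
  unfold Ee
  rw [pdl_sum' l Finset.univ fun p _ => sm_sum Finset.univ fun q _ =>
    ContDiff.mul contDiff_const (sm_pd p (sm_pd q hf))]
  funext z
  refine Finset.sum_congr rfl fun p _ => ?_
  rw [pdl_sum' l Finset.univ fun q _ => ContDiff.mul contDiff_const (sm_pd p (sm_pd q hf))]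
  refine Finset.sum_congr rfl fun q _ => ?_
  rw [pdl_cmul' l _ (sm_pd p (sm_pd q hf)), pdl_pd l p (sm_pd q hf), pdl_pd l q hf]

theorem pd_lap (a : Fin 4) (hf : SmC f) : pd a (lap f) = lap (pd a f) := pdl_lap [a] hf

theorem pd_Ee (b a : Fin 4) (hf : SmC f) : pd b (Ee a f) = Ee a (pd b f) := pdl_Ee [b] a hf

/-- The bi-Laplacian in divergence form. -/
theorem lap_lap (hf : SmC f) :
    lap (lap f) = fun z => ∑ p, ∑ q, pd p (pd q (pd p (pd q f))) z := by
  funext z
  have h : ∀ p, pd p (pd p (lap f)) = lap (pd p (pd p f)) := fun p => pdl_lap [p, p] hf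
  refine Finset.sum_congr rfl fun p _ => ?_
  rw [h p]
  refine Finset.sum_congr rfl fun q _ => ?_
  rw [pd_comm q p (sm_pd p hf), pd_comm q p hf, pd_comm q p (sm_pd p (sm_pd q hf))]

theorem Ee_zero (u : C2 → ℝ) (z : C2) :
    Ee 0 u z = (pd 0 (pd 0 u) z + pd 1 (pd 1 u) z) / 4 := by
  simp [Ee, ec, Fin.sum_univ_four]; ring

theorem Ee_one (u : C2 → ℝ) (z : C2) :
    Ee 1 u z = (pd 2 (pd 2 u) z + pd 3 (pd 3 u) z) / 4 := by
  simp [Ee, ec, Fin.sum_univ_four]; ring

theorem Ee_two (u : C2 → ℝ) (z : C2) :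
    Ee 2 u z = (pd 0 (pd 2 u) z + pd 1 (pd 3 u) z) / 4 := by
  simp [Ee, ec, Fin.sum_univ_four]; ring

theorem Ee_three (u : C2 → ℝ) (z : C2) :
    Ee 3 u z = (pd 0 (pd 3 u) z - pd 1 (pd 2 u) z) / 4 := by
  simp [Ee, ec, Fin.sum_univ_four]; ring

theorem lap_eq (u : C2 → ℝ) (z : C2) : lap u z = 4 * (Ee 0 u z + Ee 1 u z) := by
  rw [Ee_zero, Ee_one, lap, Fin.sum_univ_four]; ring

theorem abs_ec_le (a p q : Fin 4) : |ec a p q| ≤ 1 / 4 := by
  fin_cases a <;> fin_cases p <;> fin_cases q <;> simp [ec]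

theorem sum_ec_sq (a : Fin 4) : ∑ p, ∑ q, ec a p q ^ 2 = 1 / 8 := by
  fin_cases a <;> simp [ec, Fin.sum_univ_four] <;> norm_num

/-! ### Locality -/

theorem pd_congr (a : Fin 4) {z : C2} (h : f =ᶠ[𝓝 z] g) : pd a f =ᶠ[𝓝 z] pd a g := by
  filter_upwards [h.eventuallyEq_nhds] with y hy
  simp only [pd, hy.fderiv_eq]

theorem pdl_congr (l : List (Fin 4)) {z : C2} (h : f =ᶠ[𝓝 z] g) : pdl l f =ᶠ[𝓝 z] pdl l g := by
  induction l with
  | nil => exact h
  | cons a l ih => exact pd_congr a ih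

theorem pdl_congr_open (l : List (Fin 4)) {U : Set C2} (hU : IsOpen U) (h : EqOn f g U) :
    EqOn (pdl l f) (pdl l g) U := fun _ hz =>
  (pdl_congr l (h.eventuallyEq_of_mem (hU.mem_nhds hz))).eq_of_nhds

/-! ### Coordinates -/

theorem norm_dir (a : Fin 4) : ‖dir a‖ = 1 := by
  fin_cases a <;> simp [dir, Pi.norm_single]

theorem abs_co_le (a : Fin 4) (v : C2) : |co a v| ≤ ‖v‖ := by
  fin_cases a
  · exact (Complex.abs_re_le_norm _).trans (norm_le_pi_norm v 0)
  · exact (Complex.abs_im_le_norm _).trans (norm_le_pi_norm v 0)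
  · exact (Complex.abs_re_le_norm _).trans (norm_le_pi_norm v 1)
  · exact (Complex.abs_im_le_norm _).trans (norm_le_pi_norm v 1)

theorem sum_co_dir (v : C2) : ∑ a, co a v • dir a = v := by
  funext j
  fin_cases j <;> simp [Fin.sum_univ_four, co, dir]

theorem co_dir (a b : Fin 4) : co a (dir b) = if a = b then 1 else 0 := by
  fin_cases a <;> fin_cases b <;> simp [co, dir]

theorem fderiv_apply (f : C2 → ℝ) (z v : C2) : fderiv ℝ f z v = ∑ a, co a v * pd a f z := by
  conv_lhs => rw [← sum_co_dir v]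
  simp only [map_sum, map_smul, smul_eq_mul, pd]

theorem fderiv_eq_sum (f : C2 → ℝ) (z : C2) : fderiv ℝ f z = ∑ a, pd a f z • co a := by
  ext v
  rw [fderiv_apply]
  simp only [sum_apply, smul_apply, smul_eq_mul, mul_comm]

theorem hasDerivAt_line (hf : SmC f) (a : Fin 4) (z : C2) (s : ℝ) :
    HasDerivAt (fun r : ℝ => f (z + r • dir a)) (pd a f (z + s • dir a)) s := by
  have h : HasDerivAt (fun r : ℝ => z + r • dir a) (dir a) s := by
    simpa using ((hasDerivAt_id s).smul_const (dir a)).const_add z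
  exact (hf.hfd _).comp_hasDerivAt s h

/-! ### Sums over words -/

theorem sum_succ {n : ℕ} (φ : List (Fin 4) → ℝ) :
    ∑ l : Fin (n + 1) → Fin 4, φ (List.ofFn l) =
      ∑ l : Fin n → Fin 4, ∑ a, φ (a :: List.ofFn l) := by
  rw [← (Fin.consEquiv fun _ : Fin (n + 1) => Fin 4).sum_comp, Fintype.sum_prod_type_right]
  simp [Fin.consEquiv, List.ofFn_succ]

theorem sum_append {n : ℕ} (i : ℕ) (φ : List (Fin 4) → ℝ) :
    ∑ l : Fin n → Fin 4, ∑ l' : Fin i → Fin 4, φ (List.ofFn l' ++ List.ofFn l) =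
      ∑ l : Fin (n + i) → Fin 4, φ (List.ofFn l) := by
  induction i generalizing φ with
  | zero => simp
  | succ i ih =>
    rw [← add_assoc, sum_succ, ← ih fun l => ∑ a, φ (a :: l)]
    refine Finset.sum_congr rfl fun l _ => ?_
    rw [sum_succ fun l' => φ (l' ++ List.ofFn l)]
    rfl

theorem ns_nonneg (n : ℕ) (u : C2 → ℝ) (z : C2) : 0 ≤ ns n u z :=
  Finset.sum_nonneg fun _ _ => sq_nonneg _

theorem ns_zero (u : C2 → ℝ) (z : C2) : ns 0 u z = u z ^ 2 := by simp [ns]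

theorem ns_succ (n : ℕ) (u : C2 → ℝ) (z : C2) :
    ns (n + 1) u z = ∑ l : Fin n → Fin 4, ∑ a, pd a (pdl (List.ofFn l) u) z ^ 2 :=
  sum_succ fun l => pdl l u z ^ 2

theorem ns_one (u : C2 → ℝ) (z : C2) : ns 1 u z = ∑ a, pd a u z ^ 2 := by
  rw [ns_succ]; simp

theorem ns_two (u : C2 → ℝ) (z : C2) : ns 2 u z = ∑ p, ∑ q, pd p (pd q u) z ^ 2 := by
  rw [ns_succ, sum_succ fun l => ∑ a, pd a (pdl l u) z ^ 2]
  simp only [Finset.univ_unique, Finset.sum_singleton, List.ofFn_zero, pdl_cons, pdl_nil]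
  exact Finset.sum_comm

theorem sum_ns (n i : ℕ) (u : C2 → ℝ) (z : C2) :
    ∑ l : Fin n → Fin 4, ns i (pdl (List.ofFn l) u) z = ns (n + i) u z := by
  simp only [ns, ← pdl_append]
  exact sum_append i fun l => pdl l u z ^ 2

theorem sq_le_ns (l : List (Fin 4)) (u : C2 → ℝ) (z : C2) : pdl l u z ^ 2 ≤ ns l.length u z := by
  have := Finset.single_le_sum (f := fun l' : Fin l.length → Fin 4 => pdl (List.ofFn l') u z ^ 2)
    (fun _ _ => sq_nonneg _) (Finset.mem_univ l.get)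
  rwa [List.ofFn_get] at this

theorem ns_pdl_le (i : ℕ) (l : List (Fin 4)) (u : C2 → ℝ) (z : C2) :
    ns i (pdl l u) z ≤ ns (l.length + i) u z := by
  rw [← sum_ns]
  have := Finset.single_le_sum
    (f := fun l' : Fin l.length → Fin 4 => ns i (pdl (List.ofFn l') u) z)
    (fun _ _ => ns_nonneg _ _ _) (Finset.mem_univ l.get)
  rwa [List.ofFn_get] at this

theorem ns_le {n : ℕ} {z : C2} {B : ℝ} (h : ∀ l : List (Fin 4), l.length = n → pdl l u z ^ 2 ≤ B) :
    ns n u z ≤ 4 ^ n * B := by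
  have := Finset.sum_le_card_nsmul Finset.univ
    (fun l : Fin n → Fin 4 => pdl (List.ofFn l) u z ^ 2) B fun l _ => h _ (by simp)
  simpa [ns] using this

theorem sm_ns (n : ℕ) (hu : SmC u) : SmC (ns n u) :=
  sm_sum Finset.univ fun l _ => ContDiff.pow (sm_pdl (List.ofFn l) hu) 2

theorem NN_nonneg (n : ℕ) (f : C2 → ℝ) (z : C2) : 0 ≤ NN n f z :=
  Finset.sum_nonneg fun _ _ => ns_nonneg _ _ _

theorem ns_le_NN (n : ℕ) (a : Fin 4) (f : C2 → ℝ) (z : C2) : ns n (Ee a f) z ≤ NN n f z :=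
  Finset.single_le_sum (f := fun a => ns n (Ee a f) z) (fun _ _ => ns_nonneg _ _ _)
    (Finset.mem_univ a)

theorem sq_le_NN (l : List (Fin 4)) (a : Fin 4) (f : C2 → ℝ) (z : C2) :
    pdl l (Ee a f) z ^ 2 ≤ NN l.length f z := (sq_le_ns l _ z).trans (ns_le_NN _ a f z)

theorem sm_NN (n : ℕ) (hf : SmC f) : SmC (NN n f) :=
  sm_sum Finset.univ fun a _ => sm_ns n (sm_Ee a hf)

end Pool.Agent.P.MP_2cea5e_gt.II
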