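import Pool.Agent.P.MP_2cea5e_gt.II.Basic

/-!
Chapter II: partial derivatives versus `iteratedFDeriv`, Leibniz bound, interpolation.
-/

open scoped ContDiff ComplexOrder Matrix Topology
open MeasureTheory Set Filter

noncomputable section

namespace Pool.Agent.P.MP_2cea5e_gt.II

theorem pdl_eq_ifd {f : C2 → ℝ} (hf : SmC f) {n : ℕ} (l : Fin n → Fin 4) (z : C2) :
    pdl (List.ofFn l) f z = iteratedFDeriv ℝ n f z fun i => dir (l i) := by
  induction n generalizing z with
  | zero => simp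
  | succ n ih =>
    have h1 : pdl (List.ofFn fun i : Fin n => l i.succ) f =
        fun y => iteratedFDeriv ℝ n f y fun i => dir (l i.succ) := funext fun y => ih _ y
    have h2 : DifferentiableAt ℝ (iteratedFDeriv ℝ n f) z :=
      (hf.differentiable_iteratedFDeriv (m := n) (by exact_mod_cast ENat.natCast_lt_top n)) z
    rw [List.ofFn_succ, pdl_cons, h1, iteratedFDeriv_succ_apply_left]
    exact fderiv_continuousMultilinear_apply_const_apply h2 _ _

theorem abs_pdl_le {f : C2 → ℝ} (hf : SmC f) (l : List (Fin 4)) (z : C2) :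
    |pdl l f z| ≤ ‖iteratedFDeriv ℝ l.length f z‖ := by
  have h := pdl_eq_ifd hf l.get z
  rw [List.ofFn_get] at h
  rw [h, ← Real.norm_eq_abs]
  refine ((iteratedFDeriv ℝ l.length f z).le_opNorm _).trans ?_
  simp [norm_dir]

theorem norm_ifd_le {f : C2 → ℝ} (hf : SmC f) {n : ℕ} {z : C2} {B : ℝ}
    (h : ∀ l : List (Fin 4), l.length = n → |pdl l f z| ≤ B) :
    ‖iteratedFDeriv ℝ n f z‖ ≤ 4 ^ n * B := by
  have hB : 0 ≤ B := (abs_nonneg _).trans (h (List.replicate n 0) (by simp))
  refine ContinuousMultilinearMap.opNorm_le_bound (by positivity) fun v => ?_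
  have h1 : v = fun i => ∑ a, co a (v i) • dir a := funext fun i => (sum_co_dir _).symm
  have h2 : iteratedFDeriv ℝ n f z v = ∑ l : Fin n → Fin 4,
      (∏ i, co (l i) (v i)) * pdl (List.ofFn l) f z := by
    conv_lhs => rw [h1]
    rw [ContinuousMultilinearMap.map_sum]
    refine Finset.sum_congr rfl fun l _ => ?_
    rw [ContinuousMultilinearMap.map_smul_univ, pdl_eq_ifd hf, smul_eq_mul]
  rw [h2, Real.norm_eq_abs]
  refine (Finset.abs_sum_le_sum_abs _ _).trans ?_
  have h3 : ∀ l : Fin n → Fin 4, |(∏ i, co (l i) (v i)) * pdl (List.ofFn l) f z| ≤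
      B * ∏ i, ‖v i‖ := by
    intro l
    rw [abs_mul, Finset.abs_prod, mul_comm]
    exact mul_le_mul (h _ (by simp)) (Finset.prod_le_prod (fun i _ => abs_nonneg _)
      fun i _ => abs_co_le _ _) (Finset.prod_nonneg fun i _ => abs_nonneg _) hB
  refine (Finset.sum_le_sum fun l _ => h3 l).trans (le_of_eq ?_)
  simp [mul_assoc]

/-- Leibniz bound. -/
theorem leib_bound {u v : C2 → ℝ} (hu : SmC u) (hv : SmC v) {z : C2} {n : ℕ} {A B : ℝ}
    (hA : ∀ l : List (Fin 4), l.length ≤ n → |pdl l u z| ≤ A)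
    (hB : ∀ l : List (Fin 4), l.length ≤ n → |pdl l v z| ≤ B) (l : List (Fin 4))
    (hl : l.length ≤ n) : |pdl l (fun y => u y * v y) z| ≤ 2 ^ l.length * A * B := by
  induction l using List.reverseRecOn generalizing u v n with
  | nil =>
    simp only [pdl_nil, List.length_nil, pow_zero, one_mul, abs_mul]
    exact mul_le_mul (hA [] (Nat.zero_le _)) (hB [] (Nat.zero_le _)) (abs_nonneg _)
      ((abs_nonneg _).trans (hA [] (Nat.zero_le _)))
  | append_singleton l a ih =>
    rw [List.length_append, List.length_singleton] at hl ⊢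
    have hs : ∀ {w : C2 → ℝ} {C : ℝ}, (∀ l : List (Fin 4), l.length ≤ n → |pdl l w z| ≤ C) →
        (∀ l' : List (Fin 4), l'.length ≤ l.length → |pdl l' w z| ≤ C) ∧
        ∀ l' : List (Fin 4), l'.length ≤ l.length → |pdl l' (pd a w) z| ≤ C :=
      fun h => ⟨fun l' hl' => h l' (by omega), fun l' hl' => by
        rw [← pdl_concat]
        exact h _ (by rw [List.length_append, List.length_singleton]; omega)⟩
    have h1 := ih (sm_pd a hu) hv (hs hA).2 (hs hB).1 le_rfl
    have h2 := ih hu (sm_pd a hv) (hs hA).1 (hs hB).2 le_rfl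
    rw [pdl_concat, pd_mul' a hu hv, pdl_add' l ((sm_pd a hu).mul hv) (hu.mul (sm_pd a hv))]
    refine (abs_add_le _ _).trans ?_
    rw [pow_succ]
    linarith

theorem pdl_shift (l : List (Fin 4)) (u : C2 → ℝ) (z₀ : C2) :
    pdl l (fun y => u (z₀ + y)) = fun y => pdl l u (z₀ + y) := by
  induction l with
  | nil => rfl
  | cons a l ih =>
    rw [pdl_cons, ih]
    funext y
    exact congrArg (fun L : C2 →L[ℝ] ℝ => L (dir a)) (fderiv_comp_add_left z₀)

theorem pdl_scale (l : List (Fin 4)) {u : C2 → ℝ} (hu : SmC u) (z₀ : C2) (lam : ℝ) :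
    pdl l (fun y => u (z₀ + lam • y)) = fun y => lam ^ l.length * pdl l u (z₀ + lam • y) := by
  have hA : ∀ y, HasFDerivAt (fun y : C2 => z₀ + lam • y) (lam • ContinuousLinearMap.id ℝ C2) y :=
    fun y => ((hasFDerivAt_id y).const_smul lam).const_add z₀
  have hsm : ContDiff ℝ ∞ fun y : C2 => z₀ + lam • y :=
    contDiff_const.add (contDiff_id.const_smul lam)
  induction l with
  | nil => simp
  | cons a l ih =>
    have h0 : SmC fun y => pdl l u (z₀ + lam • y) := (sm_pdl l hu).comp hsm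
    rw [pdl_cons, ih, pd_cmul' a _ h0]
    funext y
    have h1 := (((sm_pdl l hu).hfd (z₀ + lam • y)).comp y (hA y)).fderiv
    have h2 : pd a (fun y => pdl l u (z₀ + lam • y)) y = lam * pd a (pdl l u) (z₀ + lam • y) := by
      change fderiv ℝ (pdl l u ∘ fun y => z₀ + lam • y) y (dir a) =
        lam * fderiv ℝ (pdl l u) (z₀ + lam • y) (dir a)
      rw [h1]
      simp
    rw [h2, List.length_cons, pow_succ, pdl_cons, mul_assoc]

/-- One dimensional interpolation along a coordinate line. -/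
theorem interp1 {u : C2 → ℝ} (hu : SmC u) (a : Fin 4) (z : C2) {s A B : ℝ} (hs : 0 < s)
    (hA : ∀ r ∈ Icc 0 s, |u (z + r • dir a)| ≤ A)
    (hB : ∀ r ∈ Icc 0 s, |pd a (pd a u) (z + r • dir a)| ≤ B) :
    |pd a u z| ≤ 2 * A / s + s * B := by
  obtain ⟨c, hc, h1⟩ := exists_hasDerivAt_eq_slope (fun r : ℝ => u (z + r • dir a))
    (fun r => pd a u (z + r • dir a)) hs
    (fun r _ => (hasDerivAt_line hu a z r).continuousAt.continuousWithinAt)
    fun r _ => hasDerivAt_line hu a z r
  obtain ⟨d, hd, h2⟩ := exists_hasDerivAt_eq_slope (fun r : ℝ => pd a u (z + r • dir a))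
    (fun r => pd a (pd a u) (z + r • dir a)) hc.1
    (fun r _ => (hasDerivAt_line (sm_pd a hu) a z r).continuousAt.continuousWithinAt)
    fun r _ => hasDerivAt_line (sm_pd a hu) a z r
  have a0 := abs_le.1 (hA 0 ⟨le_rfl, hs.le⟩)
  have a1 := abs_le.1 (hA s ⟨hs.le, le_rfl⟩)
  have b1 := hB d ⟨hd.1.le, hd.2.le.trans hc.2.le⟩
  have hB0 : 0 ≤ B := (abs_nonneg _).trans b1
  rw [sub_zero] at h1 h2
  have e1 : |pd a u (z + c • dir a)| ≤ 2 * A / s := by
    rw [h1, abs_div, abs_of_pos hs]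
    exact div_le_div_of_nonneg_right (abs_le.2 ⟨by linarith [a0.2, a1.1], by linarith [a0.1, a1.2]⟩)
      hs.le
  have e2 : pd a u z = pd a u (z + c • dir a) - c * pd a (pd a u) (z + d • dir a) := by
    rw [h2, mul_div_cancel₀ _ hc.1.ne', zero_smul, add_zero]
    ring
  have e3 : |c * pd a (pd a u) (z + d • dir a)| ≤ s * B := by
    rw [abs_mul, abs_of_pos hc.1]
    exact mul_le_mul hc.2.le b1 (abs_nonneg _) hs.le
  rw [e2]
  exact (abs_sub _ _).trans (add_le_add e1 e3)

/-- Small function with bounded derivatives has small derivatives. -/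
theorem interp (n : ℕ) (B ε r : ℝ) (hε : 0 < ε) (hr : 0 < r) : ∃ δ : ℝ, 0 < δ ∧
    ∀ h : C2 → ℝ, SmC h → (∀ z ∈ Metric.ball (0 : C2) r, |h z| ≤ δ) →
      (∀ l : List (Fin 4), l.length ≤ n + 1 → ∀ z ∈ Metric.ball (0 : C2) r, |pdl l h z| ≤ B) →
      ∀ l : List (Fin 4), l.length ≤ n → ∀ z ∈ Metric.ball (0 : C2) (r / 2 ^ n),
        |pdl l h z| ≤ ε := by
  induction n generalizing ε with
  | zero =>
    refine ⟨ε, hε, fun h _ h1 _ l hl z hz => ?_⟩
    rw [List.length_eq_zero_iff.1 (Nat.le_zero.1 hl)]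
    exact h1 z (by simpa using hz)
  | succ n ih =>
    set s := min (r / 2 ^ (n + 1)) (ε / (2 * (|B| + 1))) with hs
    have hs0 : 0 < s := lt_min (by positivity) (by positivity)
    have hs1 : s ≤ r / 2 ^ (n + 1) := min_le_left _ _
    have hs2 : s * B ≤ ε / 2 := by
      have k1 : s * (2 * (|B| + 1)) ≤ ε := (le_div_iff₀ (by positivity)).1 (min_le_right _ _)
      nlinarith [le_abs_self B]
    obtain ⟨δ, hδ, hih⟩ := ih (min ε (ε * s / 4)) (lt_min hε (by positivity))
    refine ⟨δ, hδ, fun h hsm h1 h2 l hl z hz => ?_⟩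
    have h3 := hih h hsm h1 fun l hl => h2 l (by omega)
    have e1 : r / 2 ^ (n + 1) + r / 2 ^ (n + 1) = r / 2 ^ n := by
      rw [pow_succ]; field_simp; ring
    have e2 : r / 2 ^ n ≤ r := div_le_self hr.le (one_le_pow₀ (by norm_num))
    have hmem : ∀ a, ∀ t ∈ Icc (0 : ℝ) s, z + t • dir a ∈ Metric.ball (0 : C2) (r / 2 ^ n) := by
      intro a t ht
      rw [mem_ball_zero_iff] at hz ⊢
      have := norm_add_le z (t • dir a)
      rw [norm_smul, norm_dir, Real.norm_eq_abs, abs_of_nonneg ht.1] at this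
      linarith [ht.2]
    cases l with
    | nil =>
      refine (h3 [] (Nat.zero_le _) z ?_).trans (min_le_left _ _)
      simpa using hmem 0 0 ⟨le_rfl, hs0.le⟩
    | cons a l =>
      rw [List.length_cons] at hl
      have h4 := interp1 (sm_pdl l hsm) a z (B := B) hs0
        (fun t ht => (h3 l (by omega) _ (hmem a t ht)).trans (min_le_right _ _))
        fun t ht => h2 (a :: a :: l) (by simp only [List.length_cons]; omega) _
          (Metric.ball_subset_ball e2 (hmem a t ht))
      have e3 : 2 * (ε * s / 4) / s = ε / 2 := by field_simp; ring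
      rw [pdl_cons]
      linarith

end Pool.Agent.P.MP_2cea5e_gt.II
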