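import Pool.Agent.P.MP_2cea5e_gt.II.JS
import Pool.Agent.P.MP_2cea5e_gt.II.Basic

/-!
Chapter II: closure properties of the classes `JC` and `Cl`.
-/

open scoped ContDiff ComplexOrder Matrix Topology
open MeasureTheory Set Filter

noncomputable section

namespace Pool.Agent.P.MP_2cea5e_gt.II

variable {S S' : Set ℝ} {F G : ℝ → C2 → ℝ}

theorem JC.mono (h : JC S F) (hS : S' ⊆ S) : JC S' F :=
  ContinuousOn.mono h (prod_mono hS le_rfl)

theorem JC.congr (h : JC S F) (e : ∀ t ∈ S, G t = F t) : JC S G :=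
  ContinuousOn.congr h fun q hq => by simp only [e q.1 hq.1]

theorem JC.add (hF : JC S F) (hG : JC S G) : JC S fun t z => F t z + G t z :=
  ContinuousOn.add hF hG

theorem JC.sub (hF : JC S F) (hG : JC S G) : JC S fun t z => F t z - G t z :=
  ContinuousOn.sub hF hG

theorem JC.mul (hF : JC S F) (hG : JC S G) : JC S fun t z => F t z * G t z :=
  ContinuousOn.mul hF hG

theorem JC.pow (hF : JC S F) (n : ℕ) : JC S fun t z => F t z ^ n :=
  ContinuousOn.pow hF n

theorem JC.sum {J : Type*} (s : Finset J) {H : J → ℝ → C2 → ℝ} (h : ∀ j ∈ s, JC S (H j)) :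
    JC S fun t z => ∑ j ∈ s, H j t z :=
  continuousOn_finsetSum s h

theorem jc_const {u : C2 → ℝ} (hu : Continuous u) : JC S fun _ => u :=
  (hu.comp continuous_snd).continuousOn

theorem jc_time {χ : ℝ → ℝ} (h : ContinuousOn χ S) : JC S fun t _ => χ t :=
  h.comp continuousOn_fst fun _ hq => hq.1

theorem JC.space (h : JC S F) {t : ℝ} (ht : t ∈ S) : Continuous (F t) :=
  ContinuousOn.comp_continuous (f := fun z : C2 => (t, z)) h (by fun_prop) fun _ => ⟨ht, mem_univ _⟩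

theorem JC.time (h : JC S F) (z : C2) : ContinuousOn (fun t => F t z) S :=
  JS.cont_time h z

theorem JC.bound (h : JC S F) (hS : IsCompact S) (R : ℝ) :
    ∃ C : ℝ, 0 ≤ C ∧ ∀ t ∈ S, ∀ z, ‖z‖ ≤ R → |F t z| ≤ C := by
  obtain ⟨C, hC⟩ := (hS.prod (isCompact_closedBall (0 : C2) R)).exists_bound_of_continuousOn
    (ContinuousOn.mono h (prod_mono le_rfl (subset_univ _)))
  exact ⟨max C 0, le_max_right _ _, fun t ht z hz =>
    le_max_of_le_left (hC (t, z) ⟨ht, by simpa using hz⟩)⟩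

theorem JC.comp_time (h : JC S F) {θ : ℝ → ℝ} (hθ : ContinuousOn θ S') (hm : MapsTo θ S' S) :
    JC S' fun t => F (θ t) :=
  ContinuousOn.comp (f := fun q : ℝ × C2 => (θ q.1, q.2)) h
    ((hθ.comp continuousOn_fst fun _ hq => hq.1).prodMk continuousOn_snd)
    fun _ hq => ⟨hm hq.1, mem_univ _⟩

theorem JC.union (h : JC S F) (h' : JC S' F) (h1 : ∀ t ∈ S', t ∈ closure S → t ∈ S)
    (h2 : ∀ t ∈ S, t ∈ closure S' → t ∈ S') : JC (S ∪ S') F := by
  have key : ∀ {A : Set ℝ}, JC A F → ∀ q : ℝ × C2, (q.1 ∈ closure A → q.1 ∈ A) →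
      ContinuousWithinAt (fun q : ℝ × C2 => F q.1 q.2) (A ×ˢ univ) q := fun {A} hA q hq => by
    by_cases hc : q.1 ∈ closure A
    · exact hA q ⟨hq hc, mem_univ _⟩
    · refine continuousWithinAt_of_notMem_closure fun h => hc ?_
      rw [closure_prod_eq] at h
      exact h.1
  intro q hq
  rw [union_prod]
  refine (key h q fun hc => ?_).union (key h' q fun hc => ?_)
  · exact hq.1.elim id fun h3 => h1 _ h3 hc
  · exact hq.1.elim (fun h3 => h2 _ h3 hc) id

theorem cl_jc (h : Cl S F) : JC S F := h.cont []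

theorem cl_jc_pdl (h : Cl S F) (l : List (Fin 4)) : JC S fun t => pdl l (F t) := h.cont l

theorem cl_mono (h : Cl S F) (hS : S' ⊆ S) : Cl S' F :=
  ⟨fun t ht => h.sm t (hS ht), fun l => (cl_jc_pdl h l).mono hS⟩

theorem cl_congr (h : Cl S F) (e : ∀ t ∈ S, G t = F t) : Cl S G :=
  ((JS.cj_zero.2 h).congr e).cl

theorem cl_pdl (h : Cl S F) (l : List (Fin 4)) : Cl S fun t => pdl l (F t) :=
  ((JS.cj_zero.2 h).pdl l).cl

theorem cl_pd (h : Cl S F) (a : Fin 4) : Cl S fun t => pd a (F t) := cl_pdl h [a]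

theorem cl_add (hF : Cl S F) (hG : Cl S G) : Cl S fun t z => F t z + G t z :=
  ((JS.cj_zero.2 hF).add (JS.cj_zero.2 hG)).cl

theorem cl_sub (hF : Cl S F) (hG : Cl S G) : Cl S fun t z => F t z - G t z :=
  cl_congr ((JS.cj_zero.2 hF).add ((JS.cj_const (-1)).mul (JS.cj_zero.2 hG))).cl fun t _ => by
    funext z; ring

theorem cl_cmul (c : ℝ) (hF : Cl S F) : Cl S fun t z => c * F t z :=
  ((JS.cj_const c).mul (JS.cj_zero.2 hF)).cl

theorem cl_sum {J : Type*} (s : Finset J) {H : J → ℝ → C2 → ℝ} (h : ∀ j ∈ s, Cl S (H j)) :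
    Cl S fun t z => ∑ j ∈ s, H j t z := by
  classical
  induction s using Finset.induction_on with
  | empty => simpa using (JS.cj_const (j := 0) (S := S) 0).cl
  | insert a s ha ih =>
    simp only [Finset.sum_insert ha]
    exact cl_add (h a (Finset.mem_insert_self _ _))
      (ih fun j hj => h j (Finset.mem_insert_of_mem hj))

theorem cl_const {u : C2 → ℝ} (hu : SmC u) : Cl S fun _ => u :=
  ⟨fun _ _ => hu, fun l => jc_const (sm_pdl l hu).cont⟩

theorem cl_time {χ : ℝ → ℝ} (h : ContinuousOn χ S) : Cl S fun t _ => χ t := by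
  refine ⟨fun _ _ => contDiff_const, fun l => ?_⟩
  by_cases hl : l = []
  · subst hl
    exact jc_time h
  · simp only [pdl_const hl]
    exact continuousOn_const

theorem cl_mul (hF : Cl S F) (hG : Cl S G) : Cl S fun t z => F t z * G t z :=
  ((JS.cj_zero.2 hF).mul (JS.cj_zero.2 hG)).cl

theorem cl_inv (hF : Cl S F) (h0 : ∀ t ∈ S, ∀ z, F t z ≠ 0) : Cl S fun t z => (F t z)⁻¹ :=
  ((JS.cj_zero.2 hF).inv h0).cl

theorem cl_log (hF : Cl S F) (h0 : ∀ t ∈ S, ∀ z, F t z ≠ 0) :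
    Cl S fun t z => Real.log (F t z) :=
  ((JS.cj_zero.2 hF).log h0).cl

theorem cl_lap (hF : Cl S F) : Cl S fun t => lap (F t) :=
  cl_sum (H := fun a t => pd a (pd a (F t))) Finset.univ fun a _ => cl_pdl hF [a, a]

theorem cl_Ee (a : Fin 4) (hF : Cl S F) : Cl S fun t => Ee a (F t) :=
  cl_sum (H := fun p t z => ∑ q, ec a p q * pd p (pd q (F t)) z) Finset.univ fun p _ =>
    cl_sum (H := fun q t z => ec a p q * pd p (pd q (F t)) z) Finset.univ fun q _ =>
      cl_cmul _ (cl_pdl hF [p, q])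

theorem cl_comp_time (h : Cl S F) {θ : ℝ → ℝ} (hθ : ContinuousOn θ S') (hm : MapsTo θ S' S) :
    Cl S' fun t => F (θ t) :=
  ⟨fun _ ht => h.sm _ (hm ht), fun l => (cl_jc_pdl h l).comp_time hθ hm⟩

theorem cl_union (h : Cl S F) (h' : Cl S' F) (h1 : ∀ t ∈ S', t ∈ closure S → t ∈ S)
    (h2 : ∀ t ∈ S, t ∈ closure S' → t ∈ S') : Cl (S ∪ S') F :=
  ⟨fun t ht => ht.elim (h.sm t) (h'.sm t), fun l => (cl_jc_pdl h l).union (cl_jc_pdl h' l) h1 h2⟩

theorem jc_ns (n : ℕ) (hF : Cl S F) : JC S fun t => ns n (F t) :=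
  JC.sum (H := fun (l : Fin n → Fin 4) t z => pdl (List.ofFn l) (F t) z ^ 2) Finset.univ
    fun l _ => (cl_jc_pdl hF (List.ofFn l)).pow 2

theorem jc_NN (n : ℕ) (hF : Cl S F) : JC S fun t => NN n (F t) :=
  JC.sum (H := fun a t => ns n (Ee a (F t))) Finset.univ fun a _ => jc_ns n (cl_Ee a hF)

/-- Space derivatives of a jointly smooth function are jointly smooth. -/
theorem contDiffOn_pdl (hS : UniqueDiffOn ℝ S)
    (h : ContDiffOn ℝ ∞ (fun q : ℝ × C2 => F q.1 q.2) (S ×ˢ univ)) (l : List (Fin 4)) :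
    ContDiffOn ℝ ∞ (fun q : ℝ × C2 => pdl l (F q.1) q.2) (S ×ˢ univ) := by
  induction l with
  | nil => exact h
  | cons a l ih =>
    have hU : UniqueDiffOn ℝ (S ×ˢ (univ : Set C2)) := hS.prod uniqueDiffOn_univ
    have h1 := (ih.fderivWithin (m := ∞) hU (by simp)).clm_apply
      (contDiffOn_const (c := ((0 : ℝ), dir a)))
    refine h1.congr fun q hq => ?_
    have h2 := (ih.differentiableOn (by simp) q hq).hasFDerivWithinAt
    have h3 : HasFDerivAt (fun w : C2 => (q.1, w)) (ContinuousLinearMap.inr ℝ ℝ C2) q.2 :=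
      hasFDerivAt_prodMk_right q.1 q.2
    have h4 := h2.comp_hasFDerivAt q.2 h3 
      (Eventually.of_forall fun w => mk_mem_prod hq.1 (mem_univ w))
    exact (congrArg (fun L : C2 →L[ℝ] ℝ => L (dir a)) h4.fderiv).trans (by simp)

theorem cl_of_contDiffOn (hS : UniqueDiffOn ℝ S)
    (h : ContDiffOn ℝ ∞ (fun q : ℝ × C2 => F q.1 q.2) (S ×ˢ univ)) : Cl S F :=
  ⟨fun t ht => h.comp_contDiff (f := fun z : C2 => (t, z)) (contDiff_const.prodMk contDiff_id)
    fun _ => ⟨ht, mem_univ _⟩, fun l => (contDiffOn_pdl hS h l).continuousOn⟩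

end Pool.Agent.P.MP_2cea5e_gt.II
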