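import Pool.Agent.P.MP_2cea5e_gt.II.Real
import Pool.Agent.P.MP_2cea5e_gt.II.ClA

/-!
Chapter II: the jet algebra.
-/

open scoped ContDiff ComplexOrder Matrix Topology
open MeasureTheory Set Filter

noncomputable section

namespace Pool.Agent.P.MP_2cea5e_gt.II

variable {w m w' m' : ℕ} {Φ Ψ : Op}

theorem Jet.mono (h : Jet w m Φ) (hw : w ≤ w') (hm : m ≤ m') : Jet w' m' Φ := by
  induction h generalizing w' with
  | const w m c => exact .const _ _ c
  | der l a h1 h2 => exact .der l a (h1.trans hw) (h2.trans hm)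
  | iv w m => exact .iv _ _
  | add _ _ i1 i2 => exact .add (i1 hw hm) (i2 hw hm)
  | mul _ _ h i1 i2 => exact .mul (i1 le_rfl hm) (i2 le_rfl hm) (h.trans hw)
  | congr _ e i1 => exact .congr (i1 hw hm) e

theorem Jet.sm (h : Jet w m Φ) {f : C2 → ℝ} (hf : Adm f) : SmC (Φ f) := by
  induction h with
  | const w m c => exact contDiff_const
  | der l a _ _ => exact sm_pdl l (sm_Ee a hf.sm)
  | iv w m => exact (sm_vol hf.sm).inv fun z => (hf.vol_pos z).ne'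
  | add _ _ i1 i2 => exact ContDiff.add i1 i2
  | mul _ _ _ i1 i2 => exact ContDiff.mul i1 i2
  | congr _ e i1 => exact e f hf ▸ i1

theorem Jet.cmul (c : ℝ) (h : Jet w m Φ) : Jet w m fun f z => c * Φ f z :=
  .mul (.const 0 m c) h (by simp)

theorem Jet.neg (h : Jet w m Φ) : Jet w m fun f z => -Φ f z :=
  (h.cmul (-1)).congr fun f _ => by funext z; simp

theorem Jet.sub (h : Jet w m Φ) (h' : Jet w m Ψ) : Jet w m fun f z => Φ f z - Ψ f z :=
  (h.add h'.neg).congr fun f _ => by funext z; simp [sub_eq_add_neg]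

theorem Jet.sum {J : Type*} (s : Finset J) {Θ : J → Op} (h : ∀ j ∈ s, Jet w m (Θ j)) :
    Jet w m fun f z => ∑ j ∈ s, Θ j f z := by
  classical
  induction s using Finset.induction_on with
  | empty => simpa using Jet.const w m 0
  | insert a s ha ih =>
    simp only [Finset.sum_insert ha]
    exact (h a (Finset.mem_insert_self _ _)).add (ih fun j hj => h j (Finset.mem_insert_of_mem hj))

theorem jet_Ee (a : Fin 4) : Jet 0 0 fun f => Ee a f :=
  .der [] a le_rfl le_rfl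

theorem jet_vol : Jet 0 0 vol :=
  ((((jet_Ee 0).mul (jet_Ee 1) le_rfl).sub ((jet_Ee 2).mul (jet_Ee 2) le_rfl)).sub
    ((jet_Ee 3).mul (jet_Ee 3) le_rfl)).congr fun _ hf => (vol_eq hf.sm).symm

theorem jet_cf (a : Fin 4) : Jet 0 0 (cf a) := by
  fin_cases a
  · exact (jet_Ee 1).mul (.iv 0 0) le_rfl
  · exact (jet_Ee 0).mul (.iv 0 0) le_rfl
  · exact ((jet_Ee 2).cmul (-2)).mul (.iv 0 0) le_rfl
  · exact ((jet_Ee 3).cmul (-2)).mul (.iv 0 0) le_rfl

theorem jet_pd_vol (a : Fin 4) : Jet 1 1 fun f => pd a (vol f) := by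
  have d : ∀ b, Jet 1 1 fun f => pd a (Ee b f) := fun b => .der [a] b le_rfl le_rfl
  have e : ∀ b, Jet 0 1 fun f => Ee b f := fun b => .der [] b le_rfl (by simp)
  have p : ∀ b c, Jet 1 1 fun f z => pd a (Ee b f) z * Ee c f z + Ee b f z * pd a (Ee c f) z :=
    fun b c => ((d b).mul (e c) le_rfl).add ((e b).mul (d c) le_rfl)
  refine (((p 0 1).sub (p 2 2)).sub (p 3 3)).congr fun f hf => ?_
  have s := fun a => sm_Ee a hf.sm
  rw [vol_eq hf.sm, pd_sub' a (ContDiff.sub ((s 0).mul (s 1)) ((s 2).mul (s 2)))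
    ((s 3).mul (s 3)), pd_sub' a ((s 0).mul (s 1)) ((s 2).mul (s 2)), pd_mul' a (s 0) (s 1),
    pd_mul' a (s 2) (s 2), pd_mul' a (s 3) (s 3)]

theorem Jet.pd (h : Jet w m Φ) (a : Fin 4) : Jet (w + 1) (m + 1) fun f => pd a (Φ f) := by
  induction h with
  | const w m c => exact (Jet.const _ _ 0).congr fun f _ => (pd_const a c).symm
  | der l b h1 h2 => exact .der (a :: l) b (by simpa using h1) (by simpa using h2)
  | iv w m =>
    refine ((((jet_pd_vol a).mono le_rfl (by omega)).mul (.iv 0 _) le_rfl).mul (.iv 0 _)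
      (by omega)).neg.congr fun f hf => ?_
    exact (pd_inv' a (sm_vol hf.sm) fun z => (hf.vol_pos z).ne').symm
  | add h1 h2 i1 i2 => exact (i1.add i2).congr fun f hf => (pd_add' a (h1.sm hf) (h2.sm hf)).symm
  | mul h1 h2 h i1 i2 =>
    refine ((i1.mul (h2.mono le_rfl (by omega)) (by omega)).add
      ((h1.mono le_rfl (by omega)).mul i2 (by omega))).congr fun f hf => ?_
    exact (pd_mul' a (h1.sm hf) (h2.sm hf)).symm
  | congr _ e i1 => exact i1.congr fun f hf => by rw [e f hf]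

theorem Jet.pdl (h : Jet w m Φ) (l : List (Fin 4)) :
    Jet (w + l.length) (m + l.length) fun f => pdl l (Φ f) := by
  induction l with
  | nil => exact h
  | cons a l ih => exact ih.pd a

/-- Leibniz rule up to lower order terms. -/
theorem Jet.leib {α : Op} (hα : Jet 0 0 α) (h : Jet (w + 1) (w + 1) Φ) (l : List (Fin 4)) :
    Jet (w + 1 + l.length) (w + l.length) fun f z =>
      MP_2cea5e_gt.pdl l (fun y => α f y * Φ f y) z - α f z * MP_2cea5e_gt.pdl l (Φ f) z := by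
  induction l with
  | nil => exact (Jet.const _ _ 0).congr fun f _ => by funext z; simp
  | cons a l ih =>
    have j1 := (hα.pd a).mono (w' := 1) (m' := w + l.length + 1) le_rfl (by omega)
    have j2 := (h.pdl l).mono (m' := w + l.length + 1) le_rfl (by omega)
    refine ((ih.pd a).add (j1.mul j2 (by omega))).congr fun f hf => ?_
    have s1 := sm_pdl l (ContDiff.mul (hα.sm hf) (h.sm hf))
    have s2 := sm_pdl l (h.sm hf)
    rw [pd_sub' a s1 (ContDiff.mul (hα.sm hf) s2), pd_mul' a (hα.sm hf) s2]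
    funext z
    simp only [pdl_cons]
    ring

theorem Jet.bound0 (h : Jet w m Φ) (A b : ℝ) (hb : 0 < b) : ∃ C : ℝ, 0 ≤ C ∧
    ∀ (f : C2 → ℝ) (z : C2), Adm f → b ≤ vol f z → (∀ j ≤ w, NN j f z ≤ A) → |Φ f z| ≤ C := by
  induction h with
  | const w m c => exact ⟨|c|, abs_nonneg _, fun _ _ _ _ _ => le_rfl⟩
  | der l a h1 _ =>
    refine ⟨1 + |A|, by positivity, fun f z _ _ hA => ?_⟩
    have h2 := (sq_le_NN l a f z).trans (hA _ h1)
    nlinarith [sq_abs (MP_2cea5e_gt.pdl l (Ee a f) z), le_abs_self A,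
      sq_nonneg (|MP_2cea5e_gt.pdl l (Ee a f) z| - 1), abs_nonneg A]
  | iv w m =>
    refine ⟨b⁻¹, by positivity, fun f z _ hv _ => ?_⟩
    rw [abs_of_pos (inv_pos.2 (hb.trans_le hv))]
    exact inv_anti₀ hb hv
  | add _ _ i1 i2 =>
    obtain ⟨C1, p1, i1⟩ := i1
    obtain ⟨C2, p2, i2⟩ := i2
    exact ⟨C1 + C2, by positivity, fun f z hf hv hA =>
      (abs_add_le _ _).trans (add_le_add (i1 f z hf hv hA) (i2 f z hf hv hA))⟩
  | mul _ _ h i1 i2 =>
    obtain ⟨C1, p1, i1⟩ := i1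
    obtain ⟨C2, p2, i2⟩ := i2
    refine ⟨C1 * C2, by positivity, fun f z hf hv hA => ?_⟩
    rw [abs_mul]
    exact mul_le_mul (i1 f z hf hv fun j hj => hA j (by omega))
      (i2 f z hf hv fun j hj => hA j (by omega)) (abs_nonneg _) p1
  | congr _ e i1 =>
    obtain ⟨C1, p1, i1⟩ := i1
    exact ⟨C1, p1, fun f z hf hv hA => e f hf ▸ i1 f z hf hv hA⟩

/-- At most one factor of order larger than `k`. -/
theorem Jet.bound1 (h : Jet w m Φ) {k : ℕ} (hk : w ≤ 2 * k + 1) (A b : ℝ) (hb : 0 < b) :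
    ∃ C : ℝ, 0 ≤ C ∧ ∀ (f : C2 → ℝ) (z : C2), Adm f → b ≤ vol f z → (∀ j ≤ k, NN j f z ≤ A) →
      Φ f z ^ 2 ≤ C * (1 + ∑ j ∈ Finset.range (m + 1), NN j f z) := by
  have s0 : ∀ (m : ℕ) (f : C2 → ℝ) (z : C2), 0 ≤ ∑ j ∈ Finset.range (m + 1), NN j f z :=
    fun m f z => Finset.sum_nonneg fun _ _ => NN_nonneg _ _ _
  induction h with
  | const w m c =>
    exact ⟨c ^ 2, sq_nonneg _, fun f z _ _ _ =>
      le_mul_of_one_le_right (sq_nonneg _) (by linarith [s0 m f z])⟩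
  | @der w m l a _ h2 =>
    refine ⟨1, zero_le_one, fun f z _ _ _ => ?_⟩
    have h3 := Finset.single_le_sum (f := fun j => NN j f z) (fun _ _ => NN_nonneg _ _ _)
      (Finset.mem_range.2 (show l.length < m + 1 by omega))
    linarith [sq_le_NN l a f z]
  | iv w m =>
    refine ⟨b⁻¹ ^ 2, by positivity, fun f z _ hv _ => ?_⟩
    refine le_trans (pow_le_pow_left₀ (inv_pos.2 (hb.trans_le hv)).le (inv_anti₀ hb hv) 2) ?_
    exact le_mul_of_one_le_right (sq_nonneg _) (by linarith [s0 m f z])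
  | @add w m Φ Ψ _ _ i1 i2 =>
    obtain ⟨C1, p1, i1⟩ := i1 hk
    obtain ⟨C2, p2, i2⟩ := i2 hk
    refine ⟨2 * (C1 + C2), by positivity, fun f z hf hv hA => ?_⟩
    nlinarith [i1 f z hf hv hA, i2 f z hf hv hA, sq_nonneg (Φ f z - Ψ f z)]
  | @mul w₁ w₂ w m Φ Ψ h1 h2 h i1 i2 =>
    rcases Nat.lt_or_ge k w₁ with h3 | h3
    · obtain ⟨C1, p1, i1⟩ := i1 (by omega)
      obtain ⟨C2, p2, i2⟩ := h2.bound0 A b hb
      refine ⟨C2 ^ 2 * C1, by positivity, fun f z hf hv hA => ?_⟩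
      have h4 := pow_le_pow_left₀ (abs_nonneg _) (i2 f z hf hv fun j hj => hA j (by omega)) 2
      rw [sq_abs] at h4
      rw [mul_pow, mul_comm, mul_assoc]
      exact mul_le_mul h4 (i1 f z hf hv hA) (sq_nonneg _) (sq_nonneg _)
    · obtain ⟨C1, p1, i1⟩ := h1.bound0 A b hb
      obtain ⟨C2, p2, i2⟩ := i2 (by omega)
      refine ⟨C1 ^ 2 * C2, by positivity, fun f z hf hv hA => ?_⟩
      have h4 := pow_le_pow_left₀ (abs_nonneg _) (i1 f z hf hv fun j hj => hA j (by omega)) 2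
      rw [sq_abs] at h4
      rw [mul_pow, mul_assoc]
      exact mul_le_mul h4 (i2 f z hf hv hA) (sq_nonneg _) (sq_nonneg _)
  | congr _ e i1 =>
    obtain ⟨C1, p1, i1⟩ := i1 hk
    exact ⟨C1, p1, fun f z hf hv hA => e f hf ▸ i1 f z hf hv hA⟩

theorem vol_lip {f g : C2 → ℝ} (hf : SmC f) (hg : SmC g) {z : C2} {A : ℝ} (h1 : NN 0 f z ≤ A)
    (h2 : NN 0 g z ≤ A) : (vol f z - vol g z) ^ 2 ≤ 24 * A * NN 0 (f - g) z := by
  have e : ∀ a, Ee a (f - g) z = Ee a f z - Ee a g z := fun a => congrFun (Ee_sub' a hf hg) z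
  rw [vol_eq hf, vol_eq hg]
  simp only [NN, ns_zero, Fin.sum_univ_four, e] at h1 h2 ⊢
  set x0 := Ee 0 f z
  set x1 := Ee 1 f z
  set x2 := Ee 2 f z
  set x3 := Ee 3 f z
  set y0 := Ee 0 g z
  set y1 := Ee 1 g z
  set y2 := Ee 2 g z
  set y3 := Ee 3 g z
  have key : ∀ a b c d p q r s : ℝ, (a * p + b * q + c * r + d * s) ^ 2 ≤
      (a ^ 2 + b ^ 2 + c ^ 2 + d ^ 2) * (p ^ 2 + q ^ 2 + r ^ 2 + s ^ 2) := by
    intro a b c d p q r s
    nlinarith [sq_nonneg (a * q - b * p), sq_nonneg (a * r - c * p), sq_nonneg (a * s - d * p),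
      sq_nonneg (b * r - c * q), sq_nonneg (b * s - d * q), sq_nonneg (c * s - d * r)]
  have h3 := key x1 y0 (-(x2 + y2)) (-(x3 + y3)) (x0 - y0) (x1 - y1) (x2 - y2) (x3 - y3)
  have h4 : x1 ^ 2 + y0 ^ 2 + (-(x2 + y2)) ^ 2 + (-(x3 + y3)) ^ 2 ≤ 24 * A := by
    nlinarith [sq_nonneg (x2 - y2), sq_nonneg (x3 - y3), sq_nonneg x0, sq_nonneg x1, sq_nonneg x2,
      sq_nonneg x3, sq_nonneg y0, sq_nonneg y1, sq_nonneg y2, sq_nonneg y3]
  refine le_trans (le_of_eq (by ring)) (h3.trans (mul_le_mul_of_nonneg_right h4 (by positivity)))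

/-- Lipschitz dependence on the jets. -/
theorem Jet.lip (h : Jet w m Φ) (A b : ℝ) (hb : 0 < b) : ∃ C : ℝ, 0 ≤ C ∧
    ∀ (f g : C2 → ℝ) (z : C2), Adm f → Adm g → b ≤ vol f z → b ≤ vol g z →
      (∀ j ≤ w, NN j f z ≤ A) → (∀ j ≤ w, NN j g z ≤ A) →
      (Φ f z - Φ g z) ^ 2 ≤ C * ∑ j ∈ Finset.range (m + 1), NN j (f - g) z := by
  have s0 : ∀ (m : ℕ) (f : C2 → ℝ) (z : C2), 0 ≤ ∑ j ∈ Finset.range (m + 1), NN j f z :=
    fun m f z => Finset.sum_nonneg fun _ _ => NN_nonneg _ _ _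
  have s1 : ∀ (m j : ℕ) (f : C2 → ℝ) (z : C2), j ≤ m →
      NN j f z ≤ ∑ j ∈ Finset.range (m + 1), NN j f z := fun m j f z hj =>
    Finset.single_le_sum (f := fun j => NN j f z) (fun _ _ => NN_nonneg _ _ _)
      (Finset.mem_range.2 (by omega))
  induction h with
  | const w m c => exact ⟨0, le_rfl, fun f g z _ _ _ _ _ _ => by simp⟩
  | @der w m l a _ h2 =>
    refine ⟨1, zero_le_one, fun f g z hf hg _ _ _ _ => ?_⟩
    have e : MP_2cea5e_gt.pdl l (Ee a (f - g)) z =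
        MP_2cea5e_gt.pdl l (Ee a f) z - MP_2cea5e_gt.pdl l (Ee a g) z := by
      have : Ee a (f - g) = fun z => Ee a f z - Ee a g z := Ee_sub' a hf.sm hg.sm
      rw [this, pdl_sub' l (sm_Ee a hf.sm) (sm_Ee a hg.sm)]
    have h3 := sq_le_NN l a (f - g) z
    rw [e] at h3
    linarith [s1 m _ (f - g) z h2]
  | iv w m =>
    refine ⟨(b⁻¹ * b⁻¹) ^ 2 * (24 * |A|), by positivity, fun f g z hf hg v1 v2 a1 a2 => ?_⟩
    have p1 := hb.trans_le v1
    have p2 := hb.trans_le v2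
    have h1 := vol_lip hf.sm hg.sm ((a1 0 (by omega)).trans (le_abs_self A))
      ((a2 0 (by omega)).trans (le_abs_self A))
    have h2 : (vol f z)⁻¹ * (vol g z)⁻¹ ≤ b⁻¹ * b⁻¹ :=
      mul_le_mul (inv_anti₀ hb v1) (inv_anti₀ hb v2) (by positivity) (by positivity)
    have e : ((vol f z)⁻¹ - (vol g z)⁻¹) ^ 2 =
        ((vol f z)⁻¹ * (vol g z)⁻¹) ^ 2 * (vol f z - vol g z) ^ 2 := by
      field_simp
      ring
    rw [e, mul_assoc]
    refine mul_le_mul (pow_le_pow_left₀ (by positivity) h2 2) (h1.trans ?_) (sq_nonneg _)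
      (sq_nonneg _)
    exact mul_le_mul_of_nonneg_left (s1 m 0 _ z (by omega)) (by positivity)
  | @add w m Φ Ψ _ _ i1 i2 =>
    obtain ⟨C1, p1, i1⟩ := i1
    obtain ⟨C2, p2, i2⟩ := i2
    refine ⟨2 * (C1 + C2), by positivity, fun f g z hf hg v1 v2 a1 a2 => ?_⟩
    nlinarith [i1 f g z hf hg v1 v2 a1 a2, i2 f g z hf hg v1 v2 a1 a2,
      sq_nonneg (Φ f z - Φ g z - (Ψ f z - Ψ g z))]
  | @mul w₁ w₂ w m Φ Ψ h1 h2 h i1 i2 =>
    obtain ⟨C1, p1, i1⟩ := i1
    obtain ⟨C2, p2, i2⟩ := i2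
    obtain ⟨D1, q1, j1⟩ := h1.bound0 A b hb
    obtain ⟨D2, q2, j2⟩ := h2.bound0 A b hb
    refine ⟨2 * (D2 ^ 2 * C1 + D1 ^ 2 * C2), by positivity, fun f g z hf hg v1 v2 a1 a2 => ?_⟩
    have k1 := i1 f g z hf hg v1 v2 (fun j hj => a1 j (by omega)) fun j hj => a2 j (by omega)
    have k2 := i2 f g z hf hg v1 v2 (fun j hj => a1 j (by omega)) fun j hj => a2 j (by omega)
    have k3 := pow_le_pow_left₀ (abs_nonneg _) (j2 f z hf v1 fun j hj => a1 j (by omega)) 2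
    have k4 := pow_le_pow_left₀ (abs_nonneg _) (j1 g z hg v2 fun j hj => a2 j (by omega)) 2
    rw [sq_abs] at k3 k4
    have k5 := mul_le_mul k3 k1 (sq_nonneg _) (sq_nonneg _)
    have k6 := mul_le_mul k4 k2 (sq_nonneg _) (sq_nonneg _)
    nlinarith [sq_nonneg (Ψ f z * (Φ f z - Φ g z) - Φ g z * (Ψ f z - Ψ g z))]
  | congr _ e i1 =>
    obtain ⟨C1, p1, i1⟩ := i1
    exact ⟨C1, p1, fun f g z hf hg v1 v2 a1 a2 =>
      e f hf ▸ e g hg ▸ i1 f g z hf hg v1 v2 a1 a2⟩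

theorem Jet.cl (h : Jet w m Φ) {S : Set ℝ} {f : ℝ → C2 → ℝ} (hf : Cl S f)
    (hp : ∀ t ∈ S, ∀ z, (hess (f t) z).PosDef) : Cl S fun t => Φ (f t) := by
  have ad : ∀ t ∈ S, Adm (f t) := fun t ht => ⟨hf.sm t ht, hp t ht⟩
  induction h with
  | const w m c => exact cl_const contDiff_const
  | der l a _ _ => exact cl_pdl (cl_Ee a hf) l
  | iv w m => exact cl_inv (JS.cj_zero.2 hf).vol.cl fun t ht z => ((ad t ht).vol_pos z).ne'
  | add _ _ i1 i2 => exact cl_add i1 i2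
  | mul _ _ _ i1 i2 => exact cl_mul i1 i2
  | congr _ e i1 => exact cl_congr i1 fun t ht => (e _ (ad t ht)).symm

theorem Jet.contDiffOn (h : Jet w m Φ) {S : Set ℝ} {f : ℝ → C2 → ℝ} {n : ℕ}
    (hf : ∀ t ∈ S, Adm (f t))
    (hc : ∀ l, ContDiffOn ℝ n (fun q : ℝ × C2 => MP_2cea5e_gt.pdl l (f q.1) q.2) (S ×ˢ univ)) :
    ContDiffOn ℝ n (fun q : ℝ × C2 => Φ (f q.1) q.2) (S ×ˢ univ) := by
  have c : JS.Cj n S f := ⟨fun t ht => (hf t ht).sm, hc⟩
  induction h with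
  | const w m c => exact contDiffOn_const
  | der l a _ _ =>
    refine ContDiffOn.congr (f := fun q : ℝ × C2 =>
      ∑ p, ∑ r, ec a p r * MP_2cea5e_gt.pdl (p :: r :: l) (f q.1) q.2)
      (ContDiffOn.sum fun p _ => ContDiffOn.sum fun r _ => contDiffOn_const.mul (hc _))
      fun q hq => ?_
    exact congrFun (pdl_Ee l a (hf _ hq.1).sm) q.2
  | iv w m => exact (c.vol.cd []).inv fun q hq => ((hf _ hq.1).vol_pos _).ne'
  | add _ _ i1 i2 => exact i1.add i2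
  | mul _ _ _ i1 i2 => exact i1.mul i2
  | congr _ e i1 => exact i1.congr fun q hq => by rw [e _ (hf _ hq.1)]

end Pool.Agent.P.MP_2cea5e_gt.II
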