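import Pool.Agent.P.MP_2cea5e_gt.II.Late
import Pool.Agent.P.MP_2cea5e_gt.II.Jet
import Pool.Agent.P.MP_2cea5e_gt.II.IFD

/-!
Chapter II: the a priori bounds.
-/

open scoped ContDiff ComplexOrder Matrix Topology
open MeasureTheory Set Filter

noncomputable section

namespace Pool.Agent.P.MP_2cea5e_gt.II

theorem bound_ok (h1 : StOsc) (h2 : StGain) : StBound := by
  intro ι _ m ψ κ c T φ hm hK hκ hT hF σ R
  obtain ⟨τ, hτ, hτT, hl⟩ := bound_late h1 h2 ι m ψ κ c T φ hm hK hκ hT hF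
  obtain ⟨hl1, b₁, hb₁, hl2⟩ := hl σ (R + 1)
  have hc : Cl (Ioo 0 T) fun t => φ t σ := cl_of_contDiffOn isOpen_Ioo.uniqueDiffOn (hF.smooth σ)
  have hS : Icc (T / 2) (T - τ) ⊆ Ioo 0 T := fun t ht => ⟨by linarith [ht.1], by linarith [ht.2]⟩
  have hI : ∀ t ∈ Ico (T / 2) T, t ∈ Ioo 0 T := fun t ht => ⟨by linarith [ht.1], ht.2⟩
  have hball : ∀ z : C2, ‖z‖ ≤ R → z ∈ Metric.ball (0 : C2) (R + 1) := fun z hz => by
    rw [mem_ball_zero_iff]
    linarith
  constructor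
  · intro k
    obtain ⟨C₁, hC₁⟩ := hl1 k
    obtain ⟨C₂, -, hC₂⟩ := (jc_ns k (cl_mono hc hS)).bound isCompact_Icc R
    refine ⟨max C₁ (4 ^ k * (1 + C₂)), fun t ht z hz => ?_⟩
    have hs := hc.sm t (hI t ht)
    rcases le_total t (T - τ) with h | h
    · refine le_trans (norm_ifd_le hs fun l hl => ?_) (le_max_right _ _)
      have e1 := sq_le_ns l (φ t σ) z
      rw [hl] at e1
      have e2 := e1.trans ((le_abs_self _).trans (hC₂ t ⟨ht.1, h⟩ z hz))
      nlinarith [sq_abs (pdl l (φ t σ) z), sq_nonneg (|pdl l (φ t σ) z| - 1),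
        sq_nonneg (pdl l (φ t σ) z)]
    · refine le_trans ?_ (le_max_left _ _)
      exact le_of_torus (g := fun z => ‖iteratedFDeriv ℝ k (φ t σ) z‖) (h := fun _ => C₁)
        (ContDiff.continuous_iteratedFDeriv (by exact_mod_cast le_top) hs).norm
        continuous_const Metric.isOpen_ball
        (fun w hw hw0 => hC₁ t ⟨h, ht.2⟩ w hw0 (mem_ball_zero_iff.1 hw).le) z (hball z hz)
  · have hc' : Cl (Icc (T / 2) (T - τ)) fun t => ψ σ + φ t σ :=
      cl_add (cl_const (hK.smooth σ)) (cl_mono hc hS)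
    have had : ∀ t ∈ Ioo 0 T, Adm (ψ σ + φ t σ) := fun t ht =>
      ⟨sm_add (hK.smooth σ) (hc.sm t ht), hF.pos t ht σ⟩
    obtain ⟨C₂, hC0, hC₂⟩ := (cl_jc ((Jet.iv 0 0).cl hc'
      fun t ht => hF.pos t (hS ht) σ)).bound isCompact_Icc R
    refine ⟨min b₁ (C₂ + 1)⁻¹, lt_min hb₁ (by positivity), fun t ht z hz => ?_⟩
    have ha := had t (hI t ht)
    rcases le_total t (T - τ) with h | h
    · refine le_trans (min_le_right _ _) (inv_le_of_inv_le₀ (ha.vol_pos z) ?_)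
      have := (le_abs_self _).trans (hC₂ t ⟨ht.1, h⟩ z hz)
      linarith
    · refine le_trans (min_le_left _ _) ?_
      exact le_of_torus (g := fun _ => b₁) (h := vol (ψ σ + φ t σ)) continuous_const
        (sm_vol ha.sm).continuous Metric.isOpen_ball
        (fun w hw hw0 => hl2 t ⟨h, ht.2⟩ w hw0 (mem_ball_zero_iff.1 hw).le) z (hball z hz)

end Pool.Agent.P.MP_2cea5e_gt.II
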