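import Pool.Agent.P.MP_2cea5e_gt.II.Glue
import Pool.Agent.P.MP_2cea5e_gt.II.ClA

/-!
Chapter II: continuation.
-/

open scoped ContDiff ComplexOrder Matrix Topology
open MeasureTheory Set Filter

noncomputable section

namespace Pool.Agent.P.MP_2cea5e_gt.II

theorem ext_ok (h1 : StShort) (h2 : StJS) (h3 : StLim) : StExt := by
  intro ι _ m ψ κ c T φ hm hK hκ hT hS
  obtain ⟨χ, hcl, hinv, hglue, hpos⟩ := h3 ι m ψ κ c T φ hm hK hκ hT hS
  have hχ : ∀ σ, SmC (χ σ) := fun σ => by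
    have := (hcl σ).sm T ⟨hT.le, le_rfl⟩
    simpa using this
  have hK' := tk_add hK hχ hinv hglue hpos
  obtain ⟨τ, hτ, φ', hS'⟩ := h1 ι m _ κ c hm hK' hκ
  set Φ : ℝ → ι → C2 → ℝ := fun t σ => if t < T then φ t σ else χ σ + φ' (t - T) σ with hΦ
  have e1 : ∀ t, t < T → ∀ σ, Φ t σ = φ t σ := fun t ht σ => by simp [hΦ, ht]
  have e2 : ∀ t, T ≤ t → ∀ σ, Φ t σ = χ σ + φ' (t - T) σ := fun t ht σ => by
    simp [hΦ, not_lt.2 ht]
  have hsub : ∀ t, t ∈ Ico 0 (T + τ) → T ≤ t → t - T ∈ Ico 0 τ := fun t ht h =>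
    ⟨by linarith, by linarith [ht.2]⟩
  have hun : Icc 0 T ∪ Ico T (T + τ) = Ico 0 (T + τ) :=
    Icc_union_Ico_eq_Ico hT.le (by linarith)
  have hCl : ∀ σ, Cl (Ico 0 (T + τ)) fun t => Φ t σ := fun σ => by
    rw [← hun]
    refine cl_union (cl_congr (hcl σ) fun t ht => ?_) ?_ (fun t ht hc => ?_) fun t ht hc => ?_
    · by_cases h : t < T
      · simp [hΦ, h]
      · have : t = T := le_antisymm ht.2 (not_lt.1 h)
        subst this
        funext z
        simp [hΦ, hS'.init]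
    · have a1 : Cl (Ico 0 τ) fun t => φ' t σ :=
        cl_of_contDiffOn (uniqueDiffOn_Ico 0 τ) (hS'.smooth σ)
      have a2 : Cl (Ico T (T + τ)) fun t => φ' (t - T) σ :=
        cl_comp_time (θ := fun t => t - T) a1 (by fun_prop)
          fun t ht => ⟨by linarith [ht.1], by linarith [ht.2]⟩
      exact cl_congr (cl_add (cl_const (hχ σ)) a2) fun t ht => e2 t ht.1 σ
    · rwa [closure_Icc] at hc
    · rw [closure_Ico (by linarith)] at hc
      exact ⟨hc.1, by linarith [ht.2]⟩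
  have hp : ∀ t ∈ Ico 0 (T + τ), ∀ σ z, (hess (ψ σ + Φ t σ) z).PosDef := fun t ht σ z => by
    by_cases h : t < T
    · rw [e1 t h]
      exact hS.pos t ⟨ht.1, h⟩ σ z
    · rw [e2 t (not_lt.1 h), ← add_assoc]
      exact hS'.pos _ (hsub t ht (not_lt.1 h)) σ z
  have key : ∀ σ, ContDiffOn ℝ ∞ (fun q : ℝ × C2 => (ψ σ + Φ q.1 σ) q.2) (Ico 0 (T + τ) ×ˢ univ) ∧
      ∀ t ∈ Ico 0 (T + τ), ∀ z, HasDerivWithinAt (fun s => (ψ σ + Φ s σ) z)
        (κ * scal (ψ σ + Φ t σ) z - c) (Ico 0 (T + τ)) t := fun σ => by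
    refine h2 (fun t => ψ σ + Φ t σ) 0 (T + τ) T κ c (by linarith)
      (cl_add (cl_const (hK.smooth σ)) (hCl σ)) (fun t ht z => hp t ht σ z) fun t ht hne z => ?_
    rcases lt_or_gt_of_ne hne with h | h
    · have a1 := (hS.flow t ⟨ht.1.le, h⟩ σ z).hasDerivAt (Ico_mem_nhds ht.1 h)
      rw [e1 t h]
      refine (a1.const_add (ψ σ z)).congr_of_eventuallyEq ?_
      filter_upwards [Iio_mem_nhds h] with s hs
      rw [e1 s hs]
      rfl
    · have h4 := hsub t ⟨ht.1.le, ht.2⟩ h.le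
      have a1 := (hS'.flow _ h4 σ z).hasDerivAt (Ico_mem_nhds (by linarith) h4.2)
      have a2 := a1.comp_sub_const t T
      rw [e2 t h.le, ← add_assoc]
      refine (a2.const_add (ψ σ z + χ σ z)).congr_of_eventuallyEq ?_
      filter_upwards [Ioi_mem_nhds h] with s hs
      rw [e2 s (le_of_lt hs), ← add_assoc]
      rfl
  refine ⟨T + τ, by linarith, Φ, ⟨fun σ => ?_, fun σ z => ?_, fun t ht σ => ?_,
    fun t ht σ σ' w hw => ?_, hp, fun t ht σ z => ?_⟩, fun t ht => funext fun σ => e1 t ht.2 σ⟩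
  · have a1 : ContDiffOn ℝ ∞ (fun q : ℝ × C2 => ψ σ q.2) (Ico 0 (T + τ) ×ˢ univ) :=
      ((hK.smooth σ).comp contDiff_snd).contDiffOn
    exact ((key σ).1.sub a1).congr fun q _ => by simp
  · rw [e1 0 hT]
    exact hS.init σ z
  · by_cases h : t < T
    · rw [e1 t h]
      exact hS.inv t ⟨ht.1, h⟩ σ
    · rw [e2 t (not_lt.1 h)]
      intro θ z hθ
      simp only [Pi.add_apply]
      rw [hinv σ θ z hθ, hS'.inv _ (hsub t ht (not_lt.1 h)) σ θ z hθ]
  · by_cases h : t < T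
    · rw [e1 t h, e1 t h]
      exact hS.glue t ⟨ht.1, h⟩ σ σ' w hw
    · rw [e2 t (not_lt.1 h), e2 t (not_lt.1 h)]
      simp only [Pi.add_apply]
      rw [hglue σ σ' w hw, hS'.glue _ (hsub t ht (not_lt.1 h)) σ σ' w hw]
  · have a1 := ((key σ).2 t ht z).sub_const (ψ σ z)
    refine a1.congr (fun s _ => by simp) (by simp)

end Pool.Agent.P.MP_2cea5e_gt.II
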