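import Pool.Agent.P.MP_2cea5e_gt.II.Norm

/-!
Chapter II: small oscillation of the metric gives bounds of all derivatives.
-/

open scoped ContDiff ComplexOrder Matrix Topology
open MeasureTheory Set Filter

noncomputable section

namespace Pool.Agent.P.MP_2cea5e_gt.II

/-- A complex matrix as a real continuous linear map. -/
def mcl (N : Matrix (Fin 2) (Fin 2) ℂ) : C2 →L[ℝ] C2 :=
  (LinearMap.toContinuousLinearMap (Matrix.toLin' N)).restrictScalars ℝ

theorem mcl_apply (N : Matrix (Fin 2) (Fin 2) ℂ) (y : C2) : mcl N y = N *ᵥ y := by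
  simp [mcl]

theorem qf_real_smul (f : C2 → ℝ) (z v : C2) (c : ℝ) :
    qf f z ((c : ℂ) • v) = c ^ 2 * qf f z v := by
  simp only [qf, star_smul, Matrix.mulVec_smul, smul_dotProduct, dotProduct_smul, smul_eq_mul,
    Complex.star_def, Complex.conj_ofReal, Complex.re_ofReal_mul]
  ring

theorem gain_ok : StGain := by
  obtain ⟨δ, hδ, hN⟩ := norm_est
  refine ⟨δ / 2, by positivity, fun κ ρ Λ hκ hρ k => ?_⟩
  obtain ⟨lam, hl, hl1, hl2⟩ : ∃ lam : ℝ, 0 < lam ∧ lam ^ 2 * (2 * |Λ|) ≤ ρ ^ 2 ∧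
      16 * lam ^ 4 / κ ≤ ρ := by
    have hΛ := abs_nonneg Λ
    refine ⟨min 1 (min (ρ / (2 * |Λ| + 1)) (κ * ρ / 16)), by positivity, ?_, ?_⟩
    · have h1 : min 1 (min (ρ / (2 * |Λ| + 1)) (κ * ρ / 16)) ≤ ρ / (2 * |Λ| + 1) :=
        (min_le_right _ _).trans (min_le_left _ _)
      calc _ ≤ (ρ / (2 * |Λ| + 1)) ^ 2 * (2 * |Λ| + 1) ^ 2 := by
            gcongr
            nlinarith
        _ = _ := by field_simp
    · rw [div_le_iff₀ hκ]
      have h1 : min 1 (min (ρ / (2 * |Λ| + 1)) (κ * ρ / 16)) ≤ κ * ρ / 16 :=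
        (min_le_right _ _).trans (min_le_right _ _)
      have h2 := pow_le_of_le_one (a := min 1 (min (ρ / (2 * |Λ| + 1)) (κ * ρ / 16)))
        (by positivity) (min_le_left _ _) (n := 4) (by norm_num)
      linarith
  obtain ⟨C, hC⟩ := hN k ((lam ^ 2)⁻¹ * |Λ|)
  refine ⟨lam ^ 2 * (|C| * (lam⁻¹ * (|Λ| + 1)) ^ k), fun f I c t z hI hsub hf hpos hder hq hcl => ?_⟩
  have htI : t ∈ I := hsub ⟨by linarith, le_rfl⟩
  obtain ⟨L, L', hL1, hL2, hL3, hL4⟩ := exists_normal (hpos t htI z) hq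
  have hsm : ∀ s ∈ I, SmC (f s) := fun s hs =>
    hf.comp_contDiff (f := fun z : C2 => (s, z)) (contDiff_const.prodMk contDiff_id)
      fun _ => ⟨hs, mem_univ _⟩
  obtain ⟨β, hβ⟩ : ∃ β, β = 16 * lam ^ 4 / κ := ⟨_, rfl⟩
  have hβ0 : 0 < β := by rw [hβ]; positivity
  rw [← hβ] at hl2
  have hm : ∀ s ∈ Icc (-1 : ℝ) 0, t + β * s ∈ Icc (t - ρ) t := fun s hs =>
    ⟨by nlinarith [hs.1], by nlinarith [hs.2]⟩
  have ha : 0 < (lam ^ 2)⁻¹ := by positivity
  have hdet : ((lam : ℂ) • L).det ≠ 0 := by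
    rw [Matrix.det_smul]
    refine mul_ne_zero (pow_ne_zero _ (by exact_mod_cast hl.ne')) fun h => ?_
    have := congrArg Matrix.det hL1
    rw [Matrix.det_mul, h] at this
    simp at this
  have hball : ∀ y : C2, ‖y‖ ≤ 1 → ‖z + ((lam : ℂ) • L) *ᵥ y - z‖ ≤ ρ := fun y hy => by
    rw [add_sub_cancel_left, Matrix.smul_mulVec, norm_smul, Complex.norm_real,
      Real.norm_of_nonneg hl.le]
    refine (pow_le_pow_iff_left₀ (by positivity) hρ.le two_ne_zero).1 (le_trans ?_ hl1)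
    rw [mul_pow]
    refine mul_le_mul_of_nonneg_left ((hL4 y).1.trans ?_) (by positivity)
    have h1 : ‖y‖ ^ 2 ≤ 1 := pow_le_one₀ (norm_nonneg _) hy
    nlinarith [le_abs_self Λ, abs_nonneg Λ, sq_nonneg ‖y‖]
  let g : ℝ → C2 → ℝ := fun s y => (lam ^ 2)⁻¹ * f (t + β * s) (z + ((lam : ℂ) • L) *ᵥ y)
  have hadm : ∀ s ∈ Icc (-1 : ℝ) 0, Adm (f (t + β * s)) := fun s hs =>
    ⟨hsm _ (hsub (hm s hs)), hpos _ (hsub (hm s hs))⟩
  have hgc : Cl (Icc (-1) 0) g := by
    refine cl_of_contDiffOn (uniqueDiffOn_Icc (by norm_num)) (contDiffOn_const.mul ?_)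
    have h1 : ContDiff ℝ ∞ fun q : ℝ × C2 => (t + β * q.1, z + mcl ((lam : ℂ) • L) q.2) :=
      (contDiff_const.add (contDiff_const.mul contDiff_fst)).prodMk
        (contDiff_const.add ((mcl _).contDiff.comp contDiff_snd))
    have h2 := hf.comp (s := Icc (-1 : ℝ) 0 ×ˢ univ) h1.contDiffOn
      fun q hq => ⟨hsub (hm _ hq.1), mem_univ _⟩
    simpa only [Function.comp_def, mcl_apply] using h2
  have hgp : ∀ s ∈ Icc (-1 : ℝ) 0, ∀ y, (hess (g s) y).PosDef := fun s hs =>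
    ((hadm s hs).aff ha z hdet).pos
  have hflow : NFlow (Icc (-1) 0) g := by
    refine ⟨hgc, hgp, (lam ^ 2)⁻¹ * β * c, isInt_of_deriv ordConnected_Icc (cl_jc hgc)
      (cl_jc (cl_sub (cl_cmul 16 (jet_scal.cl hgc hgp)) (cl_const (sm_const _))))
      countable_empty fun s hs _ y => ?_⟩
    have hs' := interior_subset hs
    have h1 : HasDerivAt (fun r : ℝ => t + β * r) β s := by
      simpa using ((hasDerivAt_id s).const_mul β).const_add t
    have h2 := ((hder _ (hsub (hm s hs')) (z + ((lam : ℂ) • L) *ᵥ y)).comp s h1).const_mul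
      (lam ^ 2)⁻¹
    refine h2.congr_deriv ?_
    rw [show scal (g s) y = _ from scal_aff (hadm s hs') ha z hdet y, hβ]
    field_simp
  have key := hC g hflow (fun s hs y hy a => ?_) fun y hy => ?_
  · have e : f t = fun x => (fun y => lam ^ 2 • (g 0 ∘ mcl ((lam⁻¹ : ℝ) • L')) y) (x - z) := by
      funext x
      have : ((lam : ℂ) • L) *ᵥ (((lam⁻¹ : ℝ) • L') *ᵥ (x - z)) = x - z := by
        rw [Matrix.mulVec_mulVec, ← Complex.coe_smul, Matrix.smul_mul, Matrix.mul_smul, hL1,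
          smul_smul, ← Complex.ofReal_mul, mul_inv_cancel₀ hl.ne']
        simp
      simp only [g, Function.comp, mcl_apply, this, smul_eq_mul, mul_zero, add_zero,
        add_sub_cancel]
      field_simp
    have hg0 : SmC (g 0) := hgc.sm 0 ⟨by norm_num, le_rfl⟩
    have hn : ‖mcl ((lam⁻¹ : ℝ) • L')‖ ≤ lam⁻¹ * (|Λ| + 1) := by
      refine ContinuousLinearMap.opNorm_le_bound _ (by positivity) fun y => ?_
      rw [mcl_apply, Matrix.smul_mulVec, norm_smul, Real.norm_of_nonneg (by positivity), mul_assoc]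
      refine mul_le_mul_of_nonneg_left ((pow_le_pow_iff_left₀ (by positivity) (by positivity)
        two_ne_zero).1 ((hL4 y).2.trans ?_)) (by positivity)
      rw [mul_pow]
      refine mul_le_mul_of_nonneg_right ?_ (sq_nonneg _)
      nlinarith [le_abs_self Λ, abs_nonneg Λ]
    rw [e, iteratedFDeriv_comp_sub (f := fun y => lam ^ 2 • (g 0 ∘ mcl ((lam⁻¹ : ℝ) • L')) y),
      sub_self, iteratedFDeriv_const_smul_apply'
      ((hg0.comp (mcl _).contDiff).of_le (by exact_mod_cast le_top)).contDiffAt,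
      ContinuousLinearMap.iteratedFDeriv_comp_right _ hg0 _ (by exact_mod_cast le_top), norm_smul,
      Real.norm_of_nonneg (by positivity), map_zero]
    refine mul_le_mul_of_nonneg_left ((ContinuousMultilinearMap.norm_compContinuousLinearMap_le
      _ _).trans ?_) (by positivity)
    rw [Finset.prod_const, Finset.card_univ, Fintype.card_fin]
    gcongr
    exact key.trans (le_abs_self C)
  · have := close_of_qf (hgc.sm s hs) (z := y) (δ := δ / 2) (fun v => ?_) a
    · linarith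
    have e1 : ((lam : ℂ) • L).map star *ᵥ v = (lam : ℂ) • (L.map star *ᵥ v) := by
      rw [← Matrix.smul_mulVec]
      congr 1
      ext i j
      simp
    have h1 := (hcl _ (hm s hs) _ (hball y hy)).2 (L.map star *ᵥ v)
    have h2 : qf (f t) z (L.map star *ᵥ v) = ‖v 0‖ ^ 2 + ‖v 1‖ ^ 2 := hL3 v
    rw [h2] at h1
    rw [qf_aff (hadm s hs).sm, e1, qf_real_smul, ← mul_assoc, inv_mul_cancel₀ (by positivity),
      one_mul]
    exact h1
  · have h1 := (hcl _ (hm 0 ⟨by norm_num, le_rfl⟩) _ (hball y hy)).1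
    simp only [g]
    rw [abs_mul, abs_of_pos ha]
    exact mul_le_mul_of_nonneg_left (h1.trans (le_abs_self Λ)) ha.le

end Pool.Agent.P.MP_2cea5e_gt.II
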