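import Pool.Agent.P.MP_2cea5e_gt.Top
import Pool.Agent.P.MP_2cea5e_gt.Hess

/-!
Joint smoothness of a solution of the flow from the equation.
-/

open scoped ContDiff ComplexOrder Matrix Topology
open MeasureTheory Set Filter

noncomputable section

namespace Pool.Agent.P.MP_2cea5e_gt.II

namespace JS

/-! ### Calculus of `pd` and `pdl` -/

section static

variable {F G : C2 → ℝ}

theorem sm_pd (a : Fin 4) (hF : ContDiff ℝ ∞ F) : ContDiff ℝ ∞ (pd a F) := Hess.sm_d (dir a) hF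

theorem sm_pdl (l : List (Fin 4)) (hF : ContDiff ℝ ∞ F) : ContDiff ℝ ∞ (pdl l F) := by
  induction l with
  | nil => exact hF
  | cons a l ih => exact sm_pd a ih

theorem pdl_append (l l' : List (Fin 4)) (F : C2 → ℝ) : pdl (l ++ l') F = pdl l (pdl l' F) := by
  induction l with
  | nil => rfl
  | cons a l ih => simp only [List.cons_append, pdl, ih]

theorem pdl_pd (l : List (Fin 4)) (a : Fin 4) (F : C2 → ℝ) :
    pdl l (pd a F) = pdl (l ++ [a]) F := by
  rw [pdl_append]; rfl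

theorem pd_comm (a b : Fin 4) (hF : ContDiff ℝ ∞ F) (z : C2) :
    pd a (pd b F) z = pd b (pd a F) z := Hess.d_comm (dir a) (dir b) hF z

theorem pd_const (a : Fin 4) (c : ℝ) : pd a (fun _ => c) = fun _ => 0 := by
  funext z; simp [pd]

theorem pd_add (a : Fin 4) (hF : ContDiff ℝ ∞ F) (hG : ContDiff ℝ ∞ G) :
    pd a (fun z => F z + G z) = fun z => pd a F z + pd a G z := by
  funext z
  have := ((Hess.hfd hF z).add (Hess.hfd hG z)).fderiv
  show fderiv ℝ (F + G) z (dir a) = _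
  rw [this]; simp [pd]

theorem pd_mul (a : Fin 4) (hF : ContDiff ℝ ∞ F) (hG : ContDiff ℝ ∞ G) :
    pd a (fun z => F z * G z) = fun z => pd a F z * G z + F z * pd a G z := by
  funext z
  have := ((Hess.hfd hF z).mul (Hess.hfd hG z)).fderiv
  show fderiv ℝ (F * G) z (dir a) = _
  rw [this]; simp [pd]; ring

theorem pd_inv (a : Fin 4) (hF : ContDiff ℝ ∞ F) (h0 : ∀ z, F z ≠ 0) :
    pd a (fun z => (F z)⁻¹) = fun z => -1 * (pd a F z * ((F z)⁻¹ * (F z)⁻¹)) := by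
  funext z
  have := ((hasDerivAt_inv (h0 z)).comp_hasFDerivAt z (Hess.hfd hF z)).fderiv
  show fderiv ℝ ((fun y => y⁻¹) ∘ F) z (dir a) = _
  rw [this]; simp [pd]; ring

theorem pd_log (a : Fin 4) (hF : ContDiff ℝ ∞ F) (h0 : ∀ z, F z ≠ 0) :
    pd a (fun z => Real.log (F z)) = fun z => pd a F z * (F z)⁻¹ := by
  funext z
  have := ((Hess.hfd hF z).log (h0 z)).fderiv
  show fderiv ℝ (fun z => Real.log (F z)) z (dir a) = _
  rw [this]; simp [pd]; ring

/-- The real coordinate functionals dual to `dir`. -/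
def co : Fin 4 → C2 →L[ℝ] ℝ :=
  ![Complex.reCLM.comp (ContinuousLinearMap.proj (R := ℝ) (φ := fun _ : Fin 2 => ℂ) 0),
    Complex.imCLM.comp (ContinuousLinearMap.proj (R := ℝ) (φ := fun _ : Fin 2 => ℂ) 0),
    Complex.reCLM.comp (ContinuousLinearMap.proj (R := ℝ) (φ := fun _ : Fin 2 => ℂ) 1),
    Complex.imCLM.comp (ContinuousLinearMap.proj (R := ℝ) (φ := fun _ : Fin 2 => ℂ) 1)]

theorem sum_co (v : C2) : ∑ a, co a v • dir a = v := by
  funext i
  fin_cases i <;> apply Complex.ext <;> simp [co, dir, Fin.sum_univ_four]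

theorem clm_eq (L : C2 →L[ℝ] ℝ) : L = ∑ a, L (dir a) • co a := by
  ext1 v
  conv_lhs => rw [← sum_co v]
  simp [map_sum, mul_comm]

theorem fderiv_eq (F : C2 → ℝ) (z : C2) : fderiv ℝ F z = ∑ a, pd a F z • co a :=
  clm_eq _

/-! ### The real form of the metric, the volume and the scalar curvature -/

/-- Real part of the entry `(0,0)` of the complex Hessian. -/
def e1 (F : C2 → ℝ) (z : C2) : ℝ := (pd 0 (pd 0 F) z + pd 1 (pd 1 F) z) * (1 / 4)
/-- Real part of the entry `(1,1)`. -/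
def e2 (F : C2 → ℝ) (z : C2) : ℝ := (pd 2 (pd 2 F) z + pd 3 (pd 3 F) z) * (1 / 4)
/-- Real part of the entry `(0,1)`. -/
def e3 (F : C2 → ℝ) (z : C2) : ℝ := (pd 0 (pd 2 F) z + pd 1 (pd 3 F) z) * (1 / 4)
/-- Imaginary part of the entry `(0,1)`. -/
def e4 (F : C2 → ℝ) (z : C2) : ℝ := (pd 0 (pd 3 F) z + -1 * pd 1 (pd 2 F) z) * (1 / 4)

theorem hess_pd (hF : ContDiff ℝ ∞ F) (z : C2) : hess F z =
    !![(e1 F z : ℂ), (e3 F z : ℂ) + Complex.I * e4 F z;
      (e3 F z : ℂ) - Complex.I * e4 F z, (e2 F z : ℂ)] := by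
  have h01 := pd_comm 0 1 hF z
  have h23 := pd_comm 2 3 hF z
  have h02 := pd_comm 0 2 hF z
  have h13 := pd_comm 1 3 hF z
  have h03 := pd_comm 0 3 hF z
  have h12 := pd_comm 1 2 hF z
  ext j k
  rw [Hess.hess_eq hF]
  fin_cases j <;> fin_cases k
  · show ((pd 0 (pd 0 F) z : ℂ) + (pd 1 (pd 1 F) z : ℂ) +
      Complex.I * ((pd 0 (pd 1 F) z : ℂ) - (pd 1 (pd 0 F) z : ℂ))) / 4 = (e1 F z : ℂ)
    rw [h01]; simp only [e1]; push_cast; ring
  · show ((pd 0 (pd 2 F) z : ℂ) + (pd 1 (pd 3 F) z : ℂ) +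
      Complex.I * ((pd 0 (pd 3 F) z : ℂ) - (pd 1 (pd 2 F) z : ℂ))) / 4 =
      (e3 F z : ℂ) + Complex.I * e4 F z
    simp only [e3, e4]; push_cast; ring
  · show ((pd 2 (pd 0 F) z : ℂ) + (pd 3 (pd 1 F) z : ℂ) +
      Complex.I * ((pd 2 (pd 1 F) z : ℂ) - (pd 3 (pd 0 F) z : ℂ))) / 4 =
      (e3 F z : ℂ) - Complex.I * e4 F z
    rw [← h02, ← h13, ← h03, ← h12]; simp only [e3, e4]; push_cast; ring
  · show ((pd 2 (pd 2 F) z : ℂ) + (pd 3 (pd 3 F) z : ℂ) +
      Complex.I * ((pd 2 (pd 3 F) z : ℂ) - (pd 3 (pd 2 F) z : ℂ))) / 4 = (e2 F z : ℂ)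
    rw [h23]; simp only [e2]; push_cast; ring

theorem det_pd (hF : ContDiff ℝ ∞ F) (z : C2) : (hess F z).det =
    ((e1 F z * e2 F z + -1 * (e3 F z * e3 F z + e4 F z * e4 F z) : ℝ) : ℂ) := by
  rw [hess_pd hF, Matrix.det_fin_two_of]
  push_cast
  linear_combination ((e4 F z : ℂ) ^ 2) * Complex.I_mul_I

theorem vol_pd (hF : ContDiff ℝ ∞ F) (z : C2) :
    vol F z = e1 F z * e2 F z + -1 * (e3 F z * e3 F z + e4 F z * e4 F z) := by
  rw [vol, det_pd hF, Complex.ofReal_re]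

theorem vol_pos {z : C2} (h : (hess F z).PosDef) : 0 < vol F z :=
  (Complex.pos_iff.mp h.det_pos).1

theorem tr_pd {L : C2 → ℝ} (hF : ContDiff ℝ ∞ F) (hL : ContDiff ℝ ∞ L) (z : C2) :
    ((hess F z)⁻¹ * hess L z).trace.re =
      (e2 F z * e1 L z + e1 F z * e2 L z + -2 * (e3 F z * e3 L z + e4 F z * e4 L z)) *
        (vol F z)⁻¹ := by
  have hd : (hess F z).det = (vol F z : ℂ) := by rw [vol_pd hF, det_pd hF]
  have key : ((hess F z)⁻¹ * hess L z).trace =
      (((e2 F z * e1 L z + e1 F z * e2 L z + -2 * (e3 F z * e3 L z + e4 F z * e4 L z)) *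
        (vol F z)⁻¹ : ℝ) : ℂ) := by
    rw [Matrix.inv_def, hd, Ring.inverse_eq_inv', hess_pd hF, hess_pd hL, Matrix.adjugate_fin_two_of]
    simp [Matrix.trace_fin_two, Matrix.mul_apply, Fin.sum_univ_two]
    linear_combination (2 * (e4 F z : ℂ) * (e4 L z : ℂ) * (vol F z : ℂ)⁻¹) * Complex.I_mul_I
  rw [key, Complex.ofReal_re]

theorem sm_e1 (hF : ContDiff ℝ ∞ F) : ContDiff ℝ ∞ (e1 F) :=
  ((sm_pd 0 (sm_pd 0 hF)).add (sm_pd 1 (sm_pd 1 hF))).mul contDiff_const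
theorem sm_e2 (hF : ContDiff ℝ ∞ F) : ContDiff ℝ ∞ (e2 F) :=
  ((sm_pd 2 (sm_pd 2 hF)).add (sm_pd 3 (sm_pd 3 hF))).mul contDiff_const
theorem sm_e3 (hF : ContDiff ℝ ∞ F) : ContDiff ℝ ∞ (e3 F) :=
  ((sm_pd 0 (sm_pd 2 hF)).add (sm_pd 1 (sm_pd 3 hF))).mul contDiff_const
theorem sm_e4 (hF : ContDiff ℝ ∞ F) : ContDiff ℝ ∞ (e4 F) :=
  ((sm_pd 0 (sm_pd 3 hF)).add (contDiff_const.mul (sm_pd 1 (sm_pd 2 hF)))).mul contDiff_const

theorem sm_vol (hF : ContDiff ℝ ∞ F) : ContDiff ℝ ∞ (vol F) := by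
  rw [show vol F = _ from funext (vol_pd hF)]
  exact ((sm_e1 hF).mul (sm_e2 hF)).add
    (contDiff_const.mul (((sm_e3 hF).mul (sm_e3 hF)).add ((sm_e4 hF).mul (sm_e4 hF))))

end static

/-! ### The classes `Cj` -/

/-- Smooth in space, all space derivatives jointly of class `C^j`. -/
structure Cj (j : ℕ) (S : Set ℝ) (F : ℝ → C2 → ℝ) : Prop where
  sm : ∀ t ∈ S, ContDiff ℝ ∞ (F t)
  cd : ∀ l, ContDiffOn ℝ j (fun q : ℝ × C2 => pdl l (F q.1) q.2) (S ×ˢ univ)

section classes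

variable {j : ℕ} {S : Set ℝ} {F G : ℝ → C2 → ℝ}

theorem cj_zero : Cj 0 S F ↔ Cl S F :=
  ⟨fun h => ⟨h.sm, fun l => (h.cd l).continuousOn⟩,
    fun h => ⟨h.sm, fun l => contDiffOn_zero.2 (h.cont l)⟩⟩

theorem Cj.cl (h : Cj j S F) : Cl S F := ⟨h.sm, fun l => (h.cd l).continuousOn⟩

theorem Cj.pd (h : Cj j S F) (a : Fin 4) : Cj j S (fun t => pd a (F t)) :=
  ⟨fun t ht => sm_pd a (h.sm t ht), fun l => by
    simp only [pdl_pd]; exact h.cd (l ++ [a])⟩

theorem Cj.pdl (h : Cj j S F) (l : List (Fin 4)) : Cj j S (fun t => pdl l (F t)) :=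
  ⟨fun t ht => sm_pdl l (h.sm t ht), fun l' => by
    simp only [← pdl_append]; exact h.cd (l' ++ l)⟩

theorem cj_const (c : ℝ) : Cj j S (fun _ _ => c) := by
  refine ⟨fun _ _ => contDiff_const, fun l => ?_⟩
  have : ∃ c' : ℝ, pdl l (fun _ => c) = fun _ => c' := by
    induction l with
    | nil => exact ⟨c, rfl⟩
    | cons a l ih =>
      obtain ⟨c', h⟩ := ih
      exact ⟨0, by simp only [pdl, h, pd_const]⟩
  obtain ⟨c', h⟩ := this
  simp only [h]
  exact contDiffOn_const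

/-- The algebra generated by `Cj`. -/
inductive Gen (j : ℕ) (S : Set ℝ) : (ℝ → C2 → ℝ) → Prop
  | base {F : ℝ → C2 → ℝ} : Cj j S F → Gen j S F
  | add {F G : ℝ → C2 → ℝ} : Gen j S F → Gen j S G → Gen j S (fun t z => F t z + G t z)
  | mul {F G : ℝ → C2 → ℝ} : Gen j S F → Gen j S G → Gen j S (fun t z => F t z * G t z)
  | inv {F : ℝ → C2 → ℝ} : Gen j S F → (∀ t ∈ S, ∀ z, F t z ≠ 0) →
      Gen j S (fun t z => (F t z)⁻¹)
  | log {F : ℝ → C2 → ℝ} : Gen j S F → (∀ t ∈ S, ∀ z, F t z ≠ 0) →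
      Gen j S (fun t z => Real.log (F t z))
  | congr {F G : ℝ → C2 → ℝ} : Gen j S F → (∀ t ∈ S, G t = F t) → Gen j S G

theorem Gen.step (h : Gen j S F) : (∀ t ∈ S, ContDiff ℝ ∞ (F t)) ∧
    ContDiffOn ℝ j (fun q : ℝ × C2 => F q.1 q.2) (S ×ˢ univ) ∧
    ∀ a, Gen j S (fun t => pd a (F t)) := by
  induction h with
  | base h => exact ⟨h.sm, h.cd [], fun a => .base (h.pd a)⟩
  | add _ _ i1 i2 =>
    refine ⟨fun t ht => (i1.1 t ht).add (i2.1 t ht), i1.2.1.add i2.2.1, fun a => ?_⟩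
    exact .congr (.add (i1.2.2 a) (i2.2.2 a)) fun t ht => pd_add a (i1.1 t ht) (i2.1 t ht)
  | mul h1 h2 i1 i2 =>
    refine ⟨fun t ht => (i1.1 t ht).mul (i2.1 t ht), i1.2.1.mul i2.2.1, fun a => ?_⟩
    exact .congr (.add (.mul (i1.2.2 a) h2) (.mul h1 (i2.2.2 a)))
      fun t ht => pd_mul a (i1.1 t ht) (i2.1 t ht)
  | inv h1 h0 i1 =>
    refine ⟨fun t ht => (i1.1 t ht).inv (h0 t ht), i1.2.1.inv fun q hq => h0 q.1 hq.1 q.2,
      fun a => ?_⟩
    exact .congr (.mul (.base (cj_const (-1))) (.mul (i1.2.2 a) (.mul (.inv h1 h0) (.inv h1 h0))))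
      fun t ht => pd_inv a (i1.1 t ht) (h0 t ht)
  | log h1 h0 i1 =>
    refine ⟨fun t ht => (i1.1 t ht).log (h0 t ht), i1.2.1.log fun q hq => h0 q.1 hq.1 q.2,
      fun a => ?_⟩
    exact .congr (.mul (i1.2.2 a) (.inv h1 h0)) fun t ht => pd_log a (i1.1 t ht) (h0 t ht)
  | congr _ he i1 =>
    refine ⟨fun t ht => he t ht ▸ i1.1 t ht, i1.2.1.congr fun q hq => by rw [he q.1 hq.1],
      fun a => ?_⟩
    exact .congr (i1.2.2 a) fun t ht => by rw [he t ht]

theorem Gen.cj (h : Gen j S F) : Cj j S F := by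
  have key : ∀ l, Gen j S (fun t => pdl l (F t)) := by
    intro l
    induction l with
    | nil => exact h
    | cons a l ih => exact ih.step.2.2 a
  exact ⟨h.step.1, fun l => (key l).step.2.1⟩

theorem Cj.add (h1 : Cj j S F) (h2 : Cj j S G) : Cj j S (fun t z => F t z + G t z) :=
  (Gen.add (.base h1) (.base h2)).cj

theorem Cj.mul (h1 : Cj j S F) (h2 : Cj j S G) : Cj j S (fun t z => F t z * G t z) :=
  (Gen.mul (.base h1) (.base h2)).cj

theorem Cj.inv (h1 : Cj j S F) (h0 : ∀ t ∈ S, ∀ z, F t z ≠ 0) :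
    Cj j S (fun t z => (F t z)⁻¹) := (Gen.inv (.base h1) h0).cj

theorem Cj.log (h1 : Cj j S F) (h0 : ∀ t ∈ S, ∀ z, F t z ≠ 0) :
    Cj j S (fun t z => Real.log (F t z)) := (Gen.log (.base h1) h0).cj

theorem Cj.congr (h1 : Cj j S F) (he : ∀ t ∈ S, G t = F t) : Cj j S G :=
  (Gen.congr (.base h1) he).cj

theorem Cj.e1 (h : Cj j S F) : Cj j S (fun t => e1 (F t)) :=
  (((h.pd 0).pd 0).add ((h.pd 1).pd 1)).mul (cj_const _)
theorem Cj.e2 (h : Cj j S F) : Cj j S (fun t => e2 (F t)) :=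
  (((h.pd 2).pd 2).add ((h.pd 3).pd 3)).mul (cj_const _)
theorem Cj.e3 (h : Cj j S F) : Cj j S (fun t => e3 (F t)) :=
  (((h.pd 2).pd 0).add ((h.pd 3).pd 1)).mul (cj_const _)
theorem Cj.e4 (h : Cj j S F) : Cj j S (fun t => e4 (F t)) :=
  (((h.pd 3).pd 0).add ((cj_const _).mul ((h.pd 2).pd 1))).mul (cj_const _)

theorem Cj.vol (h : Cj j S F) : Cj j S (fun t => vol (F t)) :=
  ((h.e1.mul h.e2).add ((cj_const (-1)).mul ((h.e3.mul h.e3).add (h.e4.mul h.e4)))).congr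
    fun t ht => funext (vol_pd (h.sm t ht))

theorem Cj.scal (h : Cj j S F) (h0 : ∀ t ∈ S, ∀ z, MP_2cea5e_gt.vol (F t) z ≠ 0) :
    Cj j S (fun t => scal (F t)) := by
  have hL := h.vol.log h0
  refine ((cj_const (-1)).mul ((((h.e2.mul hL.e1).add (h.e1.mul hL.e2)).add ((cj_const (-2)).mul
    ((h.e3.mul hL.e3).add (h.e4.mul hL.e4)))).mul (h.vol.inv h0))).congr fun t ht => ?_
  funext z
  rw [MP_2cea5e_gt.scal, tr_pd (h.sm t ht) (hL.sm t ht), neg_one_mul]

end classes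

/-! ### Time derivatives -/

section time

variable {S : Set ℝ} {u w : ℝ → C2 → ℝ}

theorem cont_time (h : ContinuousOn (fun q : ℝ × C2 => w q.1 q.2) (S ×ˢ univ)) (z : C2) :
    ContinuousOn (fun r => w r z) S :=
  h.comp (f := fun r : ℝ => (r, z)) (by fun_prop) fun _ hr => ⟨hr, mem_univ _⟩

/-- Differentiation of a time integral in a space direction. -/
theorem pd_integral (hw : Cl S w) {s t : ℝ} (hst : uIcc s t ⊆ S) (a : Fin 4) (z : C2) :
    HasDerivAt (fun e : ℝ => ∫ r in s..t, w r (z + e • dir a)) (∫ r in s..t, pd a (w r) z) 0 := by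
  have hc0 := hw.cont []
  have hc1 := hw.cont [a]
  have hK : IsCompact (uIcc s t ×ˢ Metric.closedBall z ‖dir a‖) :=
    isCompact_uIcc.prod (isCompact_closedBall _ _)
  obtain ⟨M, hM⟩ := hK.exists_bound_of_continuousOn
    (hc1.mono (prod_mono hst (subset_univ _)))
  have hmeas : ∀ (g : ℝ → C2 → ℝ), ContinuousOn (fun q : ℝ × C2 => g q.1 q.2) (S ×ˢ univ) →
      ∀ y, AEStronglyMeasurable (fun r => g r y) (volume.restrict (uIoc s t)) := fun g hg y =>
    (((cont_time hg y).mono hst).mono uIoc_subset_uIcc).aestronglyMeasurable measurableSet_uIoc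
  have := intervalIntegral.hasDerivAt_integral_of_dominated_loc_of_deriv_le (μ := volume)
    (a := s) (b := t) (bound := fun _ => M)
    (F := fun (e : ℝ) r => w r (z + e • dir a)) (F' := fun (e : ℝ) r => pd a (w r) (z + e • dir a))
    (x₀ := 0) (s := Metric.ball 0 1) (Metric.ball_mem_nhds _ one_pos)
    (Eventually.of_forall fun e => hmeas w hc0 _)
    ((cont_time hc0 _).mono hst).intervalIntegrable
    (hmeas (fun r => pd a (w r)) hc1 _)
    (Eventually.of_forall fun r hr e he => by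
      refine hM (r, z + e • dir a) ⟨uIoc_subset_uIcc hr, ?_⟩
      rw [Metric.mem_closedBall, dist_eq_norm, add_sub_cancel_left, norm_smul]
      have : ‖e‖ ≤ 1 := by simpa using (Metric.mem_ball.1 he).le
      exact mul_le_of_le_one_left (norm_nonneg _) this)
    intervalIntegrable_const
    (Eventually.of_forall fun r hr e _ => by
      have h1 := Hess.hfd (hw.sm r (hst (uIoc_subset_uIcc hr))) (z + e • dir a)
      have h2 : HasDerivAt (fun e : ℝ => z + e • dir a) (dir a) e := by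
        simpa using ((hasDerivAt_id e).smul_const (dir a)).const_add z
      exact h1.comp_hasDerivAt e h2)
  simpa using this.2

theorem line_pd {F : C2 → ℝ} (hF : ContDiff ℝ ∞ F) (a : Fin 4) (z : C2) :
    HasDerivAt (fun e : ℝ => F (z + e • dir a)) (pd a F z) 0 := by
  have h1 : HasFDerivAt F (fderiv ℝ F z) (z + (0 : ℝ) • dir a) := by simpa using Hess.hfd hF z
  have h2 : HasDerivAt (fun e : ℝ => z + e • dir a) (dir a) 0 := by
    simpa using ((hasDerivAt_id (0 : ℝ)).smul_const (dir a)).const_add z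
  exact h1.comp_hasDerivAt (0 : ℝ) h2

/-- The integral form of the equation passes to all space derivatives. -/
theorem pdl_integral (hu : ∀ t ∈ S, ContDiff ℝ ∞ (u t)) (hw : Cl S w) {s t : ℝ}
    (hst : uIcc s t ⊆ S) (h : ∀ z, u t z - u s z = ∫ r in s..t, w r z) (l : List (Fin 4)) :
    ∀ z, pdl l (u t) z - pdl l (u s) z = ∫ r in s..t, pdl l (w r) z := by
  induction l with
  | nil => exact h
  | cons a l ih =>
    intro z
    have h1 := (line_pd (sm_pdl l (hu t (hst right_mem_uIcc))) a z).sub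
      (line_pd (sm_pdl l (hu s (hst left_mem_uIcc))) a z)
    have h2 := pd_integral ((cj_zero.2 hw).pdl l).cl hst a z
    have h3 : (fun e : ℝ => ∫ r in s..t, pdl l (w r) (z + e • dir a)) =
        (fun e : ℝ => pdl l (u t) (z + e • dir a)) - fun e : ℝ => pdl l (u s) (z + e • dir a) :=
      funext fun e => (ih _).symm
    rw [h3] at h2
    exact h1.unique h2

/-- The fundamental theorem of calculus in time, with a countable exceptional set. -/
theorem ftc_time {N : Set ℝ} (hN : N.Countable)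
    (hu : ContinuousOn (fun q : ℝ × C2 => u q.1 q.2) (S ×ˢ univ))
    (hw : ContinuousOn (fun q : ℝ × C2 => w q.1 q.2) (S ×ˢ univ)) {s t : ℝ}
    (hst : uIcc s t ⊆ S) (z : C2)
    (hd : ∀ r ∈ Ioo (min s t) (max s t), r ∉ N → HasDerivAt (fun s => u s z) (w r z) r) :
    u t z - u s z = ∫ r in s..t, w r z :=
  (integral_eq_of_hasDerivAt_off_countable (fun r => u r z) (fun r => w r z) hN
    ((cont_time hu z).mono hst) (fun r hr => hd r hr.1 hr.2)
    ((cont_time hw z).mono hst).intervalIntegrable).symm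

/-- Joint differentiability from the integral form in time. -/
theorem joint_fderiv (hS : OrdConnected S)
    (hw : ContinuousOn (fun q : ℝ × C2 => w q.1 q.2) (S ×ˢ univ))
    (h : ∀ s ∈ S, ∀ t ∈ S, ∀ z, u t z - u s z = ∫ r in s..t, w r z) {t₀ : ℝ} (ht₀ : t₀ ∈ S)
    {z₀ : C2} {L : C2 →L[ℝ] ℝ} (hL : HasFDerivAt (u t₀) L z₀) :
    HasFDerivWithinAt (fun q : ℝ × C2 => u q.1 q.2)
      (w t₀ z₀ • ContinuousLinearMap.fst ℝ ℝ C2 + L.comp (ContinuousLinearMap.snd ℝ ℝ C2))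
      (S ×ˢ univ) (t₀, z₀) := by
  have h2 : HasFDerivWithinAt (fun q : ℝ × C2 => u t₀ q.2)
      (L.comp (ContinuousLinearMap.snd ℝ ℝ C2)) (S ×ˢ univ) (t₀, z₀) :=
    (HasFDerivAt.comp (t₀, z₀) hL hasFDerivAt_snd).hasFDerivWithinAt
  have h1 : HasFDerivWithinAt (fun q : ℝ × C2 => u q.1 q.2 - u t₀ q.2)
      (w t₀ z₀ • ContinuousLinearMap.fst ℝ ℝ C2) (S ×ˢ univ) (t₀, z₀) := by
    rw [hasFDerivWithinAt_iff_isLittleO, Asymptotics.isLittleO_iff]
    intro ε hε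
    obtain ⟨δ, hδ, hc⟩ := Metric.continuousWithinAt_iff.1 (hw (t₀, z₀) ⟨ht₀, mem_univ _⟩) ε hε
    filter_upwards [self_mem_nhdsWithin,
      mem_nhdsWithin_of_mem_nhds (Metric.ball_mem_nhds (t₀, z₀) hδ)] with q hq hqδ
    have hsub : uIcc t₀ q.1 ⊆ S := hS.uIcc_subset ht₀ hq.1
    have hi : IntervalIntegrable (fun r => w r q.2) volume t₀ q.1 :=
      ((cont_time hw q.2).mono hsub).intervalIntegrable
    have e : u q.1 q.2 - u t₀ q.2 - (u t₀ z₀ - u t₀ z₀) -
        (w t₀ z₀ • ContinuousLinearMap.fst ℝ ℝ C2) (q - (t₀, z₀)) =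
        ∫ r in t₀..q.1, (w r q.2 - w t₀ z₀) := by
      rw [intervalIntegral.integral_sub hi intervalIntegrable_const, ← h t₀ ht₀ q.1 hq.1]
      simp
      ring
    rw [e]
    have hq1 : dist q.1 t₀ < δ := lt_of_le_of_lt (le_max_left _ _) (Metric.mem_ball.1 hqδ)
    have hq2 : dist q.2 z₀ < δ := lt_of_le_of_lt (le_max_right _ _) (Metric.mem_ball.1 hqδ)
    refine (intervalIntegral.norm_integral_le_of_norm_le_const (C := ε) fun r hr => ?_).trans ?_
    · have hr' := uIoc_subset_uIcc hr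
      have hd : dist r t₀ ≤ dist q.1 t₀ := by
        rw [Real.dist_eq, Real.dist_eq]; exact abs_sub_left_of_mem_uIcc hr'
      have := hc (x := (r, q.2)) ⟨hsub hr', mem_univ _⟩ (max_lt (hd.trans_lt hq1) hq2)
      exact this.le
    · exact mul_le_mul_of_nonneg_left (norm_fst_le (q - (t₀, z₀))) hε.le
  have h3 := h1.add h2
  refine h3.congr (fun q _ => ?_) ?_ <;> simp

theorem time_deriv (hS : OrdConnected S)
    (hw : ContinuousOn (fun q : ℝ × C2 => w q.1 q.2) (S ×ˢ univ))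
    (h : ∀ s ∈ S, ∀ t ∈ S, ∀ z, u t z - u s z = ∫ r in s..t, w r z) {t₀ : ℝ} (ht₀ : t₀ ∈ S)
    {z₀ : C2} (hL : DifferentiableAt ℝ (u t₀) z₀) :
    HasDerivWithinAt (fun s => u s z₀) (w t₀ z₀) S t₀ := by
  have h1 := joint_fderiv hS hw h ht₀ hL.hasFDerivAt
  have h2 : HasDerivWithinAt (fun s : ℝ => (s, z₀)) ((1 : ℝ), (0 : C2)) S t₀ :=
    ((hasDerivAt_id t₀).prodMk (hasDerivAt_const t₀ z₀)).hasDerivWithinAt
  have h3 := h1.comp_hasDerivWithinAt t₀ h2 fun s hs => mk_mem_prod hs (mem_univ _)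
  exact h3.congr_deriv (by simp)

/-- One more joint derivative. -/
theorem cj_succ {j : ℕ} (hS : OrdConnected S) (hU : UniqueDiffOn ℝ S) (hu : Cj j S u)
    (hw : Cj j S w) (h : ∀ s ∈ S, ∀ t ∈ S, ∀ z, u t z - u s z = ∫ r in s..t, w r z) :
    Cj (j + 1) S u := by
  refine ⟨hu.sm, fun l => ?_⟩
  have hl : ∀ s ∈ S, ∀ t ∈ S, ∀ z, pdl l (u t) z - pdl l (u s) z =
      ∫ r in s..t, pdl l (w r) z := fun s hs t ht =>
    pdl_integral hu.sm hw.cl (hS.uIcc_subset hs ht) (h s hs t ht) l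
  rw [Nat.cast_add, Nat.cast_one,
    contDiffOn_succ_iff_hasFDerivWithinAt_of_uniqueDiffOn (hU.prod uniqueDiffOn_univ)]
  refine ⟨fun h => absurd h (by simp), fun q => pdl l (w q.1) q.2 • ContinuousLinearMap.fst ℝ ℝ C2 +
    ∑ a, pdl (a :: l) (u q.1) q.2 • (co a).comp (ContinuousLinearMap.snd ℝ ℝ C2), ?_, ?_⟩
  · exact ((hw.cd l).smul contDiffOn_const).add
      (ContDiffOn.sum fun a _ => (hu.cd (a :: l)).smul contDiffOn_const)
  · intro q hq
    have := joint_fderiv (u := fun t => pdl l (u t)) (w := fun t => pdl l (w t)) hS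
      (hw.cd l).continuousOn hl hq.1 (Hess.hfd (sm_pdl l (hu.sm q.1 hq.1)) q.2)
    refine this.congr_fderiv ?_
    rw [fderiv_eq]
    congr 1

end time

end JS

open JS

theorem js_ok : StJS := by
  intro f a b t₀ κ c hab hf hpos hd
  have hv : ∀ t ∈ Ico a b, ∀ z, vol (f t) z ≠ 0 := fun t ht z => (vol_pos (hpos t ht z)).ne'
  have hR : ∀ j, Cj j (Ico a b) f → Cj j (Ico a b) (fun t z => κ * scal (f t) z - c) := by
    intro j hj
    exact (((cj_const κ).mul (hj.scal hv)).add (cj_const (-c))).congr fun t _ => by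
      funext z; ring
  have hw := (hR 0 (cj_zero.2 hf)).cl
  have hint : ∀ s ∈ Ico a b, ∀ t ∈ Ico a b, ∀ z,
      f t z - f s z = ∫ r in s..t, (κ * scal (f r) z - c) := by
    intro s hs t ht z
    refine ftc_time (N := {t₀}) (w := fun t z => κ * scal (f t) z - c) (countable_singleton _)
      (hf.cont []) (hw.cont []) (ordConnected_Ico.uIcc_subset hs ht) z fun r hr hr0 => ?_
    exact hd r ⟨(le_min hs.1 ht.1).trans_lt hr.1, hr.2.trans (max_lt hs.2 ht.2)⟩ hr0 z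
  have hall : ∀ j, Cj j (Ico a b) f := by
    intro j
    induction j with
    | zero => exact cj_zero.2 hf
    | succ j ih => exact cj_succ ordConnected_Ico (uniqueDiffOn_Ico a b) ih (hR j ih) hint
  refine ⟨contDiffOn_infty.2 fun j => (hall j).cd [], fun t ht z => ?_⟩
  exact time_deriv (w := fun t z => κ * scal (f t) z - c) ordConnected_Ico (hw.cont []) hint ht
    (Hess.hfd (hf.sm t ht) z).differentiableAt

end Pool.Agent.P.MP_2cea5e_gt.II
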