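import Pool.Agent.P.MP_2cea5e_gt.II.JetN
import Pool.Agent.P.MP_2cea5e_gt.II.IFD

/-!
Chapter II: the limit at the final time.
-/

open scoped ContDiff ComplexOrder Matrix Topology
open MeasureTheory Set Filter

noncomputable section

namespace Pool.Agent.P.MP_2cea5e_gt.II

theorem IsSol_flow {ι : Type} {m : ι → Matrix (Fin 2) (Fin 2) ℤ} {ψ : ι → C2 → ℝ} {κ c T : ℝ}
    {φ : ℝ → ι → C2 → ℝ} (h : IsSol m ψ κ c (Ico 0 T) φ) : IsCalabiFlow m ψ κ c T φ where
  smooth σ := (h.smooth σ).mono (prod_mono Ioo_subset_Ico_self le_rfl)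
  inv t ht := h.inv t (Ioo_subset_Ico_self ht)
  glue t ht := h.glue t (Ioo_subset_Ico_self ht)
  pos t ht := h.pos t (Ioo_subset_Ico_self ht)
  flow t ht σ z := (h.flow t (Ioo_subset_Ico_self ht) σ z).hasDerivAt (Ico_mem_nhds ht.1 ht.2)

theorem NN_le_of_pdl {f : C2 → ℝ} (hf : SmC f) {j : ℕ} {z : C2} {B : ℝ}
    (h : ∀ l : List (Fin 4), l.length = j + 2 → |pdl l f z| ≤ B) :
    NN j f z ≤ 4 * (4 ^ j * (4 * B) ^ 2) := by
  have key : ∀ a, ns j (Ee a f) z ≤ 4 ^ j * (4 * B) ^ 2 := by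
    intro a
    refine ns_le fun l hl => ?_
    have h1 : |pdl l (Ee a f) z| ≤ 4 * B := by
      rw [pdl_Ee l a hf]
      have h2 : ∀ p q, |ec a p q * pd p (pd q (pdl l f)) z| ≤ 1 / 4 * B := by
        intro p q
        rw [abs_mul]
        exact mul_le_mul (abs_ec_le a p q) (h (p :: q :: l) (by simp [hl])) (abs_nonneg _)
          (by norm_num)
      calc |Ee a (pdl l f) z| ≤ ∑ p, ∑ q, |ec a p q * pd p (pd q (pdl l f)) z| :=
            (Finset.abs_sum_le_sum_abs _ _).trans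
              (Finset.sum_le_sum fun p _ => Finset.abs_sum_le_sum_abs _ _)
        _ ≤ ∑ _p : Fin 4, ∑ _q : Fin 4, 1 / 4 * B :=
            Finset.sum_le_sum fun p _ => Finset.sum_le_sum fun q _ => h2 p q
        _ = 4 * B := by simp
    exact sq_le_sq' (abs_le.1 h1).1 (abs_le.1 h1).2
  calc NN j f z ≤ ∑ _a : Fin 4, 4 ^ j * (4 * B) ^ 2 := Finset.sum_le_sum fun a _ => key a
    _ = _ := by simp

theorem le_at_end {g g' : ℝ → ℝ} {a T : ℝ} (haT : a < T) (hg : ContinuousOn g (Icc a T))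
    (hg' : ContinuousOn g' (Icc a T)) (H : ∀ t ∈ Ico a T, g t ≤ g' t) : g T ≤ g' T :=
  ContinuousWithinAt.closure_le (s := Ico a T)
    (by rw [closure_Ico haT.ne]; exact right_mem_Icc.2 haT.le)
    ((hg T (right_mem_Icc.2 haT.le)).mono Ico_subset_Icc_self)
    ((hg' T (right_mem_Icc.2 haT.le)).mono Ico_subset_Icc_self) H

theorem eq_at_end {g g' : ℝ → ℝ} {a T : ℝ} (haT : a < T) (hg : ContinuousOn g (Icc a T))
    (hg' : ContinuousOn g' (Icc a T)) (H : ∀ t ∈ Ico a T, g t = g' t) : g T = g' T :=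
  le_antisymm (le_at_end haT hg hg' fun t ht => (H t ht).le)
    (le_at_end haT hg' hg fun t ht => (H t ht).ge)

/-- The limit in one chart. -/
theorem lim_chart {ψ : C2 → ℝ} {F : ℝ → C2 → ℝ} {κ c T : ℝ} (hT : 0 < T) (hψ : SmC ψ)
    (hF : Cl (Ico 0 T) F) (hp : ∀ t ∈ Ico 0 T, ∀ z, (hess (ψ + F t) z).PosDef)
    (hd : ∀ t ∈ Ioo 0 T, ∀ z, HasDerivAt (fun s => F s z) (κ * scal (ψ + F t) z - c) t)
    (hb : ∀ R : ℝ, (∀ k : ℕ, ∃ C : ℝ, ∀ t ∈ Ico (T / 2) T, ∀ z, ‖z‖ ≤ R →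
        ‖iteratedFDeriv ℝ k (F t) z‖ ≤ C) ∧
      ∃ b : ℝ, 0 < b ∧ ∀ t ∈ Ico (T / 2) T, ∀ z, ‖z‖ ≤ R → b ≤ vol (ψ + F t) z) :
    ∃ G : C2 → ℝ, Cl (Icc 0 T) fun t => if t < T then F t else G := by
  have hf : Cl (Ico 0 T) fun t => ψ + F t := cl_add (cl_const hψ) hF
  have hFt : Cl (Ico 0 T) fun t z => κ * scal (ψ + F t) z - c :=
    cl_sub (cl_cmul κ (cl_scal hf hp)) (cl_const (sm_const c))
  have hI : IsInt (Ico 0 T) F fun t z => κ * scal (ψ + F t) z - c :=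
    isInt_of_deriv ordConnected_Ico (cl_jc hF) (cl_jc hFt) countable_empty fun t ht _ z =>
      hd t (by rwa [interior_Ico] at ht) z
  refine lim_ext hT hF hFt hI fun l R => ?_
  have hsub : Icc 0 (T / 2) ⊆ Ico 0 T := fun t ht => ⟨ht.1, by linarith [ht.2]⟩
  have hsub' : Ico (T / 2) T ⊆ Ico 0 T := fun t ht => ⟨by linarith [ht.1], ht.2⟩
  obtain ⟨C₁, -, h₁⟩ := ((cl_jc_pdl hFt l).mono hsub).bound isCompact_Icc R
  obtain ⟨hk, b, hb0, hv⟩ := hb R
  have hN : ∀ j : ℕ, ∃ A : ℝ, ∀ t ∈ Ico (T / 2) T, ∀ z, ‖z‖ ≤ R → NN j (ψ + F t) z ≤ A := by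
    intro j
    obtain ⟨C, hC⟩ := hk (j + 2)
    obtain ⟨D, hD⟩ := (isCompact_closedBall (0 : C2) R).exists_bound_of_continuousOn
      (hψ.continuous_iteratedFDeriv (m := j + 2) (ENat.natCast_le_of_coe_top_le_withTop le_rfl _)).continuousOn
    refine ⟨_, fun t ht z hz =>
      NN_le_of_pdl (B := D + C) (hf.sm t (hsub' ht)) fun l' hl' => ?_⟩
    rw [pdl_add l' hψ (hF.sm t (hsub' ht)), Pi.add_apply]
    have h1 := abs_pdl_le hψ l' z
    have h2 := abs_pdl_le (hF.sm t (hsub' ht)) l' z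
    rw [hl'] at h1 h2
    exact (abs_add_le _ _).trans (add_le_add (h1.trans (hD z (by simpa using hz)))
      (h2.trans (hC t ht z hz)))
  choose A hA using hN
  obtain ⟨C₂, -, h₂⟩ := (((jet_scal.cmul κ).sub (Jet.const 2 2 c)).pdl l).bound0
    (∑ j ∈ Finset.range (2 + l.length + 1), |A j|) b hb0
  refine ⟨max C₁ C₂, fun t ht z hz => ?_⟩
  rcases le_total t (T / 2) with h | h
  · exact (h₁ t ⟨ht.1, h⟩ z hz).trans (le_max_left _ _)
  · refine (h₂ (ψ + F t) z ⟨hf.sm t ht, hp t ht⟩ (hv t ⟨h, ht.2⟩ z hz) fun j hj => ?_).trans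
      (le_max_right _ _)
    exact ((hA j t ⟨h, ht.2⟩ z hz).trans (le_abs_self _)).trans
      (Finset.single_le_sum (f := fun j => |A j|) (fun _ _ => abs_nonneg _)
        (Finset.mem_range.2 (Nat.lt_succ_of_le hj)))

theorem lim_ok (h : StBound) : StLim := by
  intro ι _ m ψ κ c T φ hm hψ hκ hT hs
  have hfl := IsSol_flow hs
  have hb := h ι m ψ κ c T φ hm hψ hκ hT hfl
  have hex : ∀ σ, ∃ G : C2 → ℝ, Cl (Icc 0 T) fun t => if t < T then φ t σ else G := fun σ =>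
    lim_chart (F := fun t => φ t σ) hT (hψ.smooth σ)
      (cl_of_contDiffOn (uniqueDiffOn_Ico 0 T) (hs.smooth σ)) (fun t ht => hs.pos t ht σ)
      (fun t ht => hfl.flow t ht σ) (hb σ)
  choose χ hχ using hex
  have hTT : ∀ σ, (if T < T then φ T σ else χ σ) = χ σ := fun σ => if_neg (lt_irrefl T)
  refine ⟨χ, hχ, fun σ θ z hθ => ?_, fun σ τ w hw => ?_, fun σ z => ?_⟩
  · have := eq_at_end hT ((cl_jc (hχ σ)).time (θ * z)) ((cl_jc (hχ σ)).time z) fun t ht => by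
      simp only [if_pos ht.2]
      exact hs.inv t ht σ θ z hθ
    simpa only [hTT] using this
  · have := eq_at_end hT ((cl_jc (hχ σ)).time (mon (m σ) w))
      ((cl_jc (hχ τ)).time (mon (m τ) w)) fun t ht => by
        simp only [if_pos ht.2]
        exact hs.glue t ht σ τ w hw
    simpa only [hTT] using this
  · have hf : Cl (Icc 0 T) fun t => ψ σ + if t < T then φ t σ else χ σ :=
      cl_add (cl_const (hψ.smooth σ)) (hχ σ)
    have hsm : SmC (ψ σ + χ σ) := by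
      simpa only [hTT] using hf.sm T (right_mem_Icc.2 hT.le)
    have hE : ∀ a, ContinuousOn (fun t => Ee a (ψ σ + if t < T then φ t σ else χ σ) z)
        (Icc 0 T) := fun a => (cl_jc (cl_Ee a hf)).time z
    have hV : ContinuousOn (fun t => vol (ψ σ + if t < T then φ t σ else χ σ) z) (Icc 0 T) :=
      ((((hE 0).mul (hE 1)).sub ((hE 2).mul (hE 2))).sub ((hE 3).mul (hE 3))).congr
        fun t ht => by simp only [vol_eq (hf.sm t ht), Pi.sub_apply, Pi.mul_apply]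
    obtain ⟨b, hb0, hv⟩ := (hb σ ‖z‖).2
    have hsub : Icc (T / 2) T ⊆ Icc 0 T := Icc_subset_Icc (by linarith) le_rfl
    have h1 := le_at_end (g := fun _ => b) (by linarith : T / 2 < T) continuousOn_const
      (hV.mono hsub) fun t ht => by
        simp only [if_pos ht.2]
        exact hv t ht z le_rfl
    have h2 := le_at_end (g := fun _ => 0) hT continuousOn_const (hE 0) fun t ht => by
      have h3 := hf.sm t (Ico_subset_Icc_self ht)
      simp only [if_pos ht.2] at h3 ⊢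
      exact ((posDef_iff h3 z).1 (hs.pos t ht σ z)).1.le
    simp only [hTT] at h1 h2
    refine (posDef_iff hsm z).2 ⟨lt_of_le_of_ne h2 fun h0 => ?_, hb0.trans_le h1⟩
    rw [vol_eq hsm] at h1
    simp only [← h0] at h1
    nlinarith [mul_self_nonneg (Ee 2 (ψ σ + χ σ) z), mul_self_nonneg (Ee 3 (ψ σ + χ σ) z)]

end Pool.Agent.P.MP_2cea5e_gt.II
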