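import Pool.Agent.P.MP_2cea5e_gt.II.Defs

/-!
Chapter II: the maximal solution.
-/

open scoped ContDiff ComplexOrder Matrix Topology
open MeasureTheory Set Filter

noncomputable section

namespace Pool.Agent.P.MP_2cea5e_gt.II

/-- Time sets of the form `[0, T)`, `0 < T ≤ ∞`. -/
structure ZGood (S : Set ℝ) : Prop where
  nn : ∀ t ∈ S, 0 ≤ t
  zero : (0 : ℝ) ∈ S
  up : ∀ t ∈ S, ∃ t' ∈ S, t < t'
  down : ∀ t ∈ S, ∀ s, 0 ≤ s → s ≤ t → s ∈ S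

theorem zgood_Ico {T : ℝ} (hT : 0 < T) : ZGood (Ico 0 T) :=
  ⟨fun _ ht => ht.1, ⟨le_rfl, hT⟩,
    fun t ht => ⟨(t + T) / 2, ⟨by linarith [ht.1], by linarith [ht.2]⟩, by linarith [ht.2]⟩,
    fun _ ht _ h0 h1 => ⟨h0, h1.trans_lt ht.2⟩⟩

theorem ZGood.nhds {S U : Set ℝ} (h : ZGood S) (hU : ∀ t ∈ U, 0 ≤ t) {t : ℝ} (ht : t ∈ S) :
    S ∈ 𝓝[U] t := by
  obtain ⟨t', ht', hlt⟩ := h.up t ht
  exact mem_nhdsWithin.2 ⟨Iio t', isOpen_Iio, hlt, fun s hs => h.down t' ht' s (hU s hs.2) hs.1.le⟩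

/-- Being a solution is a local property in time. -/
theorem isSol_of_local {ι : Type} {m : ι → Matrix (Fin 2) (Fin 2) ℤ} {ψ : ι → C2 → ℝ} {κ c : ℝ}
    {U : Set ℝ} {Φ : ℝ → ι → C2 → ℝ} (hU : ∀ t ∈ U, 0 ≤ t) (h0 : (0 : ℝ) ∈ U)
    (h : ∀ t ∈ U, ∃ S φ, ZGood S ∧ IsSol m ψ κ c S φ ∧ t ∈ S ∧ ∀ s ∈ S, Φ s = φ s) :
    IsSol m ψ κ c U Φ := by
  refine ⟨fun σ q hq => ?_, fun σ z => ?_, fun t ht σ => ?_, fun t ht σ τ w hw => ?_,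
    fun t ht σ z => ?_, fun t ht σ z => ?_⟩
  · obtain ⟨S, φ, hS, hφ, ht, he⟩ := h q.1 hq.1
    have h1 : ContDiffWithinAt ℝ ∞ (fun q : ℝ × C2 => Φ q.1 σ q.2) (S ×ˢ univ) q :=
      (hφ.smooth σ q ⟨ht, mem_univ _⟩).congr (fun y hy => by simp only [he y.1 hy.1])
        (by simp only [he q.1 ht])
    refine h1.mono_of_mem_nhdsWithin ?_
    rw [show q = (q.1, q.2) from rfl, nhdsWithin_prod_eq]
    exact prod_mem_prod (hS.nhds hU ht) univ_mem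
  · obtain ⟨S, φ, -, hφ, ht, he⟩ := h 0 h0
    rw [he 0 ht, hφ.init]
  · obtain ⟨S, φ, -, hφ, hs, he⟩ := h t ht
    rw [he t hs]; exact hφ.inv t hs σ
  · obtain ⟨S, φ, -, hφ, hs, he⟩ := h t ht
    rw [he t hs]; exact hφ.glue t hs σ τ w hw
  · obtain ⟨S, φ, -, hφ, hs, he⟩ := h t ht
    rw [he t hs]; exact hφ.pos t hs σ z
  · obtain ⟨S, φ, hS, hφ, hs, he⟩ := h t ht
    rw [he t hs]
    exact ((hφ.flow t hs σ z).congr (fun s hs' => by simp only [he s hs'])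
      (by simp only [he t hs])).mono_of_mem_nhdsWithin (hS.nhds hU hs)

theorem long_of_ext (h1 : StShort) (h2 : StExt) : StLong := by
  classical
  intro ι _ m ψ κ c hm hψ hκ
  obtain ⟨τ, hτ, φ₀, hφ₀⟩ := h1 ι m ψ κ c hm hψ hκ
  let X := {p : Set ℝ × (ℝ → ι → C2 → ℝ) // ZGood p.1 ∧ IsSol m ψ κ c p.1 p.2}
  have : Nonempty X := ⟨⟨(Ico 0 τ, φ₀), zgood_Ico hτ, hφ₀⟩⟩
  let r : X → X → Prop := fun p q => p.1.1 ⊆ q.1.1 ∧ ∀ t ∈ p.1.1, q.1.2 t = p.1.2 t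
  obtain ⟨⟨⟨S, φ⟩, hS, hφ⟩, hmax⟩ := exists_maximal_of_nonempty_chains_bounded (r := r)
    (fun C hC hne => by
      let U : Set ℝ := {t | ∃ p ∈ C, t ∈ p.1.1}
      let Φ : ℝ → ι → C2 → ℝ := fun t => if h : t ∈ U then h.choose.1.2 t else 0
      have hΦ : ∀ p ∈ C, ∀ t ∈ p.1.1, Φ t = p.1.2 t := fun p hp t ht => by
        have hU : t ∈ U := ⟨p, hp, ht⟩
        simp only [Φ, dif_pos hU]
        obtain ⟨h3, h4⟩ := hU.choose_spec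
        by_cases he : hU.choose = p
        · rw [he]
        · rcases hC h3 hp he with h | h
          · exact (h.2 t h4).symm
          · exact h.2 t ht
      obtain ⟨p₀, hp₀⟩ := hne
      have hU : ZGood U := by
        refine ⟨?_, ⟨p₀, hp₀, p₀.2.1.zero⟩, ?_, ?_⟩
        · rintro t ⟨p, -, ht⟩
          exact p.2.1.nn t ht
        · rintro t ⟨p, hp, ht⟩
          obtain ⟨t', ht', hlt⟩ := p.2.1.up t ht
          exact ⟨t', ⟨p, hp, ht'⟩, hlt⟩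
        · rintro t ⟨p, hp, ht⟩ s h0 hs
          exact ⟨p, hp, p.2.1.down t ht s h0 hs⟩
      refine ⟨⟨(U, Φ), hU, isSol_of_local hU.nn hU.zero ?_⟩, fun p hp =>
        ⟨fun t ht => ⟨p, hp, ht⟩, hΦ p hp⟩⟩
      rintro t ⟨p, hp, ht⟩
      exact ⟨p.1.1, p.1.2, p.2.1, p.2.2, ht, hΦ p hp⟩)
    (fun h h' => ⟨h.1.trans h'.1, fun t ht => (h'.2 t (h.1 ht)).trans (h.2 t ht)⟩)
  by_cases hb : BddAbove S
  · exfalso
    have hlt : ∀ t ∈ S, t < sSup S := fun t ht => by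
      obtain ⟨t', ht', h⟩ := hS.up t ht
      exact h.trans_le (le_csSup hb ht')
    have e : S = Ico 0 (sSup S) := by
      refine Subset.antisymm (fun t ht => ⟨hS.nn t ht, hlt t ht⟩) fun t ht => ?_
      obtain ⟨s, hs, h⟩ := exists_lt_of_lt_csSup ⟨0, hS.zero⟩ ht.2
      exact hS.down s hs t ht.1 h.le
    have hT : 0 < sSup S := hlt 0 hS.zero
    obtain ⟨T', hT', φ', hφ', he⟩ := h2 ι m ψ κ c (sSup S) φ hm hψ hκ hT (e ▸ hφ)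
    have h3 := (hmax ⟨(Ico 0 T', φ'), zgood_Ico (hT.trans hT'), hφ'⟩
      ⟨fun t ht => ⟨hS.nn t ht, (hlt t ht).trans hT'⟩, fun t ht => he t (e ▸ ht)⟩).1
    exact lt_irrefl _ (hlt _ (h3 (show sSup S ∈ Ico 0 T' from ⟨hT.le, hT'⟩)))
  · have e : S = Ici 0 := by
      refine Subset.antisymm hS.nn fun t ht => ?_
      obtain ⟨s, hs, h⟩ := not_bddAbove_iff.1 hb t
      exact hS.down s hs t ht h.le
    exact ⟨φ, e ▸ hφ⟩

end Pool.Agent.P.MP_2cea5e_gt.II
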