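import Pool.Agent.P.MP_2cea5e_gt.II.Lin
import Pool.Agent.P.MP_2cea5e_gt.II.GainTop
import Pool.Agent.P.MP_2cea5e_gt.II.JS
import Pool.Agent.P.MP_2cea5e_gt.II.Bound
import Pool.Agent.P.MP_2cea5e_gt.II.Lim
import Pool.Agent.P.MP_2cea5e_gt.II.Ext
import Pool.Agent.P.MP_2cea5e_gt.II.Zorn

/-!
Chapter II: assembly.
-/

open scoped ContDiff ComplexOrder Matrix Topology
open MeasureTheory Set Filter

noncomputable section

namespace Pool.Agent.P.MP_2cea5e_gt.II

theorem long_of (h1 : StShort) (h2 : StOsc) : StLong :=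
  long_of_ext h1 (ext_ok h1 js_ok (lim_ok (bound_ok h2 gain_ok)))

end Pool.Agent.P.MP_2cea5e_gt.II
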