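import Pool.Agent.P.MP_2cea5e_gt.II.JS
import Pool.Agent.P.MP_2cea5e_gt.II.Basic

/-!
Chapter II: the real form of the metric, the volume and the scalar curvature.
-/

open scoped ContDiff ComplexOrder Matrix Topology
open MeasureTheory Set Filter

noncomputable section

namespace Pool.Agent.P.MP_2cea5e_gt.II

variable {f u : C2 → ℝ}

theorem e1_eq (f : C2 → ℝ) (z : C2) : JS.e1 f z = Ee 0 f z := by rw [Ee_zero, JS.e1]; ring

theorem e2_eq (f : C2 → ℝ) (z : C2) : JS.e2 f z = Ee 1 f z := by rw [Ee_one, JS.e2]; ring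

theorem e3_eq (f : C2 → ℝ) (z : C2) : JS.e3 f z = Ee 2 f z := by rw [Ee_two, JS.e3]; ring

theorem e4_eq (f : C2 → ℝ) (z : C2) : JS.e4 f z = Ee 3 f z := by rw [Ee_three, JS.e4]; ring

theorem hess_real_form (hf : SmC f) (z : C2) : hess f z =
    !![(Ee 0 f z : ℂ), (Ee 2 f z : ℂ) + Complex.I * (Ee 3 f z : ℂ);
       (Ee 2 f z : ℂ) - Complex.I * (Ee 3 f z : ℂ), (Ee 1 f z : ℂ)] := by
  rw [JS.hess_pd hf, e1_eq, e2_eq, e3_eq, e4_eq]

theorem vol_eq (hf : SmC f) :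
    vol f = fun z => Ee 0 f z * Ee 1 f z - Ee 2 f z * Ee 2 f z - Ee 3 f z * Ee 3 f z := by
  funext z
  rw [JS.vol_pd hf, e1_eq, e2_eq, e3_eq, e4_eq]
  ring

theorem sm_vol (hf : SmC f) : SmC (vol f) :=
  JS.sm_vol hf

theorem form_eq (hf : SmC f) (z v : C2) : star v ⬝ᵥ hess f z *ᵥ v =
    ((Ee 0 f z * ‖v 0‖ ^ 2 + Ee 1 f z * ‖v 1‖ ^ 2 +
      2 * (Ee 2 f z * (star (v 0) * v 1).re - Ee 3 f z * (star (v 0) * v 1).im) : ℝ) : ℂ) := by
  rw [hess_real_form hf, Complex.sq_norm, Complex.sq_norm, Complex.normSq_apply,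
    Complex.normSq_apply]
  apply Complex.ext
  · simp [dotProduct, Matrix.mulVec, Fin.sum_univ_two]
    ring
  · simp [dotProduct, Matrix.mulVec, Fin.sum_univ_two]
    ring

theorem posDef_iff (hf : SmC f) (z : C2) :
    (hess f z).PosDef ↔ 0 < Ee 0 f z ∧ 0 < vol f z := by
  constructor
  · intro h
    refine ⟨?_, JS.vol_pos h⟩
    have h1 := h.dotProduct_mulVec_pos (x := ![1, 0]) (by simp)
    rw [form_eq hf] at h1
    simpa using h1
  · rintro ⟨h1, h2⟩
    refine Matrix.PosDef.of_dotProduct_mulVec_pos ?_ fun v hv => ?_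
    · rw [hess_real_form hf]
      ext j k
      fin_cases j <;> fin_cases k <;> simp [sub_eq_add_neg]
    · rw [form_eq hf, Complex.zero_lt_real, Complex.sq_norm, Complex.sq_norm, Complex.normSq_apply,
        Complex.normSq_apply]
      rw [vol_eq hf] at h2
      simp only [Complex.star_def, Complex.mul_re, Complex.mul_im, Complex.conj_re, Complex.conj_im]
      set a := Ee 0 f z
      set d := Ee 1 f z
      set p := Ee 2 f z
      set q := Ee 3 f z
      set x := (v 0).re with hx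
      set y := (v 0).im with hy
      set s := (v 1).re with hs
      set t := (v 1).im with ht
      have key : a * (a * (x * x + y * y) + d * (s * s + t * t) +
          2 * (p * (x * s - -y * t) - q * (x * t + -y * s))) =
          (a * x + p * s - q * t) ^ 2 + (a * y + p * t + q * s) ^ 2 +
            (a * d - p * p - q * q) * (s ^ 2 + t ^ 2) := by ring
      refine (mul_pos_iff_of_pos_left h1).1 ?_
      rw [key]
      by_cases h3 : s = 0 ∧ t = 0
      · have h4 : x ≠ 0 ∨ y ≠ 0 := by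
          by_contra h5
          push Not at h5
          apply hv
          funext j
          fin_cases j
          · exact Complex.ext h5.1 h5.2
          · exact Complex.ext h3.1 h3.2
        rw [h3.1, h3.2]
        rcases h4 with h4 | h4
        · have : 0 < (a * x) ^ 2 := by positivity
          nlinarith [sq_nonneg (a * y)]
        · have : 0 < (a * y) ^ 2 := by positivity
          nlinarith [sq_nonneg (a * x)]
      · have h4 : 0 < s ^ 2 + t ^ 2 := by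
          rcases not_and_or.1 h3 with h | h <;> positivity
        have := mul_pos h2 h4
        positivity

theorem Adm.vol_pos (h : Adm f) (z : C2) : 0 < vol f z := ((posDef_iff h.sm z).1 (h.pos z)).2

theorem qf_eq (hf : SmC f) (z v : C2) : qf f z v =
    Ee 0 f z * ‖v 0‖ ^ 2 + Ee 1 f z * ‖v 1‖ ^ 2 +
      2 * (Ee 2 f z * (star (v 0) * v 1).re - Ee 3 f z * (star (v 0) * v 1).im) := by
  rw [qf, form_eq hf, Complex.ofReal_re]

theorem qf_nonneg {z : C2} (h : (hess f z).PosDef) (v : C2) : 0 ≤ qf f z v :=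
  (Complex.nonneg_iff.1 (h.posSemidef.dotProduct_mulVec_nonneg v)).1

theorem vol_low (hf : SmC f) {z : C2} {Λ : ℝ} (h : ∀ v, ‖v‖ ^ 2 ≤ Λ * qf f z v) :
    1 ≤ Λ ^ 2 * vol f z := by
  have h1 := h ![1, 0]
  have h2 := h ![-((Ee 2 f z : ℂ) + Complex.I * (Ee 3 f z : ℂ)), (Ee 0 f z : ℂ)]
  have n1 : (1 : ℝ) ≤ ‖(![1, 0] : C2)‖ := by simpa using norm_le_pi_norm (![1, 0] : C2) 0
  have n2 : |Ee 0 f z| ≤
      ‖(![-((Ee 2 f z : ℂ) + Complex.I * (Ee 3 f z : ℂ)), (Ee 0 f z : ℂ)] : C2)‖ := by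
    simpa using norm_le_pi_norm
      (![-((Ee 2 f z : ℂ) + Complex.I * (Ee 3 f z : ℂ)), (Ee 0 f z : ℂ)] : C2) 1
  have n3 := pow_le_pow_left₀ (abs_nonneg _) n2 2
  have e1 : qf f z ![1, 0] = Ee 0 f z := by rw [qf_eq hf]; simp
  have e2 : qf f z ![-((Ee 2 f z : ℂ) + Complex.I * (Ee 3 f z : ℂ)), (Ee 0 f z : ℂ)] =
      Ee 0 f z * vol f z := by
    rw [qf_eq hf, vol_eq hf, Complex.sq_norm, Complex.sq_norm, Complex.normSq_apply,
      Complex.normSq_apply]
    simp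
    ring
  rw [e1] at h1
  rw [e2] at h2
  rw [sq_abs] at n3
  have h3 : 1 ≤ Λ * Ee 0 f z := by nlinarith
  have h4 : Ee 0 f z ^ 2 ≤ Λ * (Ee 0 f z * vol f z) := n3.trans h2
  have h5 := mul_le_mul_of_nonneg_left h4 (sq_nonneg Λ)
  have h6 : (Λ * Ee 0 f z) * (Λ * Ee 0 f z) ≤ (Λ * Ee 0 f z) * (Λ ^ 2 * vol f z) := by nlinarith
  exact h3.trans (le_of_mul_le_mul_left h6 (by linarith))

theorem close_of_qf (hf : SmC f) {z : C2} {δ : ℝ}
    (h : ∀ v : C2, |qf f z v - (‖v 0‖ ^ 2 + ‖v 1‖ ^ 2)| ≤ δ * (‖v 0‖ ^ 2 + ‖v 1‖ ^ 2))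
    (a : Fin 4) : |Ee a f z - I0 a| ≤ 2 * δ := by
  have h1 := h ![1, 0]
  have h2 := h ![0, 1]
  have h3 := h ![1, 1]
  have h4 := h ![1, Complex.I]
  rw [qf_eq hf] at h1 h2 h3 h4
  simp at h1 h2 h3 h4
  rw [abs_le] at h1 h2 h3 h4 ⊢
  fin_cases a <;> simp [I0] <;> constructor <;> linarith [h1.1, h1.2, h2.1, h2.2, h3.1, h3.2, h4.1, h4.2]

theorem vol_ge_of_close (hf : SmC f) {z : C2} {δ : ℝ} (hδ : δ ≤ 1 / 10)
    (h : ∀ a, |Ee a f z - I0 a| ≤ δ) : 1 / 2 ≤ vol f z := by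
  have h0 := abs_le.1 (h 0)
  have h1 := abs_le.1 (h 1)
  have h2 := abs_le.1 (h 2)
  have h3 := abs_le.1 (h 3)
  simp [I0] at h0 h1 h2 h3
  rw [vol_eq hf]
  have a1 : 9 / 10 * (9 / 10) ≤ Ee 0 f z * Ee 1 f z :=
    mul_le_mul (by linarith [h0.1]) (by linarith [h1.1]) (by norm_num) (by linarith [h0.1])
  have a2 : Ee 2 f z * Ee 2 f z ≤ 1 / 100 := by nlinarith [h2.1, h2.2]
  have a3 : Ee 3 f z * Ee 3 f z ≤ 1 / 100 := by nlinarith [h3.1, h3.2]
  simp only
  linarith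

theorem cf_close (hf : SmC f) {z : C2} {δ : ℝ} (hδ : δ ≤ 1 / 10)
    (h : ∀ a, |Ee a f z - I0 a| ≤ δ) (a : Fin 4) : |cf a f z - I0 a| ≤ 10 * δ := by
  have hV := vol_ge_of_close hf hδ h
  have h0 := abs_le.1 (h 0)
  have h1 := abs_le.1 (h 1)
  have h2 := abs_le.1 (h 2)
  have h3 := abs_le.1 (h 3)
  simp [I0] at h0 h1 h2 h3
  have eV := congrFun (vol_eq hf) z
  have d0 : 0 ≤ δ := by linarith [h0.1, h0.2]
  have a2 : Ee 2 f z * Ee 2 f z ≤ δ / 10 := by nlinarith [h2.1, h2.2]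
  have a3 : Ee 3 f z * Ee 3 f z ≤ δ / 10 := by nlinarith [h3.1, h3.2]
  have b2 := mul_self_nonneg (Ee 2 f z)
  have b3 := mul_self_nonneg (Ee 3 f z)
  have key : ∀ x y : ℝ, |x - y * vol f z| ≤ 5 * δ → |x * (vol f z)⁻¹ - y| ≤ 10 * δ := by
    intro x y hx
    have hp : 0 < vol f z := by linarith
    have : x * (vol f z)⁻¹ - y = (x - y * vol f z) / vol f z := by field_simp
    rw [this, abs_div, abs_of_pos hp, div_le_iff₀ hp]
    nlinarith
  fin_cases a
  · refine key (Ee 1 f z) 1 (abs_le.2 ⟨?_, ?_⟩) <;> nlinarith [h0.1, h0.2, h1.1, h1.2]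
  · refine key (Ee 0 f z) 1 (abs_le.2 ⟨?_, ?_⟩) <;> nlinarith [h0.1, h0.2, h1.1, h1.2]
  · refine key (-2 * Ee 2 f z) 0 (abs_le.2 ⟨?_, ?_⟩) <;> linarith [h2.1, h2.2]
  · refine key (-2 * Ee 3 f z) 0 (abs_le.2 ⟨?_, ?_⟩) <;> linarith [h3.1, h3.2]

/-- The trace of a complex Hessian with respect to the metric. -/
theorem trace_eq (h : Adm f) (hu : SmC u) (z : C2) :
    ((hess f z)⁻¹ * hess u z).trace.re = Lam f u z := by
  rw [JS.tr_pd h.sm hu]
  simp only [e1_eq, e2_eq, e3_eq, e4_eq, Lam, cf, Fin.sum_univ_four]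
  simp
  ring

theorem scal_eq (h : Adm f) : scal f = fun z => -Lam f (fun w => Real.log (vol f w)) z := by
  funext z
  rw [scal, trace_eq h ((sm_vol h.sm).log fun z => (h.vol_pos z).ne')]

theorem sm_cf (h : Adm f) (a : Fin 4) : SmC (cf a f) := by
  refine ContDiff.mul ?_ ((sm_vol h.sm).inv fun z => (h.vol_pos z).ne')
  fin_cases a
  · exact sm_Ee 1 h.sm
  · exact sm_Ee 0 h.sm
  · exact ContDiff.mul contDiff_const (sm_Ee 2 h.sm)
  · exact ContDiff.mul contDiff_const (sm_Ee 3 h.sm)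

theorem sm_Lam (h : Adm f) (hu : SmC u) : SmC (Lam f u) :=
  sm_sum Finset.univ fun a _ => ContDiff.mul (sm_cf h a) (sm_Ee a hu)

theorem sm_scal (h : Adm f) : SmC (scal f) := by
  rw [scal_eq h]
  exact ContDiff.neg (sm_Lam h ((sm_vol h.sm).log fun z => (h.vol_pos z).ne'))

theorem pd_vol (hf : SmC f) (p : Fin 4) (h0 : ∀ z, vol f z ≠ 0) :
    pd p (fun w => Real.log (vol f w)) = fun z => ∑ b, cf b f z * pd p (Ee b f) z := by
  have s := fun a => sm_Ee a hf
  have e : pd p (vol f) = fun z => pd p (Ee 0 f) z * Ee 1 f z + Ee 0 f z * pd p (Ee 1 f) z -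
      (pd p (Ee 2 f) z * Ee 2 f z + Ee 2 f z * pd p (Ee 2 f) z) -
      (pd p (Ee 3 f) z * Ee 3 f z + Ee 3 f z * pd p (Ee 3 f) z) := by
    rw [vol_eq hf, pd_sub' p (ContDiff.sub ((s 0).mul (s 1)) ((s 2).mul (s 2))) ((s 3).mul (s 3)),
      pd_sub' p ((s 0).mul (s 1)) ((s 2).mul (s 2)), pd_mul' p (s 0) (s 1), pd_mul' p (s 2) (s 2),
      pd_mul' p (s 3) (s 3)]
  rw [pd_log' p (sm_vol hf) h0, e]
  funext z
  simp only [cf, Fin.sum_univ_four]
  simp
  ring

theorem Ee_eq_pdl (a : Fin 4) (f : C2 → ℝ) :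
    Ee a f = fun z => ∑ p, ∑ q, ec a p q * pdl [p, q] f z := rfl

theorem lap_sum' {J : Type*} (s : Finset J) {F : J → C2 → ℝ} (h : ∀ j ∈ s, SmC (F j)) :
    lap (fun z => ∑ j ∈ s, F j z) = fun z => ∑ j ∈ s, lap (F j) z := by
  funext z
  have : ∀ a, pd a (pd a fun z => ∑ j ∈ s, F j z) = fun z => ∑ j ∈ s, pd a (pd a (F j)) z :=
    fun a => pdl_sum' [a, a] s h
  simp only [lap, this]
  exact Finset.sum_comm

theorem lap_cmul' (c : ℝ) (hf : SmC f) : lap (fun z => c * f z) = fun z => c * lap f z := by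
  funext z
  have : ∀ a, pd a (pd a fun z => c * f z) = fun z => c * pd a (pd a f) z :=
    fun a => pdl_cmul' [a, a] c hf
  simp only [lap, this, Finset.mul_sum]

theorem Ee_lap (a : Fin 4) (hf : SmC f) : Ee a (lap f) = lap (Ee a f) := by
  funext z
  have : ∀ b, pd b (pd b (Ee a f)) = Ee a (pd b (pd b f)) := fun b => pdl_Ee [b, b] a hf
  have h2 : ∀ p q, pd p (pd q (lap f)) = fun z => ∑ b, pd p (pd q (pd b (pd b f))) z :=
    fun p q => pdl_sum' [p, q] Finset.univ fun b _ => sm_pd b (sm_pd b hf)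
  rw [lap]
  simp only [this, Ee, h2, Finset.mul_sum]
  rw [Finset.sum_comm (f := fun b p => ∑ q, ec a p q * pd p (pd q (pd b (pd b f))) z)]
  exact Finset.sum_congr rfl fun p _ => Finset.sum_comm

theorem lap_lap_eq (hf : SmC f) (z : C2) :
    lap (lap f) z = 16 * ∑ a, ∑ b, I0 a * I0 b * Ee a (Ee b f) z := by
  have e : lap f = fun z => 4 * (Ee 0 f z + Ee 1 f z) := funext (lap_eq f)
  have s := fun a => sm_Ee a hf
  have e2 : ∀ a, Ee a (lap f) z = 4 * (Ee a (Ee 0 f) z + Ee a (Ee 1 f) z) := fun a => by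
    have : ∀ p q, pd p (pd q fun z => 4 * (Ee 0 f z + Ee 1 f z)) =
        fun z => 4 * (pd p (pd q (Ee 0 f)) z + pd p (pd q (Ee 1 f)) z) := fun p q => by
      have h1 := pdl_cmul' [p, q] 4 (ContDiff.add (s 0) (s 1))
      have h2 := pdl_add' [p, q] (s 0) (s 1)
      rw [h2] at h1
      exact h1
    rw [e, Ee, Ee, Ee]
    simp only [this, ← Finset.sum_add_distrib, Finset.mul_sum]
    exact Finset.sum_congr rfl fun p _ => Finset.sum_congr rfl fun q _ => by ring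
  rw [lap_eq, e2, e2]
  simp [Fin.sum_univ_four, I0]
  ring

theorem Ee_add' (a : Fin 4) (hf : SmC f) (hu : SmC u) :
    Ee a (fun z => f z + u z) = fun z => Ee a f z + Ee a u z := by
  funext z
  have : ∀ p q, pd p (pd q fun z => f z + u z) = fun z => pd p (pd q f) z + pd p (pd q u) z :=
    fun p q => pdl_add' [p, q] hf hu
  simp only [Ee, this, mul_add, Finset.sum_add_distrib]

theorem Ee_sub' (a : Fin 4) (hf : SmC f) (hu : SmC u) :
    Ee a (fun z => f z - u z) = fun z => Ee a f z - Ee a u z := by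
  funext z
  have : ∀ p q, pd p (pd q fun z => f z - u z) = fun z => pd p (pd q f) z - pd p (pd q u) z :=
    fun p q => pdl_sub' [p, q] hf hu
  simp only [Ee, this, mul_sub, Finset.sum_sub_distrib]

theorem Ee_cmul' (a : Fin 4) (c : ℝ) (hf : SmC f) :
    Ee a (fun z => c * f z) = fun z => c * Ee a f z := by
  funext z
  have : ∀ p q, pd p (pd q fun z => c * f z) = fun z => c * pd p (pd q f) z :=
    fun p q => pdl_cmul' [p, q] c hf
  simp only [Ee, this, Finset.mul_sum]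
  exact Finset.sum_congr rfl fun p _ => Finset.sum_congr rfl fun q _ => by ring

theorem Ee_const (a : Fin 4) (c : ℝ) : Ee a (fun _ => c) = fun _ => 0 := by
  funext z
  simp [Ee, pd_const]

end Pool.Agent.P.MP_2cea5e_gt.II
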