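import Pool.Agent.P.MP_2cea5e_gt.II.ClA
import Pool.Agent.P.MP_2cea5e_gt.II.IFD

/-!
Chapter II: integrals over balls, integration by parts, cutoffs.
-/

open scoped ContDiff ComplexOrder Matrix Topology
open MeasureTheory Set Filter

noncomputable section

namespace Pool.Agent.P.MP_2cea5e_gt.II

variable {h k : C2 → ℝ} {R r : ℝ}

theorem vb_nonneg (R : ℝ) : 0 ≤ vb R := ENNReal.toReal_nonneg

theorem integrableOn_ball (hh : Continuous h) (c : C2) (R : ℝ) :
    IntegrableOn h (Metric.ball c R) :=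
  (hh.continuousOn.integrableOn_compact (isCompact_closedBall c R)).mono_set
    Metric.ball_subset_closedBall

theorem bi_congr (e : ∀ z ∈ Metric.ball (0 : C2) R, h z = k z) : bi R h = bi R k :=
  setIntegral_congr_fun measurableSet_ball e

theorem bi_add (hh : Continuous h) (hk : Continuous k) :
    bi R (fun z => h z + k z) = bi R h + bi R k :=
  integral_add (integrableOn_ball hh 0 R) (integrableOn_ball hk 0 R)

theorem bi_sub (hh : Continuous h) (hk : Continuous k) :
    bi R (fun z => h z - k z) = bi R h - bi R k :=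
  integral_sub (integrableOn_ball hh 0 R) (integrableOn_ball hk 0 R)

theorem bi_cmul (c : ℝ) (h : C2 → ℝ) : bi R (fun z => c * h z) = c * bi R h :=
  integral_const_mul c h

theorem bi_sum {J : Type*} (s : Finset J) {H : J → C2 → ℝ} (hH : ∀ j ∈ s, Continuous (H j)) :
    bi R (fun z => ∑ j ∈ s, H j z) = ∑ j ∈ s, bi R (H j) :=
  integral_finsetSum s fun j hj => integrableOn_ball (hH j hj) 0 R

theorem bi_const (c : ℝ) : bi R (fun _ => c) = c * vb R := by
  simp [bi, vb, Measure.real, mul_comm]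

theorem bi_mono (hh : Continuous h) (hk : Continuous k)
    (e : ∀ z ∈ Metric.ball (0 : C2) R, h z ≤ k z) : bi R h ≤ bi R k :=
  setIntegral_mono_on (integrableOn_ball hh 0 R) (integrableOn_ball hk 0 R) measurableSet_ball e

theorem bi_nonneg (e : ∀ z ∈ Metric.ball (0 : C2) R, 0 ≤ h z) : 0 ≤ bi R h :=
  setIntegral_nonneg measurableSet_ball e

theorem bi_mono_rad (hh : Continuous h) (hr : r ≤ R) (e : ∀ z ∈ Metric.ball (0 : C2) R, 0 ≤ h z) :
    bi r h ≤ bi R h :=
  setIntegral_mono_set (integrableOn_ball hh 0 R)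
    ((ae_restrict_iff' measurableSet_ball).2 (Eventually.of_forall e))
    (Metric.ball_subset_ball hr).eventuallyLE

theorem ball_le_bi (hh : Continuous h) {c : C2} (hr : ‖c‖ + r ≤ R)
    (e : ∀ z ∈ Metric.ball (0 : C2) R, 0 ≤ h z) : ∫ z in Metric.ball c r, h z ≤ bi R h := by
  refine setIntegral_mono_set (integrableOn_ball hh 0 R)
    ((ae_restrict_iff' measurableSet_ball).2 (Eventually.of_forall e))
    (LE.le.eventuallyLE (Metric.ball_subset_ball' ?_))
  rw [dist_zero_right]
  linarith

theorem bi_shift (h : C2 → ℝ) (c : C2) (R : ℝ) :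
    bi R (fun y => h (c + y)) = ∫ z in Metric.ball c R, h z := by
  have e := (measurePreserving_add_left (volume : Measure C2) c).setIntegral_preimage_emb
    (measurableEmbedding_addLeft c) h (Metric.ball c R)
  have e2 : (fun y : C2 => c + y) ⁻¹' Metric.ball c R = Metric.ball 0 R := by
    ext y
    simp [Metric.mem_ball, dist_eq_norm]
  rw [e2] at e
  exact e

theorem bi_cont {G : ℝ → C2 → ℝ} {a b : ℝ} (hG : JC (Icc a b) G) (R : ℝ) :
    ContinuousOn (fun t => bi R (G t)) (Icc a b) := by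
  obtain ⟨C, -, hC⟩ := hG.bound isCompact_Icc R
  refine continuousOn_of_dominated (bound := fun _ => C)
    (fun t ht => (hG.space ht).aestronglyMeasurable) (fun t ht => ?_)
    (integrableOn_ball continuous_const 0 R) (Eventually.of_forall fun z => hG.time z)
  refine (ae_restrict_iff' measurableSet_ball).2 (Eventually.of_forall fun z hz => ?_)
  exact hC t ht z (mem_ball_zero_iff.1 hz).le

theorem bi_ii {G : ℝ → C2 → ℝ} {a b s t : ℝ} (hG : JC (Icc a b) G) (R : ℝ) (hs : s ∈ Icc a b)
    (ht : t ∈ Icc a b) : IntervalIntegrable (fun t => bi R (G t)) volume s t :=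
  ((bi_cont hG R).mono (uIcc_subset_Icc hs ht)).intervalIntegrable

theorem bi_fubini {G : ℝ → C2 → ℝ} {s t : ℝ} (hst : s ≤ t) (hG : JC (Icc s t) G) (R : ℝ) :
    bi R (fun z => ∫ τ in s..t, G τ z) = ∫ τ in s..t, bi R (G τ) := by
  refine (intervalIntegral_integral_swap (μ := volume.restrict (Metric.ball (0 : C2) R))
    (f := G) ?_).symm
  rw [Measure.prod_restrict, uIoc_of_le hst]
  have hc : IsCompact (Icc s t ×ˢ Metric.closedBall (0 : C2) R) :=
    isCompact_Icc.prod (isCompact_closedBall 0 R)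
  have h1 : ContinuousOn (Function.uncurry G) (Icc s t ×ˢ Metric.closedBall (0 : C2) R) :=
    ContinuousOn.mono hG (prod_mono le_rfl (subset_univ _))
  exact (h1.integrableOn_compact hc).mono_set
    (prod_mono Ioc_subset_Icc_self Metric.ball_subset_closedBall)

/-- Integration by parts against a function supported in the ball. -/
theorem ibp {w u : C2 → ℝ} (hw : SmC w) (hu : SmC u) (hs : tsupport w ⊆ Metric.ball 0 R)
    (a : Fin 4) : bi R (fun z => w z * pd a u z) = -bi R fun z => pd a w z * u z := by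
  have hc : HasCompactSupport w :=
    (isCompact_closedBall (0 : C2) R).of_isClosed_subset (isClosed_tsupport w)
      (hs.trans Metric.ball_subset_closedBall)
  have hc' : HasCompactSupport (pd a w) := hc.fderiv_apply ℝ (dir a)
  have z1 : ∀ z, z ∉ Metric.ball (0 : C2) R → w z = 0 := fun z hz =>
    image_eq_zero_of_notMem_tsupport fun h => hz (hs h)
  have z2 : ∀ z, z ∉ Metric.ball (0 : C2) R → pd a w z = 0 := fun z hz =>
    image_eq_zero_of_notMem_tsupport fun h => hz (hs (tsupport_fderiv_apply_subset ℝ (dir a) h))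
  unfold bi
  rw [setIntegral_eq_integral_of_forall_compl_eq_zero fun z hz => by rw [z1 z hz, zero_mul],
    setIntegral_eq_integral_of_forall_compl_eq_zero fun z hz => by rw [z2 z hz, zero_mul]]
  exact integral_mul_fderiv_eq_neg_fderiv_mul_of_integrable
    (((sm_pd a hw).cont.mul hu.cont).integrable_of_hasCompactSupport hc'.mul_right)
    ((hw.cont.mul (sm_pd a hu).cont).integrable_of_hasCompactSupport hc.mul_right)
    ((hw.cont.mul hu.cont).integrable_of_hasCompactSupport hc.mul_right)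
    (fun x _ => hw.diff x) fun x _ => hu.diff x

theorem tsupport_pd (a : Fin 4) (w : C2 → ℝ) : tsupport (pd a w) ⊆ tsupport w :=
  tsupport_fderiv_apply_subset ℝ (dir a)

theorem exists_cut (hr : 0 < r) (hR : r < R) :
    ∃ (η : C2 → ℝ) (M : ℝ), Cut η R M ∧ ∀ z, ‖z‖ ≤ r → η z = 1 := by
  let b : ContDiffBump (0 : C2) := ⟨r, (r + R) / 2, hr, by linarith⟩
  have hb : SmC b := b.contDiff
  have hc : HasCompactSupport b := b.hasCompactSupport
  have h1 : ∀ a, ∃ C, ∀ z, ‖pd a b z‖ ≤ C := fun a =>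
    (sm_pd a hb).cont.bounded_above_of_compact_support (hc.fderiv_apply ℝ (dir a))
  have h2 : ∀ p : Fin 4 × Fin 4, ∃ C, ∀ z, ‖pd p.1 (pd p.2 b) z‖ ≤ C := fun p =>
    (sm_pd p.1 (sm_pd p.2 hb)).cont.bounded_above_of_compact_support
      (HasCompactSupport.fderiv_apply ℝ (f := pd p.2 b) (hc.fderiv_apply ℝ (dir p.2)) (dir p.1))
  choose C1 hC1 using h1
  choose C2' hC2 using h2
  have n1 : ∀ a, 0 ≤ C1 a := fun a => (norm_nonneg _).trans (hC1 a 0)
  have n2 : ∀ p, 0 ≤ C2' p := fun p => (norm_nonneg _).trans (hC2 p 0)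
  have s1 : 0 ≤ ∑ a, C1 a := Finset.sum_nonneg fun a _ => n1 a
  have s2 : 0 ≤ ∑ p, C2' p := Finset.sum_nonneg fun p _ => n2 p
  refine ⟨b, 1 + ∑ a, C1 a + ∑ p, C2' p, ⟨hb, fun z => b.nonneg, fun z => b.le_one, ?_,
    by linarith, fun a z => ?_, fun a a' z => ?_⟩, fun z hz => ?_⟩
  · rw [b.tsupport_eq]
    exact Metric.closedBall_subset_ball (by show (r + R) / 2 < R; linarith)
  · have := Finset.single_le_sum (f := C1) (fun a _ => n1 a) (Finset.mem_univ a)
    have h := hC1 a z
    rw [Real.norm_eq_abs] at h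
    linarith
  · have := Finset.single_le_sum (f := C2') (fun a _ => n2 a) (Finset.mem_univ (a, a'))
    have h := hC2 (a, a') z
    rw [Real.norm_eq_abs] at h
    nlinarith
  · exact b.one_of_mem_closedBall (mem_closedBall_zero_iff.2 hz)

theorem Cut.scale {η : C2 → ℝ} {M lam : ℝ} (hη : Cut η R M) (hl : 0 < lam) :
    Cut (fun z => η (lam⁻¹ • z)) (lam * R) (M / lam) := by
  have e : ∀ l : List (Fin 4), pdl l (fun y => η (lam⁻¹ • y)) =
      fun y => lam⁻¹ ^ l.length * pdl l η (lam⁻¹ • y) := fun l => by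
    simpa using pdl_scale l hη.sm 0 lam⁻¹
  have hi : 0 < lam⁻¹ := inv_pos.2 hl
  refine ⟨hη.sm.comp (contDiff_const_smul _), fun z => hη.nn _, fun z => hη.le _, ?_,
    div_pos hη.pos hl, fun a z => ?_, fun a b z => ?_⟩
  · have hcl : IsClosed ((fun z : C2 => lam⁻¹ • z) ⁻¹' tsupport η) :=
      (isClosed_tsupport η).preimage (continuous_const_smul _)
    intro z hz
    have h1 : lam⁻¹ • z ∈ tsupport η :=
      closure_minimal (fun y hy => (subset_tsupport η hy : lam⁻¹ • y ∈ tsupport η)) hcl hz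
    have h2 := mem_ball_zero_iff.1 (hη.supp h1)
    rw [norm_smul, Real.norm_of_nonneg hi.le, inv_mul_lt_iff₀ hl] at h2
    exact mem_ball_zero_iff.2 h2
  · have h := congrFun (e [a]) z
    simp only [pdl_cons, pdl_nil, List.length_cons, List.length_nil, zero_add, pow_one] at h
    rw [h, abs_mul, abs_of_pos hi, div_eq_inv_mul]
    exact mul_le_mul_of_nonneg_left (hη.d1 a _) hi.le
  · have h := congrFun (e [a, b]) z
    simp only [pdl_cons, pdl_nil, List.length_cons, List.length_nil, zero_add] at h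
    rw [h, abs_mul, abs_of_pos (pow_pos hi _), div_eq_inv_mul, mul_pow]
    exact mul_le_mul_of_nonneg_left (hη.d2 a b _) (pow_pos hi _).le

/-- A point below the mean value. -/
theorem exists_le_mean {E : ℝ → ℝ} {a b : ℝ} (hab : a < b) (hE : ContinuousOn E (Icc a b)) :
    ∃ s ∈ Icc a b, (b - a) * E s ≤ ∫ t in a..b, E t := by
  obtain ⟨s, hs, hm⟩ := isCompact_Icc.exists_isMinOn (nonempty_Icc.2 hab.le) hE
  refine ⟨s, hs, ?_⟩
  have := intervalIntegral.integral_mono_on (μ := volume) hab.le
    (intervalIntegrable_const (c := E s)) (hE.intervalIntegrable_of_Icc hab.le) fun x hx => hm hx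
  simpa using this

/-- Monotonicity of the integral of a nonnegative function in the interval. -/
theorem int_mono_interval {E : ℝ → ℝ} {a b s t : ℝ} (hE : ContinuousOn E (Icc a b))
    (h0 : ∀ τ ∈ Icc a b, 0 ≤ E τ) (h1 : a ≤ s) (h2 : s ≤ t) (h3 : t ≤ b) :
    ∫ τ in s..t, E τ ≤ ∫ τ in a..b, E τ :=
  intervalIntegral.integral_mono_interval h1 h2 h3
    ((ae_restrict_iff' measurableSet_Ioc).2
      (Eventually.of_forall fun τ hτ => h0 τ (Ioc_subset_Icc_self hτ)))
    (hE.intervalIntegrable_of_Icc (h1.trans (h2.trans h3)))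

end Pool.Agent.P.MP_2cea5e_gt.II
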