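import Pool.Agent.P.MP_2cea5e_gt.II.Basic

/-!
Chapter II: monomial changes of chart.
-/

open scoped ContDiff ComplexOrder Matrix Topology
open MeasureTheory Set Filter

noncomputable section

namespace Pool.Agent.P.MP_2cea5e_gt.II

theorem mon_ne (A : Matrix (Fin 2) (Fin 2) ℤ) {w : C2} (hw : ∀ k, w k ≠ 0) (j : Fin 2) :
    mon A w j ≠ 0 := Finset.prod_ne_zero_iff.2 fun k _ => zpow_ne_zero _ (hw k)

theorem mon_mon (A B : Matrix (Fin 2) (Fin 2) ℤ) {w : C2} (hw : ∀ k, w k ≠ 0) :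
    mon A (mon B w) = mon (A * B) w := by
  funext j
  simp only [mon, Fin.prod_univ_two, Matrix.mul_apply, Fin.sum_univ_two, mul_zpow, ← zpow_mul,
    zpow_add₀ (hw 0), zpow_add₀ (hw 1)]
  rw [mul_comm (B 0 0), mul_comm (B 0 1), mul_comm (B 1 0), mul_comm (B 1 1)]
  ring

theorem mon_one (w : C2) : mon 1 w = w := by
  funext j
  fin_cases j <;> simp [mon, Fin.prod_univ_two, Matrix.one_apply]

theorem mon_mul (A : Matrix (Fin 2) (Fin 2) ℤ) (θ w : C2) :
    mon A (θ * w) = mon A θ * mon A w := by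
  funext j
  simp only [mon, Pi.mul_apply, mul_zpow, Finset.prod_mul_distrib]

theorem norm_mon_unit (A : Matrix (Fin 2) (Fin 2) ℤ) {θ : C2} (h : ∀ j, ‖θ j‖ = 1) (j : Fin 2) :
    ‖mon A θ j‖ = 1 := by
  simp [mon, norm_zpow, h]

theorem log_norm_mon (A : Matrix (Fin 2) (Fin 2) ℤ) {w : C2} (hw : ∀ k, w k ≠ 0) (j : Fin 2) :
    Real.log ‖mon A w j‖ = ∑ k, (A j k : ℝ) * Real.log ‖w k‖ := by
  simp only [mon, Fin.prod_univ_two, Fin.sum_univ_two, norm_mul, norm_zpow]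
  rw [Real.log_mul (zpow_ne_zero _ (norm_ne_zero_iff.2 (hw 0)))
    (zpow_ne_zero _ (norm_ne_zero_iff.2 (hw 1))), Real.log_zpow, Real.log_zpow]

theorem tr_mon {A : Matrix (Fin 2) (Fin 2) ℤ} (hA : IsUnit A.det) (B : Matrix (Fin 2) (Fin 2) ℤ)
    {w : C2} (hw : ∀ k, w k ≠ 0) : mon (B * A⁻¹) (mon A w) = mon B w := by
  rw [mon_mon _ _ hw, Matrix.nonsing_inv_mul_cancel_right _ _ hA]

theorem exists_mon {A : Matrix (Fin 2) (Fin 2) ℤ} (hA : IsUnit A.det) {z : C2}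
    (hz : ∀ k, z k ≠ 0) : ∃ w : C2, (∀ k, w k ≠ 0) ∧ mon A w = z :=   ⟨mon A⁻¹ z, mon_ne _ hz, by rw [mon_mon _ _ hz, Matrix.mul_nonsing_inv _ hA, mon_one]⟩

theorem isOpen_DomT (M : Matrix (Fin 2) (Fin 2) ℤ) : IsOpen (DomT M) := by
  have : DomT M = ⋂ j, ⋂ k, {z : C2 | M j k < 0 → z k ≠ 0} := by
    ext z; simp [DomT]
  rw [this]
  refine isOpen_iInter_of_finite fun j => isOpen_iInter_of_finite fun k => ?_
  by_cases h : M j k < 0
  · simp only [h, true_imp_iff]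
    exact isOpen_ne_fun (continuous_apply k) continuous_const
  · simp [h]

theorem contDiffOn_mon (M : Matrix (Fin 2) (Fin 2) ℤ) : ContDiffOn ℝ ∞ (mon M) (DomT M) := by
  refine contDiffOn_pi.2 fun j => ?_
  refine contDiffOn_prod (t := Finset.univ) (f := fun k (z : C2) => z k ^ M j k) fun k _ => ?_
  have hk : ContDiff ℝ ∞ fun z : C2 => z k := contDiff_apply ℝ ℂ k
  obtain ⟨n, h | h⟩ := Int.eq_nat_or_neg (M j k)
  · simp only [h, zpow_natCast]
    exact (hk.pow n).contDiffOn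
  · rcases Nat.eq_zero_or_pos n with rfl | hn
    · simp only [h, Nat.cast_zero, neg_zero, zpow_zero]
      exact contDiffOn_const
    · simp only [h, zpow_neg, zpow_natCast]
      exact (hk.pow n).contDiffOn.inv fun z hz => pow_ne_zero _ (hz j k (by omega))

theorem isOpen_torus : IsOpen {z : C2 | ∀ k, z k ≠ 0} := by
  have : {z : C2 | ∀ k, z k ≠ 0} = ⋂ k, {z : C2 | z k ≠ 0} := by
    ext z; simp
  rw [this]
  exact isOpen_iInter_of_finite fun k => isOpen_ne_fun (continuous_apply k) continuous_const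

theorem dense_torus : Dense {z : C2 | ∀ k, z k ≠ 0} := by
  have hd : Dense (Set.pi univ fun _ : Fin 2 => ({0}ᶜ : Set ℂ)) :=
    dense_pi univ fun _ _ => dense_compl_singleton 0
  refine hd.mono fun z hz => ?_
  exact fun k => hz k (mem_univ k)

theorem le_of_torus {g h : C2 → ℝ} (hg : Continuous g) (hh : Continuous h) {U : Set C2}
    (hU : IsOpen U) (e : ∀ z ∈ U, (∀ k, z k ≠ 0) → g z ≤ h z) : ∀ z ∈ U, g z ≤ h z := fun _ hz =>
  closure_minimal (s := U ∩ {z : C2 | ∀ k, z k ≠ 0}) (fun w hw => e w hw.1 hw.2)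
    (isClosed_le hg hh) (dense_torus.open_subset_closure_inter hU hz)

variable {ι : Type} {m : ι → Matrix (Fin 2) (Fin 2) ℤ}

/-- Points bounded in two charts stay away from the poles of the change of chart. -/
theorem cc_low (hm : IsFanD m) (σ τ : ι) (R : ℝ) : ∃ b : ℝ, 0 < b ∧ ∀ z : C2, (∀ k, z k ≠ 0) →
    ‖z‖ ≤ R → ‖mon (m τ * (m σ)⁻¹) z‖ ≤ R → ∀ j k, (m τ * (m σ)⁻¹) j k < 0 → b ≤ ‖z k‖ := by
  by_cases hst : σ = τ
  · subst hst
    refine ⟨1, one_pos, fun z _ _ _ j k h => ?_⟩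
    rw [Matrix.mul_nonsing_inv _ (hm.unimod σ)] at h
    fin_cases j <;> fin_cases k <;> simp at h
  set c : Matrix (Fin 2) (Fin 2) ℤ → Matrix (Fin 2) (Fin 2) ℝ :=
    fun A => A.map (Int.castRingHom ℝ) with hc
  have cm : ∀ A B, c (A * B) = c A * c B := fun A B => Matrix.map_mul
  have c1 : c 1 = 1 := Matrix.map_one _ (map_zero _) (map_one _)
  have cv : ∀ A (x : Fin 2 → ℝ) j, (c A *ᵥ x) j = ∑ k, (A j k : ℝ) * x k := fun A x j => rfl
  set M := m τ * (m σ)⁻¹ with hM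
  set u : Fin 2 → ℝ := c (m τ)⁻¹ *ᵥ fun _ => 1 with hu
  set n : Fin 2 → ℝ := c (m σ) *ᵥ u with hn
  set C := |R| + 1 with hC
  set R₀ := C * (|n 0| + |n 1|) + 1 with hR₀
  set S : ℝ := |(M 0 0 : ℝ)| + |(M 0 1 : ℝ)| + |(M 1 0 : ℝ)| + |(M 1 1 : ℝ)| with hS
  have R0 := abs_nonneg R
  have R1 := le_abs_self R
  have C0 : 0 < C := by positivity
  have p0 : 0 < R₀ := by positivity
  have S0 : 0 ≤ S := by positivity
  refine ⟨Real.exp (-(R₀ + |R| + S * (R₀ + |R|))), Real.exp_pos _, fun z hz h1 h2 j k hjk => ?_⟩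
  set x : Fin 2 → ℝ := fun k => Real.log ‖z k‖ with hx
  have x1 : ∀ k, x k ≤ R := fun k =>
    (Real.log_le_self (norm_nonneg _)).trans ((norm_le_pi_norm z k).trans h1)
  have x2 : ∀ j, ∑ k, (M j k : ℝ) * x k ≤ R := fun j => by
    rw [← log_norm_mon M hz j]
    exact (Real.log_le_self (norm_nonneg _)).trans ((norm_le_pi_norm _ j).trans h2)
  have x3 : ¬∀ i, x i ≤ -R₀ := fun h => by
    refine hm.disj σ τ hst (c (m σ)⁻¹ *ᵥ x - C • u) (fun j => ?_) fun j => ?_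
    · rw [← cv, Matrix.mulVec_sub, Matrix.mulVec_smul, Matrix.mulVec_mulVec, ← cm,
        Matrix.mul_nonsing_inv _ (hm.unimod σ), c1, Matrix.one_mulVec, ← hn]
      have h3 : -|n j| ≤ n j := neg_abs_le _
      have h4 : |n j| ≤ |n 0| + |n 1| := by
        fin_cases j
        · exact le_add_of_nonneg_right (abs_nonneg _)
        · exact le_add_of_nonneg_left (abs_nonneg _)
      have h5 := h j
      simp only [Pi.sub_apply, Pi.smul_apply, smul_eq_mul]
      nlinarith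
    · rw [← cv, Matrix.mulVec_sub, Matrix.mulVec_smul, Matrix.mulVec_mulVec, ← cm, hu,
        Matrix.mulVec_mulVec, ← cm, Matrix.mul_nonsing_inv _ (hm.unimod τ), c1, Matrix.one_mulVec]
      have h5 := x2 j
      simp only [Pi.sub_apply, Pi.smul_apply, smul_eq_mul, cv, ← hM]
      linarith
  rw [← Real.exp_log (norm_pos_iff.2 (hz k))]
  refine Real.exp_le_exp.2 ?_
  change _ ≤ x k
  have q0 : 0 ≤ S * (R₀ + |R|) := by positivity
  by_cases hk : x k ≤ -R₀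
  swap
  · linarith [not_le.1 hk]
  have key : ∀ i, -R₀ < x i → (M j k : ℝ) * x k + (M j i : ℝ) * x i ≤ R →
      -(R₀ + |R| + S * (R₀ + |R|)) ≤ x k := fun i h3 h4 => by
    have h5 : (M j k : ℝ) ≤ -1 := by exact_mod_cast (show M j k ≤ -1 by omega)
    have h6 : |x i| ≤ R₀ + |R| := abs_le.2 ⟨by linarith, by linarith [x1 i]⟩
    have h7 : |(M j i : ℝ)| ≤ S := by
      have a1 := abs_nonneg (M 0 0 : ℝ)
      have a2 := abs_nonneg (M 0 1 : ℝ)
      have a3 := abs_nonneg (M 1 0 : ℝ)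
      have a4 := abs_nonneg (M 1 1 : ℝ)
      fin_cases j <;> fin_cases i <;> simp only [Fin.zero_eta, Fin.mk_one, Fin.isValue] <;> linarith
    have h8 : |(M j i : ℝ) * x i| ≤ S * (R₀ + |R|) := by
      rw [abs_mul]
      exact mul_le_mul h7 h6 (abs_nonneg _) S0
    have h9 := (abs_le.1 h8).1
    nlinarith
  have h4 := x2 j
  rw [Fin.sum_univ_two] at h4
  push Not at x3
  obtain ⟨i, hi⟩ := x3
  refine key i hi ?_
  have hne : i ≠ k := fun h => by rw [h] at hi; linarith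
  fin_cases i <;> fin_cases k <;> simp only [Fin.zero_eta, Fin.mk_one, Fin.isValue] at hne ⊢
  · exact absurd rfl hne
  · linarith
  · linarith
  · exact absurd rfl hne

theorem cc_bd (hm : IsFanD m) (σ τ : ι) (R : ℝ) (n : ℕ) : ∃ D : ℝ, 0 ≤ D ∧ ∀ z : C2,
    (∀ k, z k ≠ 0) → ‖z‖ ≤ R → ‖mon (m τ * (m σ)⁻¹) z‖ ≤ R → ∀ i, 1 ≤ i → i ≤ n →
      ‖iteratedFDeriv ℝ i (mon (m τ * (m σ)⁻¹)) z‖ ≤ D ^ i := by
  obtain ⟨b, hb, h⟩ := cc_low hm σ τ R
  set M := m τ * (m σ)⁻¹ with hM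
  set K : Set C2 := Metric.closedBall 0 R ∩ ⋂ j, ⋂ k, {z : C2 | M j k < 0 → b ≤ ‖z k‖} with hK
  have cK : IsCompact K := by
    refine (isCompact_closedBall _ _).inter_right
      (isClosed_iInter fun j => isClosed_iInter fun k => ?_)
    by_cases h : M j k < 0
    · simp only [h, true_imp_iff]
      exact isClosed_le continuous_const (continuous_apply k).norm
    · simp [h]
  have sub : K ⊆ DomT M := fun z hz j k hjk =>
    norm_pos_iff.1 (hb.trans_le (mem_iInter.1 (mem_iInter.1 hz.2 j) k hjk))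
  have bd : ∀ i : ℕ, ∃ B : ℝ, ∀ z ∈ K, ‖iteratedFDeriv ℝ i (mon M) z‖ ≤ B := fun i =>
    cK.exists_bound_of_continuousOn fun z hz =>
      (((contDiffOn_mon M).contDiffAt ((isOpen_DomT M).mem_nhds (sub hz))).continuousAt_iteratedFDeriv
        (by exact_mod_cast le_top)).continuousWithinAt
  choose B hB using bd
  have s0 : 0 ≤ ∑ i ∈ Finset.range (n + 1), |B i| := Finset.sum_nonneg fun _ _ => abs_nonneg _
  refine ⟨1 + ∑ i ∈ Finset.range (n + 1), |B i|, by linarith, fun z hz h1 h2 i i1 i2 => ?_⟩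
  have hzK : z ∈ K := ⟨by simpa using h1, mem_iInter.2 fun j => mem_iInter.2 fun k =>
    h z hz h1 h2 j k⟩
  have h3 : |B i| ≤ ∑ i ∈ Finset.range (n + 1), |B i| :=
    Finset.single_le_sum (f := fun i => |B i|) (fun _ _ => abs_nonneg _)
      (Finset.mem_range.2 (by omega))
  refine le_trans ?_ (le_self_pow₀ (by linarith) (by omega))
  linarith [hB i z hzK, le_abs_self (B i)]

/-- Bounds of derivatives pass from one chart to another. -/
theorem cc_comp (hm : IsFanD m) (σ τ : ι) (R B : ℝ) (n : ℕ) : ∃ C : ℝ, ∀ u u' : C2 → ℝ,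
    SmC u → SmC u' → (∀ w : C2, (∀ k, w k ≠ 0) → u (mon (m σ) w) = u' (mon (m τ) w)) →
    ∀ w : C2, (∀ k, w k ≠ 0) → ‖mon (m σ) w‖ ≤ R → ‖mon (m τ) w‖ ≤ R →
      (∀ i ≤ n, ‖iteratedFDeriv ℝ i u' (mon (m τ) w)‖ ≤ B) →
      ‖iteratedFDeriv ℝ n u (mon (m σ) w)‖ ≤ C := by
  obtain ⟨D, -, hD⟩ := cc_bd hm σ τ R n
  refine ⟨n.factorial * B * D ^ n, fun u u' hu hu' hg w hw h1 h2 hB => ?_⟩
  set M := m τ * (m σ)⁻¹ with hM
  have e : mon M (mon (m σ) w) = mon (m τ) w := tr_mon (hm.unimod σ) _ hw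
  have hz : mon (m σ) w ∈ {z : C2 | ∀ k, z k ≠ 0} := mon_ne _ hw
  have ee : u =ᶠ[𝓝 (mon (m σ) w)] u' ∘ mon M := by
    filter_upwards [isOpen_torus.mem_nhds hz] with z hz
    obtain ⟨w', hw', rfl⟩ := exists_mon (hm.unimod σ) hz
    rw [Function.comp_apply, tr_mon (hm.unimod σ) _ hw', hg w' hw']
  have sub : {z : C2 | ∀ k, z k ≠ 0} ⊆ DomT M := fun z hz j k _ => hz k
  rw [(ee.iteratedFDeriv ℝ n).eq_of_nhds, ← iteratedFDerivWithin_of_isOpen n isOpen_torus hz]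
  refine norm_iteratedFDerivWithin_comp_le (N := ∞) (t := univ) hu'.contDiffOn
    ((contDiffOn_mon M).mono sub) (by exact_mod_cast le_top) uniqueDiffOn_univ
    isOpen_torus.uniqueDiffOn (mapsTo_univ _ _) hz (fun i hi => ?_) fun i i1 i2 => ?_
  · rw [iteratedFDerivWithin_univ, e]
    exact hB i hi
  · rw [iteratedFDerivWithin_of_isOpen i isOpen_torus hz]
    exact hD _ hz h1 (e ▸ h2) i i1 i2

end Pool.Agent.P.MP_2cea5e_gt.II
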