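import Pool.Agent.P.MP_2cea5e_gt.Top

/-!
Chapter II: definitions.
-/

open scoped ContDiff ComplexOrder Matrix
open MeasureTheory Set

noncomputable section

namespace Pool.Agent.P.MP_2cea5e_gt.II

/-- Smooth real functions on the chart. -/
abbrev SmC (f : C2 → ℝ) : Prop := ContDiff ℝ ∞ f

/-- Joint continuity in time and space. -/
def JC (S : Set ℝ) (G : ℝ → C2 → ℝ) : Prop :=
  ContinuousOn (fun q : ℝ × C2 => G q.1 q.2) (S ×ˢ univ)

/-- `vt` is the time derivative of `v` on `S`, in integral form. -/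
def IsInt (S : Set ℝ) (v vt : ℝ → C2 → ℝ) : Prop :=
  ∀ s ∈ S, ∀ t ∈ S, ∀ z, v t z - v s z = ∫ r in s..t, vt r z

/-- The real coordinates dual to `dir`. -/
def co : Fin 4 → C2 →L[ℝ] ℝ :=
  ![Complex.reCLM.comp (ContinuousLinearMap.proj (R := ℝ) (φ := fun _ : Fin 2 => ℂ) 0),
    Complex.imCLM.comp (ContinuousLinearMap.proj (R := ℝ) (φ := fun _ : Fin 2 => ℂ) 0),
    Complex.reCLM.comp (ContinuousLinearMap.proj (R := ℝ) (φ := fun _ : Fin 2 => ℂ) 1),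
    Complex.imCLM.comp (ContinuousLinearMap.proj (R := ℝ) (φ := fun _ : Fin 2 => ℂ) 1)]

/-- Sum of the squares of all partial derivatives of order `n`. -/
def ns (n : ℕ) (u : C2 → ℝ) (z : C2) : ℝ := ∑ l : Fin n → Fin 4, pdl (List.ofFn l) u z ^ 2

/-- Integral over the ball (polydisc) of radius `R` around `0`. -/
def bi (R : ℝ) (h : C2 → ℝ) : ℝ := ∫ z in Metric.ball (0 : C2) R, h z

/-- Volume of the ball of radius `R`. -/
def vb (R : ℝ) : ℝ := (volume (Metric.ball (0 : C2) R)).toReal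

/-- A cutoff function supported in the ball of radius `R`, with derivative scale `M`. -/
structure Cut (η : C2 → ℝ) (R M : ℝ) : Prop where
  sm : SmC η
  nn : ∀ z, 0 ≤ η z
  le : ∀ z, η z ≤ 1
  supp : tsupport η ⊆ Metric.ball 0 R
  pos : 0 < M
  d1 : ∀ a z, |pd a η z| ≤ M
  d2 : ∀ a b z, |pd a (pd b η) z| ≤ M ^ 2

/-- Coefficients of the four real components of the complex Hessian. -/
def ec : Fin 4 → Fin 4 → Fin 4 → ℝ :=
  ![![![1 / 4, 0, 0, 0], ![0, 1 / 4, 0, 0], ![0, 0, 0, 0], ![0, 0, 0, 0]],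
    ![![0, 0, 0, 0], ![0, 0, 0, 0], ![0, 0, 1 / 4, 0], ![0, 0, 0, 1 / 4]],
    ![![0, 0, 1 / 4, 0], ![0, 0, 0, 1 / 4], ![0, 0, 0, 0], ![0, 0, 0, 0]],
    ![![0, 0, 0, 1 / 4], ![0, 0, -(1 / 4), 0], ![0, 0, 0, 0], ![0, 0, 0, 0]]]

/-- The real components `g₁₁, g₂₂, Re g₁₂, Im g₁₂` of the complex Hessian. -/
def Ee (a : Fin 4) (u : C2 → ℝ) : C2 → ℝ := fun z => ∑ p, ∑ q, ec a p q * pd p (pd q u) z

/-- The components of the flat metric. -/
def I0 : Fin 4 → ℝ := ![1, 1, 0, 0]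

/-- Sum of the squares of all derivatives of order `n` of the metric. -/
def NN (n : ℕ) (f : C2 → ℝ) (z : C2) : ℝ := ∑ a, ns n (Ee a f) z

/-- Coefficients of the Laplacian of the metric with potential `f`. -/
def cf (a : Fin 4) (f : C2 → ℝ) : C2 → ℝ := fun z =>
  ![Ee 1 f z, Ee 0 f z, -2 * Ee 2 f z, -2 * Ee 3 f z] a * (vol f z)⁻¹

/-- The Laplacian of the metric with potential `f`. -/
def Lam (f u : C2 → ℝ) : C2 → ℝ := fun z => ∑ a, cf a f z * Ee a u z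

/-- Admissible potentials. -/
structure Adm (f : C2 → ℝ) : Prop where
  sm : SmC f
  pos : ∀ z, (hess f z).PosDef

/-- Nonlinear differential operators on potentials. -/
abbrev Op := (C2 → ℝ) → C2 → ℝ

/-- Polynomials in the jets of the metric and `1 / vol`: total order at most `w`, every factor of
order at most `m`. -/
inductive Jet : ℕ → ℕ → Op → Prop
  | const (w m : ℕ) (c : ℝ) : Jet w m fun _ _ => c
  | der {w m : ℕ} (l : List (Fin 4)) (a : Fin 4) : l.length ≤ w → l.length ≤ m →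
      Jet w m fun f => pdl l (Ee a f)
  | iv (w m : ℕ) : Jet w m fun f z => (vol f z)⁻¹
  | add {w m : ℕ} {Φ Ψ : Op} : Jet w m Φ → Jet w m Ψ → Jet w m fun f z => Φ f z + Ψ f z
  | mul {w₁ w₂ w m : ℕ} {Φ Ψ : Op} : Jet w₁ m Φ → Jet w₂ m Ψ → w₁ + w₂ ≤ w →
      Jet w m fun f z => Φ f z * Ψ f z
  | congr {w m : ℕ} {Φ Ψ : Op} : Jet w m Φ → (∀ f, Adm f → Φ f = Ψ f) → Jet w m Ψ

/-- The nonlinear part of the scalar curvature. -/
def NOp (f : C2 → ℝ) : C2 → ℝ := fun z => scal f z + lap (lap f) z / 16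

/-- The normalised flow `∂_t f = 16 R - c`. -/
structure NFlow (S : Set ℝ) (f : ℝ → C2 → ℝ) : Prop where
  cl : Cl S f
  pos : ∀ t ∈ S, ∀ z, (hess (f t) z).PosDef
  eq : ∃ c : ℝ, IsInt S f fun t z => 16 * scal (f t) z - c

/-- Parabolic rescaling. -/
def rs (t₀ : ℝ) (z₀ : C2) (lam : ℝ) (f : ℝ → C2 → ℝ) : ℝ → C2 → ℝ :=
  fun s y => (lam ^ 2)⁻¹ * f (t₀ + lam ^ 4 * s) (z₀ + lam • y)

/-- The domain of a monomial map. -/
def DomT (M : Matrix (Fin 2) (Fin 2) ℤ) : Set C2 := {z | ∀ j k, M j k < 0 → z k ≠ 0}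

/-- A solution on a finite interval extends to a longer one. -/
def StExt : Prop := ∀ (ι : Type) [Finite ι] (m : ι → Matrix (Fin 2) (Fin 2) ℤ)
  (ψ : ι → C2 → ℝ) (κ c T : ℝ) (φ : ℝ → ι → C2 → ℝ), IsFanD m → IsToricKaehler m ψ → 0 < κ →
  0 < T → IsSol m ψ κ c (Ico 0 T) φ →
  ∃ T' : ℝ, T < T' ∧ ∃ φ', IsSol m ψ κ c (Ico 0 T') φ' ∧ ∀ t ∈ Ico 0 T, φ' t = φ t

/-- The limit at the final time. -/
def StLim : Prop := ∀ (ι : Type) [Finite ι] (m : ι → Matrix (Fin 2) (Fin 2) ℤ)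
  (ψ : ι → C2 → ℝ) (κ c T : ℝ) (φ : ℝ → ι → C2 → ℝ), IsFanD m → IsToricKaehler m ψ → 0 < κ →
  0 < T → IsSol m ψ κ c (Ico 0 T) φ →
  ∃ χ : ι → C2 → ℝ, (∀ σ, Cl (Icc 0 T) fun t => if t < T then φ t σ else χ σ) ∧
    (∀ σ, Inv (χ σ)) ∧
    (∀ σ τ, ∀ w : C2, (∀ k, w k ≠ 0) → χ σ (mon (m σ) w) = χ τ (mon (m τ) w)) ∧
    ∀ σ z, (hess (ψ σ + χ σ) z).PosDef

end Pool.Agent.P.MP_2cea5e_gt.II
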