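import Pool.Agent.P.MP_2cea5e_gt.II.ClA

/-!
Chapter II: time integrals.
-/

open scoped ContDiff ComplexOrder Matrix Topology
open MeasureTheory Set Filter

noncomputable section

namespace Pool.Agent.P.MP_2cea5e_gt.II

variable {S S' : Set ℝ} {v vt w wt : ℝ → C2 → ℝ}

/-- A family of functions closed under differentiation consists of smooth functions. -/
theorem smooth_of_family {G : List (Fin 4) → C2 → ℝ}
    (h : ∀ l z, HasFDerivAt (G l) (∑ a, G (a :: l) z • co a) z) :
    (∀ l, SmC (G l)) ∧ ∀ l, pdl l (G []) = G l := by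
  constructor
  · have key : ∀ (n : ℕ) l, ContDiff ℝ n (G l) := by
      intro n
      induction n with
      | zero =>
        exact fun l => contDiff_zero.2 (continuous_iff_continuousAt.2 fun z => (h l z).continuousAt)
      | succ n ih =>
        intro l
        push_cast
        exact contDiff_succ_iff_hasFDerivAt.2 ⟨fun z => ∑ a, G (a :: l) z • co a,
          ContDiff.sum fun a _ => (ih _).smul contDiff_const, h l⟩
    exact fun l => contDiff_infty.2 fun n => key n l
  · intro l
    induction l with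
    | nil => rfl
    | cons a l ih =>
      funext z
      rw [pdl_cons, ih, pd, (h l z).fderiv]
      simp [co_dir]

theorem norm_co_le (a : Fin 4) : ‖co a‖ ≤ 1 :=
  ContinuousLinearMap.opNorm_le_bound _ zero_le_one fun v => by
    simpa using abs_co_le a v

theorem ii_of_bound {g : ℝ → ℝ} {a b C : ℝ} (hab : a ≤ b) (hg : ContinuousOn g (Ioo a b))
    (hC : ∀ t ∈ Ioo a b, |g t| ≤ C) : IntervalIntegrable g volume a b := by
  rw [intervalIntegrable_iff_integrableOn_Ioo_of_le hab]
  exact IntegrableOn.of_bound (by simp) (hg.aestronglyMeasurable measurableSet_Ioo) C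
    ((ae_restrict_iff' measurableSet_Ioo).2 (Eventually.of_forall hC))

/-- Differentiation under the time integral. -/
theorem dui {G : ℝ → C2 → ℝ} {a b : ℝ} (hab : a ≤ b) (hG : Cl (Ioo a b) G)
    (hb : ∀ (l : List (Fin 4)) (R : ℝ), ∃ C : ℝ, ∀ t ∈ Ioo a b, ∀ z, ‖z‖ ≤ R →
      |pdl l (G t) z| ≤ C) :
    SmC (fun z => ∫ r in a..b, G r z) ∧ ∀ l : List (Fin 4),
      pdl l (fun z => ∫ r in a..b, G r z) = fun z => ∫ r in a..b, pdl l (G r) z := by
  have ii : ∀ (l : List (Fin 4)) z, IntervalIntegrable (fun r => pdl l (G r) z) volume a b :=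
    fun l z => by
      obtain ⟨C, hC⟩ := hb l ‖z‖
      exact ii_of_bound hab ((cl_jc_pdl hG l).time z) fun t ht => hC t ht z le_rfl
  have ne : ∀ᵐ t : ℝ, t ≠ b := by simp [ae_iff]
  have mem : ∀ t, t ≠ b → t ∈ uIoc a b → t ∈ Ioo a b := fun t h1 h2 => by
    rw [uIoc_of_le hab] at h2
    exact ⟨h2.1, lt_of_le_of_ne h2.2 h1⟩
  have key := smooth_of_family (G := fun l z => ∫ r in a..b, pdl l (G r) z) fun l z => by
    choose C hC using fun p : Fin 4 => hb (p :: l) (‖z‖ + 1)
    have i1 : ∀ p, IntervalIntegrable (fun r => pdl (p :: l) (G r) z • co p) volume a b :=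
      fun p => ⟨(ii (p :: l) z).1.smul_const _, (ii (p :: l) z).2.smul_const _⟩
    have i2 : IntervalIntegrable (fun r => ∑ p, pdl (p :: l) (G r) z • co p) volume a b := by
      simp only [Fin.sum_univ_four]
      exact (((i1 0).add (i1 1)).add (i1 2)).add (i1 3)
    have h1 := intervalIntegral.hasFDerivAt_integral_of_dominated_of_fderiv_le (𝕜 := ℝ)
      (μ := volume) (a := a) (b := b) (bound := fun _ => ∑ p, C p)
      (F := fun y r => pdl l (G r) y) (F' := fun y r => ∑ p, pdl (p :: l) (G r) y • co p)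
      (x₀ := z) (Metric.ball_mem_nhds z one_pos)
      (Eventually.of_forall fun y => (intervalIntegrable_iff.1 (ii l y)).aestronglyMeasurable)
      (ii l z) (intervalIntegrable_iff.1 i2).aestronglyMeasurable
      (ne.mono fun t h1 h2 y hy => by
        refine (norm_sum_le _ _).trans (Finset.sum_le_sum fun p _ => ?_)
        have h3 : ‖y‖ ≤ ‖z‖ + 1 := by
          have := norm_sub_norm_le y z
          rw [mem_ball_iff_norm] at hy
          linarith
        rw [norm_smul]
        exact (mul_le_of_le_one_right (norm_nonneg _) (norm_co_le p)).trans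
          (hC p t (mem t h1 h2) y h3))
      intervalIntegrable_const
      (ne.mono fun t h1 h2 y _ => by
        have := (sm_pdl l (hG.sm t (mem t h1 h2))).hfd y
        rwa [fderiv_eq_sum] at this)
    rwa [intervalIntegral.integral_finsetSum fun p _ => i1 p,
      Finset.sum_congr rfl fun p _ => intervalIntegral.integral_smul_const _ (co p)] at h1
  exact ⟨key.1 [], key.2⟩

theorem dui_uIcc {G : ℝ → C2 → ℝ} {a b : ℝ} (hG : Cl (uIcc a b) G) :
    SmC (fun z => ∫ r in a..b, G r z) ∧ ∀ l : List (Fin 4),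
      pdl l (fun z => ∫ r in a..b, G r z) = fun z => ∫ r in a..b, pdl l (G r) z := by
  have key : ∀ {a b : ℝ}, a ≤ b → Cl (Icc a b) G →
      SmC (fun z => ∫ r in a..b, G r z) ∧ ∀ l : List (Fin 4),
        pdl l (fun z => ∫ r in a..b, G r z) = fun z => ∫ r in a..b, pdl l (G r) z :=
    fun {a b} hab hG => dui hab (cl_mono hG Ioo_subset_Icc_self) fun l R => by
      obtain ⟨C, -, hC⟩ := (cl_jc_pdl hG l).bound isCompact_Icc R
      exact ⟨C, fun t ht => hC t (Ioo_subset_Icc_self ht)⟩
  rcases le_total a b with h | h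
  · exact key h (uIcc_of_le h ▸ hG)
  · obtain ⟨h1, h2⟩ := key h (uIcc_of_ge h ▸ hG)
    simp only [intervalIntegral.integral_symm b a]
    exact ⟨h1.neg, fun l => by rw [pdl_neg', h2]⟩

theorem IsInt.mono (h : IsInt S v vt) (hS : S' ⊆ S) : IsInt S' v vt :=
  fun s hs t ht => h s (hS hs) t (hS ht)

theorem IsInt.congr (hS : OrdConnected S) (h : IsInt S v vt) (e : ∀ t ∈ S, w t = v t)
    (e' : ∀ t ∈ S, wt t = vt t) : IsInt S w wt :=
  fun s hs t ht z => by
    rw [e s hs, e t ht, h s hs t ht z]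
    exact intervalIntegral.integral_congr fun r hr => by
      simp only [e' r (hS.uIcc_subset hs ht hr)]

theorem IsInt.pdl (hS : OrdConnected S) (hv : Cl S v) (hvt : Cl S vt) (h : IsInt S v vt)
    (l : List (Fin 4)) : IsInt S (fun t => pdl l (v t)) fun t => pdl l (vt t) :=
  fun s hs t ht => JS.pdl_integral hv.sm hvt (hS.uIcc_subset hs ht) (h s hs t ht) l

theorem IsInt.add (hS : OrdConnected S) (hvt : JC S vt) (hwt : JC S wt) (h : IsInt S v vt)
    (h' : IsInt S w wt) : IsInt S (fun t z => v t z + w t z) fun t z => vt t z + wt t z :=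
  fun s hs t ht z => by
    rw [intervalIntegral.integral_add
      ((hvt.time z).mono (hS.uIcc_subset hs ht)).intervalIntegrable
      ((hwt.time z).mono (hS.uIcc_subset hs ht)).intervalIntegrable, ← h s hs t ht, ← h' s hs t ht]
    ring

theorem IsInt.cmul (c : ℝ) (h : IsInt S v vt) :
    IsInt S (fun t z => c * v t z) fun t z => c * vt t z :=
  fun s hs t ht z => by rw [intervalIntegral.integral_const_mul, ← h s hs t ht, mul_sub]

theorem IsInt.smul_space (u : C2 → ℝ) (h : IsInt S v vt) :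
    IsInt S (fun t z => u z * v t z) fun t z => u z * vt t z :=
  fun s hs t ht z => by rw [intervalIntegral.integral_const_mul, ← h s hs t ht, mul_sub]

theorem IsInt.sum {J : Type*} (s : Finset J) {V Vt : J → ℝ → C2 → ℝ} (hS : OrdConnected S)
    (ht : ∀ j ∈ s, JC S (Vt j)) (h : ∀ j ∈ s, IsInt S (V j) (Vt j)) :
    IsInt S (fun t z => ∑ j ∈ s, V j t z) fun t z => ∑ j ∈ s, Vt j t z :=
  fun a ha b hb z => by
    rw [intervalIntegral.integral_finsetSum fun j hj =>
      (((ht j hj).time z).mono (hS.uIcc_subset ha hb)).intervalIntegrable, ← Finset.sum_sub_distrib]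
    exact Finset.sum_congr rfl fun j hj => h j hj a ha b hb z

theorem IsInt.Ee (hS : OrdConnected S) (hv : Cl S v) (hvt : Cl S vt) (h : IsInt S v vt)
    (a : Fin 4) : IsInt S (fun t => Ee a (v t)) fun t => Ee a (vt t) :=
  IsInt.sum (V := fun p t z => ∑ q, ec a p q * pd p (pd q (v t)) z)
    (Vt := fun p t z => ∑ q, ec a p q * pd p (pd q (vt t)) z) Finset.univ hS
    (fun p _ => cl_jc (cl_sum (H := fun q t z => ec a p q * pd p (pd q (vt t)) z) Finset.univ
      fun q _ => cl_cmul _ (cl_pdl hvt [p, q])))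
    fun p _ => IsInt.sum (V := fun q t z => ec a p q * pd p (pd q (v t)) z)
      (Vt := fun q t z => ec a p q * pd p (pd q (vt t)) z) Finset.univ hS
      (fun q _ => cl_jc (cl_cmul _ (cl_pdl hvt [p, q])))
      fun q _ => (h.pdl hS hv hvt [p, q]).cmul _

theorem IsInt.hasDerivWithinAt (hS : OrdConnected S) (hvt : JC S vt) (h : IsInt S v vt) {t : ℝ}
    (ht : t ∈ S) (z : C2) : HasDerivWithinAt (fun s => v s z) (vt t z) S t :=
  JS.time_deriv (u := fun s _ => v s z) (w := fun s _ => vt s z) (z₀ := z) hS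
    (jc_time (hvt.time z)) (fun s hs t ht _ => h s hs t ht z) ht (differentiableAt_const _)

/-- The integral form from the derivative off a countable set of times. -/
theorem isInt_of_deriv (hS : OrdConnected S) (hv : JC S v) (hvt : JC S vt) {N : Set ℝ}
    (hN : N.Countable)
    (h : ∀ t ∈ interior S, t ∉ N → ∀ z, HasDerivAt (fun s => v s z) (vt t z) t) :
    IsInt S v vt :=
  fun s hs t ht z => JS.ftc_time hN hv hvt (hS.uIcc_subset hs ht) z fun r hr hn =>
    h r (interior_maximal (Ioo_subset_Icc_self.trans (hS.uIcc_subset hs ht)) isOpen_Ioo hr) hn z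

theorem IsInt.mul (hS : OrdConnected S) (hvt : JC S vt) (hwt : JC S wt) (h : IsInt S v vt)
    (h' : IsInt S w wt) : IsInt S (fun t z => v t z * w t z)
      fun t z => vt t z * w t z + v t z * wt t z := by
  intro s hs t ht z
  have d1 := fun r hr => h.hasDerivWithinAt hS hvt (t := r) hr z
  have d2 := fun r hr => h'.hasDerivWithinAt hS hwt (t := r) hr z
  have c1 : ContinuousOn (fun r => v r z) S := fun r hr => (d1 r hr).continuousWithinAt
  have c2 : ContinuousOn (fun r => w r z) S := fun r hr => (d2 r hr).continuousWithinAt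
  refine isInt_of_deriv (v := fun r _ => v r z * w r z)
    (vt := fun r _ => vt r z * w r z + v r z * wt r z) hS (jc_time (c1.mul c2))
    (jc_time (((hvt.time z).mul c2).add (c1.mul (hwt.time z)))) countable_empty
    (fun r hr _ _ => ?_) s hs t ht z
  have hn := mem_interior_iff_mem_nhds.1 hr
  exact ((d1 r (interior_subset hr)).hasDerivAt hn).mul ((d2 r (interior_subset hr)).hasDerivAt hn)

/-- Affine change of time and any change of the space variable. -/
theorem IsInt.comp (h : IsInt S v vt) (t₀ β : ℝ) (A : C2 → C2)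
    (hm : ∀ s ∈ S', t₀ + β * s ∈ S) :
    IsInt S' (fun s y => v (t₀ + β * s) (A y)) fun s y => β * vt (t₀ + β * s) (A y) := by
    intro s hs t ht y
    rw [h _ (hm s hs) _ (hm t ht), intervalIntegral.integral_const_mul]
    exact (intervalIntegral.smul_integral_comp_add_mul (fun r => vt r (A y)) β t₀).symm

/-- The limit at the final time. -/
theorem lim_ext {F Ft : ℝ → C2 → ℝ} {a T : ℝ} (haT : a < T) (hF : Cl (Ico a T) F)
    (hFt : Cl (Ico a T) Ft) (h : IsInt (Ico a T) F Ft)
    (hb : ∀ (l : List (Fin 4)) (R : ℝ), ∃ C : ℝ, ∀ t ∈ Ico a T, ∀ z, ‖z‖ ≤ R →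
      |pdl l (Ft t) z| ≤ C) :
    ∃ G : C2 → ℝ, Cl (Icc a T) fun t => if t < T then F t else G := by
  obtain ⟨h1, h2⟩ := dui haT.le (cl_mono hFt Ioo_subset_Ico_self) fun l R => by
    obtain ⟨C, hC⟩ := hb l R
    exact ⟨C, fun t ht => hC t (Ioo_subset_Ico_self ht)⟩
  have ma : a ∈ Ico a T := ⟨le_rfl, haT⟩
  set G : C2 → ℝ := fun z => F a z + ∫ r in a..T, Ft r z with hG
  have sG : SmC G := ContDiff.add (hF.sm a ma) h1
  refine ⟨G, fun t ht => ?_, fun l => ?_⟩
  · split_ifs with h3
    · exact hF.sm t ⟨ht.1, h3⟩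
    · exact sG
  have ii : ∀ z, IntervalIntegrable (fun r => pdl l (Ft r) z) volume a T := fun z => by
    obtain ⟨C, hC⟩ := hb l ‖z‖
    exact ii_of_bound haT.le (((cl_jc_pdl hFt l).time z).mono Ioo_subset_Ico_self)
      fun t ht => hC t (Ioo_subset_Ico_self ht) z le_rfl
  have e : ∀ t ∈ Icc a T, ∀ z, pdl l (if t < T then F t else G) z =
      pdl l G z - ∫ r in t..T, pdl l (Ft r) z := fun t ht z => by
    split_ifs with h3
    · have h4 := h.pdl ordConnected_Ico hF hFt l a ma t ⟨ht.1, h3⟩ z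
      have h5 := intervalIntegral.integral_interval_sub_left (ii z)
        ((ii z).mono_set (c := a) (d := t) (by
          rw [uIcc_of_le ht.1, uIcc_of_le haT.le]; exact Icc_subset_Icc le_rfl ht.2))
      rw [hG, pdl_add' l (hF.sm a ma) h1, h2]
      simp only at h4 ⊢
      linarith
    · rw [le_antisymm ht.2 (not_lt.1 h3)]
      simp
  rintro ⟨t, z⟩ ⟨ht, -⟩
  rcases ht.2.lt_or_eq with h3 | h3
  · have h4 : ContinuousWithinAt (fun q : ℝ × C2 => pdl l (if q.1 < T then F q.1 else G) q.2)
        (Ico a T ×ˢ univ) (t, z) :=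
      (hF.cont l (t, z) ⟨⟨ht.1, h3⟩, mem_univ _⟩).congr
        (fun q hq => by simp only [if_pos hq.1.2]) (by simp only [if_pos h3])
    refine h4.mono_of_mem_nhdsWithin (mem_nhdsWithin.2 ⟨Iio T ×ˢ univ, isOpen_Iio.prod isOpen_univ,
      ⟨h3, mem_univ _⟩, fun q hq => ⟨⟨hq.2.1.1, hq.1.1⟩, mem_univ _⟩⟩)
  · simp only at h3
    subst h3
    obtain ⟨C, hC⟩ := hb l (‖z‖ + 1)
    have h5 : Tendsto (fun q : ℝ × C2 => ∫ r in q.1..t, pdl l (Ft r) q.2)
        (𝓝[Icc a t ×ˢ univ] (t, z)) (𝓝 0) := by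
      have h6 : Tendsto (fun q : ℝ × C2 => C * |t - q.1|) (𝓝[Icc a t ×ˢ univ] (t, z)) (𝓝 0) := by
        have : Continuous fun q : ℝ × C2 => C * |t - q.1| := by fun_prop
        simpa using (this.tendsto (t, z)).mono_left nhdsWithin_le_nhds
      refine squeeze_zero_norm' ?_ h6
      have h7 : ∀ᶠ q : ℝ × C2 in 𝓝 (t, z), ‖q.2‖ < ‖z‖ + 1 :=
        (continuous_snd.norm.tendsto (t, z)).eventually (gt_mem_nhds (lt_add_one _))
      filter_upwards [self_mem_nhdsWithin, mem_nhdsWithin_of_mem_nhds h7] with q hq h8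
      refine intervalIntegral.norm_integral_le_of_norm_le_const_ae ?_
      have ne : ∀ᵐ r : ℝ, r ≠ t := by simp [ae_iff]
      filter_upwards [ne] with r h9 hr
      rw [uIoc_of_le hq.1.2] at hr
      exact hC r ⟨hq.1.1.trans hr.1.le, lt_of_le_of_ne hr.2 h9⟩ _ h8.le
    have h6 : Tendsto (fun q : ℝ × C2 => pdl l G q.2) (𝓝[Icc a t ×ˢ univ] (t, z))
        (𝓝 (pdl l G z)) :=
      (((sm_pdl l sG).cont.comp continuous_snd).tendsto (t, z)).mono_left nhdsWithin_le_nhds
    have h7 := h6.sub h5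
    rw [sub_zero] at h7
    rw [ContinuousWithinAt]
    simp only [lt_irrefl, if_false]
    exact h7.congr' (eventually_nhdsWithin_of_forall fun q hq => (e q.1 hq.1 q.2).symm)

end Pool.Agent.P.MP_2cea5e_gt.II
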