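import Pool.Agent.P.MP_2cea5e_gt.II.ENS
import Pool.Agent.P.MP_2cea5e_gt.II.TI

/-!
Chapter II: the local energy estimate.
-/

open scoped ContDiff ComplexOrder Matrix Topology
open MeasureTheory Set Filter

noncomputable section

namespace Pool.Agent.P.MP_2cea5e_gt.II

theorem en_id {η : C2 → ℝ} (hη : Continuous η) {v vt : ℝ → C2 → ℝ} {s t : ℝ} (hst : s ≤ t)
    (hv : JC (Icc s t) v) (hvt : JC (Icc s t) vt) (h : IsInt (Icc s t) v vt) (R : ℝ) :
    bi R (fun z => η z * v t z ^ 2) - bi R (fun z => η z * v s z ^ 2) =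
      ∫ τ in s..t, 2 * bi R fun z => η z * v τ z * vt τ z := by
  have ms : s ∈ Icc s t := ⟨le_rfl, hst⟩
  have mt : t ∈ Icc s t := ⟨hst, le_rfl⟩
  have h1 := (IsInt.mul ordConnected_Icc hvt hvt h h).smul_space η s ms t mt
  have c : ∀ τ ∈ Icc s t, Continuous fun z => η z * v τ z ^ 2 := fun τ hτ =>
    hη.mul ((hv.space hτ).pow 2)
  have c2 : JC (Icc s t) fun τ z => 2 * (η z * v τ z * vt τ z) :=
    JC.mul (F := fun _ _ => 2) (jc_const continuous_const) (((jc_const hη).mul hv).mul hvt)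
  rw [← bi_sub (c t mt) (c s ms)]
  simp only [← bi_cmul]
  rw [← bi_fubini hst c2]
  refine bi_congr fun z _ => ?_
  have h2 := h1 z
  simp only [sq]
  rw [h2]
  exact intervalIntegral.integral_congr fun τ _ => by ring

theorem en : ∃ C₁ : ℝ, 0 < C₁ ∧ ∀ (η : C2 → ℝ) (R M s t : ℝ) (v vt r : ℝ → C2 → ℝ)
    (F : Fin 4 → Fin 4 → ℝ → C2 → ℝ), Cut η R M → s ≤ t → Cl (Icc s t) v → JC (Icc s t) vt →
    JC (Icc s t) r → (∀ p q, Cl (Icc s t) (F p q)) → IsInt (Icc s t) v vt →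
    (∀ τ ∈ Icc s t, ∀ z ∈ Metric.ball (0 : C2) R,
      vt τ z + lap (lap (v τ)) z = r τ z + ∑ p, ∑ q, pd p (pd q (F p q τ)) z) →
    bi R (fun z => η z ^ 4 * v t z ^ 2) + ∫ τ in s..t, bi R (fun z => η z ^ 4 * ns 2 (v τ) z) ≤
      bi R (fun z => η z ^ 4 * v s z ^ 2) +
      C₁ * (∫ τ in s..t, bi R fun z => η z ^ 4 * ∑ p, ∑ q, F p q τ z ^ 2) +
      C₁ * M ^ 4 * (∫ τ in s..t, bi R fun z => v τ z ^ 2) +
      2 * ∫ τ in s..t, bi R fun z => η z ^ 4 * v τ z * r τ z := by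
  obtain ⟨C, hC, hs⟩ := en_static
  refine ⟨2 * C, by positivity, fun η R M s t v vt r F hη hst hv hvt hr hF hI he => ?_⟩
  have ms : s ∈ Icc s t := ⟨le_rfl, hst⟩
  have mt : t ∈ Icc s t := ⟨hst, le_rfl⟩
  have c4 : Continuous fun z => η z ^ 4 := hη.sm.cont.pow 4
  have j4 : JC (Icc s t) fun _ z => η z ^ 4 := jc_const c4
  have h1 := en_id c4 hst (cl_jc hv) hvt hI R
  have i0 := bi_ii ((j4.mul (cl_jc hv)).mul hvt) R ms mt
  have i1 := bi_ii (j4.mul (jc_ns 2 hv)) R ms mt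
  have jF : JC (Icc s t) fun τ z => ∑ p, ∑ q, F p q τ z ^ 2 :=
    JC.sum (H := fun p τ z => ∑ q, F p q τ z ^ 2) _ fun p _ =>
      JC.sum (H := fun q τ z => F p q τ z ^ 2) _ fun q _ => (cl_jc (hF p q)).pow 2
  have i2 := bi_ii (j4.mul jF) R ms mt
  have i3 := bi_ii ((cl_jc hv).pow 2) R ms mt
  have i4 := bi_ii ((j4.mul (cl_jc hv)).mul hr) R ms mt
  have h2 := intervalIntegral.integral_mono_on hst ((i0.const_mul 2).add i1)
    (((i2.const_mul (2 * C)).add (i3.const_mul (2 * C * M ^ 4))).add (i4.const_mul 2))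
    fun τ hτ => by
      have h3 := hs η (v τ) (fun p q => F p q τ) R M hη (hv.sm τ hτ) fun p q => (hF p q).sm τ hτ
      have cv := (hv.sm τ hτ).continuous
      have c5 : Continuous fun z =>
          η z ^ 4 * v τ z * (∑ p, ∑ q, pd p (pd q (F p q τ)) z - lap (lap (v τ)) z) :=
        (c4.mul cv).mul ((continuous_finsetSum _ fun p _ => continuous_finsetSum _ fun q _ =>
          (sm_pd p (sm_pd q ((hF p q).sm τ hτ))).cont).sub (sm_lap (sm_lap (hv.sm τ hτ))).cont)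
      have c6 : Continuous fun z => η z ^ 4 * v τ z * r τ z := (c4.mul cv).mul (hr.space hτ)
      have h4 : bi R (fun z => η z ^ 4 * v τ z * vt τ z) = _ + _ :=
        (bi_congr fun z hz => by rw [← mul_add]; congr 1; linarith [he τ hτ z hz]).trans
          (bi_add c5 c6)
      linarith
  rw [intervalIntegral.integral_add (i0.const_mul 2) i1,
    intervalIntegral.integral_add ((i2.const_mul _).add (i3.const_mul _)) (i4.const_mul 2),
    intervalIntegral.integral_add (i2.const_mul _) (i3.const_mul _), ← h1] at h2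
  simp only [intervalIntegral.integral_const_mul] at h2
  linarith

end Pool.Agent.P.MP_2cea5e_gt.II
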