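import Pool.Agent.P.MP_2cea5e_gt.II.BI

/-!
Chapter II: the static energy inequalities.
-/

open scoped ContDiff ComplexOrder Matrix Topology
open MeasureTheory Set Filter

noncomputable section

namespace Pool.Agent.P.MP_2cea5e_gt.II

variable {η v : C2 → ℝ} {R M : ℝ}

theorem ens_sm_mul {f g : C2 → ℝ} (hf : SmC f) (hg : SmC g) : SmC fun z => f z * g z :=
  ContDiff.mul hf hg

theorem ens_sm_pow {f : C2 → ℝ} (hf : SmC f) (n : ℕ) : SmC fun z => f z ^ n := ContDiff.pow hf n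

theorem ens_lin3 {A B C : C2 → ℝ} (hA : Continuous A) (hB : Continuous B) (hC : Continuous C)
    (a b c : ℝ) : bi R (fun z => a * A z + b * B z + c * C z) =
      a * bi R A + b * bi R B + c * bi R C := by
  rw [bi_add (h := fun z => a * A z + b * B z) (k := fun z => c * C z) (by fun_prop) (by fun_prop),
    bi_add (h := fun z => a * A z) (k := fun z => b * B z) (by fun_prop) (by fun_prop),
    bi_cmul, bi_cmul, bi_cmul]

theorem ens_lin4 {A B C D : C2 → ℝ} (hA : Continuous A) (hB : Continuous B) (hC : Continuous C)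
    (hD : Continuous D) (a b c d : ℝ) : bi R (fun z => a * A z + b * B z + c * C z + d * D z) =
      a * bi R A + b * bi R B + c * bi R C + d * bi R D := by
  rw [bi_add (h := fun z => a * A z + b * B z + c * C z) (k := fun z => d * D z) (by fun_prop)
    (by fun_prop), ens_lin3 hA hB hC, bi_cmul]

theorem ens_supp (hη : Cut η R M) {n : ℕ} (hn : n ≠ 0) (g : C2 → ℝ) :
    tsupport (fun z => η z ^ n * g z) ⊆ Metric.ball 0 R := by
  refine Subset.trans (closure_mono fun z hz => ?_) hη.supp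
  intro h0
  exact hz (by simp only [h0, zero_pow hn, zero_mul])

theorem ens_sq_le {x m : ℝ} (h : |x| ≤ m) : x ^ 2 ≤ m ^ 2 := by
  rw [← sq_abs]
  exact pow_le_pow_left₀ (abs_nonneg x) h 2

theorem ens_pt1 {e ea va vaa w m ε : ℝ} (hε : 0 < ε) (h : |ea| ≤ m) :
    -((2 * e * ea * va + e ^ 2 * vaa) * w) ≤
      1 / 2 * (e ^ 2 * va ^ 2) + ε / 2 * (e ^ 4 * vaa ^ 2) + (1 / (2 * ε) + 2 * m ^ 2) * w ^ 2 := by
  have h1 := ens_sq_le h
  have h2 : 0 ≤ (m ^ 2 - ea ^ 2) * w ^ 2 := mul_nonneg (by linarith) (sq_nonneg w)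
  have h3 : 0 ≤ (ε * (e ^ 2 * vaa) + w) ^ 2 / (2 * ε) := by positivity
  have h4 : (ε * (e ^ 2 * vaa) + w) ^ 2 / (2 * ε) =
      ε / 2 * (e ^ 4 * vaa ^ 2) + e ^ 2 * vaa * w + 1 / (2 * ε) * w ^ 2 := by
    field_simp
    ring
  nlinarith [sq_nonneg (e * va + 2 * ea * w)]

theorem ens_interp_one (hη : Cut η R M) (hv : SmC v) {ε : ℝ} (hε : 0 < ε) (a : Fin 4) :
    bi R (fun z => η z ^ 2 * pd a v z ^ 2) ≤
      ε * bi R (fun z => η z ^ 4 * pd a (pd a v) z ^ 2) +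
      (1 / ε + 4 * M ^ 2) * bi R fun z => v z ^ 2 := by
  have s2 := ens_sm_pow hη.sm 2
  have sa := sm_pd a hv
  have saa := sm_pd a sa
  have hw : SmC fun z => η z ^ 2 * pd a v z := ens_sm_mul s2 sa
  have h1 := ibp hw hv (ens_supp hη two_ne_zero _) a
  have cA : Continuous fun z => η z ^ 2 * pd a v z ^ 2 := (ens_sm_mul s2 (ens_sm_pow sa 2)).cont
  have cB : Continuous fun z => η z ^ 4 * pd a (pd a v) z ^ 2 :=
    (ens_sm_mul (ens_sm_pow hη.sm 4) (ens_sm_pow saa 2)).cont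
  have cC : Continuous fun z => v z ^ 2 := (ens_sm_pow hv 2).cont
  have cD : Continuous fun z => pd a (fun z => η z ^ 2 * pd a v z) z * v z :=
    (ens_sm_mul (sm_pd a hw) hv).cont
  have h2 : bi R (fun z => η z ^ 2 * pd a v z * pd a v z) =
      bi R fun z => η z ^ 2 * pd a v z ^ 2 := bi_congr fun z _ => by ring
  have h3 : bi R (fun z => (-1) * (pd a (fun z => η z ^ 2 * pd a v z) z * v z)) ≤
      bi R fun z => 1 / 2 * (η z ^ 2 * pd a v z ^ 2) + ε / 2 * (η z ^ 4 * pd a (pd a v) z ^ 2) +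
        (1 / (2 * ε) + 2 * M ^ 2) * v z ^ 2 := by
    refine bi_mono (continuous_const.mul cD) (((continuous_const.mul cA).add
      (continuous_const.mul cB)).add (continuous_const.mul cC)) fun z _ => ?_
    rw [pd_mul' a s2 sa, pd_pow' a 2 hη.sm]
    have := ens_pt1 (e := η z) (va := pd a v z) (vaa := pd a (pd a v) z) (w := v z) hε
      (hη.d1 a z)
    simp only [Nat.cast_ofNat, Nat.add_one_sub_one, pow_one]
    linarith
  rw [bi_cmul, ens_lin3 cA cB cC] at h3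
  have h4 : 1 / ε = 2 * (1 / (2 * ε)) := by field_simp
  rw [h4]
  linarith

theorem en_interp (hη : Cut η R M) (hv : SmC v) {ε : ℝ} (hε : 0 < ε) :
    bi R (fun z => η z ^ 2 * ns 1 v z) ≤ ε * bi R (fun z => η z ^ 4 * ns 2 v z) +
      (4 / ε + 16 * M ^ 2) * bi R fun z => v z ^ 2 := by
  have cA : ∀ a, Continuous fun z => η z ^ 2 * pd a v z ^ 2 := fun a =>
    (ens_sm_mul (ens_sm_pow hη.sm 2) (ens_sm_pow (sm_pd a hv) 2)).cont
  have cB : ∀ a, Continuous fun z => η z ^ 4 * pd a (pd a v) z ^ 2 := fun a =>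
    (ens_sm_mul (ens_sm_pow hη.sm 4) (ens_sm_pow (sm_pd a (sm_pd a hv)) 2)).cont
  have h1 : bi R (fun z => η z ^ 2 * ns 1 v z) = ∑ a, bi R fun z => η z ^ 2 * pd a v z ^ 2 := by
    rw [← bi_sum _ fun a _ => cA a]
    exact bi_congr fun z _ => by rw [ns_one, Finset.mul_sum]
  have h2 : ∑ a, bi R (fun z => η z ^ 4 * pd a (pd a v) z ^ 2) ≤
      bi R fun z => η z ^ 4 * ns 2 v z := by
    rw [← bi_sum _ fun a _ => cB a]
    refine bi_mono (continuous_finsetSum _ fun a _ => cB a)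
      (ens_sm_mul (ens_sm_pow hη.sm 4) (sm_ns 2 hv)).cont fun z _ => ?_
    rw [← Finset.mul_sum, ns_two]
    refine mul_le_mul_of_nonneg_left (Finset.sum_le_sum fun a _ => ?_) (by positivity)
    exact Finset.single_le_sum (f := fun q => pd a (pd q v) z ^ 2) (fun _ _ => sq_nonneg _)
      (Finset.mem_univ a)
  have h3 := Finset.sum_le_sum fun a (_ : a ∈ Finset.univ) => ens_interp_one hη hv hε a
  rw [Finset.sum_add_distrib, ← Finset.mul_sum, Finset.sum_const, Finset.card_univ,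
    Fintype.card_fin, nsmul_eq_mul] at h3
  have h4 := mul_le_mul_of_nonneg_left h2 hε.le
  have h5 : 4 / ε = 4 * (1 / ε) := by ring
  rw [h1, h5]
  push_cast at h3
  linarith

theorem ens_ibp2 {w u : C2 → ℝ} (hw : SmC w) (hu : SmC u) (hs : tsupport w ⊆ Metric.ball 0 R)
    (p q : Fin 4) :
    bi R (fun z => w z * pd p (pd q u) z) = bi R fun z => pd q (pd p w) z * u z := by
  rw [ibp hw (sm_pd q hu) hs p, ibp (sm_pd p hw) hu ((tsupport_pd p w).trans hs) q, neg_neg]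

theorem ens_pd2 (hη : SmC η) (hv : SmC v) (p q : Fin 4) (z : C2) :
    pd q (pd p fun z => η z ^ 4 * v z) z = η z ^ 4 * pd p (pd q v) z +
      η z ^ 2 * (4 * η z * pd p η z * pd q v z + 4 * η z * pd q η z * pd p v z +
        (12 * pd p η z * pd q η z + 4 * η z * pd q (pd p η) z) * v z) := by
  have s3 := ens_sm_pow hη 3
  have s4 := ens_sm_pow hη 4
  have h1 : (pd p fun z => η z ^ 4 * v z) =
      fun z => 4 * (η z ^ 3 * (pd p η z * v z)) + η z ^ 4 * pd p v z := by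
    rw [pd_mul' p s4 hv, pd_pow' p 4 hη]
    funext z
    simp only [Nat.cast_ofNat, Nat.add_one_sub_one]
    ring
  have t1 := ens_sm_mul (sm_pd p hη) hv
  have t2 := ens_sm_mul s3 t1
  rw [h1, pd_add' q (ens_sm_mul (sm_const 4) t2) (ens_sm_mul s4 (sm_pd p hv)), pd_cmul' q 4 t2,
    pd_mul' q s3 t1, pd_mul' q (sm_pd p hη) hv, pd_mul' q s4 (sm_pd p hv), pd_pow' q 4 hη,
    pd_pow' q 3 hη, pd_comm q p hv]
  simp only [Nat.cast_ofNat, Nat.add_one_sub_one]
  ring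

theorem ens_pt2 {e ep eq' epq vp vq w d f m : ℝ} (h0 : 0 ≤ e) (h1 : e ≤ 1) (hp : |ep| ≤ m)
    (hq : |eq'| ≤ m) (hpq : |epq| ≤ m ^ 2) :
    (e ^ 4 * d + e ^ 2 * (4 * e * ep * vq + 4 * e * eq' * vp +
      (12 * ep * eq' + 4 * e * epq) * w)) * (f - d) ≤
      -(3 / 4) * (e ^ 4 * d ^ 2) + 5 / 2 * (e ^ 4 * f ^ 2) +
        120 * m ^ 2 * (e ^ 2 * vp ^ 2) + 120 * m ^ 2 * (e ^ 2 * vq ^ 2) + 1920 * m ^ 4 * w ^ 2 := by
  have hm : 0 ≤ m := (abs_nonneg _).trans hp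
  have k1 : (4 * e * ep * vq) ^ 2 ≤ 16 * m ^ 2 * (e ^ 2 * vq ^ 2) := by
    have := mul_le_mul_of_nonneg_right (ens_sq_le hp) (sq_nonneg (e * vq))
    nlinarith
  have k2 : (4 * e * eq' * vp) ^ 2 ≤ 16 * m ^ 2 * (e ^ 2 * vp ^ 2) := by
    have := mul_le_mul_of_nonneg_right (ens_sq_le hq) (sq_nonneg (e * vp))
    nlinarith
  have k3 : |12 * ep * eq' + 4 * e * epq| ≤ 16 * m ^ 2 := by
    have a1 : |ep * eq'| ≤ m ^ 2 := by
      rw [abs_mul, sq]
      exact mul_le_mul hp hq (abs_nonneg _) hm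
    have a2 : |e * epq| ≤ m ^ 2 := by
      rw [abs_mul, abs_of_nonneg h0]
      exact (mul_le_of_le_one_left (abs_nonneg _) h1).trans hpq
    rw [abs_le] at a1 a2 ⊢
    constructor <;> nlinarith [a1.1, a1.2, a2.1, a2.2]
  have k4 : ((12 * ep * eq' + 4 * e * epq) * w) ^ 2 ≤ 256 * m ^ 4 * w ^ 2 := by
    have := mul_le_mul_of_nonneg_right (ens_sq_le k3) (sq_nonneg w)
    nlinarith
  generalize 4 * e * ep * vq = a at k1 ⊢
  generalize 4 * e * eq' * vp = b at k2 ⊢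
  generalize (12 * ep * eq' + 4 * e * epq) * w = c at k4 ⊢
  have k5 : (a + b + c) ^ 2 ≤ 3 * (a ^ 2 + b ^ 2 + c ^ 2) := by
    nlinarith [sq_nonneg (a - b), sq_nonneg (b - c), sq_nonneg (a - c)]
  generalize a + b + c = ρ at k5 ⊢
  have k6 : (e ^ 4 * d + e ^ 2 * ρ) * (f - d) ≤
      -(3 / 4) * (e ^ 4 * d ^ 2) + 5 / 2 * (e ^ 4 * f ^ 2) + 5 / 2 * ρ ^ 2 := by
    nlinarith [sq_nonneg (e ^ 2 * d - 4 * (e ^ 2 * f)), sq_nonneg (ρ - e ^ 2 * f),
      sq_nonneg (e ^ 2 * d + 4 * ρ)]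
  linarith

theorem en_static : ∃ C₁ : ℝ, 0 < C₁ ∧ ∀ (η v : C2 → ℝ) (F : Fin 4 → Fin 4 → C2 → ℝ) (R M : ℝ),
    Cut η R M → SmC v → (∀ p q, SmC (F p q)) →
    bi R (fun z => η z ^ 4 * v z * (∑ p, ∑ q, pd p (pd q (F p q)) z - lap (lap v) z)) ≤
      -(1 / 2) * bi R (fun z => η z ^ 4 * ns 2 v z) +
      C₁ * bi R (fun z => η z ^ 4 * ∑ p, ∑ q, F p q z ^ 2) +
      C₁ * M ^ 4 * bi R fun z => v z ^ 2 := by
  refine ⟨14791680, by norm_num, fun η v F R M hη hv hF => ?_⟩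
  have s2 := ens_sm_pow hη.sm 2
  have s4 := ens_sm_pow hη.sm 4
  have hw : SmC fun z => η z ^ 4 * v z := ens_sm_mul s4 hv
  have sD : ∀ p q, SmC (pd p (pd q v)) := fun p q => sm_pd p (sm_pd q hv)
  have sG : ∀ p q, SmC fun z => F p q z - pd p (pd q v) z := fun p q =>
    ContDiff.sub (hF p q) (sD p q)
  have c1 : ∀ p q, Continuous fun z =>
      η z ^ 4 * v z * pd p (pd q fun z => F p q z - pd p (pd q v) z) z := fun p q =>
    (ens_sm_mul hw (sm_pd p (sm_pd q (sG p q)))).cont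
  have c2 : ∀ p q, Continuous fun z =>
      pd q (pd p fun z => η z ^ 4 * v z) z * (F p q z - pd p (pd q v) z) := fun p q =>
    (ens_sm_mul (sm_pd q (sm_pd p hw)) (sG p q)).cont
  have h1 : bi R (fun z => η z ^ 4 * v z * (∑ p, ∑ q, pd p (pd q (F p q)) z - lap (lap v) z)) =
      bi R fun z => ∑ p, ∑ q,
        pd q (pd p fun z => η z ^ 4 * v z) z * (F p q z - pd p (pd q v) z) := by
    rw [bi_sum _ fun p _ => continuous_finsetSum _ fun q _ => c2 p q]
    simp only [fun p => bi_sum (R := R) Finset.univ fun q _ => c2 p q,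
      ← fun p q => ens_ibp2 hw (sG p q) (ens_supp hη four_ne_zero v) p q,
      ← fun p => bi_sum (R := R) Finset.univ fun q _ => c1 p q]
    rw [← bi_sum _ fun p _ => continuous_finsetSum _ fun q _ => c1 p q]
    refine bi_congr fun z _ => ?_
    rw [lap_lap hv, ← Finset.sum_sub_distrib, Finset.mul_sum]
    refine Finset.sum_congr rfl fun p _ => ?_
    rw [← Finset.sum_sub_distrib, Finset.mul_sum]
    refine Finset.sum_congr rfl fun q _ => ?_
    rw [pd_sub' q (hF p q) (sD p q), pd_sub' p (sm_pd q (hF p q)) (sm_pd q (sD p q))]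
  have cA : Continuous fun z => η z ^ 4 * ns 2 v z := (ens_sm_mul s4 (sm_ns 2 hv)).cont
  have cB : Continuous fun z => η z ^ 4 * ∑ p, ∑ q, F p q z ^ 2 :=
    (ens_sm_mul s4 (sm_sum _ fun p _ => sm_sum _ fun q _ => ens_sm_pow (hF p q) 2)).cont
  have cC : Continuous fun z => η z ^ 2 * ns 1 v z := (ens_sm_mul s2 (sm_ns 1 hv)).cont
  have cD : Continuous fun z => v z ^ 2 := (ens_sm_pow hv 2).cont
  have h2 : bi R (fun z => ∑ p, ∑ q,
        pd q (pd p fun z => η z ^ 4 * v z) z * (F p q z - pd p (pd q v) z)) ≤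
      bi R fun z => -(3 / 4) * (η z ^ 4 * ns 2 v z) + 5 / 2 * (η z ^ 4 * ∑ p, ∑ q, F p q z ^ 2) +
        960 * M ^ 2 * (η z ^ 2 * ns 1 v z) + 30720 * M ^ 4 * v z ^ 2 := by
    refine bi_mono (continuous_finsetSum _ fun p _ => continuous_finsetSum _ fun q _ => c2 p q)
      ((((continuous_const.mul cA).add (continuous_const.mul cB)).add
        (continuous_const.mul cC)).add (continuous_const.mul cD)) fun z _ => ?_
    refine (Finset.sum_le_sum fun p _ => Finset.sum_le_sum fun q _ => ?_ :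
      _ ≤ ∑ p, ∑ q, (-(3 / 4) * (η z ^ 4 * pd p (pd q v) z ^ 2) + 5 / 2 * (η z ^ 4 * F p q z ^ 2) +
        120 * M ^ 2 * (η z ^ 2 * pd p v z ^ 2) + 120 * M ^ 2 * (η z ^ 2 * pd q v z ^ 2) +
        1920 * M ^ 4 * v z ^ 2)).trans (le_of_eq ?_)
    · rw [ens_pd2 hη.sm hv]
      exact ens_pt2 (hη.nn z) (hη.le z) (hη.d1 p z) (hη.d1 q z) (hη.d2 q p z)
    · rw [ns_two, ns_one]
      simp only [Fin.sum_univ_four]
      ring
  rw [ens_lin4 cA cB cC cD] at h2
  have hM := hη.pos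
  have h3 := mul_le_mul_of_nonneg_left
    (en_interp hη hv (ε := 1 / (3840 * M ^ 2)) (by positivity)) (by positivity : 0 ≤ 960 * M ^ 2)
  have e1 : 960 * M ^ 2 * (1 / (3840 * M ^ 2)) = 1 / 4 := by
    field_simp
    norm_num
  have e2 : 960 * M ^ 2 * (4 / (1 / (3840 * M ^ 2)) + 16 * M ^ 2) = 14760960 * M ^ 4 := by
    field_simp
    norm_num
  rw [mul_add, ← mul_assoc, ← mul_assoc, e1, e2] at h3
  have h4 : 0 ≤ bi R fun z => η z ^ 4 * ∑ p, ∑ q, F p q z ^ 2 := bi_nonneg fun z _ => by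
    positivity
  rw [h1]
  linarith

end Pool.Agent.P.MP_2cea5e_gt.II
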