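import Pool.Agent.P.MP_2cea5e_gt.II.BI
import Pool.Agent.P.MP_2cea5e_gt.II.IFD

/-!
Chapter II: the Sobolev inequality.
-/

open scoped ContDiff ComplexOrder Matrix Topology
open MeasureTheory Set Filter

noncomputable section

namespace Pool.Agent.P.MP_2cea5e_gt.II

theorem sob_cs (a : Fin 4) {w : C2 → ℝ} (hc : HasCompactSupport w) : HasCompactSupport (pd a w) :=
  IsCompact.of_isClosed_subset hc (isClosed_tsupport _) (tsupport_pd a w)

theorem sob_line {w : C2 → ℝ} (hw : SmC w) (hc : HasCompactSupport w) (a : Fin 4) (z : C2) :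
    ‖w z‖ₑ ≤ ∫⁻ r : ℝ, ‖pd a w (z + r • dir a)‖ₑ := by
  have h1 : ContDiff ℝ 1 fun r : ℝ => w (z + r • dir a) :=
    (hw.of_le (by simp)).comp (contDiff_const.add (contDiff_id.smul contDiff_const))
  have hi : Isometry fun r : ℝ => z + r • dir a := Isometry.of_dist_eq fun x y => by
    rw [dist_add_left, dist_eq_norm, ← sub_smul, norm_smul, norm_dir, mul_one, dist_eq_norm]
  have h2 : HasCompactSupport fun r : ℝ => w (z + r • dir a) :=
    hc.comp_isClosedEmbedding hi.isClosedEmbedding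
  have := HasCompactSupport.enorm_le_lintegral_Ici_deriv h1 h2 0
  simp only [zero_smul, add_zero, (hasDerivAt_line hw a z _).deriv] at this
  exact this.trans (setLIntegral_le_lintegral _ _)

theorem sob_fubC {G : ℂ → ENNReal} (hG : Measurable G) :
    ∫⁻ b : ℝ, ∫⁻ a : ℝ, G ⟨a, b⟩ = ∫⁻ x, G x := by
  have hm : Measurable fun p : ℝ × ℝ => G (Complex.measurableEquivRealProd.symm p) :=
    hG.comp Complex.measurableEquivRealProd.symm.measurable
  rw [← (Complex.volume_preserving_equiv_real_prod.symm _).lintegral_comp hG,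
    Measure.volume_eq_prod, lintegral_prod_symm' _ hm]
  rfl

theorem sob_fub {F : C2 → ENNReal} (hF : Measurable F) (z : C2) :
    ∫⁻ r3 : ℝ, ∫⁻ r2 : ℝ, ∫⁻ r1 : ℝ, ∫⁻ r0 : ℝ,
      F (z + r3 • dir 3 + r2 • dir 2 + r1 • dir 1 + r0 • dir 0) = ∫⁻ y, F y := by
  have hF' : Measurable fun y => F (z + y) := hF.comp (measurable_const_add z)
  have hm : Measurable fun p : ℂ × ℂ => F (z + MeasurableEquiv.finTwoArrow.symm p) :=
    hF'.comp (MeasurableEquiv.finTwoArrow (α := ℂ)).symm.measurable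
  rw [← lintegral_add_left_eq_self F z,
    ← ((volume_preserving_finTwoArrow ℂ).symm _).lintegral_comp hF', Measure.volume_eq_prod,
    lintegral_prod_symm' _ hm, ← sob_fubC hm.lintegral_prod_left']
  refine lintegral_congr fun r3 => lintegral_congr fun r2 => ?_
  have hm' : Measurable fun x : ℂ =>
      F (z + MeasurableEquiv.finTwoArrow.symm (x, (⟨r2, r3⟩ : ℂ))) :=
    hm.comp measurable_prodMk_right
  rw [← sob_fubC hm']
  refine lintegral_congr fun r1 => lintegral_congr fun r0 => ?_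
  congr 1
  ext j
  fin_cases j <;> simp [dir, Complex.ext_iff]

theorem sob0 {w : C2 → ℝ} (hw : SmC w) (hc : HasCompactSupport w) (z : C2) :
    |w z| ≤ ∫ y, |pdl [0, 1, 2, 3] w y| := by
  have s3 := sm_pd 3 hw
  have s2 := sm_pd 2 s3
  have s1 := sm_pd 1 s2
  have s0 := sm_pd 0 s1
  have c3 := sob_cs 3 hc
  have c2 := sob_cs 2 c3
  have c1 := sob_cs 1 c2
  have c0 := sob_cs 0 c1
  have key : ‖w z‖ₑ ≤ ∫⁻ y, ‖pdl [0, 1, 2, 3] w y‖ₑ := by
    rw [← sob_fub (F := fun y => ‖pdl [0, 1, 2, 3] w y‖ₑ) s0.cont.measurable.enorm z]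
    refine (sob_line hw hc 3 z).trans (lintegral_mono fun r3 => ?_)
    refine (sob_line s3 c3 2 _).trans (lintegral_mono fun r2 => ?_)
    refine (sob_line s2 c2 1 _).trans (lintegral_mono fun r1 => ?_)
    exact sob_line s1 c1 0 _
  have hi : Integrable (pdl [0, 1, 2, 3] w) := s0.cont.integrable_of_hasCompactSupport c0
  rw [← ofReal_integral_norm_eq_lintegral_enorm hi, ← ofReal_norm,
    ENNReal.ofReal_le_ofReal_iff (integral_nonneg fun _ => norm_nonneg _)] at key
  simpa using key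

theorem sob (R : ℝ) (hR : 0 < R) : ∃ C : ℝ, 0 ≤ C ∧ ∀ f : C2 → ℝ, SmC f → ∀ z₀ : C2,
    f z₀ ^ 2 ≤ C * ∫ z in Metric.ball z₀ R, ∑ i ∈ Finset.range 5, ns i f z := by
  obtain ⟨η, M, hη, h1⟩ := exists_cut (half_pos hR) (half_lt_self hR)
  have cS : ∀ {u : C2 → ℝ}, SmC u → Continuous fun y => ∑ i ∈ Finset.range 5, ns i u y :=
    fun hu => continuous_finsetSum _ fun i _ => (sm_ns i hu).cont
  have nS : ∀ (u : C2 → ℝ) y, 0 ≤ ∑ i ∈ Finset.range 5, ns i u y := fun u y =>
    Finset.sum_nonneg fun i _ => ns_nonneg i u y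
  have bS : ∀ (u : C2 → ℝ) y (l : List (Fin 4)), l.length ≤ 4 →
      |pdl l u y| ≤ √(∑ i ∈ Finset.range 5, ns i u y) := fun u y l hl =>
    Real.abs_le_sqrt ((sq_le_ns l u y).trans (Finset.single_le_sum
      (f := fun i => ns i u y) (fun i _ => ns_nonneg i u y) (Finset.mem_range.2 (by omega))))
  obtain ⟨A, hA⟩ := (isCompact_closedBall (0 : C2) R).exists_bound_of_continuousOn
    (cS hη.sm).sqrt.continuousOn
  have hA' : ∀ y ∈ Metric.ball (0 : C2) R, ∀ l : List (Fin 4), l.length ≤ 4 → |pdl l η y| ≤ A :=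
    fun y hy l hl => (bS η y l hl).trans
      ((le_abs_self _).trans (hA y (Metric.ball_subset_closedBall hy)))
  have hv := vb_nonneg R
  refine ⟨(16 * A) ^ 2 * (vb R + 1), by positivity, fun f hf z₀ => ?_⟩
  set g : C2 → ℝ := fun y => f (z₀ + y) with hg
  have sg : SmC g := ContDiff.comp hf (contDiff_const.add contDiff_id)
  set S : C2 → ℝ := fun y => ∑ i ∈ Finset.range 5, ns i g y with hS
  have sw : SmC fun y => η y * g y := sm_mul hη.sm sg
  have ts : tsupport (fun y => η y * g y) ⊆ Metric.ball 0 R :=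
    tsupport_mul_subset_left.trans hη.supp
  have cw : HasCompactSupport fun y => η y * g y :=
    (isCompact_closedBall (0 : C2) R).of_isClosed_subset (isClosed_tsupport _)
      (ts.trans Metric.ball_subset_closedBall)
  have h0 := sob0 sw cw 0
  rw [h1 0 (by rw [norm_zero]; exact (half_pos hR).le), one_mul] at h0
  have e0 : g 0 = f z₀ := by simp [hg]
  have ts' : tsupport (pdl [0, 1, 2, 3] fun y => η y * g y) ⊆ Metric.ball 0 R :=
    (tsupport_pd _ _).trans ((tsupport_pd _ _).trans ((tsupport_pd _ _).trans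
      ((tsupport_pd _ _).trans ts)))
  rw [e0, ← setIntegral_eq_integral_of_forall_compl_eq_zero (s := Metric.ball (0 : C2) R)
    (fun y hy => by rw [image_eq_zero_of_notMem_tsupport fun h => hy (ts' h), abs_zero])] at h0
  have cS' : Continuous S := cS sg
  have h2 : bi R (fun y => |pdl [0, 1, 2, 3] (fun y => η y * g y) y|) ≤
      bi R fun y => 16 * A * √(S y) :=
    bi_mono (sm_pdl _ sw).cont.abs (continuous_const.mul cS'.sqrt) fun y hy => by
      have := leib_bound hη.sm sg (hA' y hy) (bS g y) [0, 1, 2, 3] le_rfl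
      norm_num at this ⊢
      exact this
  rw [bi_cmul] at h2
  set I := bi R fun y => √(S y) with hI
  have I0 : 0 ≤ I := bi_nonneg fun _ _ => Real.sqrt_nonneg _
  set c := I / (vb R + 1) with hc
  have hcI : I = c * (vb R + 1) := by rw [hc]; field_simp
  have h3 : bi R (fun y => 2 * c * √(S y)) ≤ bi R fun y => S y + c ^ 2 :=
    bi_mono (continuous_const.mul cS'.sqrt) (cS'.add continuous_const) fun y _ => by
      have := Real.sq_sqrt (nS g y)
      nlinarith [sq_nonneg (√(S y) - c)]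
  rw [bi_cmul, bi_add cS' continuous_const, bi_const, ← hI] at h3
  have h4 : I ^ 2 ≤ (vb R + 1) * bi R S := by
    have a1 := mul_le_mul_of_nonneg_left h3 (by linarith : 0 ≤ vb R + 1)
    have a2 : 0 ≤ c ^ 2 * (vb R + 1) := by positivity
    rw [hcI] at a1 ⊢
    nlinarith
  have h5 : bi R S = ∫ z in Metric.ball z₀ R, ∑ i ∈ Finset.range 5, ns i f z := by
    rw [← bi_shift]
    simp only [hS, hg, ns, pdl_shift]
  have h6 : |f z₀| ≤ 16 * A * I := h0.trans h2
  rw [← h5, ← sq_abs]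
  calc |f z₀| ^ 2 ≤ (16 * A * I) ^ 2 := pow_le_pow_left₀ (abs_nonneg _) h6 2
    _ = (16 * A) ^ 2 * I ^ 2 := by ring
    _ ≤ (16 * A) ^ 2 * ((vb R + 1) * bi R S) := mul_le_mul_of_nonneg_left h4 (sq_nonneg _)
    _ = _ := by ring

/-- The form used on concentric balls. -/
theorem sob_bi {r R : ℝ} (hR : r < R) : ∃ C : ℝ, 0 ≤ C ∧ ∀ f : C2 → ℝ, SmC f →
    ∀ z ∈ Metric.ball (0 : C2) r, f z ^ 2 ≤ C * ∑ i ∈ Finset.range 5, bi R (ns i f) := by
  obtain ⟨C, hC, h⟩ := sob (R - r) (sub_pos.2 hR)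
  refine ⟨C, hC, fun f hf z hz => (h f hf z).trans (mul_le_mul_of_nonneg_left ?_ hC)⟩
  rw [← bi_sum _ fun i _ => (sm_ns i hf).cont]
  refine ball_le_bi (continuous_finsetSum _ fun i _ => (sm_ns i hf).cont) ?_
    fun y _ => Finset.sum_nonneg fun i _ => ns_nonneg i f y
  have := mem_ball_zero_iff.1 hz
  linarith

end Pool.Agent.P.MP_2cea5e_gt.II
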