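import Pool.Agent.P.MP_2cea5e_gt.II.Real
import Pool.Agent.P.MP_2cea5e_gt.II.IFD
import Pool.Agent.P.MP_2cea5e_gt.II.TI

/-!
Chapter II: affine changes of coordinates.
-/

open scoped ContDiff ComplexOrder Matrix Topology
open MeasureTheory Set Filter

noncomputable section

namespace Pool.Agent.P.MP_2cea5e_gt.II

variable {f : C2 → ℝ}

namespace Scale

/-- A complex matrix as a real linear map. -/
def mv (L : Matrix (Fin 2) (Fin 2) ℂ) : C2 →L[ℝ] C2 :=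
  LinearMap.toContinuousLinearMap ((Matrix.mulVecLin L).restrictScalars ℝ)

theorem mv_apply (L : Matrix (Fin 2) (Fin 2) ℂ) (y : C2) : mv L y = L *ᵥ y := rfl

theorem sm_map (z₀ : C2) (L : Matrix (Fin 2) (Fin 2) ℂ) :
    ContDiff ℝ ∞ fun y : C2 => z₀ + L *ᵥ y := contDiff_const.add (mv L).contDiff

theorem lin_single (A : C2 →L[ℝ] ℂ) (j : Fin 2) (c : ℂ) :
    A (Pi.single j c) = c.re * A (Pi.single j 1) + c.im * A (Pi.single j Complex.I) := by
  have : (Pi.single j c : C2)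
      = c.re • (Pi.single j 1 : C2) + c.im • (Pi.single j Complex.I : C2) := by
    rw [← Pi.single_smul, ← Pi.single_smul, ← Pi.single_add]
    simp
  rw [this, map_add, map_smul, map_smul, Complex.real_smul, Complex.real_smul]

theorem lin_dz (A : C2 →L[ℝ] ℂ) (j : Fin 2) (c : ℂ) :
    A (Pi.single j (c * 1)) - Complex.I * A (Pi.single j (c * Complex.I)) =
      c * (A (Pi.single j 1) - Complex.I * A (Pi.single j Complex.I)) := by
  rw [lin_single _ j (c * 1), lin_single _ j (c * Complex.I)]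
  conv_rhs => rw [← Complex.re_add_im c]
  simp only [mul_one, Complex.mul_I_re, Complex.mul_I_im, Complex.ofReal_neg]
  linear_combination (c.im * A (Pi.single j Complex.I)) * Complex.I_mul_I

theorem lin_dzb (A : C2 →L[ℝ] ℂ) (j : Fin 2) (c : ℂ) :
    A (Pi.single j (c * 1)) + Complex.I * A (Pi.single j (c * Complex.I)) =
      star c * (A (Pi.single j 1) + Complex.I * A (Pi.single j Complex.I)) := by
  rw [lin_single _ j (c * 1), lin_single _ j (c * Complex.I)]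
  conv_rhs => rw [← Complex.re_add_im c]
  simp only [mul_one, Complex.mul_I_re, Complex.mul_I_im, Complex.ofReal_neg, map_add, map_mul,
    Complex.conj_ofReal, Complex.conj_I, Complex.star_def]
  linear_combination (c.im * A (Pi.single j Complex.I)) * Complex.I_mul_I

theorem fderiv_aff {g : C2 → ℂ} (hg : Differentiable ℝ g) (a : ℂ) (z₀ : C2)
    (L : Matrix (Fin 2) (Fin 2) ℂ) (y : C2) (j : Fin 2) (c : ℂ) :
    fderiv ℝ (fun w => a * g (z₀ + L *ᵥ w)) y (Pi.single j c) =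
      a * (fderiv ℝ g (z₀ + L *ᵥ y) (Pi.single 0 (L 0 j * c)) +
        fderiv ℝ g (z₀ + L *ᵥ y) (Pi.single 1 (L 1 j * c))) := by
  have h := ((hg (z₀ + L *ᵥ y)).hasFDerivAt.comp y
    ((mv L).hasFDerivAt.const_add z₀)).const_mul a
  have e : mv L (Pi.single j c) = Pi.single 0 (L 0 j * c) + Pi.single 1 (L 1 j * c) := by
    rw [mv_apply, Matrix.mulVec_single]
    funext k
    fin_cases k <;> simp
  exact (congrArg (fun A : C2 →L[ℝ] ℂ => A (Pi.single j c)) h.fderiv).trans (by simp [e])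

theorem dz_aff {g : C2 → ℂ} (hg : Differentiable ℝ g) (a : ℂ) (z₀ : C2)
    (L : Matrix (Fin 2) (Fin 2) ℂ) (y : C2) (j : Fin 2) :
    dz j (fun w => a * g (z₀ + L *ᵥ w)) y =
      a * (L 0 j * dz 0 g (z₀ + L *ᵥ y) + L 1 j * dz 1 g (z₀ + L *ᵥ y)) := by
  rw [dz, dz, dz, fderiv_aff hg, fderiv_aff hg]
  linear_combination (a / 2) * lin_dz (fderiv ℝ g (z₀ + L *ᵥ y)) 0 (L 0 j) +
    (a / 2) * lin_dz (fderiv ℝ g (z₀ + L *ᵥ y)) 1 (L 1 j)

theorem dzb_aff {g : C2 → ℂ} (hg : Differentiable ℝ g) (a : ℂ) (z₀ : C2)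
    (L : Matrix (Fin 2) (Fin 2) ℂ) (y : C2) (j : Fin 2) :
    dzb j (fun w => a * g (z₀ + L *ᵥ w)) y =
      a * star (L 0 j) * dzb 0 g (z₀ + L *ᵥ y) + a * star (L 1 j) * dzb 1 g (z₀ + L *ᵥ y) := by
  rw [dzb, dzb, dzb, fderiv_aff hg, fderiv_aff hg]
  linear_combination (a / 2) * lin_dzb (fderiv ℝ g (z₀ + L *ᵥ y)) 0 (L 0 j) +
    (a / 2) * lin_dzb (fderiv ℝ g (z₀ + L *ᵥ y)) 1 (L 1 j)

theorem dz_add {g h : C2 → ℂ} (hg : Differentiable ℝ g) (hh : Differentiable ℝ h) (y : C2)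
    (j : Fin 2) : dz j (fun w => g w + h w) y = dz j g y + dz j h y := by
  rw [dz, dz, dz, fderiv_fun_add (hg y) (hh y)]
  simp only [add_apply]
  ring

theorem sm_dzb {g : C2 → ℂ} (hg : ContDiff ℝ ∞ g) (k : Fin 2) : ContDiff ℝ ∞ (dzb k g) := by
  have h := hg.fderiv_right (m := ∞) (by simp)
  exact ((h.clm_apply contDiff_const).add
    (contDiff_const.mul (h.clm_apply contDiff_const))).div_const 2

theorem det_star (L : Matrix (Fin 2) (Fin 2) ℂ) : (L.map star).det = star L.det := by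
  simp [Matrix.det_fin_two]

theorem fd_scale (g : C2 → ℂ) (c : ℂ) (z₀ : C2) (lam : ℝ) (y v : C2) :
    fderiv ℝ (fun w => c * g (z₀ + lam • w)) y v = c * lam * fderiv ℝ g (z₀ + lam • y) v := by
  have h1 : (fun w => c * g (z₀ + lam • w)) = c • fun w => g (z₀ + lam • w) := rfl
  have h2 := fderiv_comp_smul (𝕜 := ℝ) (f := fun w => g (z₀ + w)) (x := y) lam
  rw [fderiv_comp_add_left] at h2
  rw [h1, fderiv_const_smul_field, Pi.smul_apply, h2]
  simp [mul_assoc]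

/-- Scaling of the Hessian, for arbitrary functions. -/
theorem hess_scale (f : C2 → ℝ) (c : ℝ) (z₀ : C2) (lam : ℝ) (y : C2) :
    hess (fun w => c * f (z₀ + lam • w)) y = ((c * lam ^ 2 : ℝ) : ℂ) • hess f (z₀ + lam • y) := by
  ext j k
  have h1 : (dzb k fun w => ((c * f (z₀ + lam • w) : ℝ) : ℂ)) =
      fun w => (c * lam : ℂ) * (dzb k fun w => (f w : ℂ)) (z₀ + lam • w) := by
    funext w
    simp only [dzb, Complex.ofReal_mul, fd_scale (fun w => (f w : ℂ))]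
    ring
  simp only [hess, Matrix.of_apply, Matrix.smul_apply, h1, smul_eq_mul]
  simp only [dz, fd_scale]
  push_cast
  ring

theorem scal_scale (f : C2 → ℝ) (z₀ : C2) {lam : ℝ} (hl : lam ≠ 0) (y : C2) :
    scal (fun w => (lam ^ 2)⁻¹ * f (z₀ + lam • w)) y = lam ^ 2 * scal f (z₀ + lam • y) := by
  have h1 : ∀ y, hess (fun w => (lam ^ 2)⁻¹ * f (z₀ + lam • w)) y = hess f (z₀ + lam • y) := by
    intro y
    rw [hess_scale, inv_mul_cancel₀ (pow_ne_zero 2 hl), Complex.ofReal_one, one_smul]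
  have h2 := hess_scale (fun w => Real.log (vol f w)) 1 z₀ lam y
  simp only [one_mul] at h2
  simp only [scal, vol, h1]
  simp only [vol] at h2
  rw [h2, Matrix.mul_smul, Matrix.trace_smul, smul_eq_mul, Complex.re_ofReal_mul]
  ring

end Scale

open Scale

theorem hess_aff (hf : SmC f) (a : ℝ) (z₀ : C2) (L : Matrix (Fin 2) (Fin 2) ℂ) (y : C2) :
    hess (fun y => a * f (z₀ + L *ᵥ y)) y =
      (a : ℂ) • (Lᵀ * hess f (z₀ + L *ᵥ y) * L.map star) := by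
  have h1 : ContDiff ℝ ∞ fun w => (f w : ℂ) := Complex.ofRealCLM.contDiff.comp hf
  have h2 := fun k => (sm_dzb h1 k).differentiable (by simp)
  have h3 := (sm_map z₀ L).differentiable (by simp)
  ext j k
  have h4 : (dzb k fun w => ((a * f (z₀ + L *ᵥ w) : ℝ) : ℂ)) = fun w =>
      a * star (L 0 k) * (dzb 0 fun w => (f w : ℂ)) (z₀ + L *ᵥ w) +
        a * star (L 1 k) * (dzb 1 fun w => (f w : ℂ)) (z₀ + L *ᵥ w) := by
    funext w
    simp only [Complex.ofReal_mul]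
    exact dzb_aff (h1.differentiable (by simp)) a z₀ L w k
  have h5 : ∀ (q : Fin 2) (c : ℂ), Differentiable ℝ
      fun w => c * (dzb q fun w => (f w : ℂ)) (z₀ + L *ᵥ w) :=
    fun q c => ((h2 q).comp h3).const_mul c
  simp only [hess, Matrix.of_apply, h4]
  rw [dz_add (h5 0 _) (h5 1 _), dz_aff (h2 0), dz_aff (h2 1)]
  simp only [Matrix.smul_apply, Matrix.mul_apply, Fin.sum_univ_two, Matrix.transpose_apply,
    Matrix.of_apply, Matrix.map_apply, smul_eq_mul]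
  ring

theorem sm_aff (hf : SmC f) (a : ℝ) (z₀ : C2) (L : Matrix (Fin 2) (Fin 2) ℂ) :
    SmC fun y => a * f (z₀ + L *ᵥ y) := contDiff_const.mul (ContDiff.comp hf (sm_map z₀ L))

theorem vol_aff (hf : SmC f) (a : ℝ) (z₀ : C2) (L : Matrix (Fin 2) (Fin 2) ℂ) (y : C2) :
    vol (fun y => a * f (z₀ + L *ᵥ y)) y = a ^ 2 * ‖L.det‖ ^ 2 * vol f (z₀ + L *ᵥ y) := by
  rw [vol, vol, hess_aff hf, Matrix.det_smul, Matrix.det_mul, Matrix.det_mul,
    Matrix.det_transpose, det_star, ← Complex.re_ofReal_mul]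
  congr 1
  have := Complex.mul_conj' L.det
  rw [Complex.star_def, Fintype.card_fin]
  push_cast
  rw [← this]
  ring

theorem qf_aff (hf : SmC f) (a : ℝ) (z₀ : C2) (L : Matrix (Fin 2) (Fin 2) ℂ) (y v : C2) :
    qf (fun y => a * f (z₀ + L *ᵥ y)) y v = a * qf f (z₀ + L *ᵥ y) (L.map star *ᵥ v) := by
  rw [qf, qf, hess_aff hf, ← Complex.re_ofReal_mul]
  congr 1
  simp only [Matrix.mulVec, dotProduct, Matrix.smul_apply, Matrix.mul_apply, Fin.sum_univ_two,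
    Matrix.transpose_apply, Matrix.map_apply, smul_eq_mul, Pi.star_apply, star_add, star_mul',
    star_star]
  ring

theorem Adm.aff (h : Adm f) {a : ℝ} (ha : 0 < a) (z₀ : C2) {L : Matrix (Fin 2) (Fin 2) ℂ}
    (hL : L.det ≠ 0) : Adm fun y => a * f (z₀ + L *ᵥ y) := by
  refine ⟨sm_aff h.sm a z₀ L, fun y => ?_⟩
  have hu : IsUnit (L.map star) := by
    rw [Matrix.isUnit_iff_isUnit_det, det_star]
    exact (star_ne_zero.2 hL).isUnit
  have h1 := (h.pos (z₀ + L *ᵥ y)).conjTranspose_mul_mul_same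
    (Matrix.mulVec_injective_of_isUnit hu)
  have e : (L.map star)ᴴ = Lᵀ := by
    ext j k
    simp
  rw [e] at h1
  rw [hess_aff h.sm]
  exact h1.smul (Complex.zero_lt_real.2 ha)

theorem Lam_aff (h : Adm f) {u : C2 → ℝ} (hu : SmC u) {a : ℝ} (ha : 0 < a) (z₀ : C2)
    {L : Matrix (Fin 2) (Fin 2) ℂ} (hL : L.det ≠ 0) (y : C2) :
    Lam (fun y => a * f (z₀ + L *ᵥ y)) (fun y => u (z₀ + L *ᵥ y)) y =
      a⁻¹ * Lam f u (z₀ + L *ᵥ y) := by
  have hu' := sm_aff hu 1 z₀ L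
  have h1 := hess_aff hu 1 z₀ L y
  simp only [one_mul] at hu' h1
  rw [← trace_eq (h.aff ha z₀ hL) hu', ← trace_eq h hu, hess_aff h.sm, h1, Complex.ofReal_one,
    one_smul, ← Complex.re_ofReal_mul]
  congr 1
  set H := hess f (z₀ + L *ᵥ y)
  set U := hess u (z₀ + L *ᵥ y)
  set B := L.map star
  have hH : IsUnit H.det := (Matrix.isUnit_iff_isUnit_det _).1 (h.pos _).isUnit
  have hB : IsUnit B.det := by
    rw [det_star]
    exact (star_ne_zero.2 hL).isUnit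
  have hT : IsUnit Lᵀ.det := by
    rw [Matrix.det_transpose]
    exact hL.isUnit
  have ha' : (a : ℂ) ≠ 0 := Complex.ofReal_ne_zero.2 ha.ne'
  have e : ((a : ℂ) • (Lᵀ * H * B))⁻¹ = (a : ℂ)⁻¹ • (B⁻¹ * H⁻¹ * Lᵀ⁻¹) := by
    refine Matrix.inv_eq_left_inv ?_
    rw [Matrix.smul_mul, Matrix.mul_smul, smul_smul, inv_mul_cancel₀ ha', one_smul]
    simp only [Matrix.mul_assoc]
    rw [Matrix.nonsing_inv_mul_cancel_left _ _ hT, Matrix.nonsing_inv_mul_cancel_left _ _ hH,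
      Matrix.nonsing_inv_mul _ hB]
  rw [e, Matrix.smul_mul, Matrix.trace_smul, smul_eq_mul, Complex.ofReal_inv]
  congr 1
  simp only [Matrix.mul_assoc]
  rw [Matrix.nonsing_inv_mul_cancel_left _ _ hT, Matrix.trace_mul_comm]
  simp only [Matrix.mul_assoc]
  rw [Matrix.mul_nonsing_inv _ hB, Matrix.mul_one]

theorem scal_aff (h : Adm f) {a : ℝ} (ha : 0 < a) (z₀ : C2) {L : Matrix (Fin 2) (Fin 2) ℂ}
    (hL : L.det ≠ 0) (y : C2) :
    scal (fun y => a * f (z₀ + L *ᵥ y)) y = a⁻¹ * scal f (z₀ + L *ᵥ y) := by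
  have hg := h.aff ha z₀ hL
  have hu : SmC fun w => Real.log (vol f w) :=
    ContDiff.log (sm_vol h.sm) fun w => (h.vol_pos w).ne'
  have hu' := sm_aff hu 1 z₀ L
  simp only [one_mul] at hu'
  have hd : a ^ 2 * ‖L.det‖ ^ 2 ≠ 0 :=
    mul_ne_zero (pow_ne_zero 2 ha.ne') (pow_ne_zero 2 (norm_ne_zero_iff.2 hL))
  have e : (fun w => Real.log (vol (fun y => a * f (z₀ + L *ᵥ y)) w)) = fun w =>
      Real.log (a ^ 2 * ‖L.det‖ ^ 2) + Real.log (vol f (z₀ + L *ᵥ w)) := by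
    funext w
    rw [vol_aff h.sm, Real.log_mul hd (h.vol_pos _).ne']
  have h1 := Lam_aff h hu ha z₀ hL y
  rw [scal_eq hg, scal_eq h]
  simp only [e]
  rw [mul_neg, ← h1]
  simp only [Lam, Ee_add' _ (sm_const _) hu', Ee_const, zero_add]

variable {F : ℝ → C2 → ℝ} {t₀ lam s : ℝ} {z₀ : C2}

theorem Ee_rs (hl : 0 < lam) (h : SmC (F (t₀ + lam ^ 4 * s))) (a : Fin 4) :
    Ee a (rs t₀ z₀ lam F s) = fun y => Ee a (F (t₀ + lam ^ 4 * s)) (z₀ + lam • y) := by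
  have hs : SmC fun y => F (t₀ + lam ^ 4 * s) (z₀ + lam • y) :=
    ContDiff.comp h (contDiff_const.add (contDiff_id.const_smul lam))
  unfold rs
  rw [Ee_cmul' a _ hs]
  funext y
  simp only [Ee_eq_pdl, pdl_scale _ h, List.length_cons, List.length_nil, Finset.mul_sum]
  refine Finset.sum_congr rfl fun p _ => Finset.sum_congr rfl fun q _ => ?_
  field_simp
  ring

theorem NN_rs (hl : 0 < lam) (h : SmC (F (t₀ + lam ^ 4 * s))) (j : ℕ) (y : C2) :
    NN j (rs t₀ z₀ lam F s) y = lam ^ (2 * j) * NN j (F (t₀ + lam ^ 4 * s)) (z₀ + lam • y) := by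
  simp only [NN, ns, Ee_rs hl h, pdl_scale _ (sm_Ee _ h), List.length_ofFn, Finset.mul_sum]
  refine Finset.sum_congr rfl fun p _ => Finset.sum_congr rfl fun q _ => ?_
  ring

theorem NFlow.rs {S S' : Set ℝ} (h : NFlow S F) (hl : 0 < lam)
    (hm : ∀ s ∈ S', t₀ + lam ^ 4 * s ∈ S) : NFlow S' (rs t₀ z₀ lam F) := by
  have hs : ∀ s ∈ S', SmC fun y => F (t₀ + lam ^ 4 * s) (z₀ + lam • y) := fun s hs =>
    ContDiff.comp (h.cl.sm _ (hm s hs)) (contDiff_const.add (contDiff_id.const_smul lam))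
  refine ⟨⟨fun s hs' => contDiff_const.mul (hs s hs'), fun l => ?_⟩, fun s hs' y => ?_, ?_⟩
  · have h1 := (h.cl.cont l).comp
      (f := fun q : ℝ × C2 => (t₀ + lam ^ 4 * q.1, z₀ + lam • q.2)) (s := S' ×ˢ univ)
      (by fun_prop) fun q hq => ⟨hm _ hq.1, mem_univ _⟩
    refine ((continuousOn_const (c := (lam ^ 2)⁻¹ * lam ^ l.length)).mul h1).congr
      fun q hq => ?_
    unfold II.rs
    simp only [pdl_cmul' l _ (hs _ hq.1), pdl_scale l (h.cl.sm _ (hm _ hq.1)), Pi.mul_apply,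
      Function.comp_apply, mul_assoc]
  · unfold II.rs
    rw [hess_scale, inv_mul_cancel₀ (pow_ne_zero 2 hl.ne'), Complex.ofReal_one, one_smul]
    exact h.pos _ (hm s hs') _
  · obtain ⟨c, hc⟩ := h.eq
    refine ⟨lam ^ 2 * c, ?_⟩
    have h1 := (hc.comp t₀ (lam ^ 4) (fun y => z₀ + lam • y) hm).cmul (lam ^ 2)⁻¹
    unfold II.rs
    convert h1 using 3 with t z
    rw [scal_scale _ _ hl.ne']
    field_simp

theorem NFlow.mono {S S' : Set ℝ} (h : NFlow S F) (hS : S' ⊆ S) : NFlow S' F := ⟨cl_mono h.cl hS, fun t ht => h.pos t (hS ht), h.eq.imp fun _ hc => hc.mono hS⟩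

/-- Normalisation of a positive Hermitian matrix. -/
theorem exists_normal {H : Matrix (Fin 2) (Fin 2) ℂ} (hH : H.PosDef) {Λ : ℝ}
    (h : ∀ v : C2, ‖v‖ ^ 2 ≤ Λ * (star v ⬝ᵥ H *ᵥ v).re ∧ (star v ⬝ᵥ H *ᵥ v).re ≤ Λ * ‖v‖ ^ 2) :
    ∃ L L' : Matrix (Fin 2) (Fin 2) ℂ, L * L' = 1 ∧ L' * L = 1 ∧
      (∀ v : C2, (star (L.map star *ᵥ v) ⬝ᵥ H *ᵥ (L.map star *ᵥ v)).re = ‖v 0‖ ^ 2 + ‖v 1‖ ^ 2) ∧
      ∀ y : C2, ‖L *ᵥ y‖ ^ 2 ≤ 2 * Λ * ‖y‖ ^ 2 ∧ ‖L' *ᵥ y‖ ^ 2 ≤ Λ * ‖y‖ ^ 2 := by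
  obtain ⟨C, hC, rfl⟩ : ∃ C : Matrix (Fin 2) (Fin 2) ℂ, IsUnit C ∧ H = Cᴴ * C := by
    open scoped MatrixOrder in
    exact CStarAlgebra.isStrictlyPositive_iff_eq_star_mul_self.mp hH.isStrictlyPositive
  have hC' := (Matrix.isUnit_iff_isUnit_det _).1 hC
  have hq : ∀ v : C2, (star v ⬝ᵥ (Cᴴ * C) *ᵥ v).re = ‖(C *ᵥ v) 0‖ ^ 2 + ‖(C *ᵥ v) 1‖ ^ 2 := by
    intro v
    rw [← Matrix.mulVec_mulVec, Matrix.dotProduct_mulVec, ← Matrix.star_mulVec]
    simp only [dotProduct, Fin.sum_univ_two, Pi.star_apply, Complex.star_def, Complex.conj_mul',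
      Complex.add_re, ← Complex.ofReal_pow, Complex.ofReal_re]
  have hss : ∀ M : Matrix (Fin 2) (Fin 2) ℂ, (M.map star).map star = M := fun M => by
    ext j k
    simp
  have hsm : ∀ M N : Matrix (Fin 2) (Fin 2) ℂ, M * N = 1 → M.map star * N.map star = 1 := by
    intro M N e
    have := Matrix.map_mul (L := M) (M := N) (f := starRingEnd ℂ)
    rw [e, Matrix.map_one _ (map_zero _) (map_one _)] at this
    exact this.symm
  have hsv : ∀ (M : Matrix (Fin 2) (Fin 2) ℂ) (y : C2), M.map star *ᵥ y = star (M *ᵥ star y) := by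
    intro M y
    funext j
    fin_cases j <;> simp [Matrix.mulVec, dotProduct]
  have hn1 : ∀ v : C2, ‖v 0‖ ^ 2 + ‖v 1‖ ^ 2 ≤ 2 * ‖v‖ ^ 2 := fun v => by
    have h0 := pow_le_pow_left₀ (norm_nonneg _) (norm_le_pi_norm v 0) 2
    have h1 := pow_le_pow_left₀ (norm_nonneg _) (norm_le_pi_norm v 1) 2
    linarith
  have hn2 : ∀ v : C2, ‖v‖ ^ 2 ≤ ‖v 0‖ ^ 2 + ‖v 1‖ ^ 2 := fun v => by
    have h0 : ‖v‖ ≤ √(‖v 0‖ ^ 2 + ‖v 1‖ ^ 2) := by
      refine (pi_norm_le_iff_of_nonneg (Real.sqrt_nonneg _)).2 fun j => ?_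
      refine Real.le_sqrt_of_sq_le ?_
      fin_cases j
      · exact le_add_of_nonneg_right (sq_nonneg _)
      · exact le_add_of_nonneg_left (sq_nonneg _)
    exact (pow_le_pow_left₀ (norm_nonneg _) h0 2).trans (Real.sq_sqrt (by positivity)).le
  have hi : ∀ v : C2, C *ᵥ (C⁻¹ *ᵥ v) = v := fun v => by
    rw [Matrix.mulVec_mulVec, Matrix.mul_nonsing_inv _ hC', Matrix.one_mulVec]
  have hΛ : 0 ≤ Λ := by
    have h1 := (h 1).2
    rw [hq, norm_one, one_pow, mul_one] at h1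
    exact le_trans (by positivity) h1
  refine ⟨C⁻¹.map star, C.map star, hsm _ _ (Matrix.nonsing_inv_mul _ hC'),
    hsm _ _ (Matrix.mul_nonsing_inv _ hC'), fun v => by rw [hss, hq, hi], fun y => ⟨?_, ?_⟩⟩
  · have h1 := (h (C⁻¹ *ᵥ star y)).1
    rw [hq, hi] at h1
    have h2 := mul_le_mul_of_nonneg_left (hn1 (star y)) hΛ
    rw [norm_star] at h2
    rw [hsv, norm_star]
    linarith
  · have h1 := (h (star y)).2
    rw [hq, norm_star] at h1
    rw [hsv, norm_star]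
    exact (hn2 _).trans h1

end Pool.Agent.P.MP_2cea5e_gt.II
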