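import Pool.Agent.P.MP_2cea5e_gt.II.EN

/-!
Chapter II: one level of the energy estimate for systems.
-/

open scoped ContDiff ComplexOrder Matrix Topology
open MeasureTheory Set Filter

noncomputable section

namespace Pool.Agent.P.MP_2cea5e_gt.II

theorem ss_sum {J : Type} [Fintype J] {G : J → ℝ → C2 → ℝ} {a b s t : ℝ}
    (hG : ∀ j, JC (Icc a b) (G j)) (R : ℝ) (hs : s ∈ Icc a b) (ht : t ∈ Icc a b) :
    ∫ τ in s..t, bi R (fun z => ∑ j, G j τ z) = ∑ j, ∫ τ in s..t, bi R (G j τ) := by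
  rw [← intervalIntegral.integral_finsetSum fun j _ => bi_ii (hG j) R hs ht]
  exact intervalIntegral.integral_congr fun τ hτ =>
    bi_sum _ fun j _ => (hG j).space (uIcc_subset_Icc hs ht hτ)

theorem ss_mono {G H : ℝ → C2 → ℝ} {a b s t R : ℝ} (hG : JC (Icc a b) G) (hH : JC (Icc a b) H)
    (hs : s ∈ Icc a b) (ht : t ∈ Icc a b) (hst : s ≤ t)
    (h : ∀ τ ∈ Icc a b, ∀ z ∈ Metric.ball (0 : C2) R, G τ z ≤ H τ z) :
    ∫ τ in s..t, bi R (G τ) ≤ ∫ τ in s..t, bi R (H τ) :=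
  intervalIntegral.integral_mono_on hst (bi_ii hG R hs ht) (bi_ii hH R hs ht) fun τ hτ =>
    have hτ' : τ ∈ Icc a b := ⟨hs.1.trans hτ.1, hτ.2.trans ht.2⟩
    bi_mono (hG.space hτ') (hH.space hτ') (h τ hτ')

theorem ss_lin {G H : ℝ → C2 → ℝ} {a b s t : ℝ} (hG : JC (Icc a b) G) (hH : JC (Icc a b) H)
    (c R : ℝ) (hs : s ∈ Icc a b) (ht : t ∈ Icc a b) :
    ∫ τ in s..t, bi R (fun z => c * G τ z + H τ z) =
      c * (∫ τ in s..t, bi R (G τ)) + ∫ τ in s..t, bi R (H τ) := by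
  rw [← intervalIntegral.integral_const_mul, ← intervalIntegral.integral_add
    ((bi_ii hG R hs ht).const_mul c) (bi_ii hH R hs ht)]
  refine intervalIntegral.integral_congr fun τ hτ => ?_
  have hτ' := uIcc_subset_Icc hs ht hτ
  show bi R (fun z => c * G τ z + H τ z) = c * bi R (G τ) + bi R (H τ)
  rw [bi_add (h := fun z => c * G τ z) (continuous_const.mul (hG.space hτ')) (hH.space hτ'),
    bi_cmul]

theorem ss_cut {η h : C2 → ℝ} {r R M : ℝ} (hη : Cut η R M) (h1 : ∀ z, ‖z‖ ≤ r → η z = 1)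
    (hr : r ≤ R) (hh : Continuous h) (h0 : ∀ z, 0 ≤ h z) :
    bi r h ≤ bi R fun z => η z ^ 4 * h z := by
  rw [bi_congr (k := fun z => η z ^ 4 * h z) fun z hz => by
    rw [h1 z (mem_ball_zero_iff.1 hz).le, one_pow, one_mul]]
  exact bi_mono_rad ((hη.sm.cont.pow 4).mul hh) hr fun z _ =>
    mul_nonneg (pow_nonneg (hη.nn z) 4) (h0 z)

theorem step_sys : ∃ θ : ℝ, 0 < θ ∧ ∀ r R t₀ t₁ T : ℝ, 0 < r → r < R → t₀ < t₁ → t₁ ≤ T →
    ∃ C : ℝ, 0 ≤ C ∧ ∀ (J : Type) [Fintype J] (u ut : J → ℝ → C2 → ℝ)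
      (F : J → Fin 4 → Fin 4 → ℝ → C2 → ℝ) (Ψ : ℝ → C2 → ℝ) (W : ℝ),
      (∀ j, Cl (Icc t₀ T) (u j)) → (∀ j, JC (Icc t₀ T) (ut j)) →
      (∀ j, IsInt (Icc t₀ T) (u j) (ut j)) → (∀ j p q, Cl (Icc t₀ T) (F j p q)) →
      JC (Icc t₀ T) Ψ → (∀ t ∈ Icc t₀ T, ∀ z ∈ Metric.ball (0 : C2) R, 0 ≤ Ψ t z) →
      (∀ j, ∀ t ∈ Icc t₀ T, ∀ z ∈ Metric.ball (0 : C2) R,
        ut j t z + lap (lap (u j t)) z = ∑ p, ∑ q, pd p (pd q (F j p q t)) z) →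
      (∀ t ∈ Icc t₀ T, ∀ z ∈ Metric.ball (0 : C2) R,
        ∑ j, ∑ p, ∑ q, F j p q t z ^ 2 ≤ θ * ∑ j, ns 2 (u j t) z + Ψ t z) →
      ∫ t in t₀..T, bi R (fun z => ∑ j, u j t z ^ 2 + Ψ t z) ≤ W →
      (∀ t ∈ Icc t₁ T, bi r (fun z => ∑ j, u j t z ^ 2) ≤ C * W) ∧
        ∫ t in t₁..T, bi r (fun z => ∑ j, ns 2 (u j t) z) ≤ C * W := by
  obtain ⟨C₁, hC₁, hen⟩ := en
  refine ⟨1 / (2 * C₁), by positivity, fun r R t₀ t₁ T hr hR h01 h1T => ?_⟩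
  obtain ⟨η, M, hη, hη1⟩ := exists_cut hr hR
  have hd : 0 < t₁ - t₀ := sub_pos.2 h01
  refine ⟨2 * (1 / (t₁ - t₀) + C₁ + C₁ * M ^ 4), by positivity, ?_⟩
  intro J _ u ut F Ψ W hu hut hI hF hΨ hΨ0 heq hFle hW
  have m0 : t₀ ∈ Icc t₀ T := ⟨le_rfl, h01.le.trans h1T⟩
  have mT : T ∈ Icc t₀ T := ⟨h01.le.trans h1T, le_rfl⟩
  have j4 : JC (Icc t₀ T) fun _ z => η z ^ 4 := jc_const (hη.sm.cont.pow 4)
  have e4 : ∀ z, 0 ≤ η z ^ 4 := fun z => pow_nonneg (hη.nn z) 4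
  have e4' : ∀ z, η z ^ 4 ≤ 1 := fun z => pow_le_one₀ (hη.nn z) (hη.le z)
  have ju : ∀ j, JC (Icc t₀ T) fun t z => u j t z ^ 2 := fun j => (cl_jc (hu j)).pow 2
  have jn : ∀ j, JC (Icc t₀ T) fun t z => ns 2 (u j t) z := fun j => jc_ns 2 (hu j)
  have jf : ∀ j, JC (Icc t₀ T) fun t z => ∑ p, ∑ q, F j p q t z ^ 2 := fun j =>
    JC.sum _ fun p _ => JC.sum _ fun q _ => (cl_jc (hF j p q)).pow 2
  have jU : JC (Icc t₀ T) fun t z => ∑ j, u j t z ^ 2 := JC.sum _ fun j _ => ju j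
  have jN : JC (Icc t₀ T) fun t z => ∑ j, ns 2 (u j t) z := JC.sum _ fun j _ => jn j
  have jF : JC (Icc t₀ T) fun t z => ∑ j, ∑ p, ∑ q, F j p q t z ^ 2 := JC.sum _ fun j _ => jf j
  have U0 : ∀ t z, 0 ≤ ∑ j, u j t z ^ 2 := fun t z => Finset.sum_nonneg fun j _ => sq_nonneg _
  have N0 : ∀ t z, 0 ≤ ∑ j, ns 2 (u j t) z := fun t z =>
    Finset.sum_nonneg fun j _ => ns_nonneg _ _ _
  -- every nonnegative function below `U + Ψ` has a small integral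
  have hle : ∀ G : ℝ → C2 → ℝ, JC (Icc t₀ T) G →
      (∀ t ∈ Icc t₀ T, ∀ z ∈ Metric.ball (0 : C2) R, G t z ≤ ∑ j, u j t z ^ 2 + Ψ t z) →
      ∀ s ∈ Icc t₀ T, ∀ t ∈ Icc t₀ T, s ≤ t → ∫ τ in s..t, bi R (G τ) ≤ W := by
    intro G hG h s hs t ht hst
    refine (ss_mono hG (jU.add hΨ) hs ht hst h).trans (le_trans ?_ hW)
    exact int_mono_interval (bi_cont (jU.add hΨ) R)
      (fun τ hτ => bi_nonneg fun z hz => add_nonneg (U0 τ z) (hΨ0 τ hτ z hz)) hs.1 hst ht.2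
  have hW0 : 0 ≤ W := by
    have := hle _ jU (fun t ht z hz => le_add_of_nonneg_right (hΨ0 t ht z hz)) _ m0 _ m0 le_rfl
    simpa using this
  have m1 : t₁ ∈ Icc t₀ T := ⟨h01.le, h1T⟩
  obtain ⟨s, hs, hEs⟩ := exists_le_mean (E := fun t => bi R fun z => η z ^ 4 * ∑ j, u j t z ^ 2)
    h01 ((bi_cont (j4.mul jU) R).mono (Icc_subset_Icc_right h1T))
  have ms : s ∈ Icc t₀ T := ⟨hs.1, hs.2.trans h1T⟩
  have hEs' : (bi R fun z => η z ^ 4 * ∑ j, u j s z ^ 2) ≤ 1 / (t₁ - t₀) * W := by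
    rw [one_div, ← div_eq_inv_mul, le_div_iff₀' hd]
    refine hEs.trans (hle _ (j4.mul jU) (fun t ht z hz => ?_) _ m0 _ m1 h01.le)
    have := mul_le_mul_of_nonneg_right (e4' z) (U0 t z)
    have := hΨ0 t ht z hz
    linarith
  have key : ∀ t ∈ Icc s T, (bi R fun z => η z ^ 4 * ∑ j, u j t z ^ 2) +
      1 / 2 * (∫ τ in s..t, bi R fun z => η z ^ 4 * ∑ j, ns 2 (u j τ) z) ≤
      (1 / (t₁ - t₀) + C₁ + C₁ * M ^ 4) * W := by
    intro t ht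
    have mt : t ∈ Icc t₀ T := ⟨ms.1.trans ht.1, ht.2⟩
    have sub : Icc s t ⊆ Icc t₀ T := Icc_subset_Icc ms.1 ht.2
    have h1 := Finset.sum_le_sum fun j (_ : j ∈ Finset.univ) =>
      hen η R M s t (u j) (ut j) (fun _ _ => 0) (F j) hη ht.1 (cl_mono (hu j) sub)
        ((hut j).mono sub) (jc_const continuous_const) (fun p q => cl_mono (hF j p q) sub)
        ((hI j).mono sub) fun τ hτ z hz => by rw [zero_add]; exact heq j τ (sub hτ) z hz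
    have z0 : (∫ τ in s..t, bi R fun _ => (0 : ℝ)) = 0 := by simp [bi]
    simp only [mul_zero, z0, add_zero, Finset.sum_add_distrib, ← Finset.mul_sum] at h1
    rw [← bi_sum _ fun j _ => (j4.mul (ju j)).space mt,
      ← bi_sum _ fun j _ => (j4.mul (ju j)).space ms,
      ← ss_sum (fun j => j4.mul (jn j)) R ms mt, ← ss_sum (fun j => j4.mul (jf j)) R ms mt,
      ← ss_sum ju R ms mt] at h1
    simp only [← Finset.mul_sum] at h1
    have h2 := ss_mono (R := R) (j4.mul jF)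
      (((jc_const (u := fun _ => 1 / (2 * C₁)) continuous_const).mul (j4.mul jN)).add hΨ)
      ms mt ht.1 fun τ hτ z hz => by
        have a1 := mul_le_mul_of_nonneg_left (hFle τ hτ z hz) (e4 z)
        have a2 := mul_le_mul_of_nonneg_right (e4' z) (hΨ0 τ hτ z hz)
        show η z ^ 4 * ∑ j, ∑ p, ∑ q, F j p q τ z ^ 2 ≤
          1 / (2 * C₁) * (η z ^ 4 * ∑ j, ns 2 (u j τ) z) + Ψ τ z
        linarith
    rw [ss_lin (j4.mul jN) hΨ _ R ms mt] at h2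
    have h3 := hle _ hΨ (fun t _ z _ => le_add_of_nonneg_left (U0 t z)) _ ms _ mt ht.1
    have h4 := hle _ jU (fun t ht z hz => le_add_of_nonneg_right (hΨ0 t ht z hz)) _ ms _ mt ht.1
    have h5 := mul_le_mul_of_nonneg_left h2 hC₁.le
    have h6 := mul_le_mul_of_nonneg_left h3 hC₁.le
    have h7 := mul_le_mul_of_nonneg_left h4 (by positivity : 0 ≤ C₁ * M ^ 4)
    have h8 : C₁ * (1 / (2 * C₁)) = 1 / 2 := by field_simp
    rw [mul_add, ← mul_assoc, h8] at h5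
    linarith
  have X0 : ∀ τ, 0 ≤ bi R fun z => η z ^ 4 * ∑ j, ns 2 (u j τ) z := fun τ =>
    bi_nonneg fun z _ => mul_nonneg (e4 z) (N0 τ z)
  have K0 : 0 ≤ (1 / (t₁ - t₀) + C₁ + C₁ * M ^ 4) * W := by positivity
  refine ⟨fun t ht => ?_, ?_⟩
  · have ht' : t ∈ Icc s T := ⟨hs.2.trans ht.1, ht.2⟩
    have h1 := key t ht'
    have h2 := ss_cut hη hη1 hR.le (jU.space ⟨ms.1.trans ht'.1, ht.2⟩) (U0 t)
    have h3 : 0 ≤ ∫ τ in s..t, bi R fun z => η z ^ 4 * ∑ j, ns 2 (u j τ) z :=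
      intervalIntegral.integral_nonneg ht'.1 fun τ _ => X0 τ
    linarith
  · have h1 := key T ⟨ms.2, le_rfl⟩
    have h2 : 0 ≤ bi R fun z => η z ^ 4 * ∑ j, u j T z ^ 2 :=
      bi_nonneg fun z _ => mul_nonneg (e4 z) (U0 T z)
    have h3 := int_mono_interval (E := fun τ => bi R fun z => η z ^ 4 * ∑ j, ns 2 (u j τ) z)
      ((bi_cont (j4.mul jN) R).mono (Icc_subset_Icc_left ms.1)) (fun τ _ => X0 τ) hs.2 h1T le_rfl
    have h4 := intervalIntegral.integral_mono_on h1T (bi_ii jN r m1 mT)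
      (bi_ii (j4.mul jN) R m1 mT) fun τ hτ =>
        ss_cut hη hη1 hR.le (jN.space ⟨h01.le.trans hτ.1, hτ.2⟩) (N0 τ)
    linarith

end Pool.Agent.P.MP_2cea5e_gt.II
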