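import Pool.Agent.P.MP_2cea5e_gt.II.JetN
import Pool.Agent.P.MP_2cea5e_gt.II.StepS
import Pool.Agent.P.MP_2cea5e_gt.II.SOB
import Pool.Agent.P.MP_2cea5e_gt.II.Scale

/-!
Chapter II: one more derivative of the metric.
-/

open scoped ContDiff ComplexOrder Matrix Topology
open MeasureTheory Set Filter

noncomputable section

namespace Pool.Agent.P.MP_2cea5e_gt.II

theorem cyl_mono {G : ℝ → C2 → ℝ} {r R : ℝ} (hG : JC (Icc (-R) 0) G) (h0 : ∀ t z, 0 ≤ G t z)
    (hr : 0 ≤ r) (hR : r ≤ R) : ∫ t in (-r)..0, bi r (G t) ≤ ∫ t in (-R)..0, bi R (G t) := by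
  have m1 : -r ∈ Icc (-R) 0 := ⟨by linarith, by linarith⟩
  have m2 : (0 : ℝ) ∈ Icc (-R) 0 := ⟨by linarith, le_rfl⟩
  refine le_trans (intervalIntegral.integral_mono_on (by linarith) (bi_ii hG r m1 m2)
    (bi_ii hG R m1 m2) fun t ht => ?_)
    (int_mono_interval (bi_cont hG R) (fun t _ => bi_nonneg fun z _ => h0 t z) m1.1 m1.2 le_rfl)
  exact bi_mono_rad (hG.space ⟨m1.1.trans ht.1, ht.2⟩) hR fun z _ => h0 t z

theorem jc_sumNN {S : Set ℝ} {f : ℝ → C2 → ℝ} (hf : Cl S f) (n : ℕ) :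
    JC S fun t z => ∑ i ∈ Finset.range n, NN i (f t) z :=
  JC.sum (H := fun i t => NN i (f t)) _ fun i _ => jc_NN i hf

theorem gain_step : ∃ δ : ℝ, 0 < δ ∧ ∀ n k : ℕ, n + 2 ≤ 2 * k + 1 → ∀ A W r R : ℝ, 0 < r → r < R →
    ∃ C : ℝ, ∀ f : ℝ → C2 → ℝ, NFlow (Icc (-R) 0) f →
      (∀ t ∈ Icc (-R) 0, ∀ z ∈ Metric.ball (0 : C2) R,
        (∀ a, |Ee a (f t) z - I0 a| ≤ δ) ∧ ∀ j ≤ k, NN j (f t) z ≤ A) →
      ∫ t in (-R)..0, bi R (fun z => ∑ i ∈ Finset.range (n + 2), NN i (f t) z) ≤ W →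
      (∀ t ∈ Icc (-r) 0, bi r (NN n (f t)) ≤ C) ∧ ∫ t in (-r)..0, bi r (NN (n + 2) (f t)) ≤ C := by
  obtain ⟨θ, hθ, hs⟩ := step_sys
  obtain ⟨C₀, hC₀, hj⟩ := jet_ineq
  set δ := min (1 / 10) (θ / (128 * C₀)) with hδ
  have δ0 : 0 < δ := by positivity
  have δ1 : δ ≤ 1 / 10 := min_le_left _ _
  have δ2 : 128 * C₀ * δ ^ 2 ≤ θ := by
    have h1 : δ ≤ θ / (128 * C₀) := min_le_right _ _
    rw [le_div_iff₀ (by positivity)] at h1
    have h2 : δ * (128 * C₀) * δ ≤ δ * (128 * C₀) * 1 :=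
      mul_le_mul_of_nonneg_left (by linarith) (by positivity)
    nlinarith
  refine ⟨δ, δ0, fun n k hk A W r R hr hR => ?_⟩
  obtain ⟨C, hC, hj⟩ := hj n k hk A
  obtain ⟨D, hD, hs⟩ := hs r R (-R) (-r) 0 hr hR (by linarith) (by linarith)
  refine ⟨D * ((1 + 128 * C) * W + R * (128 * C * vb R)), fun f hF hb hW => ?_⟩
  choose ut h1 h2 h3 using fun j : (Fin n → Fin 4) × Fin 4 =>
    geq ordConnected_Icc hF (List.ofFn j.1) j.2
  have cN : Cl (Icc (-R) 0) fun t => NOp (f t) := jet_NOp.cl hF.cl hF.pos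
  have cS := jc_sumNN hF.cl (n + 2)
  have e0 : ∀ t z, ∑ j : (Fin n → Fin 4) × Fin 4, pdl (List.ofFn j.1) (Ee j.2 (f t)) z ^ 2 =
      NN n (f t) z := fun t z => by
    rw [Fintype.sum_prod_type_right]; rfl
  have e2 : ∀ t z, ∑ j : (Fin n → Fin 4) × Fin 4, ns 2 (pdl (List.ofFn j.1) (Ee j.2 (f t))) z =
      NN (n + 2) (f t) z := fun t z => by
    rw [Fintype.sum_prod_type_right]
    simp only [sum_ns, NN]
  have cΨ : JC (Icc (-R) 0) fun t z =>
      128 * C * (1 + ∑ i ∈ Finset.range (n + 2), NN i (f t) z) :=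
    JC.mul (F := fun _ _ => 128 * C) (jc_const continuous_const)
      (JC.add (F := fun _ _ => 1) (jc_const continuous_const) cS)
  have m1 : -R ∈ Icc (-R) 0 := ⟨le_rfl, by linarith⟩
  have m2 : (0 : ℝ) ∈ Icc (-R) 0 := ⟨by linarith, le_rfl⟩
  have key := hs ((Fin n → Fin 4) × Fin 4) (fun j t => pdl (List.ofFn j.1) (Ee j.2 (f t))) ut
    (fun j p q t y => 16 * ec j.2 p q * pdl (List.ofFn j.1) (NOp (f t)) y)
    (fun t z => 128 * C * (1 + ∑ i ∈ Finset.range (n + 2), NN i (f t) z))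
    ((1 + 128 * C) * W + R * (128 * C * vb R))
    (fun j => cl_pdl (cl_Ee j.2 hF.cl) _) (fun j => cl_jc (h1 j)) h2
    (fun j p q => cl_cmul _ (cl_pdl cN _)) cΨ
    (fun t _ z _ => mul_nonneg (by positivity)
      (add_nonneg zero_le_one (Finset.sum_nonneg fun i _ => NN_nonneg _ _ _)))
    (fun j t ht z _ => h3 j t ht z)
    (fun t ht z hz => by
      have e : ∑ j : (Fin n → Fin 4) × Fin 4, ∑ p, ∑ q,
          (16 * ec j.2 p q * pdl (List.ofFn j.1) (NOp (f t)) z) ^ 2 = 128 * ns n (NOp (f t)) z := by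
        have e1 : ∀ j : (Fin n → Fin 4) × Fin 4, ∑ p, ∑ q,
            (16 * ec j.2 p q * pdl (List.ofFn j.1) (NOp (f t)) z) ^ 2 =
            32 * pdl (List.ofFn j.1) (NOp (f t)) z ^ 2 := fun j => by
          have : ∀ p q, (16 * ec j.2 p q * pdl (List.ofFn j.1) (NOp (f t)) z) ^ 2 =
              256 * pdl (List.ofFn j.1) (NOp (f t)) z ^ 2 * ec j.2 p q ^ 2 := fun p q => by ring
          simp only [this, ← Finset.mul_sum, sum_ec_sq]
          ring
        simp only [e1]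
        rw [Fintype.sum_prod_type, ns, Finset.mul_sum]
        refine Finset.sum_congr rfl fun l _ => ?_
        simp only [Finset.sum_const, Finset.card_univ, Fintype.card_fin, nsmul_eq_mul]
        push_cast
        ring
      rw [e, e2]
      have h4 := hj (f t) z δ ⟨hF.cl.sm t ht, hF.pos t ht⟩ δ1 (hb t ht z hz).1 (hb t ht z hz).2
      have h5 := mul_le_mul_of_nonneg_right δ2 (NN_nonneg (n + 2) (f t) z)
      nlinarith)
    (by
      simp only [e0]
      have c1 : JC (Icc (-R) 0) fun t z => NN n (f t) z +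
          128 * C * (1 + ∑ i ∈ Finset.range (n + 2), NN i (f t) z) := (jc_NN n hF.cl).add cΨ
      have i1 := bi_ii cS R m1 m2
      refine le_trans (intervalIntegral.integral_mono_on (by linarith) (bi_ii c1 R m1 m2)
        ((i1.const_mul (1 + 128 * C)).add (intervalIntegrable_const (c := 128 * C * vb R)))
        fun t ht => ?_) ?_
      · have c2 : Continuous fun z => (1 + 128 * C) * ∑ i ∈ Finset.range (n + 2), NN i (f t) z :=
          continuous_const.mul (cS.space ht)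
        rw [← bi_cmul, ← bi_const, ← bi_add c2 continuous_const]
        refine bi_mono (c1.space ht) (c2.add continuous_const) fun z _ => ?_
        have := Finset.single_le_sum (f := fun i => NN i (f t) z) (fun i _ => NN_nonneg _ _ _)
          (Finset.mem_range.2 (show n < n + 2 by omega))
        nlinarith
      · rw [intervalIntegral.integral_add (i1.const_mul _) intervalIntegrable_const,
          intervalIntegral.integral_const_mul, intervalIntegral.integral_const]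
        have := mul_le_mul_of_nonneg_left hW (show 0 ≤ 1 + 128 * C by positivity)
        simp only [sub_neg_eq_add, zero_add, smul_eq_mul]
        linarith)
  simp only [e0, e2] at key
  exact key

theorem gain : ∃ δ : ℝ, 0 < δ ∧ ∀ k : ℕ, 6 ≤ k → ∀ ρ A : ℝ, 0 < ρ → ∃ C : ℝ,
    ∀ f : ℝ → C2 → ℝ, NFlow (Icc (-ρ) 0) f →
      (∀ t ∈ Icc (-ρ) 0, ∀ z ∈ Metric.ball (0 : C2) ρ,
        (∀ a, |Ee a (f t) z - I0 a| ≤ δ) ∧ ∀ j ≤ k, NN j (f t) z ≤ A) →
      ∀ t ∈ Icc (-(ρ / 2)) 0, ∀ z ∈ Metric.ball (0 : C2) (ρ / 2), NN (k + 1) (f t) z ≤ C := by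
  obtain ⟨δ, hδ, hs⟩ := gain_step
  refine ⟨δ, hδ, fun k hk ρ A hρ => ?_⟩
  obtain ⟨k, rfl⟩ : ∃ k', k = k' + 1 := ⟨k - 1, by omega⟩
  set r : ℕ → ℝ := fun j => ρ * (1 - j / 16) with hr
  have r0 : r 0 = ρ := by simp [hr]
  have r1 : ∀ j, r (j + 1) < r j := fun j => by
    simp only [hr]
    push_cast
    nlinarith
  have r2 : ∀ j, r j ≤ ρ := fun j => by
    simp only [hr]
    have : (0 : ℝ) ≤ j := Nat.cast_nonneg j
    nlinarith
  have r3 : ∀ j ≤ 7, ρ / 2 < r j := fun j hj => by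
    simp only [hr]
    have : (j : ℝ) ≤ 7 := by exact_mod_cast hj
    nlinarith
  have H : ∀ j ≤ 7, ∃ C : ℝ, ∀ f : ℝ → C2 → ℝ, NFlow (Icc (-ρ) 0) f →
      (∀ t ∈ Icc (-ρ) 0, ∀ z ∈ Metric.ball (0 : C2) ρ,
        (∀ a, |Ee a (f t) z - I0 a| ≤ δ) ∧ ∀ j ≤ k + 1, NN j (f t) z ≤ A) →
      ∫ t in (-r j)..0, bi (r j) (fun z => ∑ i ∈ Finset.range (k + j + 2), NN i (f t) z) ≤ C ∧
      ∀ i, i + 1 ≤ k + j → ∀ t ∈ Icc (-r j) 0, bi (r j) (NN i (f t)) ≤ C := by
    intro j
    induction j with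
    | zero =>
      intro _
      refine ⟨max (ρ * ((k + 2) * A * vb ρ)) (A * vb ρ), fun f hF hb => ⟨le_max_of_le_left ?_,
        fun i hi t ht => le_max_of_le_right ?_⟩⟩
      · rw [r0]
        have cS := jc_sumNN hF.cl (k + 0 + 2)
        refine le_trans (intervalIntegral.integral_mono_on (by linarith)
          (bi_ii cS ρ ⟨le_rfl, by linarith⟩ ⟨by linarith, le_rfl⟩)
          (intervalIntegrable_const (c := (k + 2) * A * vb ρ)) fun t ht => ?_) ?_
        · rw [← bi_const]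
          refine bi_mono (cS.space ht) continuous_const fun z hz => ?_
          refine (Finset.sum_le_card_nsmul _ _ A fun i hi =>
            (hb t ht z hz).2 i (by have := Finset.mem_range.1 hi; omega)).trans ?_
          simp
        · simp only [intervalIntegral.integral_const, sub_neg_eq_add, zero_add, smul_eq_mul, le_refl]
      · rw [r0] at ht ⊢
        rw [← bi_const]
        exact bi_mono ((jc_NN i hF.cl).space ht) continuous_const fun z hz =>
          (hb t ht z hz).2 i (by omega)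
    | succ j ih =>
      intro hj
      obtain ⟨C, hC⟩ := ih (by omega)
      have p1 : 0 < r (j + 1) := by linarith [r3 _ hj]
      obtain ⟨D, hD⟩ := hs (k + j) (k + 1) (by omega) A C (r (j + 1)) (r j) p1 (r1 j)
      refine ⟨max (C + D) (max C D), fun f hF hb => ?_⟩
      have sub : Icc (-r j) 0 ⊆ Icc (-ρ) 0 := Icc_subset_Icc (by linarith [r2 j]) le_rfl
      have sub' : Icc (-r (j + 1)) 0 ⊆ Icc (-r j) 0 := Icc_subset_Icc (by linarith [r1 j]) le_rfl
      obtain ⟨h1, h2⟩ := hC f hF hb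
      have hF' := hF.mono sub
      obtain ⟨h3, h4⟩ := hD f hF'
        (fun t ht z hz => hb t (sub ht) z (Metric.ball_subset_ball (r2 j) hz)) h1
      refine ⟨le_max_of_le_left ?_, fun i hi t ht => le_max_of_le_right ?_⟩
      · have cS := jc_sumNN hF'.cl (k + j + 2)
        have h5 := cyl_mono cS (fun t z => Finset.sum_nonneg fun i _ => NN_nonneg _ _ _) p1.le
          (r1 j).le
        have m1 : -r (j + 1) ∈ Icc (-r j) 0 := ⟨by linarith [r1 j], by linarith⟩
        have m2 : (0 : ℝ) ∈ Icc (-r j) 0 := ⟨by linarith [r1 j], le_rfl⟩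
        have cN := jc_NN (k + j + 2) hF'.cl
        have e : ∫ t in (-r (j + 1))..0, bi (r (j + 1))
            (fun z => ∑ i ∈ Finset.range (k + (j + 1) + 2), NN i (f t) z) =
            (∫ t in (-r (j + 1))..0, bi (r (j + 1))
              (fun z => ∑ i ∈ Finset.range (k + j + 2), NN i (f t) z)) +
            ∫ t in (-r (j + 1))..0, bi (r (j + 1)) (NN (k + j + 2) (f t)) := by
          rw [← intervalIntegral.integral_add (bi_ii cS _ m1 m2) (bi_ii cN _ m1 m2)]
          refine intervalIntegral.integral_congr fun t ht => ?_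
          rw [uIcc_of_le (by linarith)] at ht
          have e1 : k + (j + 1) + 2 = k + j + 2 + 1 := by ring
          simp only [e1, Finset.sum_range_succ _ (k + j + 2)]
          exact bi_add (cS.space (sub' ht)) (cN.space (sub' ht))
        rw [e]
        linarith
      · rcases Nat.lt_or_ge i (k + j) with h | h
        · refine le_max_of_le_left (le_trans ?_ (h2 i (by omega) t (sub' ht)))
          exact bi_mono_rad ((jc_NN i hF'.cl).space (sub' ht)) (r1 j).le fun z _ => NN_nonneg _ _ _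
        · have : i = k + j := by omega
          subst this
          exact le_max_of_le_right (h3 t ht)
  obtain ⟨C, hC⟩ := H 7 le_rfl
  obtain ⟨D, hD, hsob⟩ := sob_bi (r3 7 le_rfl)
  refine ⟨4 * (4 ^ (k + 1 + 1) * (D * (5 * C))), fun f hF hb t ht z hz => ?_⟩
  obtain ⟨-, h2⟩ := hC f hF hb
  have ht' : t ∈ Icc (-r 7) 0 := ⟨by linarith [r3 7 le_rfl, ht.1], ht.2⟩
  have sf : SmC (f t) := hF.cl.sm t ⟨by linarith [ht.1], ht.2⟩
  have key : ∀ a ∈ (Finset.univ : Finset (Fin 4)),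
      ns (k + 1 + 1) (Ee a (f t)) z ≤ 4 ^ (k + 1 + 1) * (D * (5 * C)) := fun a _ => by
    refine ns_le fun l hl => (hsob _ (sm_pdl l (sm_Ee a sf)) z hz).trans ?_
    refine mul_le_mul_of_nonneg_left ?_ hD
    refine (Finset.sum_le_card_nsmul _ _ C fun i hi => ?_).trans (by simp)
    refine le_trans (bi_mono (sm_ns i (sm_pdl l (sm_Ee a sf))).cont
      (sm_NN (l.length + i) sf).cont fun y _ => (ns_pdl_le i l _ y).trans (ns_le_NN _ a _ y)) ?_
    exact h2 _ (by have := Finset.mem_range.1 hi; omega) t ht'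
  refine (Finset.sum_le_card_nsmul _ _ _ key).trans ?_
  simp

end Pool.Agent.P.MP_2cea5e_gt.II
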