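import Pool.Agent.P.MP_2cea5e_gt.II.CC
import Pool.Agent.P.MP_2cea5e_gt.II.Scale
import Pool.Agent.P.MP_2cea5e_gt.AllA

/-!
Chapter II: chart independence of the volume ratio and of the scalar curvature.
-/

open scoped ContDiff ComplexOrder Matrix Topology
open MeasureTheory Set Filter

noncomputable section

namespace Pool.Agent.P.MP_2cea5e_gt.II

variable {ι : Type} [Finite ι] {m : ι → Matrix (Fin 2) (Fin 2) ℤ} {ψ ψ' : ι → C2 → ℝ}

theorem vol_inv {f : C2 → ℝ} (hf : SmC f) (hi : Inv f) : Inv (vol f) := vol_ok.2 f hf hi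

theorem diag_mulVec (θ y : C2) : 0 + Matrix.diagonal θ *ᵥ y = θ * y := by
  funext j
  rw [zero_add, Matrix.mulVec_diagonal, Pi.mul_apply]

theorem inv_diag {f : C2 → ℝ} (hi : Inv f) {θ : C2} (hθ : ∀ j, ‖θ j‖ = 1) (y : C2) :
    f (0 + Matrix.diagonal θ *ᵥ y) = f y := by
  rw [diag_mulVec, hi θ y hθ]

theorem det_diag_ne {θ : C2} (hθ : ∀ j, ‖θ j‖ = 1) : (Matrix.diagonal θ).det ≠ 0 := by
  rw [Matrix.det_diagonal]
  refine Finset.prod_ne_zero_iff.2 fun j _ h => ?_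
  have := hθ j
  rw [h, norm_zero] at this
  exact zero_ne_one this

theorem scal_inv {f : C2 → ℝ} (hf : Adm f) (hi : Inv f) : Inv (scal f) := by
  intro θ z hθ
  have h := scal_aff hf one_pos 0 (det_diag_ne hθ) z
  simp only [inv_diag hi hθ, one_mul, inv_one] at h
  rw [diag_mulVec] at h
  exact h.symm

theorem Lam_inv {f u : C2 → ℝ} (hf : Adm f) (hi : Inv f) (hu : SmC u) (hi' : Inv u) :
    Inv (Lam f u) := by
  intro θ z hθ
  have h := Lam_aff hf hu one_pos 0 (det_diag_ne hθ) z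
  simp only [inv_diag hi hθ, inv_diag hi' hθ, one_mul, inv_one] at h
  rw [diag_mulVec] at h
  exact h.symm

/-- A point of the open torus is, up to rotation, a real point in every chart. -/
theorem exists_pt {w : C2} (hw : ∀ k, w k ≠ 0) : ∃ p : X, ∀ (M : Matrix (Fin 2) (Fin 2) ℤ)
    (h : IsUnit M.det) (g : C2 → ℝ), Inv g → g (mon M w) = g ((chOf M h).zp p) := by
  have hn : ∀ j, 0 < ‖w j‖ := fun j => norm_pos_iff.mpr (hw j)
  refine ⟨(0, 2 * Real.log ‖w 0‖, 2 * Real.log ‖w 1‖), fun M h g hg => ?_⟩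
  rw [← TorB.mon_eq M h]
  refine Eq.trans ?_ (hg (mon M fun j => w j / ‖w j‖) _ (norm_mon_unit M fun j => by
    rw [norm_div, Complex.norm_real, norm_norm, div_self (hn j).ne']))
  rw [← mon_mul]
  congr 2
  funext j
  have e : ∀ j, ((Real.exp (2 * Real.log ‖w j‖ / 2) : ℝ) : ℂ) = ‖w j‖ := fun j => by
    rw [mul_div_cancel_left₀ _ two_ne_zero, Real.exp_log (hn j)]
  have e2 : ∀ j, w j = w j / ‖w j‖ * ((Real.exp (2 * Real.log ‖w j‖ / 2) : ℝ) : ℂ) := fun j => by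
    rw [e, div_mul_cancel₀ _ (Complex.ofReal_ne_zero.mpr (hn j).ne')]
  fin_cases j
  · exact e2 0
  · exact e2 1

/-- The bridge to logarithmic coordinates for a time independent metric. -/
theorem tor_static (hm : IsFan m) (hK : IsToricKaehler m ψ) (σ τ : ι) :
    (∀ u w, D u (D w ((chOf (m σ) (hm.unimod σ)).lift fun q => ψ σ q.2)) =
      D u (D w ((chOf (m τ) (hm.unimod τ)).lift fun q => ψ τ q.2))) ∧
    ∀ p, vol (ψ σ) ((chOf (m σ) (hm.unimod σ)).zp p) =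
        W ((chOf (m τ) (hm.unimod τ)).lift fun q => ψ τ q.2) p *
          Real.exp (-((chOf (m σ) (hm.unimod σ)).z1 p + (chOf (m σ) (hm.unimod σ)).z2 p)) ∧
      scal (ψ σ) ((chOf (m σ) (hm.unimod σ)).zp p) =
        RR ((chOf (m τ) (hm.unimod τ)).lift fun q => ψ τ q.2) p := by
  choose a b hab using fun σ => hK.glue σ τ
  obtain ⟨T0, E0⟩ := tor_ok hess_ok vol_ok ι m hm (fun σ q => ψ σ q.2) a b τ
    (fun σ => (hK.smooth σ).comp contDiff_snd) (fun σ _ => hK.inv σ) (fun σ _ z => hK.pos σ z)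
    fun σ _ w hw => hab σ w hw
  refine ⟨fun u w => ?_, fun p => (E0 σ p).2⟩
  have e : ((chOf (m σ) (hm.unimod σ)).lift fun q => ψ σ q.2) =
      ((chOf (m τ) (hm.unimod τ)).lift fun q => ψ τ q.2) - Lv (-(b σ 0) / 2, -(b σ 1) / 2) +
        K (a σ) := funext fun p => (E0 σ p).1
  rw [e]
  exact TorB.D2_shift T0.pot.sm _ _ u w

theorem lam_eq (κ : Ch) {f u : C2 → ℝ} (hf : Adm f) (hi : Inv f) (hu : SmC u) (hi' : Inv u)
    (p : X) : Lam f u (κ.zp p) = Lap (κ.lift fun q => f q.2) (κ.lift fun q => u q.2) p := by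
  have sf : ContDiff ℝ ∞ fun q : ℝ × C2 => f q.2 := hf.sm.comp contDiff_snd
  have su : ContDiff ℝ ∞ fun q : ℝ × C2 => u q.2 := hu.comp contDiff_snd
  have P := TorB.pot hess_ok κ sf (fun _ => hi) fun _ z => hf.pos z
  have h3 : hess u (κ.zp p) = _ := hess_ok κ _ su (fun _ => hi') p
  have h4 : hess f (κ.zp p) = _ := hess_ok κ _ sf (fun _ => hi) p
  have e1 : (κ.pt p).2.1 ≠ 0 := (Real.exp_pos _).ne'
  have e2 : (κ.pt p).2.2 ≠ 0 := (Real.exp_pos _).ne'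
  have hW := P.wne p
  have hW' := hW
  rw [κ.W_eq P.sm] at hW'
  simp only [Pi.sub_apply, Pi.mul_apply] at hW'
  rw [← trace_eq hf hu, h3, h4, TorB.tr_inv]
  · simp only [Lap, iW, κ.DD_eq P.sm (TorB.sm_lift κ su), DDv, Pi.mul_apply, Pi.add_apply,
      Pi.sub_apply, Iv_apply, K_apply, κ.W_eq P.sm]
    rw [← div_eq_mul_inv, div_eq_div_iff _ hW']
    · field_simp
    · intro h
      apply hW'
      field_simp at h
      linarith
  · intro h
    apply hW'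
    field_simp at h
    linarith

omit [Finite ι] in
theorem tk_add (hK : IsToricKaehler m ψ) {φ : ι → C2 → ℝ} (hs : ∀ σ, SmC (φ σ))
    (hi : ∀ σ, Inv (φ σ))
    (hg : ∀ σ τ, ∀ w : C2, (∀ k, w k ≠ 0) → φ σ (mon (m σ) w) = φ τ (mon (m τ) w))
    (hp : ∀ σ z, (hess (ψ σ + φ σ) z).PosDef) : IsToricKaehler m fun σ => ψ σ + φ σ := by
  refine ⟨fun σ => (hK.smooth σ).add (hs σ), fun σ θ z hθ => ?_, hp, fun σ τ => ?_⟩
  · simp only [Pi.add_apply, hK.inv σ θ z hθ, hi σ θ z hθ]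
  · obtain ⟨a, b, h⟩ := hK.glue σ τ
    refine ⟨a, b, fun w hw => ?_⟩
    simp only [Pi.add_apply]
    rw [hg σ τ w hw, ← h w hw]
    ring

theorem vol_glue (hm : IsFan m) (hK : IsToricKaehler m ψ) (hK' : IsToricKaehler m ψ') (σ τ : ι)
    {w : C2} (hw : ∀ k, w k ≠ 0) :
    vol (ψ' σ) (mon (m σ) w) * vol (ψ τ) (mon (m τ) w) =
      vol (ψ' τ) (mon (m τ) w) * vol (ψ σ) (mon (m σ) w) := by
  obtain ⟨p, hp⟩ := exists_pt hw
  rw [hp _ (hm.unimod σ) _ (vol_inv (hK'.smooth σ) (hK'.inv σ)),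
    hp _ (hm.unimod τ) _ (vol_inv (hK.smooth τ) (hK.inv τ)),
    hp _ (hm.unimod τ) _ (vol_inv (hK'.smooth τ) (hK'.inv τ)),
    hp _ (hm.unimod σ) _ (vol_inv (hK.smooth σ) (hK.inv σ)),
    ((tor_static hm hK' σ τ).2 p).1, ((tor_static hm hK τ τ).2 p).1,
    ((tor_static hm hK' τ τ).2 p).1, ((tor_static hm hK σ τ).2 p).1]
  ring

theorem scal_glue (hm : IsFan m) (hK : IsToricKaehler m ψ) (σ τ : ι) {w : C2}
    (hw : ∀ k, w k ≠ 0) : scal (ψ σ) (mon (m σ) w) = scal (ψ τ) (mon (m τ) w) := by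
  obtain ⟨p, hp⟩ := exists_pt hw
  rw [hp _ (hm.unimod σ) _ (scal_inv ⟨hK.smooth σ, hK.pos σ⟩ (hK.inv σ)),
    hp _ (hm.unimod τ) _ (scal_inv ⟨hK.smooth τ, hK.pos τ⟩ (hK.inv τ)),
    ((tor_static hm hK σ τ).2 p).2, ((tor_static hm hK τ τ).2 p).2]

/-- Chart independence of the Laplacian of the metric. -/
theorem Lam_glue (hm : IsFan m) (hK : IsToricKaehler m ψ) (σ τ : ι) {u u' : C2 → ℝ}
    (hu : SmC u) (hu' : SmC u') (hi : Inv u) (hi' : Inv u')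
    (hg : ∀ w : C2, (∀ k, w k ≠ 0) → u (mon (m σ) w) = u' (mon (m τ) w)) {w : C2}
    (hw : ∀ k, w k ≠ 0) : Lam (ψ σ) u (mon (m σ) w) = Lam (ψ τ) u' (mon (m τ) w) := by
  obtain ⟨p, hp⟩ := exists_pt hw
  have e : ((chOf (m σ) (hm.unimod σ)).lift fun q => u q.2) =
      (chOf (m τ) (hm.unimod τ)).lift fun q => u' q.2 := by
    funext q
    have h := hg ![(Real.exp (q.2.1 / 2) : ℂ), (Real.exp (q.2.2 / 2) : ℂ)] fun k => by
      fin_cases k <;> exact Complex.ofReal_ne_zero.mpr (Real.exp_pos _).ne'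
    rw [TorB.mon_eq _ (hm.unimod σ), TorB.mon_eq _ (hm.unimod τ)] at h
    exact h
  have d := (tor_static hm hK σ τ).1
  rw [hp _ (hm.unimod σ) _ (Lam_inv ⟨hK.smooth σ, hK.pos σ⟩ (hK.inv σ) hu hi),
    hp _ (hm.unimod τ) _ (Lam_inv ⟨hK.smooth τ, hK.pos τ⟩ (hK.inv τ) hu' hi'),
    lam_eq _ ⟨hK.smooth σ, hK.pos σ⟩ (hK.inv σ) hu hi,
    lam_eq _ ⟨hK.smooth τ, hK.pos τ⟩ (hK.inv τ) hu' hi', e]
  simp only [Lap, iW, W, DD, DDv, d]

end Pool.Agent.P.MP_2cea5e_gt.II
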