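import Pool.Agent.P.MP_2cea5e_gt.II.Jet
import Pool.Agent.P.MP_2cea5e_gt.II.TI

/-!
Chapter II: the structure of the scalar curvature and the equation of the metric.
-/

open scoped ContDiff ComplexOrder Matrix Topology
open MeasureTheory Set Filter

noncomputable section

namespace Pool.Agent.P.MP_2cea5e_gt.II

namespace JetN

theorem pd_pd_log {f : C2 → ℝ} (h : Adm f) (p q : Fin 4) (z : C2) :
    pd p (pd q fun w => Real.log (vol f w)) z =
      ∑ b, (pd p (cf b f) z * pd q (Ee b f) z + cf b f z * pd p (pd q (Ee b f)) z) := by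
  rw [pd_vol h.sm q fun z => (h.vol_pos z).ne',
    pd_sum' p Finset.univ fun b _ => ContDiff.mul (sm_cf h b) (sm_pd q (sm_Ee b h.sm))]
  refine Finset.sum_congr rfl fun b _ => ?_
  rw [pd_mul' p (sm_cf h b) (sm_pd q (sm_Ee b h.sm))]

theorem Ee_log {f : C2 → ℝ} (h : Adm f) (a : Fin 4) (z : C2) :
    Ee a (fun w => Real.log (vol f w)) z = ∑ b, cf b f z * Ee a (Ee b f) z +
      ∑ p, ∑ q, ec a p q * ∑ b, pd p (cf b f) z * pd q (Ee b f) z := by
  have e : ∑ b, cf b f z * Ee a (Ee b f) z =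
      ∑ p, ∑ q, ec a p q * ∑ b, cf b f z * pd p (pd q (Ee b f)) z := by
    have : ∀ b, cf b f z * Ee a (Ee b f) z =
        ∑ p, ∑ q, ec a p q * (cf b f z * pd p (pd q (Ee b f)) z) := fun b => by
      rw [show Ee a (Ee b f) z = ∑ p, ∑ q, ec a p q * pd p (pd q (Ee b f)) z from rfl,
        Finset.mul_sum]
      refine Finset.sum_congr rfl fun p _ => ?_
      rw [Finset.mul_sum]
      exact Finset.sum_congr rfl fun q _ => by ring
    simp only [this, Finset.mul_sum]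
    rw [Finset.sum_comm]
    exact Finset.sum_congr rfl fun p _ => Finset.sum_comm
  rw [e, show Ee a (fun w => Real.log (vol f w)) z =
    ∑ p, ∑ q, ec a p q * pd p (pd q fun w => Real.log (vol f w)) z from rfl,
    ← Finset.sum_add_distrib]
  refine Finset.sum_congr rfl fun p _ => ?_
  rw [← Finset.sum_add_distrib]
  refine Finset.sum_congr rfl fun q _ => ?_
  rw [pd_pd_log h, Finset.sum_add_distrib]
  ring

theorem jet_EE (a b : Fin 4) : Jet 2 2 fun f => Ee a (Ee b f) :=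
  Jet.sum (Θ := fun p f z => ∑ q, ec a p q * pdl [p, q] (Ee b f) z) Finset.univ fun p _ =>
    Jet.sum (Θ := fun q f z => ec a p q * pdl [p, q] (Ee b f) z) Finset.univ fun q _ =>
      Jet.cmul _ (Jet.der [p, q] b le_rfl le_rfl)

/-- The small coefficients of the top order part. -/
def al (a b : Fin 4) : Op := fun f z => I0 a * I0 b - cf a f z * cf b f z

theorem jet_al (a b : Fin 4) : Jet 0 0 (al a b) :=
  Jet.sub (Jet.const 0 0 _) (Jet.mul (jet_cf a) (jet_cf b) le_rfl)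

theorem abs_I0 (a : Fin 4) : |I0 a| ≤ 1 := by
  fin_cases a <;> simp [I0]

theorem al_sq {f : C2 → ℝ} (hf : SmC f) {z : C2} {δ : ℝ} (hδ : δ ≤ 1 / 10)
    (h : ∀ a, |Ee a f z - I0 a| ≤ δ) (a b : Fin 4) : al a b f z ^ 2 ≤ 900 * δ ^ 2 := by
  have h0 : 0 ≤ δ := (abs_nonneg _).trans (h a)
  have ha := cf_close hf hδ h a
  have hb := cf_close hf hδ h b
  have h1 : |cf b f z| ≤ 2 := by
    have := abs_add_le (cf b f z - I0 b) (I0 b)
    rw [sub_add_cancel] at this
    linarith [abs_I0 b]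
  have e : al a b f z = -(I0 a * (cf b f z - I0 b) + (cf a f z - I0 a) * cf b f z) := by
    unfold al; ring
  have h2 : |al a b f z| ≤ 30 * δ := by
    rw [e, abs_neg]
    refine (abs_add_le _ _).trans ?_
    rw [abs_mul, abs_mul]
    have t1 := mul_le_mul (abs_I0 a) hb (abs_nonneg _) zero_le_one
    have t2 := mul_le_mul ha h1 (abs_nonneg _) (by linarith)
    linarith
  have := pow_le_pow_left₀ (abs_nonneg _) h2 2
  rw [sq_abs] at this
  linarith

theorem Ee_sq (a : Fin 4) (u : C2 → ℝ) (z : C2) : Ee a u z ^ 2 ≤ 1 / 8 * ns 2 u z := by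
  have := Finset.sum_mul_sq_le_sq_mul_sq (Finset.univ : Finset (Fin 4 × Fin 4))
    (fun x => ec a x.1 x.2) (fun x => pd x.1 (pd x.2 u) z)
  simp only [Fintype.sum_prod_type] at this
  rw [sum_ec_sq] at this
  rw [ns_two]
  exact this

end JetN

open JetN

/-- Top order part and remainder of the scalar curvature. -/
theorem scal_split : ∃ Q : Op, Jet 2 1 Q ∧ ∀ f, Adm f → ∀ z,
    scal f z = -(∑ a, ∑ b, cf a f z * cf b f z * Ee a (Ee b f) z) + Q f z := by
  refine ⟨fun f z => -∑ a, cf a f z *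
    ∑ p, ∑ q, ec a p q * ∑ b, pd p (cf b f) z * pd q (Ee b f) z, ?_, fun f h z => ?_⟩
  · refine Jet.neg (Jet.sum (Θ := fun a f z => cf a f z *
      ∑ p, ∑ q, ec a p q * ∑ b, pd p (cf b f) z * pd q (Ee b f) z) Finset.univ fun a _ => ?_)
    refine Jet.mul (w₁ := 0) (w₂ := 2) ((jet_cf a).mono le_rfl zero_le_one) ?_ le_rfl
    refine Jet.sum (Θ := fun p f z => ∑ q, ec a p q * ∑ b, pd p (cf b f) z * pd q (Ee b f) z)
      Finset.univ fun p _ => ?_
    refine Jet.sum (Θ := fun q f z => ec a p q * ∑ b, pd p (cf b f) z * pd q (Ee b f) z)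
      Finset.univ fun q _ => Jet.cmul _ ?_
    refine Jet.sum (Θ := fun b f z => pd p (cf b f) z * pd q (Ee b f) z) Finset.univ fun b _ => ?_
    exact Jet.mul ((jet_cf b).pd p) (Jet.der (w := 1) [q] b le_rfl le_rfl) le_rfl
  · rw [scal_eq h]
    simp only [Lam, Ee_log h, mul_add, Finset.sum_add_distrib, neg_add]
    congr 2
    refine Finset.sum_congr rfl fun a _ => ?_
    rw [Finset.mul_sum]
    exact Finset.sum_congr rfl fun b _ => by ring

theorem jet_scal : Jet 2 2 scal := by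
  obtain ⟨Q, hQ, h⟩ := scal_split
  refine Jet.congr (Jet.add (Jet.neg (Jet.sum
    (Θ := fun a f z => ∑ b, cf a f z * cf b f z * Ee a (Ee b f) z) Finset.univ fun a _ =>
      Jet.sum (Θ := fun b f z => cf a f z * cf b f z * Ee a (Ee b f) z) Finset.univ fun b _ => ?_))
    (hQ.mono le_rfl one_le_two)) fun f hf => funext fun z => (h f hf z).symm
  exact Jet.mul (w₁ := 0) (w₂ := 2)
    ((Jet.mul (jet_cf a) (jet_cf b) le_rfl).mono le_rfl (Nat.zero_le _)) (jet_EE a b) le_rfl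

theorem NOp_split : ∃ Q : Op, Jet 2 1 Q ∧ ∀ f, Adm f →
    NOp f = fun z => ∑ a, ∑ b, al a b f z * Ee a (Ee b f) z + Q f z := by
  obtain ⟨Q, hQ, h⟩ := scal_split
  refine ⟨Q, hQ, fun f hf => funext fun z => ?_⟩
  rw [NOp, h f hf, lap_lap_eq hf.sm]
  simp only [al, sub_mul, Finset.sum_sub_distrib]
  ring

theorem jet_NOp : Jet 2 2 NOp := by
  obtain ⟨Q, hQ, h⟩ := NOp_split
  refine Jet.congr (Jet.add (Jet.sum
    (Θ := fun a f z => ∑ b, al a b f z * Ee a (Ee b f) z) Finset.univ fun a _ =>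
      Jet.sum (Θ := fun b f z => al a b f z * Ee a (Ee b f) z) Finset.univ fun b _ => ?_)
    (hQ.mono le_rfl one_le_two)) fun f hf => (h f hf).symm
  exact Jet.mul (w₁ := 0) (w₂ := 2) ((jet_al a b).mono le_rfl (Nat.zero_le _)) (jet_EE a b) le_rfl

theorem cl_scal {S : Set ℝ} {f : ℝ → C2 → ℝ} (hf : Cl S f)
    (hp : ∀ t ∈ S, ∀ z, (hess (f t) z).PosDef) : Cl S fun t => scal (f t) := jet_scal.cl hf hp

/-- Derivatives of the nonlinear term: top order part and remainder. -/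
theorem pdl_NOp (l : List (Fin 4)) : ∃ R : Op, Jet (2 + l.length) (1 + l.length) R ∧
    ∀ f, Adm f → ∀ z, pdl l (NOp f) z =
      ∑ a, ∑ b, al a b f z * Ee a (pdl l (Ee b f)) z + R f z := by
  obtain ⟨Q, hQ, h⟩ := NOp_split
  refine ⟨fun f z => ∑ a, ∑ b, (pdl l (fun y => al a b f y * Ee a (Ee b f) y) z -
    al a b f z * pdl l (Ee a (Ee b f)) z) + pdl l (Q f) z, ?_, fun f hf z => ?_⟩
  · refine Jet.add (Jet.sum (Θ := fun a f z => ∑ b, (pdl l (fun y => al a b f y * Ee a (Ee b f) y) z -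
      al a b f z * pdl l (Ee a (Ee b f)) z)) Finset.univ fun a _ =>
      Jet.sum (Θ := fun b f z => pdl l (fun y => al a b f y * Ee a (Ee b f) y) z -
      al a b f z * pdl l (Ee a (Ee b f)) z) Finset.univ fun b _ => ?_) (hQ.pdl l)
    exact Jet.leib (w := 1) (jet_al a b) (jet_EE a b) l
  · have s : ∀ a b, SmC fun y => al a b f y * Ee a (Ee b f) y := fun a b =>
      ContDiff.mul ((jet_al a b).sm hf) (sm_Ee a (sm_Ee b hf.sm))
    rw [h f hf, pdl_add' l (sm_sum Finset.univ fun a _ => sm_sum Finset.univ fun b _ => s a b)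
      (hQ.sm hf), pdl_sum' l Finset.univ fun a _ => sm_sum Finset.univ fun b _ => s a b]
    simp only [pdl_sum' l Finset.univ fun b _ => s _ b, Finset.sum_sub_distrib,
      pdl_Ee l _ (sm_Ee _ hf.sm)]
    ring

/-- The pointwise inequality for the nonlinear term. -/
theorem jet_ineq : ∃ C₀ : ℝ, 0 < C₀ ∧ ∀ n k : ℕ, n + 2 ≤ 2 * k + 1 → ∀ A : ℝ, ∃ C : ℝ, 0 ≤ C ∧
    ∀ (f : C2 → ℝ) (z : C2) (δ : ℝ), Adm f → δ ≤ 1 / 10 → (∀ a, |Ee a f z - I0 a| ≤ δ) →
      (∀ j ≤ k, NN j f z ≤ A) →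
      ns n (NOp f) z ≤ C₀ * δ ^ 2 * NN (n + 2) f z +
        C * (1 + ∑ j ∈ Finset.range (n + 2), NN j f z) := by
  refine ⟨14400, by norm_num, fun n k hnk A => ?_⟩
  have key : ∀ l : Fin n → Fin 4, ∃ C : ℝ, 0 ≤ C ∧ ∀ (f : C2 → ℝ) (z : C2) (δ : ℝ), Adm f →
      δ ≤ 1 / 10 → (∀ a, |Ee a f z - I0 a| ≤ δ) → (∀ j ≤ k, NN j f z ≤ A) →
      pdl (List.ofFn l) (NOp f) z ^ 2 ≤
        14400 * δ ^ 2 * ∑ b, ns 2 (pdl (List.ofFn l) (Ee b f)) z +
          C * (1 + ∑ j ∈ Finset.range (n + 2), NN j f z) := by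
    intro l
    obtain ⟨R, hR, h⟩ := pdl_NOp (List.ofFn l)
    rw [List.length_ofFn] at hR
    obtain ⟨C, hC, hb⟩ := hR.bound1 (k := k) (by omega) A (1 / 2) (by norm_num)
    refine ⟨2 * C, by positivity, fun f z δ hf hδ hc hA => ?_⟩
    have h1 := hb f z hf (vol_ge_of_close hf.sm hδ hc) hA
    rw [show 1 + n + 1 = n + 2 by omega] at h1
    have h2 := Finset.sum_mul_sq_le_sq_mul_sq (Finset.univ : Finset (Fin 4 × Fin 4))
      (fun x => al x.1 x.2 f z) (fun x => Ee x.1 (pdl (List.ofFn l) (Ee x.2 f)) z)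
    have h3 : ∑ x : Fin 4 × Fin 4, al x.1 x.2 f z ^ 2 ≤ 16 * (900 * δ ^ 2) := by
      have := Finset.sum_le_card_nsmul Finset.univ (fun x : Fin 4 × Fin 4 => al x.1 x.2 f z ^ 2)
        (900 * δ ^ 2) fun x _ => al_sq hf.sm hδ hc x.1 x.2
      simpa using this
    have h4 : ∑ x : Fin 4 × Fin 4, Ee x.1 (pdl (List.ofFn l) (Ee x.2 f)) z ^ 2 ≤
        1 / 2 * ∑ b, ns 2 (pdl (List.ofFn l) (Ee b f)) z := by
      refine (Finset.sum_le_sum fun x _ => Ee_sq x.1 _ z).trans (le_of_eq ?_)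
      rw [Fintype.sum_prod_type]
      simp only [Finset.sum_const, Finset.card_univ, Fintype.card_fin, nsmul_eq_mul,
        ← Finset.mul_sum]
      push_cast
      ring
    have h5 := h2.trans (mul_le_mul h3 h4 (Finset.sum_nonneg fun _ _ => sq_nonneg _)
      (by positivity))
    rw [Fintype.sum_prod_type] at h5
    rw [h f hf]
    nlinarith [sq_nonneg (∑ a, ∑ b, al a b f z * Ee a (pdl (List.ofFn l) (Ee b f)) z - R f z)]
  choose C hC h using key
  refine ⟨∑ l, C l, Finset.sum_nonneg fun l _ => hC l, fun f z δ hf hδ hc hA => ?_⟩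
  refine (Finset.sum_le_sum fun l _ => h l f z δ hf hδ hc hA).trans (le_of_eq ?_)
  rw [Finset.sum_add_distrib, ← Finset.mul_sum, ← Finset.sum_mul, Finset.sum_comm]
  simp only [sum_ns, NN]

/-- The equation of the derivatives of the metric. -/
theorem geq {S : Set ℝ} (hS : OrdConnected S) {f : ℝ → C2 → ℝ} (h : NFlow S f)
    (l : List (Fin 4)) (a : Fin 4) : ∃ ut : ℝ → C2 → ℝ, Cl S ut ∧
      IsInt S (fun t => pdl l (Ee a (f t))) ut ∧ ∀ t ∈ S, ∀ z,
        ut t z + lap (lap (pdl l (Ee a (f t)))) z =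
          ∑ p, ∑ q, pd p (pd q fun y => 16 * ec a p q * pdl l (NOp (f t)) y) z := by
  obtain ⟨c, hI⟩ := h.eq
  have hv : Cl S fun t z => 16 * scal (f t) z - c :=
    cl_sub (cl_cmul 16 (cl_scal h.cl h.pos)) (cl_const (sm_const c))
  refine ⟨fun t => pdl l (Ee a fun z => 16 * scal (f t) z - c), cl_pdl (cl_Ee a hv) l,
    IsInt.pdl hS (cl_Ee a h.cl) (cl_Ee a hv) (IsInt.Ee hS h.cl hv hI a) l, fun t ht z => ?_⟩
  have hA : Adm (f t) := ⟨h.cl.sm t ht, h.pos t ht⟩
  have sN : SmC (NOp (f t)) := jet_NOp.sm hA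
  have sL : SmC (lap (lap (f t))) := sm_lap (sm_lap hA.sm)
  have e1 : (fun z => 16 * scal (f t) z - c) =
      fun z => (16 * NOp (f t) z - lap (lap (f t)) z) - c := by
    funext z; rw [NOp]; ring
  have s1 : SmC fun z => 16 * NOp (f t) z := ContDiff.mul contDiff_const sN
  have e2 : Ee a (fun z => 16 * scal (f t) z - c) =
      fun z => 16 * Ee a (NOp (f t)) z - Ee a (lap (lap (f t))) z := by
    rw [e1, Ee_sub' a (ContDiff.sub s1 sL) (sm_const c), Ee_sub' a s1 sL, Ee_cmul' a 16 sN, Ee_const]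
    simp
  have e3 : ∀ p q, pd p (pd q fun y => 16 * ec a p q * pdl l (NOp (f t)) y) z =
      16 * (ec a p q * pd p (pd q (pdl l (NOp (f t)))) z) := fun p q => by
    have := congrFun (pdl_cmul' [p, q] (16 * ec a p q) (sm_pdl l sN)) z
    simp only [pdl_cons, pdl_nil] at this
    rw [this, mul_assoc]
  simp only [e3, ← Finset.mul_sum]
  rw [e2, pdl_sub' l (ContDiff.mul contDiff_const (sm_Ee a sN)) (sm_Ee a sL),
    pdl_cmul' l 16 (sm_Ee a sN), Ee_lap a (sm_lap hA.sm), Ee_lap a hA.sm,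
    pdl_lap l (sm_lap (sm_Ee a hA.sm)), pdl_lap l (sm_Ee a hA.sm), pdl_Ee l a sN]
  simp only [sub_add_cancel]
  rfl

end Pool.Agent.P.MP_2cea5e_gt.II
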