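import Pool.Agent.P.MP_2cea5e_gt.II.Glue
import Pool.Agent.P.MP_2cea5e_gt.II.ClA

/-!
Chapter II: bounds near the final time at points of the torus.
-/

open scoped ContDiff ComplexOrder Matrix Topology
open MeasureTheory Set Filter

noncomputable section

namespace Pool.Agent.P.MP_2cea5e_gt.II

/-- A finite family of continuous functions is bounded on a ball. -/
theorem late_bd {ι : Type} [Finite ι] (g : ι → C2 → ℝ) (hg : ∀ σ, Continuous (g σ)) (r : ℝ) :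
    ∃ B : ℝ, ∀ σ y, ‖y‖ ≤ r → g σ y ≤ B := by
  have h : ∀ σ, ∃ B : ℝ, ∀ y : C2, ‖y‖ ≤ r → g σ y ≤ B := fun σ => by
    obtain ⟨B, hB⟩ := (isCompact_closedBall (0 : C2) r).bddAbove_image (hg σ).continuousOn
    exact ⟨B, fun y hy => hB ⟨y, by simpa using hy, rfl⟩⟩
  choose B hB using h
  obtain ⟨M, hM⟩ := (Set.finite_range B).bddAbove
  exact ⟨M, fun σ y hy => (hB σ y hy).trans (hM ⟨σ, rfl⟩)⟩

theorem bound_late (h1 : StOsc) (h2 : StGain) (ι : Type) [Finite ι]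
    (m : ι → Matrix (Fin 2) (Fin 2) ℤ) (ψ : ι → C2 → ℝ) (κ c T : ℝ) (φ : ℝ → ι → C2 → ℝ)
    (hm : IsFanD m) (hK : IsToricKaehler m ψ) (hκ : 0 < κ) (hT : 0 < T)
    (hF : IsCalabiFlow m ψ κ c T φ) : ∃ τ : ℝ, 0 < τ ∧ τ < T ∧ ∀ σ (R : ℝ),
    (∀ k : ℕ, ∃ C : ℝ, ∀ t ∈ Ico (T - τ) T, ∀ z : C2, (∀ k, z k ≠ 0) → ‖z‖ ≤ R →
      ‖iteratedFDeriv ℝ k (φ t σ) z‖ ≤ C) ∧
    ∃ b : ℝ, 0 < b ∧ ∀ t ∈ Ico (T - τ) T, ∀ z : C2, (∀ k, z k ≠ 0) → ‖z‖ ≤ R →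
      b ≤ vol (ψ σ + φ t σ) z := by
  obtain ⟨δ, hδ, hG⟩ := h2
  obtain ⟨τ, ρ, Λ, hτ, hρ, hτρ, hO⟩ := h1 ι m ψ κ c T φ hm.toIsFan hK hκ hT hF δ hδ
  obtain ⟨C0, hC0⟩ := main_all ι m ψ κ c T φ hm.toIsFan hK hκ hF (T - τ - ρ) (1 / 4)
    (by linarith) (by norm_num) (by norm_num)
  obtain ⟨B0, hB0⟩ := late_bd (fun σ y => |ψ σ y|) (fun σ => (hK.smooth σ).continuous.abs) (Λ + ρ)
  choose Cg hCg using hG κ ρ (max Λ (B0 + C0)) hκ hρ
  have hBi : ∀ i : ℕ, ∃ B : ℝ, ∀ σ y, ‖y‖ ≤ Λ → ‖iteratedFDeriv ℝ i (ψ σ) y‖ ≤ B := fun i =>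
    late_bd (fun σ y => ‖iteratedFDeriv ℝ i (ψ σ) y‖) (fun σ =>
      ((hK.smooth σ).continuous_iteratedFDeriv (by exact_mod_cast le_top)).norm) Λ
  choose Bψ hBψ using hBi
  have hsm : ∀ t ∈ Ioo 0 T, ∀ σ, SmC (φ t σ) := fun t ht σ =>
    (hF.smooth σ).comp_contDiff (f := fun z : C2 => (t, z)) (contDiff_const.prodMk contDiff_id)
      fun _ => ⟨ht, mem_univ _⟩
  have hI : ∀ t ∈ Ico (T - τ) T, t ∈ Ioo 0 T := fun t ht => ⟨by linarith [ht.1], ht.2⟩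
  have key : ∀ t ∈ Ico (T - τ) T, ∀ w : C2, (∀ k, w k ≠ 0) → ∃ σ, ‖mon (m σ) w‖ ≤ Λ ∧
      (∀ i, ‖iteratedFDeriv ℝ i (φ t σ) (mon (m σ) w)‖ ≤ Cg i + Bψ i) ∧
      1 ≤ Λ ^ 2 * vol (ψ σ + φ t σ) (mon (m σ) w) := by
    intro t ht w hw
    obtain ⟨σ, h3, h4, h5⟩ := hO t ht w hw
    have ht' := hI t ht
    have hs' : SmC (ψ σ + φ t σ) := sm_add (hK.smooth σ) (hsm t ht' σ)
    refine ⟨σ, h3, fun i => ?_, vol_low hs' fun v => (h4 v).1⟩
    have h6 : ‖iteratedFDeriv ℝ i (ψ σ + φ t σ) (mon (m σ) w)‖ ≤ Cg i := by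
      refine hCg i (fun s => ψ σ + φ s σ) (Ioo 0 T) c t (mon (m σ) w) isOpen_Ioo
        (fun s hs => ⟨by linarith [hs.1, ht.1], lt_of_le_of_lt hs.2 ht.2⟩) ?_
        (fun s hs y => hF.pos s hs σ y) (fun s hs y => (hF.flow s hs σ y).const_add (ψ σ y))
        (fun v => ⟨?_, ?_⟩) (fun s hs y hy => ⟨?_, h5 s hs y hy⟩)
      · exact (((hK.smooth σ).comp contDiff_snd).contDiffOn).add (hF.smooth σ)
      · exact (h4 v).1.trans (mul_le_mul_of_nonneg_right (le_max_left _ _)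
          (qf_nonneg (hF.pos t ht' σ _) v))
      · exact (h4 v).2.trans (mul_le_mul_of_nonneg_right (le_max_left _ _) (sq_nonneg _))
      · refine le_trans ?_ (le_max_right _ _)
        have e1 : ‖y‖ ≤ Λ + ρ := by
          have := norm_add_le (mon (m σ) w) (y - mon (m σ) w)
          rw [add_sub_cancel] at this
          linarith
        have e2 := hB0 σ y e1
        have e3 := (hC0 s ⟨by linarith [hs.1, ht.1], lt_of_le_of_lt hs.2 ht.2⟩ σ).1 y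
        exact (abs_add_le _ _).trans (add_le_add e2 e3)
    have hle : ((i : ℕ) : WithTop ℕ∞) ≤ ∞ := by exact_mod_cast le_top
    rw [iteratedFDeriv_add_apply ((hK.smooth σ).of_le hle).contDiffAt
      ((hsm t ht' σ).of_le hle).contDiffAt] at h6
    have h7 := norm_sub_le (iteratedFDeriv ℝ i (ψ σ) (mon (m σ) w) +
      iteratedFDeriv ℝ i (φ t σ) (mon (m σ) w)) (iteratedFDeriv ℝ i (ψ σ) (mon (m σ) w))
    rw [add_sub_cancel_left] at h7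
    linarith [hBψ i σ _ h3]
  refine ⟨τ, hτ, by linarith, fun σ R => ⟨fun k => ?_, ?_⟩⟩
  · choose C hC using fun σ' =>
      cc_comp hm σ σ' (max R Λ) (∑ i ∈ Finset.range (k + 1), |Cg i + Bψ i|) k
    obtain ⟨M, hM⟩ := (Set.finite_range C).bddAbove
    refine ⟨M, fun t ht z hz hR => ?_⟩
    obtain ⟨w, hw, rfl⟩ := exists_mon (hm.unimod σ) hz
    obtain ⟨σ', h3, h4, -⟩ := key t ht w hw
    refine (hC σ' (φ t σ) (φ t σ') (hsm t (hI t ht) σ) (hsm t (hI t ht) σ')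
      (hF.glue t (hI t ht) σ σ') w hw (hR.trans (le_max_left _ _))
      (h3.trans (le_max_right _ _)) fun i hi => ?_).trans (hM ⟨σ', rfl⟩)
    exact ((h4 i).trans (le_abs_self _)).trans
      (Finset.single_le_sum (f := fun i => |Cg i + Bψ i|) (fun _ _ => abs_nonneg _)
        (Finset.mem_range.2 (Nat.lt_succ_of_le hi)))
  · obtain ⟨U, hU⟩ := late_bd (fun σ => vol (ψ σ)) (fun σ => (sm_vol (hK.smooth σ)).continuous) Λ
    have hpos : ∀ σ z, 0 < vol (ψ σ) z := fun σ z => Adm.vol_pos ⟨hK.smooth σ, hK.pos σ⟩ z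
    obtain ⟨b0, hb0, hb⟩ := (isCompact_closedBall (0 : C2) R).exists_forall_le'
      (sm_vol (hK.smooth σ)).continuous.continuousOn (a := 0) fun z _ => hpos σ z
    have hd : 0 < (Λ ^ 2 + 1) * (|U| + 1) := by positivity
    refine ⟨b0 / ((Λ ^ 2 + 1) * (|U| + 1)), div_pos hb0 hd, fun t ht z hz hR => ?_⟩
    obtain ⟨w, hw, rfl⟩ := exists_mon (hm.unimod σ) hz
    obtain ⟨σ', h3, -, h5⟩ := key t ht w hw
    have ht' := hI t ht
    have hK' := tk_add hK (hsm t ht') (hF.inv t ht') (hF.glue t ht') (hF.pos t ht')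
    have e1 : vol (ψ σ + φ t σ) (mon (m σ) w) * vol (ψ σ') (mon (m σ') w) =
        vol (ψ σ' + φ t σ') (mon (m σ') w) * vol (ψ σ) (mon (m σ) w) :=
      vol_glue hm.toIsFan hK hK' σ σ' hw
    have e2 : 0 < vol (ψ σ + φ t σ) (mon (m σ) w) :=
      Adm.vol_pos ⟨hK'.smooth σ, hK'.pos σ⟩ _
    have e3 := hb (mon (m σ) w) (by simpa using hR)
    have e4 := (hU σ' _ h3).trans (le_abs_self U)
    have e5 := hpos σ' (mon (m σ') w)
    rw [div_le_iff₀ hd]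
    generalize vol (ψ σ + φ t σ) (mon (m σ) w) = X at *
    generalize vol (ψ σ') (mon (m σ') w) = Y at *
    generalize vol (ψ σ' + φ t σ') (mon (m σ') w) = X' at *
    generalize vol (ψ σ) (mon (m σ) w) = Y' at *
    have e6 : Y' ≤ Λ ^ 2 * (X * Y) := by
      rw [e1]; nlinarith
    have e7 : X * Y ≤ X * (|U| + 1) := mul_le_mul_of_nonneg_left (by linarith) e2.le
    have e8 : Λ ^ 2 * (X * Y) ≤ (Λ ^ 2 + 1) * (X * (|U| + 1)) :=
      mul_le_mul (by linarith) e7 (by positivity) (by positivity)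
    nlinarith

end Pool.Agent.P.MP_2cea5e_gt.II
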