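import Pool.Agent.P.MP_2cea5e_gt.II.StepL
import Pool.Agent.P.MP_2cea5e_gt.II.SOB

/-!
Chapter II: interior estimates for the biharmonic heat equation and the Poisson equation.
-/

open scoped ContDiff ComplexOrder Matrix Topology
open MeasureTheory Set Filter

noncomputable section

namespace Pool.Agent.P.MP_2cea5e_gt.II

/-- The hypotheses of the linear estimate. -/
structure LinH (ρ : ℝ) (v vt : ℝ → C2 → ℝ) (g : ℝ → ℝ) (A : ℝ) : Prop where
  pos : 0 < A
  cv : Cl (Icc (-ρ) 0) v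
  cvt : Cl (Icc (-ρ) 0) vt
  int : IsInt (Icc (-ρ) 0) v vt
  l2 : ∫ t in (-ρ)..0, bi ρ (fun z => v t z ^ 2) ≤ A ^ 2
  cg : ContinuousOn g (Icc (-ρ) 0)
  ig : ∫ t in (-ρ)..0, g t ≤ A
  eq : ∀ t ∈ Icc (-ρ) 0, ∀ z ∈ Metric.ball (0 : C2) ρ, ∀ l : List (Fin 4), l.length ≤ 10 →
    |pdl l (vt t + lap (lap (v t))) z| ≤ g t

theorem lin_levels (ρ : ℝ) (hρ : 0 < ρ) (n : ℕ) (hn : n ≤ 9) : ∃ C : ℝ, 1 ≤ C ∧
    ∀ (v vt : ℝ → C2 → ℝ) (g : ℝ → ℝ) (A : ℝ), LinH ρ v vt g A →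
      (∀ l : List (Fin 4), l.length = n → ∫ t in (-(ρ * (1 - n / 20)))..0,
        bi (ρ * (1 - n / 20)) (fun z => pdl l (v t) z ^ 2) ≤ (C * A) ^ 2) ∧
      ∀ l : List (Fin 4), l.length < n → ∀ t ∈ Icc (-(ρ * (1 - n / 20))) 0,
        bi (ρ * (1 - n / 20)) (fun z => pdl l (v t) z ^ 2) ≤ (C * A) ^ 2 := by
  induction n with
  | zero =>
    refine ⟨1, le_rfl, fun v vt g A H => ⟨fun l hl => ?_, fun l hl => absurd hl (Nat.not_lt_zero _)⟩⟩
    obtain rfl := List.length_eq_zero_iff.1 hl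
    simpa using H.l2
  | succ n ih =>
    obtain ⟨C, hC1, hC⟩ := ih (by omega)
    have hn' : (n : ℝ) + 1 ≤ 9 := by exact_mod_cast hn
    have hn0 : (0 : ℝ) ≤ n := Nat.cast_nonneg n
    obtain ⟨R, hR⟩ : ∃ R, R = ρ * (1 - (n : ℝ) / 20) := ⟨_, rfl⟩
    obtain ⟨r, hr⟩ : ∃ r, r = ρ * (1 - ((n + 1 : ℕ) : ℝ) / 20) := ⟨_, rfl⟩
    rw [← hR] at hC
    rw [← hr]
    push_cast at hr
    have r0 : 0 < r := by rw [hr]; exact mul_pos hρ (by linarith)
    have rR : r < R := by rw [hr, hR]; nlinarith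
    have Rρ : R ≤ ρ := by rw [hR]; nlinarith
    obtain ⟨D, hD, hs⟩ := step_lin r R (-R) (-r) 0 r0 rR (by linarith) (by linarith)
    refine ⟨(D + 1) * C, by nlinarith, fun v vt g A H => ?_⟩
    obtain ⟨h1, h2⟩ := hC v vt g A H
    have hA := H.pos
    have sub : Icc (-R) 0 ⊆ Icc (-ρ) 0 := Icc_subset_Icc (by linarith) le_rfl
    have sub' : Icc (-r) 0 ⊆ Icc (-R) 0 := Icc_subset_Icc (by linarith) le_rfl
    have g0 : ∀ t ∈ Icc (-ρ) 0, 0 ≤ g t := fun t ht =>
      (abs_nonneg _).trans (H.eq t ht 0 (Metric.mem_ball_self hρ) [] (by simp))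
    have hg : ∫ t in (-R)..0, g t ≤ C * A :=
      ((int_mono_interval H.cg g0 (by linarith) (by linarith) le_rfl).trans H.ig).trans
        (le_mul_of_one_le_left hA.le hC1)
    have b1 : D * (C * A) ^ 2 ≤ ((D + 1) * C * A) ^ 2 := by
      have : 0 ≤ (C * A) ^ 2 := sq_nonneg _
      have e : ((D + 1) * C * A) ^ 2 = (D + 1) ^ 2 * (C * A) ^ 2 := by ring
      rw [e]
      exact mul_le_mul_of_nonneg_right (by nlinarith) this
    have b2 : (C * A) ^ 2 ≤ ((D + 1) * C * A) ^ 2 := by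
      have : 0 ≤ (C * A) ^ 2 := sq_nonneg _
      have e : ((D + 1) * C * A) ^ 2 = (D + 1) ^ 2 * (C * A) ^ 2 := by ring
      rw [e]
      exact le_mul_of_one_le_left this (by nlinarith)
    have key : ∀ l : List (Fin 4), l.length = n →
        (∀ t ∈ Icc (-r) 0, bi r (fun z => pdl l (v t) z ^ 2) ≤ D * (C * A) ^ 2) ∧
          ∫ t in (-r)..0, bi r (ns 1 (pdl l (v t))) ≤ D * (C * A) ^ 2 := fun l hl => by
      refine hs (fun t => pdl l (v t)) (fun t => pdl l (vt t)) g (C * A) (by positivity)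
        (cl_mono (cl_pdl H.cv l) sub) ((cl_jc_pdl H.cvt l).mono sub)
        ((IsInt.pdl ordConnected_Icc H.cv H.cvt H.int l).mono sub) (H.cg.mono sub) hg
        (fun t ht z hz => ?_) (h1 l hl)
      have sv : SmC (v t) := H.cv.sm t (sub ht)
      have := H.eq t (sub ht) z (Metric.ball_subset_ball Rρ hz) l (by omega)
      rwa [pdl_add l (H.cvt.sm t (sub ht)) (sm_lap (sm_lap sv)), pdl_lap l (sm_lap sv),
        pdl_lap l sv] at this
    refine ⟨fun l hl => ?_, fun l hl t ht => ?_⟩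
    · obtain ⟨a, l', rfl⟩ := List.exists_cons_of_length_eq_add_one hl
      have hl' : l'.length = n := by simpa using hl
      refine le_trans ?_ ((key l' hl').2.trans b1)
      have m1 : -r ∈ Icc (-ρ) 0 := ⟨by linarith, by linarith⟩
      have m2 : (0 : ℝ) ∈ Icc (-ρ) 0 := ⟨by linarith, le_rfl⟩
      have c1 := (cl_jc_pdl H.cv (a :: l')).pow 2
      have c2 := jc_ns 1 (cl_pdl H.cv l')
      refine intervalIntegral.integral_mono_on (by linarith) (bi_ii c1 r m1 m2) (bi_ii c2 r m1 m2)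
        fun t ht => ?_
      exact bi_mono (c1.space (sub (sub' ht))) (c2.space (sub (sub' ht))) fun z _ =>
        sq_le_ns [a] (pdl l' (v t)) z
    · rcases Nat.lt_succ_iff_lt_or_eq.1 hl with h | h
      · refine le_trans ?_ ((h2 l h t (sub' ht)).trans b2)
        exact bi_mono_rad (((cl_jc_pdl H.cv l).pow 2).space (sub (sub' ht))) rR.le
          fun z _ => sq_nonneg _
      · exact ((key l h).1 t ht).trans b1

theorem lin_pos (ρ : ℝ) (hρ : 0 < ρ) : ∃ C : ℝ, 0 < C ∧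
    ∀ (v vt : ℝ → C2 → ℝ) (g : ℝ → ℝ) (A : ℝ), LinH ρ v vt g A →
      ∀ t ∈ Icc (-ρ / 2) 0, ∀ z ∈ Metric.ball (0 : C2) (ρ / 2), ∀ l : List (Fin 4),
        l.length ≤ 4 → |pdl l (v t) z| ≤ C * A := by
  obtain ⟨C, hC1, hC⟩ := lin_levels ρ hρ 9 le_rfl
  obtain ⟨R, hR⟩ : ∃ R, R = ρ * (1 - ((9 : ℕ) : ℝ) / 20) := ⟨_, rfl⟩
  rw [← hR] at hC
  push_cast at hR
  have hlt : ρ / 2 < R := by rw [hR]; linarith
  obtain ⟨D, hD, hsob⟩ := sob_bi hlt
  refine ⟨(D * (5 * 4 ^ 4) + 1) * C, by positivity, fun v vt g A H t ht z hz l hl => ?_⟩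
  obtain ⟨-, h2⟩ := hC v vt g A H
  have hA := H.pos
  have sv : SmC (v t) := H.cv.sm t ⟨by linarith [ht.1], ht.2⟩
  have ht' : t ∈ Icc (-R) 0 := ⟨by linarith [ht.1], ht.2⟩
  have key : ∀ i ∈ Finset.range 5, bi R (ns i (pdl l (v t))) ≤ 4 ^ 4 * (C * A) ^ 2 := fun i hi => by
    have hi' := Finset.mem_range.1 hi
    have e : bi R (ns i (pdl l (v t))) =
        ∑ l' : Fin i → Fin 4, bi R fun z => pdl (List.ofFn l') (pdl l (v t)) z ^ 2 :=
      bi_sum (H := fun (l' : Fin i → Fin 4) z => pdl (List.ofFn l') (pdl l (v t)) z ^ 2) _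
        fun l' _ => (sm_pdl _ (sm_pdl l sv)).cont.pow 2
    rw [e]
    refine (Finset.sum_le_card_nsmul _ _ ((C * A) ^ 2) fun l' _ => ?_).trans ?_
    · rw [← pdl_append]
      exact h2 _ (by simp; omega) t ht'
    · simp only [Finset.card_univ, Fintype.card_pi, Fintype.card_fin, Finset.prod_const,
        nsmul_eq_mul]
      push_cast
      exact mul_le_mul_of_nonneg_right (pow_le_pow_right₀ (by norm_num) (by omega)) (sq_nonneg _)
  have h3 := (hsob _ (sm_pdl l sv) z hz).trans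
    (mul_le_mul_of_nonneg_left (Finset.sum_le_card_nsmul _ _ _ key) hD)
  refine abs_le_of_sq_le_sq (h3.trans ?_) (by positivity)
  simp only [Finset.card_range, nsmul_eq_mul]
  push_cast
  have p1 : 0 ≤ (C * A) ^ 2 := sq_nonneg _
  have e1 : ((D * (5 * 4 ^ 4) + 1) * C * A) ^ 2 = (D * (5 * 4 ^ 4) + 1) ^ 2 * (C * A) ^ 2 := by ring
  have e2 : D * (5 * (4 ^ 4 * (C * A) ^ 2)) = D * (5 * 4 ^ 4) * (C * A) ^ 2 := by ring
  rw [e1, e2]
  exact mul_le_mul_of_nonneg_right (by nlinarith) p1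

theorem lin_ok : StLin := by
  intro ρ hρ
  obtain ⟨C, hC0, hC⟩ := lin_pos ρ hρ
  refine ⟨C, fun v vt g A hA hv hvt hd h2 hg hgi heq t ht z hz l hl => ?_⟩
  have hint : IsInt (Icc (-ρ) 0) v vt :=
    isInt_of_deriv ordConnected_Icc (cl_jc hv) (cl_jc hvt) countable_empty fun s hs _ y =>
      hd s (by rwa [interior_Icc] at hs) y
  refine le_of_forall_pos_le_add fun ε hε => ?_
  have hε' : 0 < ε / C := div_pos hε hC0
  have := hC v vt g (A + ε / C) ⟨by linarith, hv, hvt, hint,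
    le_trans h2 (pow_le_pow_left₀ hA (by linarith) 2), hg, by linarith, heq⟩ t ht z hz l hl
  rwa [mul_add, mul_div_cancel₀ _ hC0.ne'] at this

theorem ell (k : ℕ) (ρ A : ℝ) (hρ : 0 < ρ) : ∃ C : ℝ, ∀ f : C2 → ℝ, SmC f →
    (∀ z ∈ Metric.ball (0 : C2) ρ, |f z| ≤ A) →
    (∀ l : List (Fin 4), l.length ≤ k + 12 → ∀ z ∈ Metric.ball (0 : C2) ρ,
      |pdl l (lap f) z| ≤ A) →
    ∀ l : List (Fin 4), l.length ≤ k → ∀ z ∈ Metric.ball (0 : C2) (ρ / 2 ^ k),
      |pdl l f z| ≤ C := by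
  induction k with
  | zero =>
    refine ⟨A, fun f _ h0 _ l hl z hz => ?_⟩
    obtain rfl := List.length_eq_zero_iff.1 (Nat.le_zero.1 hl)
    exact h0 z (by simpa using hz)
  | succ k ih =>
    obtain ⟨C, hC⟩ := ih
    obtain ⟨r, hr⟩ : ∃ r, r = ρ / 2 ^ k := ⟨_, rfl⟩
    have r0 : 0 < r := by rw [hr]; positivity
    have rρ : r ≤ ρ := by
      rw [hr]
      exact div_le_self hρ.le (one_le_pow₀ (by norm_num))
    have e : ρ / 2 ^ (k + 1) = r / 2 := by rw [hr, pow_succ, div_div]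
    rw [← hr] at hC
    rw [e]
    obtain ⟨D, hD⟩ := lin_ok r r0
    obtain ⟨B, hB⟩ : ∃ B, B = |r * (4 * A)| + (r * (C ^ 2 * vb r) + 1) := ⟨_, rfl⟩
    have x0 : 0 ≤ r * (C ^ 2 * vb r) := mul_nonneg r0.le (mul_nonneg (sq_nonneg _) (vb_nonneg _))
    have x1 := abs_nonneg (r * (4 * A))
    have x2 := le_abs_self (r * (4 * A))
    refine ⟨max C (D * B), fun f hf h0 h1 l hl z hz => ?_⟩
    have hk := hC f hf h0 fun l hl => h1 l (by omega)
    rcases l with _ | ⟨a, l⟩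
    · exact le_max_of_le_left (hk [] (by simp) z (Metric.ball_subset_ball (by linarith) hz))
    have hl' : l.length ≤ k := by simpa using hl
    have sw : SmC (pdl l f) := sm_pdl l hf
    refine le_max_of_le_right (hD (fun _ => pdl l f) (fun _ _ => 0) (fun _ => 4 * A) B
      (by linarith) (cl_const sw) (cl_const (sm_const 0)) (fun t _ y => hasDerivAt_const _ _) ?_
      continuousOn_const ?_ (fun t _ y hy l' hl'' => ?_) 0 ⟨by linarith, le_rfl⟩ z hz [a] (by simp))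
    · have h2 : bi r (fun y => pdl l f y ^ 2) ≤ C ^ 2 * vb r := by
        rw [← bi_const]
        refine bi_mono (sw.cont.pow 2) continuous_const fun y hy => ?_
        rw [← sq_abs]
        exact pow_le_pow_left₀ (abs_nonneg _) (hk l hl' y hy) 2
      rw [intervalIntegral.integral_const, sub_neg_eq_add, zero_add, smul_eq_mul]
      have h3 : r * bi r (fun y => pdl l f y ^ 2) ≤ r * (C ^ 2 * vb r) :=
        mul_le_mul_of_nonneg_left h2 r0.le
      refine le_trans h3 ?_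
      nlinarith
    · rw [intervalIntegral.integral_const, sub_neg_eq_add, zero_add, smul_eq_mul]
      linarith
    · have e1 : ((fun _ => 0) + lap (lap (pdl l f)) : C2 → ℝ) =
          fun y => ∑ b, pdl ([b, b] ++ l) (lap f) y := by
        funext y
        rw [← pdl_lap l hf]
        simp [lap]
      rw [e1, pdl_sum' l' _ fun b _ => sm_pdl _ (sm_lap hf)]
      refine (Finset.abs_sum_le_sum_abs _ _).trans
        ((Finset.sum_le_card_nsmul _ _ A fun b _ => ?_).trans (by simp))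
      rw [← pdl_append]
      exact h1 _ (by simp; omega) y (Metric.ball_subset_ball rρ hy)

end Pool.Agent.P.MP_2cea5e_gt.II
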