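import Pool.Agent.P.MP_2cea5e_gt.II.PP
import Pool.Agent.P.MP_2cea5e_gt.II.Lin

/-!
Chapter II: all derivatives of a normalised solution.
-/

open scoped ContDiff ComplexOrder Matrix Topology
open MeasureTheory Set Filter

noncomputable section

namespace Pool.Agent.P.MP_2cea5e_gt.II

theorem all_der : ∃ δ : ℝ, 0 < δ ∧ ∀ k : ℕ, ∃ ρ C : ℝ, 0 < ρ ∧ ρ ≤ 1 ∧
    ∀ f : ℝ → C2 → ℝ, NFlow (Icc (-1) 0) f →
      (∀ t ∈ Icc (-1 : ℝ) 0, ∀ z : C2, ‖z‖ ≤ 1 → ∀ a, |Ee a (f t) z - I0 a| ≤ δ) →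
      ∀ t ∈ Icc (-ρ) 0, ∀ z ∈ Metric.ball (0 : C2) ρ, ∀ j ≤ k, NN j (f t) z ≤ C := by
  obtain ⟨δ₁, A, h₁, hp⟩ := pp
  obtain ⟨δ₂, h₂, hg⟩ := gain
  refine ⟨min δ₁ δ₂, lt_min h₁ h₂, fun k => ?_⟩
  have key : ∀ n : ℕ, ∃ ρ C : ℝ, 0 < ρ ∧ ρ ≤ 1 ∧
      ∀ f : ℝ → C2 → ℝ, NFlow (Icc (-1) 0) f →
        (∀ t ∈ Icc (-1 : ℝ) 0, ∀ z : C2, ‖z‖ ≤ 1 → ∀ a, |Ee a (f t) z - I0 a| ≤ min δ₁ δ₂) →
        ∀ t ∈ Icc (-ρ) 0, ∀ z ∈ Metric.ball (0 : C2) ρ, ∀ j ≤ n + 6, NN j (f t) z ≤ C := by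
    intro n
    induction n with
    | zero =>
      exact ⟨1 / 2, A, by norm_num, by norm_num, fun f hF hb t ht z hz j hj =>
        hp f hF (fun t ht z hz a => (hb t ht z hz a).trans (min_le_left _ _)) t ht z hz j
          (by omega)⟩
    | succ n ih =>
      obtain ⟨ρ, C, r0, r1, hC⟩ := ih
      obtain ⟨C', hC'⟩ := hg (n + 6) (by omega) ρ C r0
      refine ⟨ρ / 2, max C C', by positivity, by linarith, fun f hF hb t ht z hz j hj => ?_⟩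
      have sub : Icc (-ρ) 0 ⊆ Icc (-1 : ℝ) 0 := Icc_subset_Icc (by linarith) le_rfl
      rcases Nat.lt_or_ge j (n + 6 + 1) with h | h
      · exact (hC f hF hb t ⟨by linarith [ht.1], ht.2⟩ z
          (Metric.ball_subset_ball (by linarith) hz) j (by omega)).trans (le_max_left _ _)
      · obtain rfl : j = n + 6 + 1 := by omega
        refine (hC' f (hF.mono sub) (fun s hs y hy => ⟨fun a => ?_, hC f hF hb s hs y hy⟩)
          t ht z hz).trans (le_max_right _ _)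
        have : ‖y‖ < ρ := by simpa using hy
        exact (hb s (sub hs) y (by linarith) a).trans (min_le_right _ _)
  obtain ⟨ρ, C, r0, r1, hC⟩ := key k
  exact ⟨ρ, C, r0, r1, fun f hF hb t ht z hz j hj => hC f hF hb t ht z hz j (by omega)⟩

theorem norm_est : ∃ δ : ℝ, 0 < δ ∧ ∀ (k : ℕ) (Λ : ℝ), ∃ C : ℝ,
    ∀ f : ℝ → C2 → ℝ, NFlow (Icc (-1) 0) f →
      (∀ t ∈ Icc (-1 : ℝ) 0, ∀ z : C2, ‖z‖ ≤ 1 → ∀ a, |Ee a (f t) z - I0 a| ≤ δ) →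
      (∀ z : C2, ‖z‖ ≤ 1 → |f 0 z| ≤ Λ) → ‖iteratedFDeriv ℝ k (f 0) 0‖ ≤ C := by
  obtain ⟨δ, hδ, ha⟩ := all_der
  refine ⟨δ, hδ, fun k Λ => ?_⟩
  obtain ⟨ρ, C, r0, r1, hC⟩ := ha (k + 12)
  obtain ⟨C', hC'⟩ := ell k ρ (max Λ (8 * (1 + C))) r0
  refine ⟨4 ^ k * C', fun f hF hb hΛ => ?_⟩
  have sf : SmC (f 0) := hF.cl.sm 0 (by norm_num)
  refine norm_ifd_le sf fun l hl => hC' (f 0) sf (fun z hz => ?_) (fun l hl z hz => ?_) l hl.le 0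
    (Metric.mem_ball_self (by positivity))
  · have : ‖z‖ < ρ := by simpa using hz
    exact (hΛ z (by linarith)).trans (le_max_left _ _)
  · refine le_trans ?_ (le_max_right _ _)
    have e : lap (f 0) = fun z => 4 * (Ee 0 (f 0) z + Ee 1 (f 0) z) := funext (lap_eq _)
    have key : ∀ a, |pdl l (Ee a (f 0)) z| ≤ 1 + C := fun a => by
      have h1 := (sq_le_NN l a (f 0) z).trans
        (hC f hF hb 0 ⟨by linarith, le_rfl⟩ z hz l.length hl)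
      nlinarith [sq_abs (pdl l (Ee a (f 0)) z), sq_nonneg (|pdl l (Ee a (f 0)) z| - 1),
        sq_nonneg (pdl l (Ee a (f 0)) z)]
    rw [e, pdl_cmul' l 4 (ContDiff.add (sm_Ee 0 sf) (sm_Ee 1 sf)),
      pdl_add' l (sm_Ee 0 sf) (sm_Ee 1 sf)]
    have h0 := abs_le.1 (key 0)
    have h1 := abs_le.1 (key 1)
    exact abs_le.2 ⟨by linarith [h0.1, h1.1], by linarith [h0.2, h1.2]⟩

end Pool.Agent.P.MP_2cea5e_gt.II
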