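import Pool.Agent.P.MP_2cea5e_gt.II.Gain
import Pool.Agent.P.MP_2cea5e_gt.II.Scale

/-!
Chapter II: point picking.
-/

open scoped ContDiff ComplexOrder Matrix Topology
open MeasureTheory Set Filter

noncomputable section

namespace Pool.Agent.P.MP_2cea5e_gt.II

/-- The scale of the derivatives of the metric. -/
def mu (f : C2 → ℝ) (z : C2) : ℝ :=
  ∑ j ∈ Finset.Icc 1 6, NN j f z ^ (((2 * j : ℕ) : ℝ)⁻¹)

theorem mu_nonneg (f : C2 → ℝ) (z : C2) : 0 ≤ mu f z :=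
  Finset.sum_nonneg fun j _ => Real.rpow_nonneg (NN_nonneg j f z) _

theorem NN_le_mu (f : C2 → ℝ) (z : C2) {j : ℕ} (h1 : 1 ≤ j) (h6 : j ≤ 6) :
    NN j f z ≤ mu f z ^ (2 * j) := by
  have h : NN j f z ^ (((2 * j : ℕ) : ℝ)⁻¹) ≤ mu f z :=
    Finset.single_le_sum (f := fun j : ℕ => NN j f z ^ (((2 * j : ℕ) : ℝ)⁻¹))
      (fun j _ => Real.rpow_nonneg (NN_nonneg j f z) _) (Finset.mem_Icc.2 ⟨h1, h6⟩)
  calc NN j f z = (NN j f z ^ (((2 * j : ℕ) : ℝ)⁻¹)) ^ (2 * j) :=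
        (Real.rpow_inv_natCast_pow (NN_nonneg j f z) (by omega)).symm
    _ ≤ _ := pow_le_pow_left₀ (Real.rpow_nonneg (NN_nonneg j f z) _) h _

theorem mu_le (f : C2 → ℝ) (z : C2) {lam : ℝ} (hl : 0 < lam)
    (h : ∀ j, 1 ≤ j → j ≤ 6 → lam ^ (2 * j) * NN j f z ≤ (1 / 12) ^ 12) :
    lam * mu f z ≤ 1 / 2 := by
  have key : ∀ j ∈ Finset.Icc 1 6, lam * NN j f z ^ (((2 * j : ℕ) : ℝ)⁻¹) ≤ 1 / 12 := by
    intro j hj
    obtain ⟨h1, h6⟩ := Finset.mem_Icc.1 hj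
    refine le_of_pow_le_pow_left₀ (n := 2 * j) (by omega) (by norm_num) ?_
    rw [mul_pow, Real.rpow_inv_natCast_pow (NN_nonneg j f z) (by omega)]
    exact (h j h1 h6).trans (pow_le_pow_of_le_one (by norm_num) (by norm_num) (by omega))
  rw [mu, Finset.mul_sum]
  refine (Finset.sum_le_card_nsmul _ _ _ key).trans ?_
  simp
  norm_num

theorem jc_mu {S : Set ℝ} {f : ℝ → C2 → ℝ} (hf : Cl S f) : JC S fun t => mu (f t) := by
  refine JC.sum (H := fun j t z => NN j (f t) z ^ (((2 * j : ℕ) : ℝ)⁻¹)) _ fun j _ => ?_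
  exact ContinuousOn.rpow_const (jc_NN j hf) fun _ _ => Or.inr (by positivity)

theorem NN_zero_le {f : C2 → ℝ} {z : C2} (h : ∀ a, |Ee a f z - I0 a| ≤ 1) : NN 0 f z ≤ 16 := by
  have key : ∀ a ∈ (Finset.univ : Finset (Fin 4)), ns 0 (Ee a f) z ≤ 4 := by
    intro a _
    rw [ns_zero]
    have h1 := abs_le.1 (h a)
    have h2 : 0 ≤ I0 a ∧ I0 a ≤ 1 := by fin_cases a <;> simp [I0]
    nlinarith [h1.1, h1.2, h2.1, h2.2]
  refine (Finset.sum_le_card_nsmul _ _ _ key).trans ?_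
  simp
  norm_num

/-- The rescaled solution cannot have unit scale at the centre. -/
theorem pp_core : ∃ δ : ℝ, 0 < δ ∧ δ ≤ 1 ∧ ∀ g : ℝ → C2 → ℝ, NFlow (Icc (-1) 0) g →
    (∀ t ∈ Icc (-1 : ℝ) 0, ∀ z ∈ Metric.ball (0 : C2) 1,
      (∀ a, |Ee a (g t) z - I0 a| ≤ δ) ∧ ∀ j ≤ 6, NN j (g t) z ≤ 2 ^ 12) →
    ∀ j, 1 ≤ j → j ≤ 6 → NN j (g 0) 0 ≤ (1 / 12) ^ 12 := by
  obtain ⟨δ₁, h₁, hg⟩ := gain
  obtain ⟨C, hC⟩ := hg 6 le_rfl 1 (2 ^ 12) one_pos
  obtain ⟨δ₂, h₂, hi⟩ := interp 6 (1 + 2 ^ 12 + |C|) ((1 / 12) ^ 6 / 2 ^ 7) (1 / 2)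
    (by positivity) (by norm_num)
  refine ⟨min (min δ₁ δ₂) 1, by positivity, min_le_right _ _, fun g hF hb j h1 h6 => ?_⟩
  have m0 : (0 : ℝ) ∈ Icc (-1 : ℝ) 0 := by norm_num
  have sg : SmC (g 0) := hF.cl.sm 0 m0
  have h7 := hC g hF (fun t ht z hz => ⟨fun a => ((hb t ht z hz).1 a).trans
    ((min_le_left _ _).trans (min_le_left _ _)), (hb t ht z hz).2⟩) 0 (by norm_num)
  have sub : Metric.ball (0 : C2) (1 / 2) ⊆ Metric.ball 0 1 := Metric.ball_subset_ball (by norm_num)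
  have key : ∀ a ∈ (Finset.univ : Finset (Fin 4)),
      ns j (Ee a (g 0)) 0 ≤ 4 ^ 6 * ((1 / 12) ^ 6 / 2 ^ 7) ^ 2 := by
    intro a _
    have e : ∀ l : List (Fin 4), l ≠ [] →
        pdl l (fun y => Ee a (g 0) y - I0 a) = pdl l (Ee a (g 0)) := fun l hl => by
      rw [pdl_sub' l (sm_Ee a sg) (sm_const _), pdl_const hl]
      simp
    have h3 := hi (fun y => Ee a (g 0) y - I0 a) (ContDiff.sub (sm_Ee a sg) (sm_const _))
      (fun z hz => ((hb 0 m0 z (sub hz)).1 a).trans ((min_le_left _ _).trans (min_le_right _ _)))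
      (fun l hl z hz => by
        have hC0 := abs_nonneg C
        by_cases h0 : l = []
        · subst h0
          have := ((hb 0 m0 z (sub hz)).1 a).trans (min_le_right _ _)
          simp only [pdl_nil]
          linarith [show (0 : ℝ) ≤ 2 ^ 12 by positivity]
        · rw [e l h0]
          have h4 := sq_le_NN l a (g 0) z
          have h5 : NN l.length (g 0) z ≤ 2 ^ 12 + |C| := by
            rcases Nat.lt_or_ge l.length 7 with h | h
            · linarith [(hb 0 m0 z (sub hz)).2 l.length (by omega)]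
            · have : l.length = 6 + 1 := by omega
              rw [this]
              linarith [h7 z hz, le_abs_self C, show (0 : ℝ) ≤ 2 ^ 12 by positivity]
          nlinarith [sq_abs (pdl l (Ee a (g 0)) z), sq_nonneg (|pdl l (Ee a (g 0)) z| - 1)])
    refine (ns_le (B := ((1 / 12) ^ 6 / 2 ^ 7) ^ 2) fun l hl => ?_).trans ?_
    · have h0 : l ≠ [] := by
        rintro rfl
        simp at hl
        omega
      have h4 := h3 l (by omega) 0 (Metric.mem_ball_self (by positivity))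
      rw [e l h0] at h4
      rw [← sq_abs]
      exact pow_le_pow_left₀ (abs_nonneg _) h4 2
    · exact mul_le_mul_of_nonneg_right (pow_le_pow_right₀ (by norm_num) h6) (by positivity)
  refine (Finset.sum_le_card_nsmul _ _ _ key).trans ?_
  simp
  norm_num

theorem pp : ∃ δ A : ℝ, 0 < δ ∧ ∀ f : ℝ → C2 → ℝ, NFlow (Icc (-1) 0) f →
    (∀ t ∈ Icc (-1 : ℝ) 0, ∀ z : C2, ‖z‖ ≤ 1 → ∀ a, |Ee a (f t) z - I0 a| ≤ δ) →
    ∀ t ∈ Icc (-(1 / 2) : ℝ) 0, ∀ z ∈ Metric.ball (0 : C2) (1 / 2), ∀ j ≤ 6,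
      NN j (f t) z ≤ A := by
  obtain ⟨δ, hδ, hδ1, hc⟩ := pp_core
  refine ⟨δ, 4 ^ 12, hδ, fun f hF hb => ?_⟩
  set K : Set (ℝ × C2) := Icc (-1) 0 ×ˢ Metric.closedBall 0 1 with hK
  have cK : IsCompact K := isCompact_Icc.prod (isCompact_closedBall _ _)
  set d : ℝ × C2 → ℝ := fun p => min (p.1 + 1) (1 - ‖p.2‖) with hd
  have cd : Continuous d := by fun_prop
  have cm : ContinuousOn (fun p : ℝ × C2 => d p * mu (f p.1) p.2) K :=
    cd.continuousOn.mul (ContinuousOn.mono (jc_mu hF.cl) (prod_mono le_rfl (subset_univ _)))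
  obtain ⟨⟨t₀, z₀⟩, hp, hmax⟩ := cK.exists_isMaxOn
    ⟨(0, 0), ⟨by norm_num, by simp⟩⟩ cm
  have hmax' : ∀ t ∈ Icc (-1 : ℝ) 0, ∀ z : C2, ‖z‖ ≤ 1 →
      d (t, z) * mu (f t) z ≤ d (t₀, z₀) * mu (f t₀) z₀ := fun t ht z hz =>
    hmax (a := (t, z)) ⟨ht, by simpa using hz⟩
  have ht₀ : t₀ ∈ Icc (-1 : ℝ) 0 := hp.1
  have hz₀ : ‖z₀‖ ≤ 1 := by simpa using hp.2
  have main : d (t₀, z₀) * mu (f t₀) z₀ ≤ 2 := by
    by_contra hcon
    push Not at hcon
    set d₀ := d (t₀, z₀) with hd₀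
    set m₀ := mu (f t₀) z₀ with hm₀
    have d1 : d₀ ≤ t₀ + 1 := min_le_left _ _
    have d2 : d₀ ≤ 1 - ‖z₀‖ := min_le_right _ _
    have d3 : d₀ ≤ 1 := by linarith [ht₀.2]
    have m0 : 0 ≤ m₀ := mu_nonneg _ _
    have m1 : 0 < m₀ := by
      rcases m0.eq_or_lt with h | h
      · rw [← h] at hcon; norm_num at hcon
      · exact h
    have d4 : 0 < d₀ := by
      by_contra h
      push Not at h
      nlinarith
    set lam := m₀⁻¹ with hlam
    have l0 : 0 < lam := inv_pos.2 m1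
    have l1 : lam * m₀ = 1 := inv_mul_cancel₀ m1.ne'
    have l2 : lam ≤ d₀ / 2 := by nlinarith
    have l3 : lam ^ 4 ≤ lam := pow_le_of_le_one l0.le (by linarith) (by norm_num)
    have l4 : 0 < lam ^ 4 := by positivity
    have tm : ∀ s ∈ Icc (-1 : ℝ) 0, t₀ + lam ^ 4 * s ∈ Icc (-1 : ℝ) 0 ∧
        d₀ / 2 ≤ t₀ + lam ^ 4 * s + 1 := fun s hs => by
      have h1 : -(lam ^ 4) ≤ lam ^ 4 * s := by nlinarith [hs.1]
      have h2 : lam ^ 4 * s ≤ 0 := by nlinarith [hs.2]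
      exact ⟨⟨by linarith, by linarith [ht₀.2]⟩, by linarith⟩
    have sp : ∀ y ∈ Metric.ball (0 : C2) 1, d₀ / 2 ≤ 1 - ‖z₀ + lam • y‖ := fun y hy => by
      have h1 : ‖y‖ < 1 := by simpa using hy
      have h2 := norm_add_le z₀ (lam • y)
      rw [norm_smul, Real.norm_of_nonneg l0.le] at h2
      nlinarith
    have hG : NFlow (Icc (-1) 0) (rs t₀ z₀ lam f) := hF.rs l0 fun s hs => (tm s hs).1
    have h3 := hc _ hG fun s hs y hy => by
      have sm := hF.cl.sm _ (tm s hs).1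
      have hn : ‖z₀ + lam • y‖ ≤ 1 := by linarith [sp y hy]
      have hE : ∀ a, |Ee a (rs t₀ z₀ lam f s) y - I0 a| ≤ δ := fun a => by
        rw [Ee_rs l0 sm]
        exact hb _ (tm s hs).1 _ hn a
      refine ⟨hE, fun j hj => ?_⟩
      rcases Nat.eq_zero_or_pos j with rfl | h1
      · exact (NN_zero_le fun a => (hE a).trans hδ1).trans (by norm_num)
      · rw [NN_rs l0 sm]
        have h4 := hmax' _ (tm s hs).1 _ hn
        have h5 : d₀ / 2 ≤ d (t₀ + lam ^ 4 * s, z₀ + lam • y) := le_min (tm s hs).2 (sp y hy)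
        have h6 := mu_nonneg (f (t₀ + lam ^ 4 * s)) (z₀ + lam • y)
        set m := mu (f (t₀ + lam ^ 4 * s)) (z₀ + lam • y)
        have h7 : m ≤ 2 * m₀ := by
          have : d₀ / 2 * m ≤ d₀ * m₀ := (mul_le_mul_of_nonneg_right h5 h6).trans h4
          nlinarith
        have h8 : lam * m ≤ 2 := by nlinarith
        calc lam ^ (2 * j) * NN j (f (t₀ + lam ^ 4 * s)) (z₀ + lam • y)
            ≤ lam ^ (2 * j) * m ^ (2 * j) :=
              mul_le_mul_of_nonneg_left (NN_le_mu _ _ h1 hj) (by positivity)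
          _ = (lam * m) ^ (2 * j) := (mul_pow _ _ _).symm
          _ ≤ 2 ^ (2 * j) := pow_le_pow_left₀ (by positivity) h8 _
          _ ≤ 2 ^ 12 := pow_le_pow_right₀ (by norm_num) (by omega)
    have h4 := mu_le (f t₀) z₀ l0 fun j h1 h6 => by
      have := h3 j h1 h6
      rw [NN_rs l0 (hF.cl.sm _ (tm 0 (by norm_num)).1)] at this
      simpa using this
    linarith
  intro t ht z hz j hj
  have hz' : ‖z‖ < 1 / 2 := by simpa using hz
  have ht' : t ∈ Icc (-1 : ℝ) 0 := ⟨by linarith [ht.1], ht.2⟩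
  rcases Nat.eq_zero_or_pos j with rfl | h1
  · exact (NN_zero_le fun a => (hb t ht' z (by linarith) a).trans hδ1).trans (by norm_num)
  · have h4 := (hmax' t ht' z (by linarith)).trans main
    have h5 : 1 / 2 ≤ d (t, z) := le_min (by linarith [ht.1]) (by linarith)
    have h6 := mu_nonneg (f t) z
    have h7 : mu (f t) z ≤ 4 := by nlinarith
    calc NN j (f t) z ≤ mu (f t) z ^ (2 * j) := NN_le_mu _ _ h1 hj
      _ ≤ 4 ^ (2 * j) := pow_le_pow_left₀ h6 h7 _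
      _ ≤ 4 ^ 12 := pow_le_pow_right₀ (by norm_num) (by omega)

end Pool.Agent.P.MP_2cea5e_gt.II
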