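import Pool.Agent.P.MP_2cea5e_gt.II.EN

/-!
Chapter II: one level of the linear energy estimate.
-/

open scoped ContDiff ComplexOrder Matrix Topology
open MeasureTheory Set Filter

noncomputable section

namespace Pool.Agent.P.MP_2cea5e_gt.II

theorem stepL_cut {η h : C2 → ℝ} {r R M : ℝ} (hη : Cut η R M) (h1 : ∀ z, ‖z‖ ≤ r → η z = 1)
    (hR : r ≤ R) (n : ℕ) (hh : Continuous h) (h0 : ∀ z, 0 ≤ h z) :
    bi r h ≤ bi R (fun z => η z ^ n * h z) ∧ bi R (fun z => η z ^ n * h z) ≤ bi R h := by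
  have hc : Continuous fun z => η z ^ n * h z := (hη.sm.cont.pow n).mul hh
  constructor
  · rw [bi_congr (k := fun z => η z ^ n * h z) fun z hz => by
      rw [h1 z (mem_ball_zero_iff.1 hz).le, one_pow, one_mul]]
    exact bi_mono_rad hc hR fun z _ => mul_nonneg (pow_nonneg (hη.nn z) n) (h0 z)
  · exact bi_mono hc hh fun z _ => mul_le_of_le_one_left (h0 z) (pow_le_one₀ (hη.nn z) (hη.le z))

theorem stepL_young {e v ρ g A : ℝ} (hA : 0 < A) (he0 : 0 ≤ e) (he1 : e ≤ 1) (hρ : |ρ| ≤ g) :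
    e * v * ρ ≤ g / (4 * A) * (e * v ^ 2) + g * A := by
  have hg : 0 ≤ g := (abs_nonneg _).trans hρ
  have h1 : v * ρ ≤ |v| * g := by
    refine (le_abs_self _).trans ?_
    rw [abs_mul]
    exact mul_le_mul_of_nonneg_left hρ (abs_nonneg v)
  have h2 : |v| ≤ v ^ 2 / (4 * A) + A := by
    rw [div_add' _ _ _ (by positivity), le_div_iff₀ (by positivity), ← sq_abs v]
    nlinarith [sq_nonneg (|v| - 2 * A)]
  have h3 : e * (v * ρ) ≤ e * ((v ^ 2 / (4 * A) + A) * g) :=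
    mul_le_mul_of_nonneg_left (h1.trans (mul_le_mul_of_nonneg_right h2 hg)) he0
  have h4 : e * (g * A) ≤ g * A := mul_le_of_le_one_left (by positivity) he1
  have e1 : e * ((v ^ 2 / (4 * A) + A) * g) = g / (4 * A) * (e * v ^ 2) + e * (g * A) := by ring
  linarith [mul_assoc e v ρ]

theorem step_lin (r R t₀ t₁ T : ℝ) (hr : 0 < r) (hR : r < R) (h0 : t₀ < t₁) (h1 : t₁ ≤ T) :
    ∃ C : ℝ, 0 ≤ C ∧ ∀ (v vt : ℝ → C2 → ℝ) (g : ℝ → ℝ) (A : ℝ), 0 < A →
      Cl (Icc t₀ T) v → JC (Icc t₀ T) vt → IsInt (Icc t₀ T) v vt →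
      ContinuousOn g (Icc t₀ T) → ∫ t in t₀..T, g t ≤ A →
      (∀ t ∈ Icc t₀ T, ∀ z ∈ Metric.ball (0 : C2) R, |vt t z + lap (lap (v t)) z| ≤ g t) →
      ∫ t in t₀..T, bi R (fun z => v t z ^ 2) ≤ A ^ 2 →
      (∀ t ∈ Icc t₁ T, bi r (fun z => v t z ^ 2) ≤ C * A ^ 2) ∧
        ∫ t in t₁..T, bi r (ns 1 (v t)) ≤ C * A ^ 2 := by
  obtain ⟨η, M, hη, hη1⟩ := exists_cut hr hR
  obtain ⟨C₁, hC₁, hen⟩ := en
  have hd : 0 < t₁ - t₀ := sub_pos.2 h0
  have hvb := vb_nonneg R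
  set K : ℝ := 1 / (t₁ - t₀) + C₁ * M ^ 4 + 2 * vb R with hK
  have hK0 : 0 ≤ K := by positivity
  refine ⟨2 * K + (4 + 16 * M ^ 2), by positivity, fun v vt g A hA hv hvt hI hg hgA hb hZ => ?_⟩
  have hT : t₀ ≤ T := h0.le.trans h1
  have hjv := cl_jc hv
  have jη : ∀ n : ℕ, JC (Icc t₀ T) fun _ z => η z ^ n := fun n => jc_const (hη.sm.cont.pow n)
  have jE : JC (Icc t₀ T) fun t z => η z ^ 4 * v t z ^ 2 := (jη 4).mul (hjv.pow 2)
  have jX : JC (Icc t₀ T) fun t z => η z ^ 4 * ns 2 (v t) z := (jη 4).mul (jc_ns 2 hv)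
  have jρ : JC (Icc t₀ T) fun t z => vt t z + lap (lap (v t)) z :=
    hvt.add (cl_jc (cl_lap (cl_lap hv)))
  have jW : JC (Icc t₀ T) fun t z => η z ^ 4 * v t z * (vt t z + lap (lap (v t)) z) :=
    ((jη 4).mul hjv).mul jρ
  have cE := bi_cont jE R
  have cX := bi_cont jX R
  have cZ := bi_cont (hjv.pow 2) R
  have g0 : ∀ t ∈ Icc t₀ T, 0 ≤ g t := fun t ht =>
    (abs_nonneg _).trans (hb t ht 0 (Metric.mem_ball_self (hr.trans hR)))
  have Z0 : ∀ t ∈ Icc t₀ T, 0 ≤ bi R fun z => v t z ^ 2 := fun t _ =>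
    bi_nonneg fun z _ => sq_nonneg _
  have E0 : ∀ t, 0 ≤ bi R fun z => η z ^ 4 * v t z ^ 2 := fun t =>
    bi_nonneg fun z _ => by positivity
  have X0 : ∀ t ∈ Icc t₀ T, 0 ≤ bi R fun z => η z ^ 4 * ns 2 (v t) z := fun t _ =>
    bi_nonneg fun z _ => mul_nonneg (by positivity) (ns_nonneg _ _ _)
  have cut2 : ∀ t ∈ Icc t₀ T, _ := fun t ht =>
    stepL_cut hη hη1 hR.le 4 ((hjv.pow 2).space ht) fun z => sq_nonneg (v t z)
  have hsub : Icc t₀ t₁ ⊆ Icc t₀ T := Icc_subset_Icc_right h1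
  obtain ⟨s, hs, hEs⟩ := exists_le_mean h0 (cE.mono hsub)
  have hEs' : bi R (fun z => η z ^ 4 * v s z ^ 2) ≤ 1 / (t₁ - t₀) * A ^ 2 := by
    have a1 : ∫ t in t₀..t₁, bi R (fun z => η z ^ 4 * v t z ^ 2) ≤
        ∫ t in t₀..t₁, bi R (fun z => v t z ^ 2) :=
      intervalIntegral.integral_mono_on h0.le ((cE.mono hsub).intervalIntegrable_of_Icc h0.le)
        ((cZ.mono hsub).intervalIntegrable_of_Icc h0.le) fun t ht => (cut2 t (hsub ht)).2
    have a2 := int_mono_interval cZ Z0 le_rfl h0.le h1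
    rw [one_div, ← div_eq_inv_mul, le_div_iff₀ hd]
    linarith
  have hsT : s ≤ T := hs.2.trans h1
  have hsub2 : Icc s T ⊆ Icc t₀ T := Icc_subset_Icc_left hs.1
  obtain ⟨m, hm, hmax⟩ := isCompact_Icc.exists_isMaxOn (nonempty_Icc.2 hsT) (cE.mono hsub2)
  set μ := bi R fun z => η z ^ 4 * v m z ^ 2 with hμ
  have hμ0 : 0 ≤ μ := E0 m
  have key : ∀ t ∈ Icc s T, bi R (fun z => η z ^ 4 * v t z ^ 2) +
      ∫ τ in s..t, bi R (fun z => η z ^ 4 * ns 2 (v τ) z) ≤ K * A ^ 2 + μ / 2 := by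
    intro t ht
    have hst : Icc s t ⊆ Icc t₀ T := Icc_subset_Icc hs.1 ht.2
    have a1 := hen η R M s t v vt (fun τ z => vt τ z + lap (lap (v τ)) z) (fun _ _ _ _ => 0) hη
      ht.1 (cl_mono hv hst) (hvt.mono hst) (jρ.mono hst) (fun _ _ => cl_const (sm_const 0))
      (hI.mono hst) (fun τ _ z _ => by simp [pd_const])
    have a2 : (∫ _ in s..t, bi R fun z => η z ^ 4 * ∑ _p : Fin 4, ∑ _q : Fin 4, (0 : ℝ) ^ 2) =
        0 := by simp [bi]
    rw [a2] at a1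
    have a3 := (int_mono_interval cZ Z0 hs.1 ht.1 ht.2).trans hZ
    have a4 : ∫ τ in s..t, bi R (fun z => η z ^ 4 * v τ z * (vt τ z + lap (lap (v τ)) z)) ≤
        ∫ τ in s..t, (μ / (4 * A) + A * vb R) * g τ := by
      refine intervalIntegral.integral_mono_on ht.1
        (((bi_cont jW R).mono hst).intervalIntegrable_of_Icc ht.1)
        (((hg.mono hst).intervalIntegrable_of_Icc ht.1).const_mul _) fun τ hτ => ?_
      have hτ' := hst hτ
      have b1 : bi R (fun z => η z ^ 4 * v τ z * (vt τ z + lap (lap (v τ)) z)) ≤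
          bi R (fun z => g τ / (4 * A) * (η z ^ 4 * v τ z ^ 2) + g τ * A) :=
        bi_mono (jW.space hτ') ((continuous_const.mul (jE.space hτ')).add continuous_const)
          fun z hz => stepL_young hA (by positivity) (pow_le_one₀ (hη.nn z) (hη.le z))
            (hb τ hτ' z hz)
      rw [bi_add (h := fun z => g τ / (4 * A) * (η z ^ 4 * v τ z ^ 2))
        (continuous_const.mul (jE.space hτ')) continuous_const, bi_cmul, bi_const] at b1
      have b2 : bi R (fun z => η z ^ 4 * v τ z ^ 2) ≤ μ := hmax ⟨hτ.1, hτ.2.trans ht.2⟩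
      have b3 := mul_le_mul_of_nonneg_left b2 (div_nonneg (g0 τ hτ') (by positivity : 0 ≤ 4 * A))
      have e1 : (μ / (4 * A) + A * vb R) * g τ = g τ / (4 * A) * μ + g τ * A * vb R := by ring
      linarith
    rw [intervalIntegral.integral_const_mul] at a4
    have a5 := mul_le_mul_of_nonneg_left ((int_mono_interval hg g0 hs.1 ht.1 ht.2).trans hgA)
      (by positivity : 0 ≤ μ / (4 * A) + A * vb R)
    have e2 : (μ / (4 * A) + A * vb R) * A = μ / 4 + vb R * A ^ 2 := by field_simp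
    have a6 := mul_le_mul_of_nonneg_left a3 (by have := hη.pos; positivity : 0 ≤ C₁ * M ^ 4)
    have e3 : K * A ^ 2 = 1 / (t₁ - t₀) * A ^ 2 + C₁ * M ^ 4 * A ^ 2 + 2 * (vb R * A ^ 2) := by
      rw [hK]; ring
    linarith
  have hXs : ∀ t ∈ Icc s T, 0 ≤ ∫ τ in s..t, bi R (fun z => η z ^ 4 * ns 2 (v τ) z) :=
    fun t ht => intervalIntegral.integral_nonneg ht.1 fun τ hτ =>
      X0 τ ⟨hs.1.trans hτ.1, hτ.2.trans ht.2⟩
  have hμK : μ ≤ 2 * K * A ^ 2 := by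
    have := key m hm
    have := hXs m hm
    linarith
  have hM : 0 ≤ (4 + 16 * M ^ 2) * A ^ 2 := by positivity
  have hsub3 : Icc t₁ T ⊆ Icc t₀ T := Icc_subset_Icc_left h0.le
  refine ⟨fun t ht => ?_, ?_⟩
  · have b1 := (cut2 t (hsub3 ht)).1
    have b2 : bi R (fun z => η z ^ 4 * v t z ^ 2) ≤ μ := hmax ⟨hs.2.trans ht.1, ht.2⟩
    linarith
  · have b1 : ∫ t in t₁..T, bi r (ns 1 (v t)) ≤
        ∫ t in t₁..T, (bi R (fun z => η z ^ 4 * ns 2 (v t) z) +
          (4 + 16 * M ^ 2) * bi R fun z => v t z ^ 2) := by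
      refine intervalIntegral.integral_mono_on h1
        (((bi_cont (jc_ns 1 hv) r).mono hsub3).intervalIntegrable_of_Icc h1)
        (((cX.mono hsub3).intervalIntegrable_of_Icc h1).add
          (((cZ.mono hsub3).intervalIntegrable_of_Icc h1).const_mul _)) fun t ht => ?_
      have c1 := (stepL_cut hη hη1 hR.le 2 ((jc_ns 1 hv).space (hsub3 ht))
        (ns_nonneg 1 (v t))).1
      have c2 := en_interp hη (hv.sm t (hsub3 ht)) one_pos
      rw [one_mul, div_one] at c2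
      exact c1.trans c2
    rw [intervalIntegral.integral_add ((cX.mono hsub3).intervalIntegrable_of_Icc h1)
      (((cZ.mono hsub3).intervalIntegrable_of_Icc h1).const_mul _),
      intervalIntegral.integral_const_mul] at b1
    have b2 := int_mono_interval (cX.mono hsub2) (fun τ hτ => X0 τ (hsub2 hτ)) hs.2 h1 le_rfl
    have b3 := key T ⟨hsT, le_rfl⟩
    have b4 := E0 T
    have b5 := mul_le_mul_of_nonneg_left ((int_mono_interval cZ Z0 h0.le h1 le_rfl).trans hZ)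
      (by positivity : 0 ≤ 4 + 16 * M ^ 2)
    linarith

end Pool.Agent.P.MP_2cea5e_gt.II
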